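import Mathlib.Geometry.Manifold.PartitionOfUnity
import Pool.Agent.MP_e1dc65_gt.Spec0

/-! PROJECT HC, row BUMP: cut-off functions, partitions of unity, smooth vector fields. -/

open scoped ContDiff Manifold Topology
open Set Filter Function

noncomputable section

namespace Pool.Agent.MP_e1dc65_gt

section Fn
variable {E F G : Type} [NormedAddCommGroup E] [NormedSpace ℝ E]
  [NormedAddCommGroup F] [NormedSpace ℝ F] [FiniteDimensional ℝ F]
  [NormedAddCommGroup G] [NormedSpace ℝ G] [FiniteDimensional ℝ G]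
  {X : Mf E} {x : X} {f g : X → F}

/-! ### Algebra of smooth vector-valued functions -/

theorem SmAt.vadd (hf : SmAt X (vs F) f x) (hg : SmAt X (vs F) g x) :
    SmAt X (vs F) (fun y => f y + g y) x := ContMDiffAt.add hf hg
theorem SmAt.vneg (hf : SmAt X (vs F) f x) : SmAt X (vs F) (fun y => -f y) x :=
  hf.vcomp contDiffAt_id.neg
theorem SmAt.vsub (hf : SmAt X (vs F) f x) (hg : SmAt X (vs F) g x) :
    SmAt X (vs F) (fun y => f y - g y) x := by
  simpa only [sub_eq_add_neg] using hf.vadd hg.vneg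
theorem SmAt.vsmul {a : X → ℝ} (ha : SmAt X (vs ℝ) a x) (hf : SmAt X (vs F) f x) :
    SmAt X (vs F) (fun y => a y • f y) x :=
  (ha.vpair hf).vcomp (g := fun p : ℝ × F => p.1 • p.2) (contDiffAt_fst.smul contDiffAt_snd)
theorem SmAt.vmul {a b : X → ℝ} (ha : SmAt X (vs ℝ) a x) (hb : SmAt X (vs ℝ) b x) :
    SmAt X (vs ℝ) (fun y => a y * b y) x := ha.vsmul hb
theorem SmAt.vinv {a : X → ℝ} (ha : SmAt X (vs ℝ) a x) (h : a x ≠ 0) :
    SmAt X (vs ℝ) (fun y => (a y)⁻¹) x := ha.vcomp (contDiffAt_id.inv h)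
theorem SmAt.vsum {ι : Type*} {s : Finset ι} {f : ι → X → F}
    (h : ∀ i ∈ s, SmAt X (vs F) (f i) x) : SmAt X (vs F) (fun y => ∑ i ∈ s, f i y) x :=
  ContMDiffAt.sum h
theorem SmAt.vapp {A : X → F →L[ℝ] G} (hA : SmAt X (vs (F →L[ℝ] G)) A x)
    (hf : SmAt X (vs F) f x) : SmAt X (vs G) (fun y => A y (f y)) x := ContMDiffAt.clm_apply hA hf
theorem SmAt.vfst {f : X → F × G} (h : SmAt X (vs (F × G)) f x) :
    SmAt X (vs F) (fun y => (f y).1) x := h.vcomp contDiffAt_fst
theorem SmAt.vsnd {f : X → F × G} (h : SmAt X (vs (F × G)) f x) :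
    SmAt X (vs G) (fun y => (f y).2) x := h.vcomp contDiffAt_snd

/-- a locally finite sum of smooth functions -/
theorem SmAt.vfinsum {ι : Type*} {f : ι → X → F} {O : Set X} {s : Finset ι} (hO : O ∈ 𝓝 x)
    (h0 : ∀ i ∉ s, ∀ y ∈ O, f i y = 0) (h : ∀ i ∈ s, SmAt X (vs F) (f i) x) :
    SmAt X (vs F) (fun y => ∑ᶠ i, f i y) x := by
  refine (SmAt.vsum h).congr' ?_
  filter_upwards [hO] with y hy
  exact finsum_eq_sum_of_support_subset _ fun i hi => by_contra fun h => hi (h0 i h y hy)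

/-- a cut-off times a function that is smooth on the support of the cut-off -/
theorem smAt_cut {a : X → ℝ} (ha : SmAt X (vs ℝ) a x)
    (hf : x ∈ tsupport a → SmAt X (vs F) f x) : SmAt X (vs F) (fun y => a y • f y) x := by
  by_cases h : x ∈ tsupport a
  · exact ha.vsmul (hf h)
  · refine (smAt_const (Y := vs F) 0).congr' ?_
    filter_upwards [notMem_tsupport_iff_eventuallyEq.1 h] with y hy
    simp [hy]

theorem Df_vpair {g : X → G} (hf : SmAt X (vs F) f x) (hg : SmAt X (vs G) g x) :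
    Df X (vs (F × G)) (fun y => (f y, g y)) x = (Df X (vs F) f x).prod (Df X (vs G) g x) := by
  have h1 := Df_vcomp (hf.vpair hg) (g := Prod.fst) contDiffAt_fst
  have h2 := Df_vcomp (hf.vpair hg) (g := Prod.snd) contDiffAt_snd
  rw [fderiv_fst] at h1
  rw [fderiv_snd] at h2
  ext1 u
  exact Prod.ext (congrArg (fun L => L u) h1).symm (congrArg (fun L => L u) h2).symm

theorem Df_vadd (hf : SmAt X (vs F) f x) (hg : SmAt X (vs F) g x) :
    Df X (vs F) (fun y => f y + g y) x = Df X (vs F) f x + Df X (vs F) g x :=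
  (hf.md.hasMFDerivAt.add hg.md.hasMFDerivAt).mfderiv

theorem Df_clm (L : F →L[ℝ] G) (hf : SmAt X (vs F) f x) :
    Df X (vs G) (fun y => L (f y)) x = L.comp (Df X (vs F) f x) := by
  rw [Df_vcomp hf L.contDiff.contDiffAt, L.fderiv]

theorem Df_vsmul {a : X → ℝ} (ha : SmAt X (vs ℝ) a x) (hf : SmAt X (vs F) f x) (u : E) :
    Df X (vs F) (fun y => a y • f y) x u =
      a x • Df X (vs F) f x u + Df X (vs ℝ) a x u • f x := by
  have h := Df_vcomp (ha.vpair hf) (g := fun p : ℝ × F => p.1 • p.2)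
    (contDiffAt_fst.smul contDiffAt_snd)
  rw [Df_vpair ha hf, (hasFDerivAt_fst.fun_smul hasFDerivAt_snd).fderiv] at h
  simpa using congrArg (fun L => L u) h

end Fn

section Vf
variable {E E' F G : Type} [NormedAddCommGroup E] [NormedSpace ℝ E]
  [NormedAddCommGroup E'] [NormedSpace ℝ E']
  [NormedAddCommGroup F] [NormedSpace ℝ F] [FiniteDimensional ℝ F]
  [NormedAddCommGroup G] [NormedSpace ℝ G] [FiniteDimensional ℝ G]
  {X : Mf E} {Y : Mf E'} {x : X} {v w : X → E}

/-- a map that is smooth at a point is differentiable near it -/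
theorem SmAt.ev_mdiff {f : X → Y} (h : SmAt X Y f x) :
    ∀ᶠ y in 𝓝 x, MDifferentiableAt 𝓘(ℝ, E) 𝓘(ℝ, E') f y :=
  ((contMDiffAt_iff_contMDiffAt_nhds (n := 1) (by simp)).1 (h.of_le (by simp))).mono
    fun _ h => h.mdifferentiableAt (by simp)

theorem SmAt.Df_chain {φ : X → F} {k : F → G} {f : X → G} (hφ : SmAt X (vs F) φ x)
    (hk : ContDiffAt ℝ ∞ k (φ x)) (hv : SmAt X (vs F) (fun y => Df X (vs F) φ y (v y)) x)
    (e : f =ᶠ[𝓝 x] fun y => k (φ y)) : SmAt X (vs G) (fun y => Df X (vs G) f y (v y)) x := by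
  have h1 : SmAt X (vs (F →L[ℝ] G)) (fun y => fderiv ℝ k (φ y)) x :=
    hφ.vcomp (hk.fderiv_right (by simp))
  refine (h1.vapp hv).congr' ?_
  filter_upwards [e.eventuallyEq_nhds, hφ.ev_mdiff,
    hφ.cont.eventually (SmAt.ev_mdiff (X := vs F) (Y := vs G) (smAt_vs.2 hk))] with y h2 h3 h4
  have h5 : Df X (vs G) (fun y => k (φ y)) y = (Df (vs F) (vs G) k (φ y)).comp (Df X (vs F) φ y) :=
    mfderiv_comp y h4 h3
  rw [Df_congr h2, h5, Df_vs]
  rfl

variable [FiniteDimensional ℝ E] [FiniteDimensional ℝ E']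

/-! ### Smooth vector fields -/

theorem vfAt_iff : VfAt X v x ↔ SmAt X (vs E) (fun y => Df X (vs E) (ch X x) y (v y)) x := by
  have hx := mem_chart_source E x
  have e0 : (ch X x).symm (ch X x x) = x := (ch X x).left_inv hx
  have a1 : LDAt (vs E) X (ch X x).symm (ch X x x) := ldAt_ch_symm ((ch X x).map_source hx)
  constructor
  · intro h
    have := a1.sm_of_comp (Z := vs E) (g := fun y => Df X (vs E) (ch X x) y (v y)) (smAt_vs.2 h)
    rwa [e0] at this
  · intro h
    exact smAt_vs.1 (a1.sm.trans (Z := vs E) (g := fun y => Df X (vs E) (ch X x) y (v y))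
      (by rwa [e0]))

/-- the derivative of a smooth function along a smooth field is smooth -/
theorem VfAt.app {f : X → F} (hv : VfAt X v x) (hf : SmAt X (vs F) f x) :
    SmAt X (vs F) (fun y => Df X (vs F) f y (v y)) x := by
  have hx := mem_chart_source E x
  have e0 : (ch X x).symm (ch X x x) = x := (ch X x).left_inv hx
  refine SmAt.Df_chain (k := fun z => f ((ch X x).symm z)) (smAt_ch hx)
    (smAt_vs.1 ((smAt_ch_symm ((ch X x).map_source hx)).trans (by rwa [e0]))) (vfAt_iff.1 hv) ?_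
  filter_upwards [(ch X x).open_source.mem_nhds hx] with y hy
  rw [(ch X x).left_inv hy]

/-- smoothness of a field can be read in any local coordinate system -/
theorem vfAt_iff_ld {φ : X → F} (hφ : LDAt X (vs F) φ x) :
    VfAt X v x ↔ SmAt X (vs F) (fun y => Df X (vs F) φ y (v y)) x := by
  refine ⟨fun h => h.app hφ.sm, fun h => vfAt_iff.2 ?_⟩
  obtain ⟨g, U, W, hU, -, hx, -, -, hg, m1, -, l, -⟩ := hφ.exists_inv univ_mem
  refine SmAt.Df_chain (k := fun z => ch X x (g z)) hφ.sm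
    (smAt_vs.1 ((hg _ (m1 hx)).trans (smAt_ch (by rw [l x hx]; exact mem_chart_source E x)))) h ?_
  filter_upwards [hU.mem_nhds hx] with y hy
  rw [l y hy]

theorem vfAt_iff_ch {z : X} (h : x ∈ (ch X z).source) :
    VfAt X v x ↔ SmAt X (vs E) (fun y => Df X (vs E) (ch X z) y (v y)) x := vfAt_iff_ld (ldAt_ch h)

theorem vfAt_vs {v : E → E} {x : E} : VfAt (vs E) v x ↔ ContDiffAt ℝ ∞ v x := by
  rw [vfAt_iff_ld (X := vs E) (F := E) ldAt_id, ← smAt_vs]
  simp only [Df_id (X := vs E), ContinuousLinearMap.id_apply]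

theorem VfAt.congr' (h : VfAt X v x) (e : w =ᶠ[𝓝 x] v) : VfAt X w x :=
  vfAt_iff.2 ((vfAt_iff.1 h).congr' (e.mono fun y hy => by simp only [hy]))

theorem vfAt_zero : VfAt X (fun _ => 0) x :=
  vfAt_iff.2 (by simpa only [map_zero] using smAt_const (Y := vs E) 0)

theorem vfAt_of_ev_zero (h : ∀ᶠ y in 𝓝 x, v y = 0) : VfAt X v x := vfAt_zero.congr' h

theorem VfAt.add (hv : VfAt X v x) (hw : VfAt X w x) : VfAt X (fun y => v y + w y) x :=
  vfAt_iff.2 (by simpa only [map_add] using (vfAt_iff.1 hv).vadd (vfAt_iff.1 hw))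

theorem VfAt.neg (hv : VfAt X v x) : VfAt X (fun y => -v y) x :=
  vfAt_iff.2 (by simpa only [map_neg] using (vfAt_iff.1 hv).vneg)

theorem VfAt.sub (hv : VfAt X v x) (hw : VfAt X w x) : VfAt X (fun y => v y - w y) x :=
  vfAt_iff.2 (by simpa only [map_sub] using (vfAt_iff.1 hv).vsub (vfAt_iff.1 hw))

theorem VfAt.smul {a : X → ℝ} (hv : VfAt X v x) (ha : SmAt X (vs ℝ) a x) :
    VfAt X (fun y => a y • v y) x :=
  vfAt_iff.2 (by simpa only [map_smul] using ha.vsmul (vfAt_iff.1 hv))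

theorem VfAt.const_smul (hv : VfAt X v x) (c : ℝ) : VfAt X (fun y => c • v y) x :=
  hv.smul (smAt_const (Y := vs ℝ) c)

theorem VfAt.sum {ι : Type*} {s : Finset ι} {v : ι → X → E} (h : ∀ i ∈ s, VfAt X (v i) x) :
    VfAt X (fun y => ∑ i ∈ s, v i y) x :=
  vfAt_iff.2 (by simpa only [map_sum] using SmAt.vsum fun i hi => vfAt_iff.1 (h i hi))

/-- a locally finite sum of smooth fields -/
theorem VfAt.finsum {ι : Type*} {v : ι → X → E} {O : Set X} {s : Finset ι} (hO : O ∈ 𝓝 x)
    (h0 : ∀ i ∉ s, ∀ y ∈ O, v i y = 0) (h : ∀ i ∈ s, VfAt X (v i) x) :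
    VfAt X (fun y => ∑ᶠ i, v i y) x := by
  refine (VfAt.sum h).congr' ?_
  filter_upwards [hO] with y hy
  exact finsum_eq_sum_of_support_subset _ fun i hi => by_contra fun h => hi (h0 i h y hy)

/-- a cut-off times a field that is smooth on the support of the cut-off -/
theorem vfAt_cut {a : X → ℝ} (ha : SmAt X (vs ℝ) a x) (hv : x ∈ tsupport a → VfAt X v x) :
    VfAt X (fun y => a y • v y) x := by
  by_cases h : x ∈ tsupport a
  · exact (hv h).smul ha
  · refine vfAt_of_ev_zero ?_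
    filter_upwards [notMem_tsupport_iff_eventuallyEq.1 h] with y hy
    simp [hy]

/-- fields that are related by a local diffeomorphism are smooth together -/
theorem LDAt.vfAt_iff {f : X → Y} {u : Y → E'} (hf : LDAt X Y f x)
    (e : ∀ᶠ y in 𝓝 x, Df X Y f y (v y) = u (f y)) : VfAt X v x ↔ VfAt Y u (f x) := by
  have hy := mem_chart_source E' (f x)
  have e1 : (fun y => Df X (vs E') (fun y => ch Y (f x) (f y)) y (v y)) =ᶠ[𝓝 x]
      fun y => Df Y (vs E') (ch Y (f x)) (f y) (u (f y)) := by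
    filter_upwards [e, hf.ev,
      hf.sm.cont.preimage_mem_nhds ((ch Y (f x)).open_source.mem_nhds hy)] with y h1 h2 h3
    rw [Df_comp h2.sm (smAt_ch h3), ← h1]
    rfl
  rw [vfAt_iff_ld (hf.trans (ldAt_ch hy)), Pool.Agent.MP_e1dc65_gt.vfAt_iff]
  exact ⟨fun h => hf.sm_of_comp (h.congr' e1.symm), fun h => (hf.sm.trans h).congr' e1⟩

/-- pull-back of a field by a local diffeomorphism -/
theorem VfAt.pull {f : X → Y} {u : Y → E'} (hu : VfAt Y u (f x)) (hf : LDAt X Y f x) :
    VfAt X (fun y => (Df X Y f y).inverse (u (f y))) x :=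
  (hf.vfAt_iff (hf.ev.mono fun _ h => h.inv.self_apply_inverse _)).2 hu

/-- push-forward of a field by an open embedding -/
theorem VfAt.push {f : X → Y} {U : Set X} (hv : VfAt X v x) (hf : OE X Y f U) (hx : x ∈ U) :
    VfAt Y (fun z => Df X Y f (invFunOn f U z) (v (invFunOn f U z))) (f x) := by
  refine ((hf.ld x hx).vfAt_iff ?_).1 hv
  filter_upwards [hf.op.mem_nhds hx] with y hy
  rw [hf.left hy]

/-- the field whose coordinates in a local coordinate system are a given smooth function -/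
theorem vfAt_coord {φ a : X → F} (hφ : LDAt X (vs F) φ x) (ha : SmAt X (vs F) a x) :
    VfAt X (fun y => (Df X (vs F) φ y).inverse (a y)) x :=
  (vfAt_iff_ld hφ).2 (ha.congr' (hφ.ev.mono fun _ h => h.inv.self_apply_inverse _))

/-- every tangent vector extends to a field that is smooth on the domain of the chart -/
theorem exists_vf (x : X) (u : E) :
    ∃ v : X → E, v x = u ∧ ∀ y ∈ (ch X x).source, VfAt X v y :=
  ⟨fun y => (Df X (vs E) (ch X x) y).inverse u, by simp [Df_ch_self],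
    fun _ hy => vfAt_coord (ldAt_ch hy) (smAt_const (Y := vs E) u)⟩

/-- fields on a product -/
theorem vfAt_prod_iff {u : X.prod Y → E × E'} {p : X.prod Y} : VfAt (X.prod Y) u p ↔
    SmAt (X.prod Y) (vs E) (fun q => Df X (vs E) (ch X p.1) q.1 (u q).1) p ∧
    SmAt (X.prod Y) (vs E') (fun q => Df Y (vs E') (ch Y p.2) q.2 (u q).2) p := by
  have e : (fun q => Df (X.prod Y) (vs (E × E')) (ch (X.prod Y) p) q (u q)) =ᶠ[𝓝 p] fun q =>
      (Df X (vs E) (ch X p.1) q.1 (u q).1, Df Y (vs E') (ch Y p.2) q.2 (u q).2) := by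
    filter_upwards [(ch (X.prod Y) p).open_source.mem_nhds
      ⟨mem_chart_source E p.1, mem_chart_source E' p.2⟩] with q hq
    have h := Df_vpair (X := X.prod Y) (x := q) (smAt_fst.trans (smAt_ch hq.1))
      (smAt_snd.trans (smAt_ch hq.2))
    rw [Df_comp smAt_fst (smAt_ch hq.1), Df_comp smAt_snd (smAt_ch hq.2), Df_fst, Df_snd] at h
    exact congrArg (fun L => L (u q)) h
  rw [vfAt_iff]
  exact ⟨fun h => ⟨(h.congr' e.symm).vfst, (h.congr' e.symm).vsnd⟩,
    fun h => (h.1.vpair h.2).congr' e⟩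

theorem VfAt.prod {u : Y → E'} {p : X.prod Y} (hv : VfAt X v p.1) (hu : VfAt Y u p.2) :
    VfAt (X.prod Y) (fun q => (v q.1, u q.2)) p :=
  vfAt_prod_iff.2 ⟨smAt_fst.trans (vfAt_iff.1 hv), smAt_snd.trans (vfAt_iff.1 hu)⟩

theorem VfAt.inl {p : X.prod Y} (hv : VfAt X v p.1) : VfAt (X.prod Y) (fun q => (v q.1, 0)) p :=
  hv.prod vfAt_zero

theorem VfAt.inr {u : Y → E'} {p : X.prod Y} (hu : VfAt Y u p.2) :
    VfAt (X.prod Y) (fun q => (0, u q.2)) p := vfAt_zero.prod hu

/-- vertical fields on the product with a vector space -/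
theorem vfAt_vert {a : X.prod (vs F) → F} {p : X.prod (vs F)}
    (ha : SmAt (X.prod (vs F)) (vs F) a p) : VfAt (X.prod (vs F)) (fun q => (0, a q)) p := by
  refine vfAt_prod_iff.2 ⟨by simpa only [map_zero] using smAt_const (Y := vs E) 0, ha.congr' ?_⟩
  exact Eventually.of_forall fun q => congrArg (fun L => L (a q)) (Df_id (X := vs F) (x := q.2))

theorem vfAt_dt {p : X.cyl} : VfAt X.cyl (fun _ => (0, 1)) p :=
  vfAt_vert (smAt_const (Y := vs ℝ) 1)

/-- the field `(v, 1)` on the cylinder -/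
theorem VfAt.cyl {p : X.cyl} (hv : VfAt X v p.1) : VfAt X.cyl (fun q => (v q.1, 1)) p :=
  hv.prod (Y := vs ℝ) (u := fun _ => 1) (vfAt_vs.2 contDiffAt_const)

/-- restriction of a field on a product to a slice -/
theorem VfAt.slice {u : X.prod Y → E × E'} {y : Y} (h : VfAt (X.prod Y) u (x, y)) :
    VfAt X (fun z => (u (z, y)).1) x :=
  vfAt_iff.2 ((smAt_id.pair (smAt_const y)).trans (vfAt_prod_iff.1 h).1)

end Vf

/-! ### Cut-off functions, partitions of unity, fields, injectivity -/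

theorem sigmaCompact_mf {E : Type} [NormedAddCommGroup E] [NormedSpace ℝ E] [FiniteDimensional ℝ E]
    (X : Mf E) : SigmaCompactSpace X := inferInstance

theorem bumpM : BumpMStmt := by
  intro E _ _ _ X
  classical
  constructor
  · intro K U hK hU hKU
    obtain ⟨T, hT, h1, h2, h3⟩ : ∃ T, IsClosed T ∧ K ⊆ interior T ∧ T ⊆ U ∧
        (IsCompact K → IsCompact T) := by
      by_cases hc : IsCompact K
      · obtain ⟨L, a, b, c⟩ := exists_compact_between hc hU hKU
        exact ⟨L, a.isClosed, b, c, fun _ => a⟩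
      · obtain ⟨V, a, b, c⟩ := normal_exists_closure_subset hK hU hKU
        exact ⟨closure V, isClosed_closure, b.trans (interior_maximal subset_closure a), c,
          fun h => absurd h hc⟩
    obtain ⟨f, f1, f0, fm⟩ :=
      exists_contMDiffMap_one_nhds_of_subset_interior (n := ⊤) 𝓘(ℝ, E) hK h1
    have hs : tsupport f ⊆ T := closure_minimal (fun y hy => by_contra fun h => hy (f0 y h)) hT
    exact ⟨f, sm_univ.2 f.contMDiff, fm, f1, hs.trans h2,
      fun h => (h3 h).of_isClosed_subset (isClosed_tsupport _) hs⟩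
  · intro ι U S hS hU hc
    rcases S.eq_empty_or_nonempty with rfl | hne
    · exact ⟨fun _ _ => 0, fun _ _ h => h.elim, fun _ _ => le_rfl, fun _ _ h => h.elim,
        fun _ h => h.elim, fun _ h => h.elim⟩
    have : SigmaCompactSpace (X.opens S hS hne) := sigmaCompact_mf _
    obtain ⟨f, hf⟩ := SmoothPartitionOfUnity.exists_isSubordinate (M := X.opens S hS hne) 𝓘(ℝ, E)
      isClosed_univ (fun i => Subtype.val ⁻¹' U i)
      (fun i => (hU i).preimage continuous_subtype_val) fun p _ => mem_iUnion.2 (hc p p.2)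
    let ρ : ι → X → ℝ := fun i y => if h : y ∈ S then f i ⟨y, h⟩ else 0
    have hρ : ∀ i (p : X.opens S hS hne), ρ i p.1 = f i p := fun i p => dif_pos p.2
    have ld : ∀ p : X.opens S hS hne, LDAt (X.opens S hS hne) X Subtype.val p := fun _ => ldAt_val
    refine ⟨ρ, fun i y hy => ?_, fun i y => ?_, fun i y hy h => ?_, fun y hy => ?_, fun y hy => ?_⟩
    · refine (ld ⟨y, hy⟩).sm_of_comp (Z := vs ℝ) (g := ρ i) ?_
      simp only [hρ]
      exact (f i).contMDiff _
    · by_cases h : y ∈ S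
      · rw [hρ i ⟨y, h⟩]; exact f.nonneg _ _
      · have h0 : ρ i y = 0 := dif_neg h
        exact h0.ge
    · have h1 : (⟨y, hy⟩ : X.opens S hS hne) ∉ tsupport (f i) := fun h' => h (hf i h')
      have h2 := (ld ⟨y, hy⟩).map_nhds
      simp only at h2
      rw [← h2, EventuallyEq, eventually_map]
      filter_upwards [notMem_tsupport_iff_eventuallyEq.1 h1] with p hp
      rw [hρ]; exact hp
    · obtain ⟨O, hO, hfin⟩ := f.locallyFinite ⟨y, hy⟩
      refine ⟨Subtype.val '' O, hfin.toFinset, (ld ⟨y, hy⟩).image_mem hO, ?_⟩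
      rintro i hi _ ⟨p, hp, rfl⟩
      rw [hρ]
      exact by_contra fun h => hi (hfin.mem_toFinset.2 ⟨p, h, hp⟩)
    · simp only [fun i => hρ i ⟨y, hy⟩]
      exact f.sum_eq_one trivial

theorem field : FieldStmt := by
  intro E _ _ _ X S C hS hC hl
  choose! O w hO hw using hl
  obtain ⟨ρ, r1, r2, r3, r4, r5⟩ := (bumpM E X).2 S (fun i => interior (O i)) S hS
    (fun _ => isOpen_interior) fun x hx => ⟨⟨x, hx⟩, mem_interior_iff_mem_nhds.2 (hO x hx)⟩
  refine ⟨fun y => ∑ᶠ i : S, ρ i y • w i y, fun x hx => ⟨?_, ?_⟩⟩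
  · obtain ⟨V, s, hV, hs⟩ := r4 x hx
    refine VfAt.finsum (s := s) hV (fun i hi y hy => by rw [hs i hi y hy, zero_smul]) fun i _ => ?_
    by_cases h : x ∈ interior (O i)
    · exact (hw i i.2 x (interior_subset h)).1.smul (r1 i x hx)
    · exact vfAt_of_ev_zero ((r3 i x hx h).mono fun y hy => by rw [hy, Pi.zero_apply, zero_smul])
  · refine (hC x hx).finsum_mem (fun i => r2 i x) (r5 x hx) fun i hi => ?_
    exact (hw i i.2 x (interior_subset (by_contra fun h => hi (r3 i x hx h).eq_of_nhds))).2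

theorem injNear : InjStmt := by
  intro E E' _ _ _ _ _ _ X Y f K hK hl hi
  obtain ⟨U, hU, hKU, hf⟩ := hi.exists_isOpen_superset hK (fun x hx => (hl x hx).sm.cont)
    fun x hx => by
      obtain ⟨g, V, W, hV, -, hxV, -, -, -, -, -, l, -⟩ := (hl x hx).exists_inv univ_mem
      exact ⟨V, hV.mem_nhds hxV, LeftInvOn.injOn l⟩
  exact ⟨U ∩ {x | LDAt X Y f x}, fun x hx => ⟨hKU hx, hl x hx⟩,
    hU.inter (isOpen_iff_mem_nhds.2 fun _ h => LDAt.ev h), fun _ h => h.2, hf.mono inter_subset_left⟩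

end Pool.Agent.MP_e1dc65_gt
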