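import Pool.Agent.MP_e1dc65_gt.Top
import Mathlib.Topology.Covering.Quotient

/-! PROJECT HC, toolkit: constructors of manifolds (charts, pull-back along a local homeomorphism,
change of model, push-forward, etale quotients, free quotients, disjoint unions). -/

open scoped ContDiff Manifold Topology
open Set Filter Function Topology

noncomputable section

namespace Pool.Agent.MP_e1dc65_gt

variable {E E' E'' : Type} [NormedAddCommGroup E] [NormedSpace ℝ E] [NormedAddCommGroup E']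
  [NormedSpace ℝ E'] [NormedAddCommGroup E''] [NormedSpace ℝ E'']

/-- a manifold from a family of charts with smooth transition maps -/
abbrev Mf.ofCharts (T : Type) [TopologicalSpace T] [T2Space T] [SecondCountableTopology T]
    [Nonempty T] (c : T → OpenPartialHomeomorph T E) (hc : ∀ x, x ∈ (c x).source)
    (hs : ∀ x y z, z ∈ (c x).source → z ∈ (c y).source →
      ContDiffAt ℝ ∞ (fun w => c y ((c x).symm w)) (c x z)) : Mf E :=
  { carrier := T
    chart := ⟨range c, c, hc, fun x => ⟨x, rfl⟩⟩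
    smooth := by
      let _ : ChartedSpace E T := ⟨range c, c, hc, fun x => ⟨x, rfl⟩⟩
      refine isManifold_of_contDiffOn _ _ _ ?_
      rintro _ _ ⟨x, rfl⟩ ⟨y, rfl⟩ w ⟨hw, -⟩
      have h := hs x y ((c x).symm w) ((c x).map_target hw.1) hw.2
      rw [(c x).right_inv (show w ∈ (c x).target from hw.1)] at h
      exact h.contDiffWithinAt }

theorem mem_ch (X : Mf E) (x : X) : x ∈ (ch X x).source := mem_chart_source E x

variable [FiniteDimensional ℝ E] [FiniteDimensional ℝ E']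

/-! ### Pull-back along a local homeomorphism, change of model -/

/-- chart of the pull-back -/
def pullCh (X : Mf E) (L : E ≃L[ℝ] E') {T : Type} [TopologicalSpace T] {p : T → X}
    (hp : IsLocalHomeomorph p) (y : T) : OpenPartialHomeomorph T E' :=
  ((hp.localInverseAt y).symm.trans (ch X (p y))).trans L.toHomeomorph.toOpenPartialHomeomorph

omit [FiniteDimensional ℝ E] [FiniteDimensional ℝ E'] in
theorem pullCh_apply (X : Mf E) (L : E ≃L[ℝ] E') {T : Type} [TopologicalSpace T] {p : T → X}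
    (hp : IsLocalHomeomorph p) (y z : T) : pullCh X L hp y z = L (ch X (p y) (p z)) := by
  simp [pullCh]

omit [FiniteDimensional ℝ E] [FiniteDimensional ℝ E'] in
theorem pullCh_mem (X : Mf E) (L : E ≃L[ℝ] E') {T : Type} [TopologicalSpace T] {p : T → X}
    (hp : IsLocalHomeomorph p) {y z : T} (h : z ∈ (pullCh X L hp y).source) :
    p z ∈ (ch X (p y)).source := by
  simpa using h.1.2

/-- the manifold structure (modelled on `E'`) on the domain of a local homeomorphism into a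
manifold modelled on `E` -/
abbrev Mf.pull (X : Mf E) (L : E ≃L[ℝ] E') (T : Type) [TopologicalSpace T] [T2Space T]
    [SecondCountableTopology T] [Nonempty T] {p : T → X} (hp : IsLocalHomeomorph p) : Mf E' :=
  Mf.ofCharts T (pullCh X L hp) (fun y => by simp [pullCh]) fun x y z hx hy => by
    have h1 := pullCh_mem X L hp hx
    have h2 := pullCh_mem X L hp hy
    have e : (fun w => pullCh X L hp y ((pullCh X L hp x).symm w)) =ᶠ[𝓝 (pullCh X L hp x z)]
        fun w => L (ch X (p y) ((ch X (p x)).symm (L.symm w))) := by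
      filter_upwards [(pullCh X L hp x).open_target.mem_nhds ((pullCh X L hp x).map_source hx)]
        with w hw
      have h3 := (pullCh X L hp x).right_inv hw
      rw [pullCh_apply] at h3 ⊢
      rw [← h3, L.symm_apply_apply,
        (ch X (p x)).left_inv (pullCh_mem X L hp ((pullCh X L hp x).map_target hw)), h3]
    refine ContDiffAt.congr_of_eventuallyEq ?_ e
    rw [pullCh_apply]
    refine L.contDiff.contDiffAt.comp _ (ContDiffAt.comp _ (g := fun w => ch X (p y) ((ch X (p x)).symm w)) ?_ L.symm.contDiff.contDiffAt)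
    rw [L.symm_apply_apply]
    exact smAt_vs.1 ((smAt_ch_symm ((ch X (p x)).map_source h1)).trans
      (smAt_ch (by rwa [(ch X (p x)).left_inv h1])))

theorem ldAt_pull (X : Mf E) (L : E ≃L[ℝ] E') (T : Type) [TopologicalSpace T] [T2Space T]
    [SecondCountableTopology T] [Nonempty T] {p : T → X} (hp : IsLocalHomeomorph p) (y : T) :
    LDAt (X.pull L T hp) X p y := by
  refine LDAt.ld_of_lift (X := X.pull L T hp) (Z := vs E') (g := fun x => L (ch X (p y) x))
    ((ldAt_ch (mem_chart_source E (p y))).trans (ldAt_cle L _)) hp.continuous.continuousAt ?_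
  exact (ldAt_ch (mem_ch (X.pull L T hp) y)).congr'
    (.of_forall fun z => (pullCh_apply X L hp y z).symm)

/-- change of model -/
abbrev Mf.remodel (X : Mf E) (L : E ≃L[ℝ] E') : Mf E' :=
  X.pull L X (p := fun x => x) (Homeomorph.refl X).isLocalHomeomorph

theorem ldAt_remodel (X : Mf E) (L : E ≃L[ℝ] E') (x : X) : LDAt (X.remodel L) X (fun x => x) x :=
  ldAt_pull X L X _ x

theorem ldAt_remodel' (X : Mf E) (L : E ≃L[ℝ] E') (x : X) : LDAt X (X.remodel L) (fun x => x) x :=
  LDAt.ld_of_comp (Y := X) (Z := X.remodel L) (g := fun x => x) (ldAt_remodel X L x) ldAt_id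

/-! ### Push-forward along a surjective local homeomorphism -/

/-- chart of the push-forward -/
def pushCh (Y : Mf E) {T : Type} [TopologicalSpace T] {π : Y → T} (hp : IsLocalHomeomorph π)
    (hs : Surjective π) (x : T) : OpenPartialHomeomorph T E :=
  (hp.localInverseAt (surjInv hs x)).trans (ch Y (surjInv hs x))

omit [FiniteDimensional ℝ E] in
theorem pushCh_ev (Y : Mf E) {T : Type} [TopologicalSpace T] {π : Y → T}
    (hp : IsLocalHomeomorph π) (hs : Surjective π)
    (hl : ∀ y y', π y = π y' → ∃ f : Y → Y, f y = y' ∧ LDAt Y Y f y ∧ ∀ᶠ z in 𝓝 y, π (f z) = π z)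
    {x : T} {y : Y} (h : π y ∈ (pushCh Y hp hs x).source) :
    ∃ f : Y → Y, LDAt Y Y f y ∧ f y ∈ (ch Y (surjInv hs x)).source ∧
      ∀ᶠ z in 𝓝 y, pushCh Y hp hs x (π z) = ch Y (surjInv hs x) (f z) := by
  obtain ⟨f, e, hf, ev⟩ := hl y _ (hp.apply_localInverseAt_of_mem h.1).symm
  refine ⟨f, hf, by rw [e]; exact h.2, ?_⟩
  have h1 : (hp.localInverseAt (surjInv hs x)).target ∈ 𝓝 (f y) := by
    rw [e]
    exact (OpenPartialHomeomorph.open_target _).mem_nhds (OpenPartialHomeomorph.map_source _ h.1)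
  filter_upwards [ev, hf.sm.cont.preimage_mem_nhds h1] with z hz h2
  have := (hp.localInverseAt (surjInv hs x)).right_inv h2
  rw [hp.localInverseAt_symm, hz] at this
  simp only [pushCh, OpenPartialHomeomorph.trans_apply, this]

/-- the manifold structure on the target of a surjective local homeomorphism whose local deck
transformations are smooth -/
abbrev Mf.push (Y : Mf E) (T : Type) [TopologicalSpace T] [T2Space T] {π : Y → T}
    (hp : IsLocalHomeomorph π) (hs : Surjective π)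
    (hl : ∀ y y', π y = π y' → ∃ f : Y → Y, f y = y' ∧ LDAt Y Y f y ∧ ∀ᶠ z in 𝓝 y, π (f z) = π z) :
    Mf E :=
  haveI : SecondCountableTopology T :=
    (hp.isOpenMap.isQuotientMap hp.continuous hs).secondCountableTopology hp.isOpenMap
  haveI : Nonempty T := Nonempty.map π inferInstance
  Mf.ofCharts T (pushCh Y hp hs)
    (fun x => by
      have h := hp.apply_self_mem_localInverseAt_source (x := surjInv hs x)
      have h2 := hp.localInverseAt_apply_self (x := surjInv hs x)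
      rw [surjInv_eq hs] at h h2
      exact ⟨h, (congrArg (· ∈ (ch Y (surjInv hs x)).source) h2).mpr (mem_ch Y _)⟩)
    fun x x' z hx hx' => by
      have h0 := hp.apply_localInverseAt_of_mem hx.1
      have h1 : hp.localInverseAt (surjInv hs x) z ∈ (ch Y (surjInv hs x)).source := hx.2
      obtain ⟨f, hf, hm, ev⟩ := pushCh_ev Y hp hs hl (x := x') (h0.symm ▸ hx')
      have h2 := (ch Y (surjInv hs x)).left_inv h1
      have a := smAt_ch_symm ((ch Y (surjInv hs x)).map_source h1)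
      rw [← h2] at hf hm ev
      refine ContDiffAt.congr_of_eventuallyEq
        (smAt_vs.1 ((a.trans hf.sm).trans (smAt_ch hm))) ?_
      filter_upwards [a.cont.eventually ev] with w hw
      rw [← hw]
      simp [pushCh]

theorem ldAt_push (Y : Mf E) (T : Type) [TopologicalSpace T] [T2Space T] {π : Y → T}
    (hp : IsLocalHomeomorph π) (hs : Surjective π) (hl) (y : Y) :
    LDAt Y (Y.push T hp hs hl) π y := by
  have hm := mem_ch (Y.push T hp hs hl) (π y)
  obtain ⟨f, hf, h1, ev⟩ := pushCh_ev Y hp hs hl (x := π y) (y := y) hm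
  exact LDAt.ld_of_lift (Y := Y.push T hp hs hl) (ldAt_ch hm) hp.continuous.continuousAt
    ((hf.trans (ldAt_ch h1)).congr' ev)

/-! ### Etale quotients -/

omit [FiniteDimensional ℝ E] [FiniteDimensional ℝ E'] in
/-- a map that is everywhere a local diffeomorphism is a local homeomorphism -/
theorem locHomeo_of_ld {X : Mf E} {Y : Mf E'} {f : X → Y} (h : ∀ x, LDAt X Y f x) :
    IsLocalHomeomorph f :=
  IsLocalHomeomorph.mk f fun x => let ⟨Φ, hx, e⟩ := h x; ⟨Φ.toOpenPartialHomeomorph, hx, e⟩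

theorem locHomeo_of_open {A B : Type} [TopologicalSpace A] [TopologicalSpace B] {f : A → B}
    (hc : Continuous f) (ho : IsOpenMap f) (hi : ∀ x, ∃ U ∈ 𝓝 x, InjOn f U) :
    IsLocalHomeomorph f := by
  refine isLocalHomeomorph_iff_isOpenEmbedding_restrict.2 fun x => ?_
  obtain ⟨U, hU, h⟩ := hi x
  refine ⟨interior U, interior_mem_nhds.2 hU, .of_continuous_injective_isOpenMap
    (hc.comp continuous_subtype_val) (injOn_iff_injective.1 (h.mono interior_subset))
    (ho.comp isOpen_interior.isOpenMap_subtype_val)⟩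

/-- an etale equivalence relation with closed graph -/
structure Etale (Y : Mf E) (r : Y → Y → Prop) : Prop where
  eqv : Equivalence r
  loc : ∀ y y', r y y' → ∃ f : Y → Y, f y = y' ∧ LDAt Y Y f y ∧ ∀ᶠ z in 𝓝 y, r z (f z)
  inj : ∀ y : Y, ∃ U ∈ 𝓝 y, ∀ z ∈ U, ∀ z' ∈ U, r z z' → z = z'
  cl : IsClosed {p : Y × Y | r p.1 p.2}

omit [FiniteDimensional ℝ E] in
/-- it suffices that the local maps are smooth near the point -/
theorem etale_of_sm {Y : Mf E} {r : Y → Y → Prop} (eqv : Equivalence r)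
    (loc : ∀ y y', r y y' → ∃ f : Y → Y, f y = y' ∧ ∀ᶠ z in 𝓝 y, SmAt Y Y f z ∧ r z (f z))
    (inj : ∀ y : Y, ∃ U ∈ 𝓝 y, ∀ z ∈ U, ∀ z' ∈ U, r z z' → z = z')
    (cl : IsClosed {p : Y × Y | r p.1 p.2}) : Etale Y r := by
  refine ⟨eqv, fun y y' h => ?_, inj, cl⟩
  obtain ⟨f, e, hf⟩ := loc y y' h
  obtain ⟨g, e', hg⟩ := loc y' y (eqv.symm h)
  refine ⟨f, e, ?_, hf.mono fun z hz => hz.2⟩
  obtain ⟨U, hU, iU⟩ := inj y
  obtain ⟨V, hV, iV⟩ := inj y'
  obtain ⟨A, hA, oA, mA⟩ := mem_nhds_iff.1 (inter_mem hf hU)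
  obtain ⟨B, hB, oB, mB⟩ := mem_nhds_iff.1 (inter_mem hg hV)
  have cf : ContinuousOn f A := fun z hz => (hA hz).1.1.cont.continuousWithinAt
  have cg : ContinuousOn g B := fun z hz => (hB hz).1.1.cont.continuousWithinAt
  have l : ∀ z ∈ A, f z ∈ B → g (f z) ∈ A → g (f z) = z := fun z h1 h2 h3 =>
    (iU _ (hA h1).2 _ (hA h3).2 (eqv.trans (hA h1).1.2 (hB h2).1.2)).symm
  have l' : ∀ z ∈ B, g z ∈ A → f (g z) ∈ B → f (g z) = z := fun z h1 h2 h3 =>
    (iV _ (hB h1).2 _ (hB h3).2 (eqv.trans (hB h1).1.2 (hA h2).1.2)).symm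
  have oB' : IsOpen (B ∩ g ⁻¹' A) := cg.isOpen_inter_preimage oB oA
  have oA' : IsOpen (A ∩ f ⁻¹' B) := cf.isOpen_inter_preimage oA oB
  refine ldAt_of_inv (g := g) (U := A ∩ f ⁻¹' (B ∩ g ⁻¹' A)) (W := B ∩ g ⁻¹' (A ∩ f ⁻¹' B))
    (cf.isOpen_inter_preimage oA oB') (cg.isOpen_inter_preimage oB oA')
    ⟨mA, by rw [mem_preimage, e]; exact ⟨mB, by rw [mem_preimage, e']; exact mA⟩⟩
    (fun z hz => (hA hz.1).1.1) (fun z hz => (hB hz.1).1.1) (fun z hz => ⟨hz.2.1, ?_⟩)
    (fun z hz => ⟨hz.2.1, ?_⟩) (fun z hz => l z hz.1 hz.2.1 hz.2.2) fun z hz =>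
      l' z hz.1 hz.2.1 hz.2.2
  · rw [mem_preimage, l z hz.1 hz.2.1 hz.2.2]; exact ⟨hz.1, hz.2.1⟩
  · rw [mem_preimage, l' z hz.1 hz.2.1 hz.2.2]; exact ⟨hz.1, hz.2.1⟩

/-- the quotient by an etale equivalence relation -/
theorem Etale.quot {Y : Mf E} {r : Y → Y → Prop} (h : Etale Y r) :
    ∃ (X : Mf E) (π : Y → X), Surjective π ∧ (∀ y, LDAt Y X π y) ∧ ∀ y y', π y = π y' ↔ r y y' := by
  let S : Setoid Y := ⟨r, h.eqv⟩
  let π : Y → Quotient S := Quotient.mk S
  have he : ∀ y y', π y = π y' ↔ r y y' := fun y y' => Quotient.eq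
  have hs : Surjective π := Quotient.mk_surjective
  have hc : Continuous π := continuous_quotient_mk'
  have ho : IsOpenMap π := fun U hU => by
    rw [← isQuotientMap_quotient_mk'.isOpen_preimage, isOpen_iff_mem_nhds]
    rintro y ⟨y', hy', e⟩
    obtain ⟨f, e', hf, ev⟩ := h.loc y y' ((he _ _).1 e.symm)
    filter_upwards [ev, hf.sm.cont.preimage_mem_nhds (hU.mem_nhds (e' ▸ hy'))] with z h1 h2
    exact ⟨f z, h2, ((he _ _).2 h1).symm⟩
  have hp : IsLocalHomeomorph π := locHomeo_of_open hc ho fun y =>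
    let ⟨U, hU, hi⟩ := h.inj y; ⟨U, hU, fun z hz z' hz' e => hi z hz z' hz' ((he _ _).1 e)⟩
  have : T2Space (Quotient S) :=
    (t2Space_iff_of_isOpenQuotientMap ⟨hs, hc, ho⟩).2 (by simpa only [he] using h.cl)
  refine ⟨Y.push (Quotient S) hp hs fun y y' e => ?_, π, hs, ldAt_push Y _ hp hs _, he⟩
  obtain ⟨f, e', hf, ev⟩ := h.loc y y' ((he _ _).1 e)
  exact ⟨f, e', hf, ev.mono fun z hz => ((he _ _).2 hz).symm⟩

/-! ### Free quotients -/

omit [FiniteDimensional ℝ E] in
theorem ldAt_smul {Y : Mf E} {G : Type} [Group G] [MulAction G Y]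
    (hs : ∀ g : G, Sm Y Y (fun y => g • y) univ) (g : G) (y : Y) : LDAt Y Y (fun y => g • y) y :=
  ldAt_of_inv (g := fun y => g⁻¹ • y) isOpen_univ isOpen_univ trivial (hs g) (hs g⁻¹)
    (mapsTo_univ _ _) (mapsTo_univ _ _) (fun _ _ => inv_smul_smul _ _) fun _ _ => smul_inv_smul _ _

/-- quotient by a smooth action with locally disjoint translates and closed orbit relation -/
theorem free_quot (Y : Mf E) (G : Type) [Group G] [MulAction G Y]
    (hs : ∀ g : G, Sm Y Y (fun y => g • y) univ)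
    (hd : ∀ y : Y, ∃ U ∈ 𝓝 y, ∀ g : G, ∀ z ∈ U, g • z ∈ U → g = 1)
    (hc : IsClosed {p : Y × Y | ∃ g : G, g • p.1 = p.2}) :
    ∃ (X : Mf E) (π : Y → X), (∀ y, LDAt Y X π y) ∧ IsQuotientCoveringMap π G := by
  have h : Etale Y fun y y' => ∃ g : G, g • y = y' := by
    refine ⟨⟨fun y => ⟨1, one_smul _ _⟩, ?_, ?_⟩, ?_, fun y => ?_, hc⟩
    · rintro y _ ⟨g, rfl⟩; exact ⟨g⁻¹, inv_smul_smul _ _⟩
    · rintro y _ _ ⟨g, rfl⟩ ⟨g', rfl⟩; exact ⟨g' * g, mul_smul _ _ _⟩
    · rintro y _ ⟨g, rfl⟩; exact ⟨_, rfl, ldAt_smul hs g y, .of_forall fun z => ⟨g, rfl⟩⟩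
    · obtain ⟨U, hU, h⟩ := hd y
      refine ⟨U, hU, ?_⟩
      rintro z hz _ hz' ⟨g, rfl⟩
      rw [h g z hz hz', one_smul]
  obtain ⟨X, π, h1, h2, h3⟩ := h.quot
  have hp := locHomeo_of_ld h2
  refine ⟨X, π, h2,
    { toIsQuotientMap := hp.isOpenMap.isQuotientMap hp.continuous h1
      continuous_const_smul := fun g => (hs g).cont
      apply_eq_iff_mem_orbit := fun {a b} => eq_comm.trans (h3 b a)
      disjoint := fun y => ?_ }⟩
  obtain ⟨U, hU, h⟩ := hd y
  exact ⟨U, hU, fun g ⟨_, ⟨z, hz, e⟩, hz'⟩ => h g z hz (e ▸ hz' :)⟩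

/-- quotient by a free, properly discontinuous smooth action -/
theorem free_quot' (Y : Mf E) (G : Type) [Group G] [MulAction G Y]
    (hs : ∀ g : G, Sm Y Y (fun y => g • y) univ) (hf : ∀ (g : G) (y : Y), g • y = y → g = 1)
    (hp : ∀ K : Set Y, IsCompact K → {g : G | ∃ y ∈ K, g • y ∈ K}.Finite) :
    ∃ (X : Mf E) (π : Y → X), (∀ y, LDAt Y X π y) ∧ IsQuotientCoveringMap π G := by
  have : ContinuousConstSMul G Y := ⟨fun g => (hs g).cont⟩
  have : ProperlyDiscontinuousSMul G Y := ⟨fun {K L} hK hL => (hp _ (hK.union hL)).subset <| by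
    rintro g ⟨_, ⟨y, hy, rfl⟩, h⟩
    exact ⟨y, .inl hy, .inr h⟩⟩
  have : IsCancelSMul G Y := isCancelSMul_iff_eq_one_of_smul_eq.2 hf
  have q := isQuotientCoveringMap_quotientMk_of_properlyDiscontinuousSMul (G := G) (E := Y)
  refine free_quot Y G hs (fun y => ?_) ?_
  · obtain ⟨U, hU, h⟩ := q.disjoint y
    exact ⟨U, hU, fun g z hz hz' => h g ⟨_, ⟨z, hz, rfl⟩, hz'⟩⟩
  · have := ((t2Space_iff_of_isOpenQuotientMap q.isOpenQuotientMap).1 inferInstance).preimage
      continuous_swap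
    simp only [q.apply_eq_iff_mem_orbit] at this
    exact this

/-! ### Disjoint unions -/

/-- disjoint union of two manifolds -/
abbrev Mf.sum (X Y : Mf E) : Mf E := { carrier := X ⊕ Y }

omit [FiniteDimensional ℝ E] in
theorem ldAt_inl {X Y : Mf E} (x : X) : LDAt X (X.sum Y) Sum.inl x :=
  ldAt_of_inv (Y := X.sum Y) (g := Sum.elim (fun x => x) fun _ => x) isOpen_univ isOpen_range_inl
    trivial (fun z _ => ContMDiff.inl z) (fun z _ => (contMDiff_id.sumElim contMDiff_const) z)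
    (fun z _ => ⟨z, rfl⟩) (mapsTo_univ _ _) (fun _ _ => rfl) (by rintro _ ⟨z, rfl⟩; rfl)

omit [FiniteDimensional ℝ E] in
theorem ldAt_inr {X Y : Mf E} (y : Y) : LDAt Y (X.sum Y) Sum.inr y :=
  ldAt_of_inv (Y := X.sum Y) (g := Sum.elim (fun _ => y) fun x => x) isOpen_univ isOpen_range_inr
    trivial (fun z _ => ContMDiff.inr z) (fun z _ => (contMDiff_const.sumElim contMDiff_id) z)
    (fun z _ => ⟨z, rfl⟩) (mapsTo_univ _ _) (fun _ _ => rfl) (by rintro _ ⟨z, rfl⟩; rfl)

/-- disjoint union of a countable nonempty family of manifolds -/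
abbrev Mf.sigma {ι : Type} [Countable ι] [Nonempty ι] (X : ι → Mf E) : Mf E :=
  haveI : Nonempty (Σ i, X i) := ⟨⟨Classical.arbitrary ι, Classical.arbitrary _⟩⟩
  Mf.ofCharts (Σ i, X i)
    (fun p => (ch (X p.1) p.2).lift_openEmbedding (IsOpenEmbedding.sigmaMk (σ := fun i => X i)))
    (fun p => ⟨p.2, mem_ch _ _, rfl⟩) <| by
      rintro ⟨i, x⟩ ⟨j, y⟩ _ ⟨z, hz, rfl⟩ ⟨z', hz', e⟩
      cases e
      simp only [OpenPartialHomeomorph.lift_openEmbedding_symm, comp_apply,
        OpenPartialHomeomorph.lift_openEmbedding_apply]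
      exact smAt_vs.1 ((smAt_ch_symm ((ch _ x).map_source hz)).trans
        (smAt_ch (by rwa [(ch _ x).left_inv hz])))

theorem ldAt_sigmaMk {ι : Type} [Countable ι] [Nonempty ι] (X : ι → Mf E) (i : ι) (x : X i) :
    LDAt (X i) (Mf.sigma X) (fun z => (⟨i, z⟩ : Σ i, X i)) x :=
  LDAt.ld_of_lift (Y := Mf.sigma X) (ldAt_ch (mem_ch (Mf.sigma X) ⟨i, x⟩))
    (continuous_sigmaMk (σ := fun i => X i)).continuousAt ((ldAt_ch (mem_ch _ x)).congr'
      (.of_forall fun _ => OpenPartialHomeomorph.lift_openEmbedding_apply _ _))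

end Pool.Agent.MP_e1dc65_gt
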