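import Pool.Agent.MP_e1dc65_gt.Spec0
import Pool.Agent.MP_e1dc65_gt.k.Mk
import Mathlib.Analysis.Calculus.MeanValue

/-! PROJECT HC, row LEVEL: regular levels and their product neighbourhoods. -/

open scoped ContDiff Manifold Topology
open Set Filter Function Module

set_option linter.unusedSectionVars false

noncomputable section

namespace Pool.Agent.MP_e1dc65_gt

variable {E E' E'' : Type} [NormedAddCommGroup E] [NormedSpace ℝ E] [FiniteDimensional ℝ E]
  [NormedAddCommGroup E'] [NormedSpace ℝ E'] [FiniteDimensional ℝ E']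
  [NormedAddCommGroup E''] [NormedSpace ℝ E''] [FiniteDimensional ℝ E'']

namespace Lev

theorem inv_of_bij {L : E →L[ℝ] E'} (h : Bijective L) : L.IsInvertible :=
  ⟨(LinearEquiv.ofBijective L.toLinearMap h).toContinuousLinearEquiv, by ext; rfl⟩

theorem inv_of_inj {L : E →L[ℝ] E'} (hd : finrank ℝ E = finrank ℝ E') (h : Injective L) :
    L.IsInvertible :=
  inv_of_bij ⟨h, (LinearMap.injective_iff_surjective_of_finrank_eq_finrank (f := L.toLinearMap)
    hd).1 h⟩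

theorem exists_compl (hd : finrank ℝ E' + 1 = finrank ℝ E) {l : E →L[ℝ] ℝ} (hl : l ≠ 0) :
    ∃ P : E →L[ℝ] E', (P.prod l).IsInvertible := by
  have h1 : finrank ℝ (LinearMap.ker l.toLinearMap) = finrank ℝ E' := by
    have := Module.Dual.finrank_ker_add_one_of_ne_zero (f := l.toLinearMap)
      (fun h => hl (ContinuousLinearMap.coe_injective h))
    omega
  obtain ⟨P, hP⟩ := LinearMap.exists_extend (LinearEquiv.ofFinrankEq _ _ h1).toLinearMap
  refine ⟨LinearMap.toContinuousLinearMap P, inv_of_inj (by simp [hd]) ?_⟩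
  refine (injective_iff_map_eq_zero _).2 fun v hv => ?_
  have h2 : l v = 0 := congrArg Prod.snd hv
  have h3 : P v = 0 := congrArg Prod.fst hv
  have h4 := LinearMap.congr_fun hP ⟨v, h2⟩
  have h5 : LinearEquiv.ofFinrankEq _ _ h1 ⟨v, h2⟩ = 0 := h4.symm.trans h3
  exact congrArg Subtype.val ((LinearEquiv.map_eq_zero_iff _).1 h5)

/-- a chart at `x` whose last coordinate is `f` -/
structure Slc (E' : Type) [NormedAddCommGroup E'] [NormedSpace ℝ E'] [FiniteDimensional ℝ E']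
    (X : Mf E) (f : X → ℝ) (U : Set X) (x : X) where
  Ψ : X → E'
  g : E' × ℝ → X
  O : Set X
  W : Set (E' × ℝ)
  oO : IsOpen O
  oW : IsOpen W
  mem : x ∈ O
  sub : O ⊆ U
  sΨ : Sm X (vs (E' × ℝ)) (fun y => (Ψ y, f y)) O
  sg : Sm (vs (E' × ℝ)) X g W
  m1 : MapsTo (fun y => (Ψ y, f y)) O W
  m2 : MapsTo g W O
  l : ∀ y ∈ O, g (Ψ y, f y) = y
  r : ∀ w ∈ W, (Ψ (g w), f (g w)) = w

variable {X : Mf E} {f : X → ℝ} {U : Set X} {x : X} {c : ℝ}

theorem Df_vpair {Y : Mf E} {a : Y → E'} {b : Y → E''} {y : Y} (ha : SmAt Y (vs E') a y)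
    (hb : SmAt Y (vs E'') b y) : Df Y (vs (E' × E'')) (fun y => (a y, b y)) y =
      (Df Y (vs E') a y).prod (Df Y (vs E'') b y) := by
  have h := ha.vpair hb
  ext v
  · have := Df_vcomp (g := Prod.fst) h contDiffAt_fst
    rw [fderiv_fst] at this
    exact (congrArg (· v) this).symm
  · have := Df_vcomp (g := Prod.snd) h contDiffAt_snd
    rw [fderiv_snd] at this
    exact (congrArg (· v) this).symm

theorem slc (hd : finrank ℝ E' + 1 = finrank ℝ E) (hU : IsOpen U) (hf : Sm X (vs ℝ) f U)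
    (hx : x ∈ U) (h : Df X (vs ℝ) f x ≠ 0) : Nonempty (Slc E' X f U x) := by
  obtain ⟨P, hP⟩ := exists_compl hd h
  have hs : ∀ y ∈ (ch X x).source, SmAt X (vs E') (fun y => P (ch X x y)) y := fun y hy =>
    (smAt_ch hy).vcomp P.contDiff.contDiffAt
  have hld : LDAt X (vs (E' × ℝ)) (fun y => (P (ch X x y), f y)) x := by
    refine ldAt_of_Df (U := U ∩ (ch X x).source)
      (inter_mem (hU.mem_nhds hx) ((ch X x).open_source.mem_nhds (mem_ch X x)))
      (fun y hy => (hs y hy.2).vpair (hf y hy.1)) ?_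
    rw [Df_vpair (hs x (mem_ch X x)) (hf x hx),
      Df_vcomp (g := P) (smAt_ch (mem_ch X x)) P.contDiff.contDiffAt, Df_ch_self, P.fderiv]
    exact hP
  obtain ⟨g, O, W, h1, h2, h3, h4, h5, h6, h7, h8, h9, h10⟩ := hld.exists_inv (hU.mem_nhds hx)
  exact ⟨⟨_, g, O, W, h1, h2, h3, h4, h5, h6, h7, h8, h9, h10⟩⟩

namespace Slc

variable (s : Slc E' X f U x)

theorem smΨ {y : X} (hy : y ∈ s.O) : SmAt X (vs E') s.Ψ y :=
  (s.sΨ y hy).vcomp (g := Prod.fst) contDiffAt_fst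

theorem smf {y : X} (hy : y ∈ s.O) : SmAt X (vs ℝ) f y :=
  (s.sΨ y hy).vcomp (g := Prod.snd) contDiffAt_snd

theorem ld {y : X} (hy : y ∈ s.O) : LDAt X (vs (E' × ℝ)) (fun y => (s.Ψ y, f y)) y :=
  ldAt_of_inv s.oO s.oW hy s.sΨ s.sg s.m1 s.m2 s.l s.r

theorem smg {w : E'} (hw : (w, c) ∈ s.W) : SmAt (vs E') X (fun w => s.g (w, c)) w :=
  SmAt.trans (Y := vs (E' × ℝ)) (f := fun w : E' => (w, c))
    (smAt_vs.2 (contDiffAt_id.prodMk contDiffAt_const)) (s.sg _ hw)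

theorem oT (c : ℝ) : IsOpen {w : E' | (w, c) ∈ s.W} :=
  s.oW.preimage (continuous_id.prodMk continuous_const)

open Classical in
/-- the induced chart of the level -/
def chart (z : (U ∩ f ⁻¹' {c} : Set X)) : OpenPartialHomeomorph (U ∩ f ⁻¹' {c} : Set X) E' where
  toFun y := s.Ψ y.1
  invFun w := if h : (w, c) ∈ s.W then ⟨s.g (w, c), s.sub (s.m2 h), congrArg Prod.snd (s.r _ h)⟩
    else z
  source := Subtype.val ⁻¹' s.O
  target := {w | (w, c) ∈ s.W}
  map_source' y hy := by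
    have h := s.m1 hy
    have e : f y.1 = c := y.2.2
    simpa only [e, mem_ofPred_eq] using h
  map_target' w hw := by
    have hw' : (w, c) ∈ s.W := hw
    simp only [mem_preimage, dif_pos hw']
    exact s.m2 hw'
  left_inv' y hy := by
    have e : f y.1 = c := y.2.2
    have h : (s.Ψ y.1, c) ∈ s.W := by simpa only [e] using s.m1 hy
    rw [dif_pos h]
    exact Subtype.ext (by simpa only [e] using s.l _ hy)
  right_inv' w hw := by
    have hw' : (w, c) ∈ s.W := hw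
    simp only [dif_pos hw']
    exact congrArg Prod.fst (s.r _ hw')
  open_source := s.oO.preimage continuous_subtype_val
  open_target := s.oT c
  continuousOn_toFun y hy :=
    ((s.smΨ hy).cont.comp continuous_subtype_val.continuousAt).continuousWithinAt
  continuousOn_invFun := by
    refine Topology.IsInducing.subtypeVal.continuousOn_iff.2 ?_
    refine ContinuousOn.congr (f := fun w => s.g (w, c))
      (fun w hw => (s.smg hw).cont.continuousWithinAt) fun w hw => ?_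
    have hw' : (w, c) ∈ s.W := hw
    simp only [comp_apply, dif_pos hw']

theorem chart_symm (z : (U ∩ f ⁻¹' {c} : Set X)) {w : E'} (hw : w ∈ (s.chart z).target) :
    (fun w => ((s.chart z).symm w).1) =ᶠ[𝓝 w] fun w => s.g (w, c) := by
  filter_upwards [(s.oT c).mem_nhds hw] with u hu
  exact congrArg Subtype.val (dif_pos hu)

/-- the coordinate field in the direction of `f` -/
def fld (y : X) : E := Df (vs (E' × ℝ)) X s.g (s.Ψ y, f y) (0, 1)

theorem df_fld {y : X} (hy : y ∈ s.O) : Df X (vs ℝ) f y (s.fld y) = 1 := by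
  have h1 := s.m1 hy
  have h2 := Df_comp (s.sg _ h1) (s.smf (s.m2 h1))
  have h3 : (fun w => f (s.g w)) =ᶠ[𝓝 (s.Ψ y, f y)] Prod.snd := by
    filter_upwards [s.oW.mem_nhds h1] with w hw using congrArg Prod.snd (s.r w hw)
  rw [Df_congr h3, Df_vs, fderiv_snd, s.l y hy] at h2
  exact (congrArg (· (0, 1)) h2).symm

theorem vf_fld {y : X} (hy : y ∈ s.O) : VfAt X s.fld y := by
  have h1 := s.m1 hy
  have e0 := (ch X y).left_inv (mem_ch X y)
  have a0 := smAt_ch_symm ((ch X y).map_source (mem_ch X y))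
  have a1 : ContDiffAt ℝ ∞ (fun p => (s.Ψ ((ch X y).symm p), f ((ch X y).symm p))) (ch X y y) :=
    smAt_vs.1 (a0.trans (s.sΨ _ (by rwa [e0])))
  have a2 : ContDiffAt ℝ ∞ (fun w => ch X y (s.g w)) (s.Ψ y, f y) :=
    smAt_vs.1 ((s.sg _ h1).trans (smAt_ch (by rw [s.l y hy]; exact mem_ch X y)))
  have a3 := (a2.fderiv_right (m := ∞) (by simp)).clm_apply (contDiffAt_const (c := (0, 1)))
  refine (ContDiffAt.comp (ch X y y) (by rw [e0]; exact a3) a1).congr_of_eventuallyEq ?_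
  have hn : s.O ∩ (ch X y).source ∈ 𝓝 ((ch X y).symm (ch X y y)) := by
    rw [e0]; exact (s.oO.inter (ch X y).open_source).mem_nhds ⟨hy, mem_ch X y⟩
  filter_upwards [a0.cont.preimage_mem_nhds hn] with p hp
  have h2 := Df_comp (g := ch X y) (Z := vs E) (s.sg _ (s.m1 hp.1))
    (smAt_ch (by rw [s.l _ hp.1]; exact hp.2))
  rw [Df_vs, s.l _ hp.1] at h2
  exact (congrArg (· (0, 1)) h2).symm

end Slc

theorem level1 (hd : finrank ℝ E' + 1 = finrank ℝ E) (hU : IsOpen U) (hf : Sm X (vs ℝ) f U)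
    (hr : ∀ x ∈ U, f x = c → Df X (vs ℝ) f x ≠ 0) (hne : (U ∩ f ⁻¹' {c}).Nonempty) :
    ∃ (Z : Mf E') (ι : Z → X), Level X f (U ∩ f ⁻¹' {c}) Z ι := by
  have s : ∀ z : (U ∩ f ⁻¹' {c} : Set X), Slc E' X f U z.1 := fun z =>
    (slc hd hU hf z.2.1 (hr _ z.2.1 z.2.2)).some
  have := hne.to_subtype
  let Z : Mf E' := Mf.ofCharts (U ∩ f ⁻¹' {c} : Set X) (fun z => (s z).chart z)
    (fun z => (s z).mem) fun x y z hx hy => by
      have h1 := ((s x).chart x).map_source hx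
      have h2 := (s x).chart_symm x h1
      have h3 : (s x).g ((s x).chart x z, c) = z.1 := by
        rw [← h2.eq_of_nhds, ((s x).chart x).left_inv hx]
      refine (smAt_vs.1 (((s x).smg h1).trans ((s y).smΨ (by rwa [h3])))).congr_of_eventuallyEq ?_
      filter_upwards [h2] with w hw using congrArg (s y).Ψ hw
  have hs : ∀ z : Z, SmAt Z X Subtype.val z := fun z => by
    have h1 := (ch Z z).map_source (mem_ch Z z)
    have := (ldAt_ch_symm h1).sm_of_comp (g := Subtype.val) (Z := X)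
      (((s z).smg h1).congr' ((s z).chart_symm z h1))
    rwa [(ch Z z).left_inv (mem_ch Z z)] at this
  have h1 : ∀ (z : Z) u, Df X (vs E') (s z).Ψ z.1 (Df Z X Subtype.val z u) = u := fun z u => by
    have := Df_comp (hs z) ((s z).smΨ (s z).mem)
    exact (congrArg (· u) this).symm.trans (congrArg (· u) (Df_ch_self (X := Z) (x := z)))
  have h2 : ∀ (z : Z) u, Df X (vs ℝ) f z.1 (Df Z X Subtype.val z u) = 0 := fun z u => by
    have := Df_comp (hs z) (hf _ z.2.1)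
    rw [show (fun x : Z => f x.1) = fun _ => c from funext fun x => x.2.2, Df_const] at this
    exact (congrArg (· u) this).symm
  refine ⟨Z, Subtype.val, fun z _ => hs z, .subtypeVal, Subtype.range_coe,
    fun z => LeftInverse.injective (h1 z), fun z v => ⟨?_, fun hv => ?_⟩, ?_⟩
  · rintro ⟨u, rfl⟩
    exact h2 z u
  · refine ⟨Df X (vs E') (s z).Ψ z.1 v, ((s z).ld (s z).mem).inv.injective ?_⟩
    rw [Df_vpair ((s z).smΨ (s z).mem) (hf _ z.2.1)]
    exact Prod.ext (h1 z _) ((h2 z _).trans hv.symm)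
  · intro E₃ _ _ Y g y h
    exact (ldAt_ch (mem_ch Z (g y))).sm_of_lift
      (Topology.IsInducing.subtypeVal.continuousAt_iff.2 h.cont)
      (h.trans ((s (g y)).smΨ (s (g y)).mem))

/-- a compactly supported field with `df v = 1` near the compact set `K` -/
theorem exists_fld (hF : FieldStmt) (hd : finrank ℝ E' + 1 = finrank ℝ E) (hU : IsOpen U)
    (hf : Sm X (vs ℝ) f U) {K : Set X} (hK : IsCompact K) (hKU : K ⊆ U)
    (hr : ∀ x ∈ K, Df X (vs ℝ) f x ≠ 0) :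
    ∃ (v : X → E) (O L : Set X), (∀ x, VfAt X v x) ∧ IsOpen O ∧ K ⊆ O ∧ O ⊆ L ∧ L ⊆ U ∧
      IsCompact L ∧ (∀ x ∉ L, v x = 0) ∧ ∀ x ∈ O, Df X (vs ℝ) f x (v x) = 1 := by
  have s : ∀ z : K, Slc E' X f U z.1 := fun z => (slc hd hU hf (hKU z.2) (hr _ z.2)).some
  obtain ⟨K₂, c2, i2, s2⟩ := exists_compact_between hK (isOpen_iUnion fun z => (s z).oO)
    fun z hz => mem_iUnion.2 ⟨⟨z, hz⟩, (s ⟨z, hz⟩).mem⟩
  obtain ⟨K₁, c1, i1, s1⟩ := exists_compact_between hK isOpen_interior i2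
  obtain ⟨v, hv⟩ := hF E X univ
    (fun x => {u | (x ∈ K₁ → Df X (vs ℝ) f x u = 1) ∧ (x ∉ K₂ → u = 0)}) isOpen_univ
    (fun x _ u hu w hw a b _ _ hab => ⟨fun h => by
      rw [map_add, map_smul, map_smul, hu.1 h, hw.1 h, ← add_smul, hab, one_smul],
      fun h => by rw [hu.2 h, hw.2 h, smul_zero, smul_zero, add_zero]⟩)
    fun x _ => by
      by_cases hx : x ∈ K₁
      · obtain ⟨z, hz⟩ := mem_iUnion.1 (s2 (interior_subset (s1 hx)))
        exact ⟨(s z).O ∩ interior K₂, (s z).fld, ((s z).oO.inter isOpen_interior).mem_nhds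
          ⟨hz, s1 hx⟩, fun y hy => ⟨(s z).vf_fld hy.1, fun _ => (s z).df_fld hy.1,
            fun h => (h (interior_subset hy.2)).elim⟩⟩
      · refine ⟨K₁ᶜ, fun _ => 0, c1.isClosed.isOpen_compl.mem_nhds hx,
          fun y hy => ⟨?_, fun h => (hy h).elim, fun _ => rfl⟩⟩
        simp only [VfAt, map_zero]
        exact contDiffAt_const
  refine ⟨v, interior K₁, K₂, fun x => (hv x trivial).1, isOpen_interior, i1,
    interior_subset.trans (s1.trans interior_subset), fun x hx => ?_, c2,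
    fun x => (hv x trivial).2.2, fun x hx => (hv x trivial).2.1 (interior_subset hx)⟩
  obtain ⟨z, hz⟩ := mem_iUnion.1 (s2 hx)
  exact (s z).sub hz

variable {v : X → E} {φ : ℝ → X → X}

theorem fl_sm (h : IsFlow X v φ) {F : Type} [NormedAddCommGroup F] [NormedSpace ℝ F] {Y : Mf F}
    {a : Y → X} {t : Y → ℝ} {y : Y} (ha : SmAt Y X a y) (ht : SmAt Y (vs ℝ) t y) :
    SmAt Y X (fun y => φ (t y) (a y)) y :=
  SmAt.trans (Y := X.cyl) (g := fun p => φ p.2 p.1) (ha.pair ht) (h.sm _ trivial)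

theorem fl_neg (h : IsFlow X v φ) (t : ℝ) (x : X) : φ (-t) (φ t x) = x := by
  rw [← h.add, neg_add_cancel, h.zero]

theorem fl_ld (h : IsFlow X v φ) (t : ℝ) (x : X) : LDAt X X (φ t) x :=
  ldAt_of_inv (g := φ (-t)) isOpen_univ isOpen_univ trivial
    (fun _ _ => fl_sm h smAt_id (smAt_const (Y := vs ℝ) t)) (fun _ _ => fl_sm h smAt_id (smAt_const (Y := vs ℝ) (-t)))
    (mapsTo_univ _ _) (mapsTo_univ _ _) (fun y _ => fl_neg h t y)
    fun y _ => by simpa using fl_neg h (-t) y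

theorem fl_der (h : IsFlow X v φ) {t : ℝ} (hf : SmAt X (vs ℝ) f (φ t x)) :
    HasDerivAt (fun t => f (φ t x)) (Df X (vs ℝ) f (φ t x) (v (φ t x))) t := by
  have h1 : SmAt (vs ℝ) X (fun t => φ t x) t := fl_sm h (smAt_const x) smAt_id
  have h2 := Df_comp h1 hf
  rw [Df_vs] at h2
  have h3 := ((smAt_vs.1 (h1.trans hf)).differentiableAt (by simp)).hasDerivAt
  rwa [← fderiv_apply_one_eq_deriv, h2, ContinuousLinearMap.comp_apply, (h.der x t).2] at h3

theorem Df_inl {F : Type} [NormedAddCommGroup F] [NormedSpace ℝ F] {Y : Mf F} {a : Y.cyl → X}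
    {y : Y} {t : ℝ} (h : SmAt Y.cyl X a (y, t)) (u : F) :
    Df Y X (fun y => a (y, t)) y u = Df Y.cyl X a (y, t) (u, 0) := by
  have h1 : SmAt Y Y.cyl (fun y => (y, t)) y := smAt_id.pair (smAt_const (Y := vs ℝ) t)
  rw [Df_comp h1 h, Df_pair (Z := vs ℝ) smAt_id (smAt_const (Y := vs ℝ) t), Df_id, Df_const]
  rfl

theorem Df_inr {F : Type} [NormedAddCommGroup F] [NormedSpace ℝ F] {Y : Mf F} {a : Y.cyl → X}
    {y : Y} {t : ℝ} (h : SmAt Y.cyl X a (y, t)) (r : ℝ) :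
    Df (vs ℝ) X (fun t => a (y, t)) t r = Df Y.cyl X a (y, t) (0, r) := by
  have h1 : SmAt (vs ℝ) Y.cyl (fun t => (y, t)) t := (smAt_const y).pair smAt_id
  rw [Df_comp h1 h, Df_pair (Z := vs ℝ) (smAt_const y) smAt_id, Df_id, Df_const]
  rfl

theorem ld_shift {Y : Mf E} (t : ℝ) (p : Y.cyl) : LDAt Y.cyl Y.cyl (fun p => (p.1, p.2 + t)) p :=
  LDAt.prodMap (f := fun y => y) (k := fun r => r + t) (Z := vs ℝ) (T := vs ℝ) ldAt_id
    (ldAt_vs univ_mem (fun _ _ => contDiffAt_id.add contDiffAt_const)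
      (by rw [fderiv_add_const, fderiv_fun_id]; exact ⟨.refl ℝ ℝ, rfl⟩))

end Lev

open Lev

namespace Level

variable {X : Mf E} {f : X → ℝ} {K : Set X} {Z : Mf E'} {ι : Z → X} (h : Level X f K Z ι)
include h

theorem mem (z : Z) : ι z ∈ K := h.range ▸ mem_range_self z

theorem inv_eq {x : X} (hx : x ∈ K) : ι (invFun ι x) = x :=
  invFun_eq (h.range ▸ hx : x ∈ Set.range ι)

theorem inv_left (z : Z) : invFun ι (ι z) = z := leftInverse_invFun h.emb.injective z

theorem compact (hK : IsCompact K) : CompactSpace Z :=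
  ⟨h.emb.isCompact_iff.2 (by rwa [image_univ, h.range])⟩

/-- the differential of the flow-out of a level -/
theorem Df_flow {v : X → E} {φ : ℝ → X → X} (hφ : IsFlow X v φ) (z : Z) (u : E') (r : ℝ) :
    Df Z.cyl X (fun p => φ p.2 (ι p.1)) (z, 0) (u, r) = Df Z X ι z u + r • v (ι z) := by
  have hs : SmAt Z.cyl X (fun p => φ p.2 (ι p.1)) (z, 0) :=
    fl_sm hφ (smAt_fst.trans (h.sm _ trivial)) smAt_snd
  have h1 := Df_inl hs u
  have h2 := Df_inr hs 1
  simp only [hφ.zero] at h1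
  rw [(hφ.der (ι z) 0).2] at h2
  simp only [hφ.zero] at h2
  rw [show Df Z X ι z u = _ from h1, h2, ← map_smul, ← map_add]
  simp

/-- the flow-out of a level along a transverse field is a local diffeomorphism -/
theorem ld_flow0 {v : X → E} {φ : ℝ → X → X} (hφ : IsFlow X v φ) {z : Z}
    (hv : Df X (vs ℝ) f (ι z) (v (ι z)) ≠ 0) : LDAt Z.cyl X (fun p => φ p.2 (ι p.1)) (z, 0) := by
  refine ldAt_of_Df univ_mem
    (fun _ _ => fl_sm hφ (smAt_fst.trans (h.sm _ trivial)) smAt_snd) (inv_of_bij ⟨?_, fun w => ?_⟩)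
  · refine (injective_iff_map_eq_zero _).2 fun ⟨u, r⟩ e => ?_
    rw [h.Df_flow hφ] at e
    have e2 := congrArg (Df X (vs ℝ) f (ι z)) e
    rw [map_add, (h.tan z _).1 ⟨u, rfl⟩, map_smul, map_zero, zero_add, smul_eq_mul] at e2
    obtain rfl := (mul_eq_zero.1 e2).resolve_right hv
    rw [zero_smul, add_zero] at e
    rw [(injective_iff_map_eq_zero _).1 (h.inj z) u e]
    rfl
  · obtain ⟨u, hu⟩ := (h.tan z (w - (Df X (vs ℝ) f (ι z) w / Df X (vs ℝ) f (ι z) (v (ι z))) •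
      v (ι z))).2 (by rw [map_sub, map_smul, smul_eq_mul, div_mul_cancel₀ _ hv, sub_self])
    exact ⟨(u, _), by rw [h.Df_flow hφ, hu, sub_add_cancel]⟩

theorem ld_flow {v : X → E} {φ : ℝ → X → X} (hφ : IsFlow X v φ) {z : Z}
    (hv : Df X (vs ℝ) f (ι z) (v (ι z)) ≠ 0) (t : ℝ) :
    LDAt Z.cyl X (fun p => φ p.2 (ι p.1)) (z, t) := by
  have h1 : LDAt Z.cyl X (fun p => φ p.2 (ι p.1)) (z, t + -t) := by
    rw [add_neg_cancel]; exact h.ld_flow0 hφ hv
  refine (((ld_shift (-t) (z, t)).trans h1).trans (fl_ld hφ t _)).congr' (.of_forall fun p => ?_)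
  simp only [← hφ.add]
  rw [add_comm t, neg_add_cancel_right]

/-- an immersion into the level from a manifold of the same dimension -/
theorem ld_of_inj {Y : Mf E''} {g : Y → Z} {y : Y} (hd : finrank ℝ E'' = finrank ℝ E')
    (hs : ∀ᶠ y in 𝓝 y, SmAt Y X (fun y => ι (g y)) y)
    (hi : Injective (Df Y X (fun y => ι (g y)) y)) : LDAt Y Z g y := by
  have h1 : ∀ᶠ y in 𝓝 y, SmAt Y Z g y := hs.mono fun y hy => h.lift _ Y g y hy
  refine ldAt_of_Df h1 (fun _ hy => hy) (inv_of_inj hd ?_)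
  rw [Df_comp h1.self_of_nhds (h.sm _ trivial)] at hi
  exact Injective.of_comp (f := Df Z X ι (g y)) hi

/-- a product chart `a` whose slice `t` lies in the level gives a chart of the level -/
theorem ld_of_cyl {Y : Mf E''} {g : Y → Z} {y : Y} {a : Y.cyl → X} {t : ℝ}
    (hd : finrank ℝ E'' = finrank ℝ E') (ha : LDAt Y.cyl X a (y, t))
    (e : ∀ᶠ y in 𝓝 y, ι (g y) = a (y, t)) : LDAt Y Z g y := by
  have e' : (fun y => ι (g y)) =ᶠ[𝓝 y] fun y => a (y, t) := e
  refine h.ld_of_inj hd ?_ ?_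
  · have hc : ContinuousAt (fun y : Y => (y, t)) y := by fun_prop
    filter_upwards [hc.eventually ha.ev, e'.eventuallyEq_nhds] with y1 h1 h2
    exact ((smAt_id.pair (smAt_const (Y := vs ℝ) t)).trans h1.sm).congr' h2
  · intro u w huw
    rw [Df_congr e', Df_inl ha.sm, Df_inl ha.sm] at huw
    exact congrArg Prod.fst (ha.inv.injective huw)

/-- the same with `g = invFun ι ∘ a (·, t)` -/
theorem ld_of_cyl' {Y : Mf E''} {y : Y} {a : Y.cyl → X} {t : ℝ}
    (hd : finrank ℝ E'' = finrank ℝ E') (ha : LDAt Y.cyl X a (y, t))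
    (e : ∀ᶠ y in 𝓝 y, a (y, t) ∈ K) : LDAt Y Z (fun y => invFun ι (a (y, t))) y :=
  h.ld_of_cyl hd ha (e.mono fun _ => h.inv_eq)

/-- a smooth map with values in the level, as a map to `Z` -/
theorem sm_inv {F : Type} [NormedAddCommGroup F] [NormedSpace ℝ F] {Y : Mf F} {a : Y → X} {y : Y}
    (ha : SmAt Y X a y) (e : ∀ᶠ y in 𝓝 y, a y ∈ K) : SmAt Y Z (fun y => invFun ι (a y)) y :=
  h.lift _ Y _ y (ha.congr' (e.mono fun _ => h.inv_eq))

/-- the dimension of a regular level -/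
theorem dim {z : Z} (hr : Df X (vs ℝ) f (ι z) ≠ 0) : finrank ℝ E' + 1 = finrank ℝ E := by
  have h1 := Module.Dual.finrank_ker_add_one_of_ne_zero (f := (Df X (vs ℝ) f (ι z)).toLinearMap)
    (fun h => hr (ContinuousLinearMap.coe_injective h))
  have h2 : LinearMap.range (Df Z X ι z).toLinearMap =
      LinearMap.ker (Df X (vs ℝ) f (ι z)).toLinearMap := Submodule.ext fun v => h.tan z v
  rw [← h1, ← h2, LinearMap.finrank_range_of_inj (h.inj z)]

/-- the collar given by a flow with `df v = 1` near a compact level -/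
theorem collar {v : X → E} {φ : ℝ → X → X} (hφ : IsFlow X v φ) {O : Set X} {c : ℝ}
    (hK : IsCompact K) (hO : IsOpen O) (hKO : K ⊆ O) (hf : Sm X (vs ℝ) f O)
    (hv : ∀ x ∈ O, Df X (vs ℝ) f x (v x) = 1) (hc : ∀ x ∈ K, f x = c) :
    ∃ δ : ℝ, 0 < δ ∧ OE Z.cyl X (fun p => φ p.2 (ι p.1)) (univ ×ˢ Ioo (-δ) δ) ∧
      ∀ z, ∀ t ∈ Ioo (-δ) δ, φ t (ι z) ∈ O ∧ f (φ t (ι z)) = c + t := by
  obtain ⟨A, B, -, hB, hA, h0, hAB⟩ := generalized_tube_lemma hK (isCompact_singleton (x := 0))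
    (hO.preimage hφ.sm.cont) (by
      rintro ⟨x, t⟩ ⟨hx, rfl⟩
      exact (congrArg (· ∈ O) (hφ.zero x)).mpr (hKO hx))
  obtain ⟨δ, hδ, hb⟩ := Metric.isOpen_iff.1 hB 0 (h0 rfl)
  rw [Real.ball_eq_Ioo, zero_sub, zero_add] at hb
  have h1 : ∀ z, ∀ t ∈ Ioo (-δ) δ, φ t (ι z) ∈ O := fun z t ht =>
    hAB (mk_mem_prod (hA (h.mem z)) (hb ht))
  have h2 : ∀ z, ∀ t ∈ Ioo (-δ) δ, f (φ t (ι z)) = c + t := fun z => by
    have hd : ∀ t ∈ Ioo (-δ) δ, HasDerivAt (fun t => f (φ t (ι z))) 1 t := fun t ht =>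
      hv _ (h1 z t ht) ▸ fl_der hφ (hf _ (h1 z t ht))
    refine isOpen_Ioo.eqOn_of_deriv_eq (f := fun t => f (φ t (ι z))) (g := fun t => c + t) (x := 0)
      isPreconnected_Ioo (fun t ht => (hd t ht).differentiableAt.differentiableWithinAt)
      (by fun_prop) (fun t ht => ?_) ⟨by linarith, hδ⟩ (by rw [hφ.zero, hc _ (h.mem z), add_zero])
    rw [(hd t ht).deriv, ((hasDerivAt_id' t).const_add c).deriv]
  refine ⟨δ, hδ, ⟨isOpen_univ.prod isOpen_Ioo, fun p _ => h.ld_flow hφ ?_ p.2, ?_⟩,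
    fun z t ht => ⟨h1 z t ht, h2 z t ht⟩⟩
  · rw [hv _ (hKO (h.mem _))]
    exact one_ne_zero
  · rintro ⟨z, t⟩ ⟨-, ht⟩ ⟨z', t'⟩ ⟨-, ht'⟩ (e : φ t (ι z) = φ t' (ι z'))
    obtain rfl : t = t' := add_left_cancel ((h2 z t ht).symm.trans (e ▸ h2 z' t' ht'))
    have := congrArg (φ (-t)) e
    rw [fl_neg hφ, fl_neg hφ] at this
    rw [h.emb.injective this]

end Level

theorem level_of (hΦ : FlowMStmt) (hF : FieldStmt) : LevelStmt := by
  intro E E' _ _ _ _ _ _ X f U c hd hU hf hr hne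
  obtain ⟨Z, ι, h⟩ := level1 hd hU hf hr hne
  refine ⟨Z, ι, h, fun hK => ?_⟩
  obtain ⟨v, O, L, hv, hO, hKO, hOL, hLU, hL, h0, h1⟩ :=
    exists_fld hF hd hU hf hK inter_subset_left fun x hx => hr x hx.1 hx.2
  obtain ⟨φ, hφ⟩ := hΦ E X v hv (.inl ⟨L, hL, h0⟩)
  obtain ⟨δ, hδ, h2, h3⟩ :=
    h.collar hφ hK hO hKO (hf.mono (hOL.trans hLU)) h1 (c := c) fun x hx => hx.2
  exact ⟨δ, _, hδ, h2, fun z => hφ.zero _, fun z t ht => ⟨hLU (hOL (h3 z t ht).1), (h3 z t ht).2⟩⟩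

end Pool.Agent.MP_e1dc65_gt
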