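import Mathlib.Topology.Homotopy.Lifting
import Mathlib.Topology.Subpath
import Mathlib.Topology.LocallyConstant.Basic
import Pool.Agent.MP_e1dc65_gt.Top

/-! PROJECT HC, row CECH: the holonomy of a locally constant cocycle. -/

open scoped Topology unitInterval
open Set Filter

noncomputable section

namespace Pool.Agent.MP_e1dc65_gt

namespace CechP

variable {X G ι : Type} [TopologicalSpace X] [Group G]

/-- a cocycle on the square is a coboundary -/
theorem sq_lift (U : ι → Set (I × I)) (ρ : ι → I × I → G) (hU : ∀ i, IsOpen (U i))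
    (hc : ∀ z, ∃ i, z ∈ U i)
    (hρ : ∀ i j, ∀ z ∈ U i ∩ U j, ∀ᶠ w in 𝓝 z, ρ i w * (ρ j w)⁻¹ = ρ i z * (ρ j z)⁻¹) :
    ∃ u : I × I → G, ∀ i, ∀ z ∈ U i, ∀ᶠ w in 𝓝 z, u w * (ρ i w)⁻¹ = u z * (ρ i z)⁻¹ := by
  let _ : TopologicalSpace G := ⊥
  have : DiscreteTopology G := ⟨rfl⟩
  choose c hc using hc
  let Z : FiberBundleCore ι (I × I) G :=
    { baseSet := U
      isOpen_baseSet := hU
      indexAt := c
      mem_baseSet_at := hc
      coordChange := fun i j z a => a * (ρ i z * (ρ j z)⁻¹)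
      coordChange_self := fun i z _ a => by simp
      continuousOn_coordChange := fun i j => by
        refine continuousOn_prod_of_discrete_right.2 fun a => ?_
        intro z hz
        refine ContinuousAt.continuousWithinAt ?_
        refine (continuousAt_const (y := a * (ρ i z * (ρ j z)⁻¹))).congr ?_
        filter_upwards [hρ i j z hz.1] with w hw
        rw [hw]
      coordChange_comp := fun i j k z _ a => by simp [mul_assoc] }
  have cov : IsCoveringMap (Bundle.TotalSpace.proj : Z.TotalSpace → I × I) :=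
    FiberBundle.isCoveringMap
  let γ : C(I, I × I) := ⟨fun t => (0, t), by fun_prop⟩
  let e : Z.TotalSpace := ⟨(0, 0), (1 : G)⟩
  let f := cov.liftPath γ e rfl
  have hf : ∀ a, (ContinuousMap.id (I × I)) (0, a) = (f a).proj := fun a =>
    (congr_fun (cov.liftPath_lifts γ e rfl) a).symm
  let Γ := cov.liftHomotopy (ContinuousMap.id (I × I)) f hf
  have hΓ : ∀ z, (Γ z).proj = z := fun z =>
    congr_fun (cov.liftHomotopy_lifts (ContinuousMap.id (I × I)) f hf) z
  refine ⟨fun z => (show G from (Γ z).2) * ρ (c z) z, fun i z hz => ?_⟩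
  have h1 : ContinuousAt (fun w => (Z.localTriv i (Γ w)).2) z := by
    refine continuousAt_snd.comp (ContinuousAt.comp ?_ Γ.continuous.continuousAt)
    refine (Z.localTriv i).continuousAt ?_
    rw [Z.mem_localTriv_source, hΓ]
    exact hz
  have h2 : ∀ w, (Z.localTriv i (Γ w)).2 = (show G from (Γ w).2) * ρ (c w) w * (ρ i w)⁻¹ := by
    intro w
    show (show G from (Γ w).2) * (ρ (c (Γ w).proj) (Γ w).proj * (ρ i (Γ w).proj)⁻¹) = _
    rw [hΓ, mul_assoc]
  have h3 := h1.eventually (p := fun a => a = (Z.localTriv i (Γ z)).2)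
    (by rw [nhds_discrete]; rfl)
  filter_upwards [h3] with w hw
  rw [← h2, ← h2, hw]

/-- `u` is a development along `F` of the local sections `ρ` -/
def Lf {Z : Type} [TopologicalSpace Z] (U : ι → Set X) (ρ : ι → X → G) (F : Z → X) (u : Z → G) :
    Prop :=
  ∀ i z, F z ∈ U i → ∀ᶠ w in 𝓝 z, u w * (ρ i (F w))⁻¹ = u z * (ρ i (F z))⁻¹

variable {U : ι → Set X} {ρ : ι → X → G} {T : Set X}

omit [TopologicalSpace X] in
theorem Lf.comp {Z W : Type} [TopologicalSpace Z] [TopologicalSpace W] {F : Z → X} {u : Z → G}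
    (h : Lf U ρ F u) {k : W → Z} (hk : Continuous k) {F' : W → X} (hF : ∀ w, F' w = F (k w)) :
    Lf U ρ F' fun w => u (k w) := by
  intro i z hz
  rw [hF] at hz
  filter_upwards [hk.continuousAt.eventually (h i (k z) hz)] with w hw
  rw [hF, hF, hw]

omit [TopologicalSpace X] in
theorem Lf.uniq (hc : ∀ x ∈ T, ∃ i, x ∈ U i) {F : I → X} (hF : ∀ t, F t ∈ T) {u v : I → G}
    (hu : Lf U ρ F u) (hv : Lf U ρ F v) : (u 0)⁻¹ * u 1 = (v 0)⁻¹ * v 1 := by
  have h : IsLocallyConstant fun t => u t * (v t)⁻¹ := by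
    refine (IsLocallyConstant.iff_eventually_eq _).2 fun t => ?_
    obtain ⟨i, hi⟩ := hc _ (hF t)
    filter_upwards [hu i t hi, hv i t hi] with w h1 h2
    calc u w * (v w)⁻¹ = u w * (ρ i (F w))⁻¹ * (v w * (ρ i (F w))⁻¹)⁻¹ := by group
      _ = u t * (v t)⁻¹ := by rw [h1, h2]; group
  have := h.apply_eq_of_preconnectedSpace 1 0
  calc (u 0)⁻¹ * u 1 = (u 0)⁻¹ * (u 1 * (v 1)⁻¹) * v 1 := by group
    _ = (v 0)⁻¹ * v 1 := by rw [this]; group

theorem ex_lift (hU : ∀ i, IsOpen (U i)) (hc : ∀ x ∈ T, ∃ i, x ∈ U i)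
    (hρ : ∀ i j, LC (fun x => ρ i x * (ρ j x)⁻¹) (T ∩ U i ∩ U j)) {F : I × I → X}
    (hF : Continuous F) (hT : ∀ z, F z ∈ T) : ∃ u, Lf U ρ F u := by
  obtain ⟨u, hu⟩ := sq_lift (fun i => F ⁻¹' U i) (fun i z => ρ i (F z))
    (fun i => (hU i).preimage hF) (fun z => hc _ (hT z)) (fun i j z hz => by
      refine Tendsto.eventually (f := F) ?_ (hρ i j (F z) ⟨⟨hT z, hz.1⟩, hz.2⟩)
      refine tendsto_nhdsWithin_iff.2 ⟨hF.continuousAt, ?_⟩
      filter_upwards [((hU i).preimage hF).mem_nhds hz.1, ((hU j).preimage hF).mem_nhds hz.2]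
        with w h1 h2
      exact ⟨⟨hT w, h1⟩, h2⟩)
  exact ⟨u, hu⟩

/-- local sections with locally constant ratios are parallel for one holonomy -/
theorem cech2 (hU : ∀ i, IsOpen (U i)) (hc : ∀ x ∈ T, ∃ i, x ∈ U i)
    (hρ : ∀ i j, LC (fun x => ρ i x * (ρ j x)⁻¹) (T ∩ U i ∩ U j)) :
    ∃ τ : ∀ x y : X, Path x y → G, Hol T τ ∧ ∀ i, Par τ (T ∩ U i) (ρ i) := by
  classical
  have ex : ∀ x y (γ : Path x y), In γ T → ∃ u, Lf U ρ γ u := fun x y γ h => by
    obtain ⟨u, hu⟩ := ex_lift hU hc hρ (F := fun z : I × I => γ z.1) (by fun_prop)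
      fun z => h z.1
    exact ⟨_, hu.comp (k := fun t : I => (t, (0 : I))) (by fun_prop) fun _ => rfl⟩
  obtain ⟨τ, hτ⟩ : ∃ τ : ∀ x y : X, Path x y → G, ∀ x y (γ : Path x y), In γ T →
      ∀ u, Lf U ρ γ u → τ x y γ = (u 0)⁻¹ * u 1 := by
    refine ⟨fun x y γ => if h : In γ T then ((ex x y γ h).choose 0)⁻¹ * (ex x y γ h).choose 1
      else 1, fun x y γ h u hu => ?_⟩
    simp only [dif_pos h]
    exact Lf.uniq hc h (ex x y γ h).choose_spec hu
  refine ⟨τ, ⟨fun x y z γ δ h1 h2 => ?_, fun x y γ δ ⟨H, hH⟩ => ?_⟩, fun i x y γ h => ?_⟩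
  · have h3 : In (γ.trans δ) T := fun t => by
      rw [Path.trans_apply]; split_ifs
      exacts [h1 _, h2 _]
    obtain ⟨u, hu⟩ := ex _ _ _ h3
    let k1 : I → I := fun t => ⟨t / 2, by constructor <;> linarith [t.2.1, t.2.2]⟩
    let k2 : I → I := fun t => ⟨(t + 1) / 2, by constructor <;> linarith [t.2.1, t.2.2]⟩
    have e1 : ∀ t, γ t = (γ.trans δ) (k1 t) := fun t => by
      rw [Path.trans_apply, dif_pos (show (t : ℝ) / 2 ≤ 1 / 2 by linarith [t.2.2])]
      congr 1; ext; simp only [k1]; ring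
    have e2 : ∀ t, δ t = (γ.trans δ) (k2 t) := fun t => by
      rw [Path.trans_apply]; split_ifs with h
      · have h0 : t = 0 := by
          ext; have : ((t : ℝ) + 1) / 2 ≤ 1 / 2 := h
          have := t.2.1; simp only [Icc.coe_zero]; linarith
        subst h0
        refine δ.source.trans (γ.target.symm.trans ?_)
        congr 1; ext; simp [k2]
      · congr 1; ext; simp only [k2]; ring
    rw [hτ _ _ _ h3 u hu, hτ _ _ _ h1 _ (hu.comp (k := k1) (by fun_prop) e1),
      hτ _ _ _ h2 _ (hu.comp (k := k2) (by fun_prop) e2)]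
    have a1 : k1 0 = 0 := by ext; simp [k1]
    have a2 : k2 1 = 1 := by ext; simp [k2]
    have a3 : k2 0 = k1 1 := by ext; simp [k1, k2]
    simp only [a1, a2, a3]
    group
  · obtain ⟨u, hu⟩ := ex_lift hU hc hρ H.continuous hH
    have h1 : In γ T := fun t => by simpa using hH (0, t)
    have h2 : In δ T := fun t => by simpa using hH (1, t)
    have hx : x ∈ T := by simpa using h1 0
    have hy : y ∈ T := by simpa using h1 1
    have c1 : ∀ p : X, Lf U ρ (fun _ : I => p) fun _ => (1 : G) := fun p i z _ => by simp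
    have b0 := Lf.uniq hc (fun _ => hx)
      (hu.comp (k := fun s : I => (s, (0 : I))) (by fun_prop) fun s => (H.source s).symm) (c1 x)
    have b1 := Lf.uniq hc (fun _ => hy)
      (hu.comp (k := fun s : I => (s, (1 : I))) (by fun_prop) fun s => (H.target s).symm) (c1 y)
    rw [hτ _ _ _ h1 _ (hu.comp (k := fun t : I => ((0 : I), t)) (by fun_prop) fun t => by simp),
      hτ _ _ _ h2 _ (hu.comp (k := fun t : I => ((1 : I), t)) (by fun_prop) fun t => by simp)]
    simp only [inv_one, mul_one, inv_mul_eq_one] at b0 b1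
    rw [b0, b1]
  · have hl : Lf U ρ γ fun t => ρ i (γ t) := by
      intro j t hj
      refine Tendsto.eventually (f := γ) ?_ (hρ i j (γ t) ⟨h t, hj⟩)
      refine tendsto_nhdsWithin_iff.2 ⟨γ.continuous.continuousAt, ?_⟩
      filter_upwards [((hU j).preimage γ.continuous).mem_nhds hj] with w h2
      exact ⟨h w, h2⟩
    rw [hτ _ _ _ (fun t => (h t).1) _ hl]
    simp

end CechP

theorem cech : CechStmt := by
  intro X G ι _ _ T U g hU hc hg hco
  classical
  let s : ι → X → G := fun i x => if h : x ∈ T then g i (hc x h).choose x else 1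
  have hs : ∀ i j, ∀ x ∈ T ∩ U i ∩ U j, s i x = g i j x * s j x := fun i j x hx => by
    simp only [s, dif_pos hx.1.1]
    exact (hco _ _ _ x ⟨hx, (hc x hx.1.1).choose_spec⟩).symm
  obtain ⟨τ, h1, h2⟩ := CechP.cech2 (ρ := s) hU hc fun i j x hx => by
    filter_upwards [hg i j x hx, self_mem_nhdsWithin] with y h1 h2
    rw [hs i j y h2, hs i j x hx, h1]
    simp
  exact ⟨τ, s, h1, h2, hs⟩

end Pool.Agent.MP_e1dc65_gt
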