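import Pool.Agent.MP_e1dc65_gt.Top
import Mathlib.AlgebraicTopology.FundamentalGroupoid.Basic
import Mathlib.CategoryTheory.Groupoid.VertexGroup
import Mathlib.Topology.LocallyConstant.Basic

/-! PROJECT HC, toolkit HOL: calculus of paths in subsets, holonomies and parallel sections. -/

open scoped Topology unitInterval
open Set Filter

noncomputable section

namespace Pool.Agent.MP_e1dc65_gt

variable {X Y : Type} [TopologicalSpace X] [TopologicalSpace Y] {G G' : Type} [Group G] [Group G']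

/-! ### paths in a set -/

section paths
variable {S S' T T' : Set X} {x y z w : X}

theorem In.source {γ : Path x y} (h : In γ S) : x ∈ S := γ.source ▸ h 0
theorem In.target {γ : Path x y} (h : In γ S) : y ∈ S := γ.target ▸ h 1
theorem In.mono {γ : Path x y} (h : In γ S) (hS : S ⊆ T) : In γ T := fun t => hS (h t)
theorem In.refl (h : x ∈ S) : In (Path.refl x) S := fun _ => h
theorem In.symm {γ : Path x y} (h : In γ S) : In γ.symm S := fun _ => h _
theorem In.trans {γ : Path x y} {δ : Path y z} (h : In γ S) (h' : In δ S) : In (γ.trans δ) S := by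
  intro t
  rw [Path.trans_apply]
  split_ifs
  · exact h _
  · exact h' _
theorem In.inter {γ : Path x y} (h : In γ S) (h' : In γ T) : In γ (S ∩ T) := fun t => ⟨h t, h' t⟩
theorem In.extend {γ : Path x y} (h : In γ S) (t : ℝ) : γ.extend t ∈ S := h _
theorem In.joined {γ : Path x y} (h : In γ S) : JoinedIn S x y := ⟨γ, h⟩
theorem in_trans_iff {γ : Path x y} {δ : Path y z} : In (γ.trans δ) S ↔ In γ S ∧ In δ S := by
  refine ⟨fun h => ?_, fun h => h.1.trans h.2⟩
  have : range (γ.trans δ) ⊆ S := range_subset_iff.2 h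
  rw [Path.trans_range, union_subset_iff] at this
  exact ⟨range_subset_iff.1 this.1, range_subset_iff.1 this.2⟩
theorem in_univ (γ : Path x y) : In γ univ := fun _ => trivial

/-- the image of a path in `S` under a map continuous on `S` -/
def push (f : X → Y) (hf : ContinuousOn f S) (γ : Path x y) (h : In γ S) : Path (f x) (f y) where
  toFun t := f (γ t)
  continuous_toFun := hf.comp_continuous γ.continuous h
  source' := by simp
  target' := by simp
@[simp] theorem push_apply (f : X → Y) (hf : ContinuousOn f S) (γ : Path x y) (h : In γ S) (t : I) :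
    push f hf γ h t = f (γ t) := rfl
theorem in_push {f : X → Y} (hf : ContinuousOn f S) {γ : Path x y} (h : In γ S) {U : Set Y}
    (hS : In γ S') (hU : MapsTo f S' U) : In (push f hf γ h) U := fun t => hU (hS t)

theorem trans_eq_comp {f : Y → X} {a b c : Y} {γ : Path x y} {δ : Path y z} {p : Path a b}
    {q : Path b c} (h1 : ∀ t, γ t = f (p t)) (h2 : ∀ t, δ t = f (q t)) (t : I) :
    γ.trans δ t = f (p.trans q t) := by
  rw [Path.trans_apply, Path.trans_apply]
  split_ifs
  · exact h1 _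
  · exact h2 _

theorem push_trans (f : X → Y) (hf : ContinuousOn f S) (γ : Path x y) (δ : Path y z) (h : In γ S)
    (h' : In δ S) : push f hf (γ.trans δ) (h.trans h') = (push f hf γ h).trans (push f hf δ h') :=
  Path.ext (funext fun t => (trans_eq_comp (fun _ => rfl) (fun _ => rfl) t).symm)

/-- the segment of a curve between two times -/
def seg (f : ℝ → X) (hf : Continuous f) (a b : ℝ) : Path (f a) (f b) where
  toFun t := f (a + t * (b - a))
  continuous_toFun := hf.comp (by fun_prop)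
  source' := by simp
  target' := by simp
@[simp] theorem seg_apply (f : ℝ → X) (hf : Continuous f) (a b : ℝ) (t : I) :
    seg f hf a b t = f (a + t * (b - a)) := rfl
theorem seg_mem (a b : ℝ) (t : I) : a + t * (b - a) ∈ uIcc a b := by
  have h0 := t.2.1
  have h1 := t.2.2
  rcases le_total a b with h | h
  · rw [uIcc_of_le h]; constructor <;> nlinarith
  · rw [uIcc_of_ge h]; constructor <;> nlinarith
theorem in_seg {f : ℝ → X} (hf : Continuous f) {a b : ℝ} (h : MapsTo f (uIcc a b) S) :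
    In (seg f hf a b) S := fun t => h (seg_mem a b t)

/-! ### homotopies in a set -/

theorem hin_mk {γ δ : Path x y} (F : I × I → X) (hF : Continuous F) (h0 : ∀ t, F (0, t) = γ t)
    (h1 : ∀ t, F (1, t) = δ t) (hs : ∀ s, F (s, 0) = x) (ht : ∀ s, F (s, 1) = y)
    (hT : ∀ p, F p ∈ T) : HIn T γ δ := by
  refine ⟨⟨⟨⟨F, hF⟩, h0, h1⟩, fun s t hm => ?_⟩, hT⟩
  rcases hm with hm | hm
  · rw [hm]; exact (hs s).trans γ.source.symm
  · rw [mem_singleton_iff.1 hm]; exact (ht s).trans γ.target.symm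

theorem HIn.refl {γ : Path x y} (h : In γ T) : HIn T γ γ :=
  ⟨Path.Homotopy.refl γ, fun p => h p.2⟩
theorem HIn.of_eq {γ δ : Path x y} (h : In γ T) (e : ∀ t, γ t = δ t) : HIn T γ δ := by
  rw [← show γ = δ from Path.ext (funext e)]; exact HIn.refl h
theorem HIn.symm {γ δ : Path x y} (h : HIn T γ δ) : HIn T δ γ :=
  let ⟨H, hH⟩ := h; ⟨H.symm, fun _ => hH _⟩
theorem HIn.trans {γ δ ε : Path x y} (h : HIn T γ δ) (h' : HIn T δ ε) : HIn T γ ε := by
  obtain ⟨H, hH⟩ := h
  obtain ⟨K, hK⟩ := h'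
  refine ⟨H.trans K, fun p => ?_⟩
  rw [Path.Homotopy.trans_apply]
  split_ifs
  · exact hH _
  · exact hK _
theorem HIn.mono {γ δ : Path x y} (h : HIn T γ δ) (hT : T ⊆ T') : HIn T' γ δ :=
  let ⟨H, hH⟩ := h; ⟨H, fun p => hT (hH p)⟩
theorem HIn.left {γ δ : Path x y} (h : HIn T γ δ) : In γ T := fun t => by
  obtain ⟨H, hH⟩ := h
  have := hH (0, t)
  rwa [H.apply_zero] at this
theorem HIn.right {γ δ : Path x y} (h : HIn T γ δ) : In δ T := h.symm.left
/-- homotopies of concatenated paths -/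
theorem HIn.hcomp {γ γ' : Path x y} {δ δ' : Path y z} (h : HIn T γ γ') (h' : HIn T δ δ') :
    HIn T (γ.trans δ) (γ'.trans δ') := by
  obtain ⟨H, hH⟩ := h
  obtain ⟨K, hK⟩ := h'
  refine ⟨H.hcomp K, fun p => ?_⟩
  rw [Path.Homotopy.hcomp_apply]
  split_ifs
  · exact hH _
  · exact hK _
theorem HIn.rev {γ δ : Path x y} (h : HIn T γ δ) : HIn T γ.symm δ.symm :=
  let ⟨H, hH⟩ := h; ⟨H.symm₂, fun _ => hH _⟩
/-- image of a homotopy -/
theorem HIn.map {γ δ : Path x y} (h : HIn T γ δ) {f : X → Y} (hf : ContinuousOn f T) {U : Set Y}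
    (hU : MapsTo f T U) {a b : Y} {γ' δ' : Path a b} (h1 : ∀ t, γ' t = f (γ t))
    (h2 : ∀ t, δ' t = f (δ t)) : HIn U γ' δ' := by
  obtain ⟨H, hH⟩ := h
  refine hin_mk (fun p => f (H p)) (hf.comp_continuous H.continuous hH) (fun t => ?_) (fun t => ?_)
    (fun s => ?_) (fun s => ?_) fun p => hU (hH p)
  · rw [H.apply_zero, h1]; rfl
  · rw [H.apply_one, h2]; rfl
  · rw [H.source, ← γ'.source, h1, γ.source]
  · rw [H.target, ← γ'.target, h1, γ.target]
theorem hin_univ {γ δ : Path x y} : HIn univ γ δ ↔ γ.Homotopic δ :=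
  ⟨fun ⟨H, _⟩ => ⟨H⟩, fun ⟨H⟩ => ⟨H, fun _ => trivial⟩⟩

/-- two paths that come from a convex set through a continuous map are homotopic -/
theorem hin_convex {E : Type} [AddCommGroup E] [Module ℝ E] [TopologicalSpace E] [ContinuousAdd E]
    [ContinuousSMul ℝ E] {C : Set E} (hC : Convex ℝ C) {H : E → X} (hH : ContinuousOn H C)
    (hT : MapsTo H C T) {a b : E} (p q : Path a b) (hp : In p C) (hq : In q C) {γ δ : Path x y}
    (hγ : ∀ t, γ t = H (p t)) (hδ : ∀ t, δ t = H (q t)) : HIn T γ δ := by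
  have hm : ∀ u : I × I, (1 - (u.1 : ℝ)) • p u.2 + (u.1 : ℝ) • q u.2 ∈ C := fun u =>
    hC (hp _) (hq _) (sub_nonneg.2 u.1.2.2) u.1.2.1 (by ring)
  refine hin_mk (fun u => H ((1 - (u.1 : ℝ)) • p u.2 + (u.1 : ℝ) • q u.2))
    (hH.comp_continuous (by fun_prop) hm) (fun t => by simp [hγ]) (fun t => by simp [hδ])
    (fun s => ?_) (fun s => ?_) fun u => hT (hm u)
  · simp only [Path.source]
    rw [← add_smul, sub_add_cancel, one_smul, ← γ.source, hγ, p.source]
  · simp only [Path.target]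
    rw [← add_smul, sub_add_cancel, one_smul, ← γ.target, hγ, p.target]

/-- the path as a path in the subtype -/
def sub (γ : Path x y) (h : In γ T) : Path (⟨x, h.source⟩ : T) ⟨y, h.target⟩ where
  toFun t := ⟨γ t, h t⟩
  continuous_toFun := γ.continuous.subtype_mk h
  source' := Subtype.ext γ.source
  target' := Subtype.ext γ.target

theorem hin_of_homotopic {a b : T} {p q : Path a b} (h : p.Homotopic q) {γ δ : Path x y}
    (hγ : ∀ t, γ t = p t) (hδ : ∀ t, δ t = q t) : HIn T γ δ :=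
  (hin_univ.2 h).map continuous_subtype_val.continuousOn (fun u _ => u.2) hγ hδ

theorem HIn.homotopic {γ δ : Path x y} (h : HIn T γ δ) :
    (sub γ h.left).Homotopic (sub δ h.right) := by
  obtain ⟨H, hH⟩ := h
  refine hin_univ.1 (hin_mk (fun p => ⟨H p, hH p⟩) (H.continuous.subtype_mk hH)
    (fun t => Subtype.ext (H.apply_zero t)) (fun t => Subtype.ext (H.apply_one t))
    (fun s => Subtype.ext (H.source s)) (fun s => Subtype.ext (H.target s)) fun _ => trivial)

theorem sub_trans (γ : Path x y) (δ : Path y z) (h : In γ T) (h' : In δ T) :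
    sub (γ.trans δ) (h.trans h') = (sub γ h).trans (sub δ h') :=
  Path.ext (funext fun t => Subtype.ext (trans_eq_comp (fun _ => rfl) (fun _ => rfl) t))

theorem hin_trans_symm {γ : Path x y} (h : In γ T) : HIn T (γ.trans γ.symm) (Path.refl x) :=
  hin_of_homotopic (Path.Homotopic.trans_symm (sub γ h))
    (trans_eq_comp (fun _ => rfl) fun _ => rfl) fun _ => rfl
theorem hin_symm_trans {γ : Path x y} (h : In γ T) : HIn T (γ.symm.trans γ) (Path.refl y) :=
  hin_of_homotopic (Path.Homotopic.symm_trans (sub γ h))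
    (trans_eq_comp (fun _ => rfl) fun _ => rfl) fun _ => rfl
theorem hin_refl_trans {γ : Path x y} (h : In γ T) : HIn T ((Path.refl x).trans γ) γ :=
  hin_of_homotopic (Path.Homotopic.refl_trans (sub γ h))
    (trans_eq_comp (fun _ => rfl) fun _ => rfl) fun _ => rfl
theorem hin_trans_refl {γ : Path x y} (h : In γ T) : HIn T (γ.trans (Path.refl y)) γ :=
  hin_of_homotopic (Path.Homotopic.trans_refl (sub γ h))
    (trans_eq_comp (fun _ => rfl) fun _ => rfl) fun _ => rfl
theorem hin_trans_assoc {γ : Path x y} {δ : Path y z} {ε : Path z w} (h1 : In γ T) (h2 : In δ T)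
    (h3 : In ε T) : HIn T ((γ.trans δ).trans ε) (γ.trans (δ.trans ε)) :=
  hin_of_homotopic (Path.Homotopic.trans_assoc (sub γ h1) (sub δ h2) (sub ε h3))
    (trans_eq_comp (trans_eq_comp (fun _ => rfl) fun _ => rfl) fun _ => rfl)
    (trans_eq_comp (fun _ => rfl) (trans_eq_comp (fun _ => rfl) fun _ => rfl))

/-- the straight path in the real line -/
def lin (a b : ℝ) : Path a b := seg id continuous_id a b

theorem hin_seg {f : ℝ → X} (hf : Continuous f) {C : Set ℝ} (hC : Convex ℝ C) (hT : MapsTo f C T)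
    {a b c : ℝ} (ha : a ∈ C) (hb : b ∈ C) (hc : c ∈ C) :
    HIn T ((seg f hf a b).trans (seg f hf b c)) (seg f hf a c) := by
  have key : ∀ u ∈ C, ∀ v ∈ C, In (lin u v) C := fun u hu v hv t =>
    hC.ordConnected.uIcc_subset hu hv (seg_mem u v t)
  exact hin_convex hC hf.continuousOn hT ((lin a b).trans (lin b c)) (lin a c)
    ((key a ha b hb).trans (key b hb c hc)) (key a ha c hc)
    (trans_eq_comp (fun _ => rfl) fun _ => rfl) fun _ => rfl

theorem Thin.mono (h : Thin S T) (hS : S' ⊆ S) (hT : T ⊆ T') : Thin S' T' :=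
  fun x γ hγ => (h x γ (hγ.mono hS)).mono hT
theorem Thin.subset (h : Thin S T) : S ⊆ T := fun x hx => (h x _ (In.refl hx)).left.source
/-- in a thin set any two paths with the same ends are homotopic -/
theorem Thin.hin (h : Thin S T) {γ δ : Path x y} (h1 : In γ S) (h2 : In δ S) : HIn T γ δ := by
  have g1 := h1.mono h.subset
  have g2 := h2.mono h.subset
  exact (hin_trans_refl g1).symm.trans (((HIn.refl g1).hcomp (hin_symm_trans g2).symm).trans
    ((hin_trans_assoc g1 g2.symm g2).symm.trans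
      (((h x _ (h1.trans h2.symm)).hcomp (HIn.refl g2)).trans (hin_refl_trans g2))))
theorem thin_of_base (hS : S ⊆ T) (hx : ∀ y ∈ S, JoinedIn S x y)
    (h : ∀ γ : Path x x, In γ S → HIn T γ (Path.refl x)) : Thin S T := by
  intro y γ hγ
  obtain ⟨α, hα⟩ := hx y hγ.source
  have hα' : In α S := hα
  have g1 := hα'.mono hS
  have g2 := hγ.mono hS
  have e1 : HIn T (α.symm.trans ((α.trans γ).trans α.symm)) (γ.trans α.symm) :=
    (hin_trans_assoc g1.symm (g1.trans g2) g1.symm).symm.trans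
      (((hin_trans_assoc g1.symm g1 g2).symm.trans
        (((hin_symm_trans g1).hcomp (HIn.refl g2)).trans (hin_refl_trans g2))).hcomp
          (HIn.refl g1.symm))
  have e2 : HIn T (γ.trans α.symm) α.symm :=
    e1.symm.trans (((HIn.refl g1.symm).hcomp (h _ ((hα'.trans hγ).trans hα'.symm))).trans
      (hin_trans_refl g1.symm))
  exact (hin_trans_refl g2).symm.trans (((HIn.refl g2).hcomp (hin_symm_trans g1).symm).trans
    ((hin_trans_assoc g2 g1.symm g1).symm.trans
      ((e2.hcomp (HIn.refl g1)).trans (hin_symm_trans g1))))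
theorem thin_convex {E : Type} [AddCommGroup E] [Module ℝ E] [TopologicalSpace E] [ContinuousAdd E]
    [ContinuousSMul ℝ E] {C : Set E} (hC : Convex ℝ C) : Thin C C := fun x γ h =>
  hin_convex hC continuousOn_id (mapsTo_id C) γ (Path.refl x) h (In.refl h.source)
    (fun _ => rfl) fun _ => rfl
theorem thin_prod {U V : Set Y} (h : Thin S T) (h' : Thin U V) : Thin (S ×ˢ U) (T ×ˢ V) := by
  intro p γ hγ
  obtain ⟨H, hH⟩ := h p.1 (γ.map continuous_fst) fun t => (hγ t).1
  obtain ⟨K, hK⟩ := h' p.2 (γ.map continuous_snd) fun t => (hγ t).2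
  exact hin_mk (fun u => (H u, K u)) (H.continuous.prodMk K.continuous)
    (fun t => Prod.ext (H.apply_zero t) (K.apply_zero t))
    (fun t => Prod.ext (H.apply_one t) (K.apply_one t))
    (fun s => Prod.ext (H.source s) (K.source s)) (fun s => Prod.ext (H.target s) (K.target s))
    fun u => ⟨hH u, hK u⟩

/-! ### locally constant functions -/

theorem LC.mono {A : Type} {f : X → A} (h : LC f S) (hS : S' ⊆ S) : LC f S' :=
  fun x hx => (h x (hS hx)).filter_mono (nhdsWithin_mono x hS)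
theorem lc_const {A : Type} (a : A) : LC (fun _ : X => a) S := fun _ _ => Eventually.of_forall fun _ => rfl
theorem LC.comp {A B : Type} {f : X → A} (h : LC f S) (φ : A → B) : LC (fun x => φ (f x)) S :=
  fun x hx => (h x hx).mono fun _ hy => congrArg φ hy
theorem LC.comp₂ {A B C : Type} {f : X → A} {g : X → B} (h : LC f S) (h' : LC g S)
    (φ : A → B → C) : LC (fun x => φ (f x) (g x)) S :=
  fun x hx => ((h x hx).and (h' x hx)).mono fun _ hy => congrArg₂ φ hy.1 hy.2
theorem LC.congr {A : Type} {f g : X → A} (h : LC f S) (e : EqOn g f S) : LC g S := fun x hx => by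
  filter_upwards [h x hx, self_mem_nhdsWithin] with y hy hyS
  rw [e hyS, hy, e hx]
theorem LC.pull {A : Type} {f : X → A} (h : LC f S) {U : Set Y} {g : Y → X}
    (hg : ContinuousOn g U) (hU : MapsTo g U S) : LC (fun y => f (g y)) U :=
  fun y hy => ((hg y hy).tendsto_nhdsWithin hU).eventually (h _ (hU hy))
theorem LC.path {A : Type} {f : X → A} (h : LC f S) {γ : Path x y} (hγ : In γ S) : f y = f x := by
  have h1 : IsLocallyConstant fun t => f (γ t) := by
    refine (IsLocallyConstant.iff_eventually_eq _).2 fun t => ?_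
    simpa only [nhdsWithin_univ] using
      h.pull γ.continuous.continuousOn (fun t _ => hγ t) t (mem_univ t)
  have := h1.apply_eq_of_preconnectedSpace 1 0
  rwa [γ.source, γ.target] at this
theorem LC.joined {A : Type} {f : X → A} (h : LC f S) (hj : JoinedIn S x y) : f y = f x :=
  let ⟨_, hγ⟩ := hj; h.path hγ
end paths

/-! ### holonomies -/

section hol
variable {S S' T T' : Set X} {x y z w : X} {τ τ' : ∀ x y : X, Path x y → G} {s s' : X → G}

omit [Group G] in
theorem tau_congr (τ : ∀ x y : X, Path x y → G) {γ : Path x y} {δ : Path z w}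
    (h : ∀ t, γ t = δ t) : τ x y γ = τ z w δ := by
  obtain rfl : x = z := by rw [← γ.source, h, δ.source]
  obtain rfl : y = w := by rw [← γ.target, h, δ.target]
  rw [show γ = δ from Path.ext (funext h)]

theorem Hol.refl (h : Hol T τ) (hx : x ∈ T) : τ x x (Path.refl x) = 1 := by
  have := h.mul x x x _ _ (In.refl hx) (In.refl hx)
  rw [Path.refl_trans_refl] at this
  exact left_eq_mul.1 this
theorem Hol.null (h : Hol T τ) {γ : Path x x} (hγ : HIn T γ (Path.refl x)) : τ x x γ = 1 :=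
  (h.hom _ _ _ _ hγ).trans (h.refl hγ.left.source)
theorem Hol.const (h : Hol T τ) {γ : Path x y} (hx : x ∈ T) (hγ : ∀ t, γ t = x) : τ x y γ = 1 :=
  (tau_congr τ (δ := Path.refl x) hγ).trans (h.refl hx)
theorem Hol.symm (h : Hol T τ) {γ : Path x y} (hγ : In γ T) : τ y x γ.symm = (τ x y γ)⁻¹ := by
  have := h.null (hin_trans_symm hγ)
  rw [h.mul _ _ _ _ _ hγ hγ.symm] at this
  exact (eq_inv_of_mul_eq_one_right this)
theorem Hol.mono (h : Hol T τ) (hS : S ⊆ T) : Hol S τ :=
  ⟨fun x y z γ δ h1 h2 => h.mul x y z γ δ (h1.mono hS) (h2.mono hS),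
    fun x y γ δ h1 => h.hom x y γ δ (h1.mono hS)⟩
theorem Hol.map (h : Hol T τ) (φ : G →* G') : Hol T fun x y γ => φ (τ x y γ) :=
  ⟨fun x y z γ δ h1 h2 => by rw [h.mul x y z γ δ h1 h2, map_mul],
    fun x y γ δ h1 => by rw [h.hom x y γ δ h1]⟩
theorem Hol.congr (h : Hol T τ) (e : ∀ x y γ, In γ T → τ' x y γ = τ x y γ) : Hol T τ' :=
  ⟨fun x y z γ δ h1 h2 => by rw [e _ _ _ (h1.trans h2), e _ _ _ h1, e _ _ _ h2, h.mul x y z γ δ h1 h2],
    fun x y γ δ h1 => by rw [e _ _ _ h1.left, e _ _ _ h1.right, h.hom x y γ δ h1]⟩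
/-- change of gauge -/
theorem Hol.gauge (h : Hol T τ) (k : X → G) : Hol T fun x y γ => (k x)⁻¹ * τ x y γ * k y :=
  ⟨fun x y z γ δ h1 h2 => by rw [h.mul x y z γ δ h1 h2]; group,
    fun x y γ δ h1 => by rw [h.hom x y γ δ h1]⟩
theorem Hol.prod {μ : ∀ x y : X, Path x y → G'} (h : Hol T τ) (h' : Hol T μ) :
    Hol T fun x y γ => (τ x y γ, μ x y γ) :=
  ⟨fun x y z γ δ h1 h2 => by rw [h.mul x y z γ δ h1 h2, h'.mul x y z γ δ h1 h2]; rfl,
    fun x y γ δ h1 => by rw [h.hom x y γ δ h1, h'.hom x y γ δ h1]⟩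
theorem hol_of_section (T : Set X) (s : X → G) : Hol T fun x y _ => (s x)⁻¹ * s y :=
  ⟨fun x y z _ _ _ _ => by group, fun _ _ _ _ _ => rfl⟩
theorem hol_one (T : Set X) : Hol T fun _ _ _ => (1 : G) :=
  ⟨fun _ _ _ _ _ _ _ => (mul_one 1).symm, fun _ _ _ _ _ => rfl⟩
theorem Hol.comm_mul {A : Type} [CommGroup A] {μ μ' : ∀ x y : X, Path x y → A} (h : Hol T μ)
    (h' : Hol T μ') : Hol T fun x y γ => μ x y γ * μ' x y γ :=
  ⟨fun x y z γ δ h1 h2 => by
      rw [h.mul x y z γ δ h1 h2, h'.mul x y z γ δ h1 h2, mul_mul_mul_comm],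
    fun x y γ δ h1 => by rw [h.hom x y γ δ h1, h'.hom x y γ δ h1]⟩
theorem Hol.comm_inv {A : Type} [CommGroup A] {μ : ∀ x y : X, Path x y → A} (h : Hol T μ) :
    Hol T fun x y γ => (μ x y γ)⁻¹ := h.map (invMonoidHom : A →* A)
theorem Hol.seg_mul (h : Hol T τ) {f : ℝ → X} (hf : Continuous f) {C : Set ℝ} (hC : Convex ℝ C)
    (hT : MapsTo f C T) {a b c : ℝ} (ha : a ∈ C) (hb : b ∈ C) (hc : c ∈ C) :
    τ _ _ (seg f hf a c) = τ _ _ (seg f hf a b) * τ _ _ (seg f hf b c) := by
  have := hin_seg hf hC hT ha hb hc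
  rw [← h.hom _ _ _ _ this]
  exact h.mul _ _ _ _ _ (in_trans_iff.1 this.left).1 (in_trans_iff.1 this.left).2
theorem Hol.seg_self (h : Hol T τ) {f : ℝ → X} (hf : Continuous f) {a : ℝ} (ha : f a ∈ T) :
    τ _ _ (seg f hf a a) = 1 := h.const ha fun t => by simp
omit [Group G] in
theorem tau_seg (τ : ∀ x y : X, Path x y → G) (γ : Path x y) :
    τ _ _ (seg γ.extend γ.continuous_extend 0 1) = τ x y γ :=
  tau_congr τ fun t => by simp

theorem Par.mono (h : Par τ S s) (hS : S' ⊆ S) : Par τ S' s :=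
  fun x y γ hγ => h x y γ (hγ.mono hS)
theorem Par.const_mul (h : Par τ S s) (g : G) : Par τ S fun x => g * s x :=
  fun x y γ hγ => by simp only [h x y γ hγ, mul_assoc]
theorem Par.congr (h : Par τ S s) (e : EqOn s' s S) : Par τ S s' :=
  fun x y γ hγ => by rw [e hγ.source, e hγ.target, h x y γ hγ]
theorem Par.congr_tau (h : Par τ S s) (e : ∀ x y γ, In γ S → τ' x y γ = τ x y γ) : Par τ' S s :=
  fun x y γ hγ => by rw [e x y γ hγ, h x y γ hγ]
theorem Par.map (h : Par τ S s) (φ : G →* G') :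
    Par (fun x y γ => φ (τ x y γ)) S fun x => φ (s x) :=
  fun x y γ hγ => by simp only [h x y γ hγ, map_mul]
theorem Par.gauge (h : Par τ S s) (k : X → G) :
    Par (fun x y γ => (k x)⁻¹ * τ x y γ * k y) S fun x => s x * k x :=
  fun x y γ hγ => by simp only [h x y γ hγ]; group
theorem Par.tau (h : Par τ S s) {γ : Path x y} (hγ : In γ S) : τ x y γ = (s x)⁻¹ * s y := by
  rw [h x y γ hγ, inv_mul_cancel_left]
theorem Par.hol (h : Par τ S s) : Hol S τ := (hol_of_section S s).congr fun _ _ _ hγ => h.tau hγ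
theorem Par.triv (h : Par τ S s) : Triv τ S := ⟨s, h⟩
theorem Par.lc_mul (h : Par τ S s) {c : X → G} (hc : LC c S) : Par τ S fun x => c x * s x :=
  fun x y γ hγ => by simp only [hc.path hγ, h x y γ hγ, mul_assoc]
theorem Par.diff (h : Par τ S s) (h' : Par τ S s') (hj : JoinedIn S x y) :
    s' y * (s y)⁻¹ = s' x * (s x)⁻¹ := by
  obtain ⟨γ, hγ⟩ := hj
  rw [h x y γ hγ, h' x y γ hγ]; group
theorem Par.eq_of_joined (h : Par τ S s) (h' : Par τ S s') (hj : JoinedIn S x y)
    (e : s' x = s x) : s' y = s y := by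
  have := h.diff h' hj
  rwa [e, mul_inv_cancel, mul_inv_eq_one] at this
theorem Par.lc_diff [LocallyPathConnectedSpace X] (h : Par τ S s) (h' : Par τ S s')
    (hS : IsOpen S) : LC (fun x => s' x * (s x)⁻¹) S := fun _ hx =>
  mem_nhdsWithin_of_mem_nhds (mem_of_superset (pathComponentIn_mem_nhds (hS.mem_nhds hx))
    fun _ hy => h.diff h' hy)
theorem Triv.mono (h : Triv τ S) (hS : S' ⊆ S) : Triv τ S' := let ⟨s, hs⟩ := h; ⟨s, hs.mono hS⟩
theorem Triv.loop (h : Triv τ S) {γ : Path x x} (hγ : In γ S) : τ x x γ = 1 := by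
  obtain ⟨s, hs⟩ := h
  rw [hs.tau hγ, inv_mul_cancel]
theorem Triv.loop' (h : Triv τ S) {γ : Path x y} (hγ : In γ S) (e : x = y) : τ x y γ = 1 := by
  subst e; exact h.loop hγ
theorem Triv.eq (h : Triv τ S) {γ δ : Path x y} (hγ : In γ S) (hδ : In δ S) :
    τ x y γ = τ x y δ := by
  obtain ⟨s, hs⟩ := h
  rw [hs.tau hγ, hs.tau hδ]
theorem Triv.map (h : Triv τ S) (φ : G →* G') : Triv (fun x y γ => φ (τ x y γ)) S :=
  let ⟨_, hs⟩ := h; ⟨_, hs.map φ⟩
theorem Triv.congr_tau (h : Triv τ S) (e : ∀ x y γ, In γ S → τ' x y γ = τ x y γ) : Triv τ' S :=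
  let ⟨s, hs⟩ := h; ⟨s, hs.congr_tau e⟩
/-- a parallel section with a given value at a given point -/
theorem Triv.exists_val (h : Triv τ S) (x : X) (g : G) : ∃ s, Par τ S s ∧ s x = g :=
  let ⟨s, hs⟩ := h; ⟨_, hs.const_mul (g * (s x)⁻¹), by simp⟩

/-- trivial on loops means trivial -/
theorem Hol.triv_of_loops (h : Hol T τ) (hS : S ⊆ T)
    (hl : ∀ x (γ : Path x x), In γ S → τ x x γ = 1) : Triv τ S := by
  classical
  rcases isEmpty_or_nonempty X with hX | hX
  · exact ⟨fun _ => 1, fun x => hX.elim x⟩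
  let f : X → X → G := fun b x => if hb : JoinedIn S b x then τ b x hb.somePath else 1
  have key : ∀ b x y (γ : Path x y), In γ S → JoinedIn S b x → f b y = f b x * τ x y γ := by
    intro b x y γ hγ hb
    have hb' := hb.trans hγ.joined
    have h1 : In hb.somePath S := hb.somePath_mem
    have h2 : In hb'.somePath S := hb'.somePath_mem
    have := hl b _ ((h1.trans hγ).trans h2.symm)
    rw [h.mul _ _ _ _ _ ((h1.trans hγ).mono hS) (h2.symm.mono hS), h.symm (h2.mono hS),
      h.mul _ _ _ _ _ (h1.mono hS) (hγ.mono hS), mul_inv_eq_one] at this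
    simp only [f, dif_pos hb, dif_pos hb', this]
  refine ⟨fun x => f (Classical.epsilon fun b => JoinedIn S b x) x, fun x y γ hγ => ?_⟩
  have e : (fun b => JoinedIn S b y) = fun b => JoinedIn S b x :=
    funext fun b => propext ⟨fun hb => hb.trans hγ.joined.symm, fun hb => hb.trans hγ.joined⟩
  simp only [e]
  exact key _ x y γ hγ (Classical.epsilon_spec (p := fun b => JoinedIn S b x)
    ⟨x, JoinedIn.refl hγ.source⟩)

/-- it is enough to look at the loops at one base point -/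
theorem Hol.triv_of_base (h : Hol T τ) (hS : S ⊆ T) (hx : ∀ y ∈ S, JoinedIn S x y)
    (hl : ∀ γ : Path x x, In γ S → τ x x γ = 1) : Triv τ S := by
  refine h.triv_of_loops hS fun y γ hγ => ?_
  obtain ⟨α, hα⟩ := hx y hγ.source
  have hα' : In α S := hα
  have := hl _ ((hα'.trans hγ).trans hα'.symm)
  rwa [h.mul _ _ _ _ _ ((hα'.trans hγ).mono hS) (hα'.symm.mono hS), h.symm (hα'.mono hS),
    h.mul _ _ _ _ _ (hα'.mono hS) (hγ.mono hS), mul_inv_eq_one, mul_eq_left] at this

theorem Hol.triv_of_thin (h : Hol T τ) (hS : Thin S T) : Triv τ S :=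
  h.triv_of_loops hS.subset fun x γ hγ => h.null (hS x γ hγ)
theorem Hol.triv_of_sc (h : Hol T τ) (hS : SC S) (hT : S ⊆ T) : Triv τ S :=
  h.triv_of_thin (hS.2.mono subset_rfl hT)
theorem Faith.thin (hf : Faith τ T) (h : Hol T τ) (hS : S ⊆ T) (ht : Triv τ S) : Thin S T :=
  fun x γ hγ => hf x x γ _ (hγ.mono hS) (In.refl (hS hγ.source))
    ((ht.loop hγ).trans (h.refl (hS hγ.source)).symm)

/-- short segments of a curve stay in a neighbourhood -/
theorem seg_ev {f : ℝ → X} (hf : Continuous f) {a : ℝ} {V : Set X} (hV : V ∈ 𝓝 (f a)) :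
    ∀ᶠ b in 𝓝 a, In (seg f hf a b) V := by
  obtain ⟨l, u, ha, hs⟩ := mem_nhds_iff_exists_Ioo_subset.1 (hf.continuousAt.preimage_mem_nhds hV)
  filter_upwards [Ioo_mem_nhds ha.1 ha.2] with b hb
  exact in_seg hf fun t ht => hs (ordConnected_Ioo.uIcc_subset ha hb ht)

theorem Hol.par_of_local (h : Hol T τ) (hS : S ⊆ T)
    (hl : ∀ x ∈ S, ∃ V ∈ 𝓝 x, Par τ (S ∩ V) s) : Par τ S s := by
  intro x y γ hγ
  have hf := γ.continuous_extend
  have hm : MapsTo γ.extend univ T := fun t _ => hS (hγ.extend t)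
  have h1 : IsLocallyConstant fun t => s (γ.extend t) * (τ _ _ (seg γ.extend hf 0 t))⁻¹ := by
    refine (IsLocallyConstant.iff_eventually_eq _).2 fun a => ?_
    obtain ⟨V, hV, hp⟩ := hl _ (hγ.extend a)
    filter_upwards [seg_ev hf hV] with b hb
    rw [h.seg_mul hf convex_univ hm trivial (mem_univ a) trivial,
      hp _ _ _ (In.inter (fun t => hγ.extend _) hb)]
    group
  have := h1.apply_eq_of_preconnectedSpace 1 0
  rw [h.seg_self hf (hm trivial), tau_seg τ γ, γ.extend_zero, γ.extend_one, inv_one, mul_one] at this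
  exact eq_mul_of_mul_inv_eq this

/-- two holonomies that agree locally agree -/
theorem Hol.ext_of_local (h : Hol T τ) (h' : Hol T τ')
    (hl : ∀ x ∈ T, ∃ V ∈ 𝓝 x, ∀ a b (γ : Path a b), In γ (T ∩ V) → τ a b γ = τ' a b γ)
    {γ : Path x y} (hγ : In γ T) : τ x y γ = τ' x y γ := by
  have hf := γ.continuous_extend
  have hm : MapsTo γ.extend univ T := fun t _ => hγ.extend t
  have h1 : IsLocallyConstant fun t =>
      τ _ _ (seg γ.extend hf 0 t) * (τ' _ _ (seg γ.extend hf 0 t))⁻¹ := by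
    refine (IsLocallyConstant.iff_eventually_eq _).2 fun a => ?_
    obtain ⟨V, hV, hp⟩ := hl _ (hγ.extend a)
    filter_upwards [seg_ev hf hV] with b hb
    rw [h.seg_mul hf convex_univ hm trivial (mem_univ a) trivial,
      h'.seg_mul hf convex_univ hm trivial (mem_univ a) trivial,
      hp _ _ _ (In.inter (fun t => hγ.extend _) hb)]
    group
  have := h1.apply_eq_of_preconnectedSpace 1 0
  rwa [h.seg_self hf (hm trivial), h'.seg_self hf (hm trivial), tau_seg τ γ, tau_seg τ' γ, inv_one,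
    mul_one, mul_inv_eq_one] at this

/-- induction along a path: a property of paths that holds for short paths and is closed under
concatenation and homotopy holds for all paths -/
theorem path_induction {P : ∀ x y : X, Path x y → Prop}
    (hl : ∀ x ∈ T, ∃ V ∈ 𝓝 x, ∀ a b (γ : Path a b), In γ (T ∩ V) → P a b γ)
    (hm : ∀ x y z (γ : Path x y) (δ : Path y z), In γ T → In δ T → P x y γ → P y z δ →
      P x z (γ.trans δ))
    (hh : ∀ x y (γ δ : Path x y), HIn T γ δ → P x y γ → P x y δ) {γ : Path x y} (hγ : In γ T) :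
    P x y γ := by
  have hf := γ.continuous_extend
  have hT : MapsTo γ.extend univ T := fun t _ => hγ.extend t
  have hi : ∀ a b, In (seg γ.extend hf a b) T := fun a b t => hγ.extend _
  have step : ∀ a b, P _ _ (seg γ.extend hf 0 a) → P _ _ (seg γ.extend hf a b) →
      P _ _ (seg γ.extend hf 0 b) := fun a b h1 h2 =>
    hh _ _ _ _ (hin_seg hf convex_univ hT trivial trivial trivial) (hm _ _ _ _ _ (hi 0 a) (hi a b) h1 h2)
  have h1 : IsLocallyConstant fun t => P _ _ (seg γ.extend hf 0 t) := by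
    refine (IsLocallyConstant.iff_eventually_eq _).2 fun a => ?_
    obtain ⟨V, hV, hp⟩ := hl _ (hγ.extend a)
    filter_upwards [seg_ev hf hV] with b hb
    refine propext ⟨fun h => step b a h (hp _ _ _ ((hi b a).inter fun t => ?_)),
      fun h => step a b h (hp _ _ _ ((hi a b).inter hb))⟩
    have := hb (σ t)
    rw [seg_apply, unitInterval.coe_symm_eq] at this
    rw [seg_apply]
    convert this using 2
    ring
  have h2 := h1.apply_eq_of_preconnectedSpace 0 1
  have h3 : P _ _ (seg γ.extend hf 0 0) := by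
    obtain ⟨V, hV, hp⟩ := hl _ (hγ.extend 0)
    exact hp _ _ _ ((hi 0 0).inter (seg_ev hf hV).self_of_nhds)
  have h4 : ∀ a b (δ : Path a b), (∀ t, δ t = γ t) → P a b δ → P x y γ := by
    intro a b δ e hP
    obtain rfl : a = x := by rw [← δ.source, e, γ.source]
    obtain rfl : b = y := by rw [← δ.target, e, γ.target]
    rwa [show δ = γ from Path.ext (funext e)] at hP
  exact h4 _ _ _ (fun t => by simp) (h2 ▸ h3)

/-- the four sides of a square -/
theorem Hol.square (h : Hol T τ) {H : I × I → X} (hH : Continuous H) (hT : ∀ p, H p ∈ T)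
    {a b c d : X} {bo : Path a b} {ri : Path b d} {le : Path a c} {up : Path c d}
    (h1 : ∀ t, bo t = H (t, 0)) (h2 : ∀ t, ri t = H (1, t)) (h3 : ∀ t, le t = H (0, t))
    (h4 : ∀ t, up t = H (t, 1)) : τ a b bo * τ b d ri = τ a c le * τ c d up := by
  have i1 : In bo T := fun t => h1 t ▸ hT _
  have i2 : In ri T := fun t => h2 t ▸ hT _
  have i3 : In le T := fun t => h3 t ▸ hT _
  have i4 : In up T := fun t => h4 t ▸ hT _
  rw [← h.mul _ _ _ _ _ i1 i2, ← h.mul _ _ _ _ _ i3 i4]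
  let K : ℝ × ℝ → X := fun p => H (projIcc 0 1 zero_le_one p.1, projIcc 0 1 zero_le_one p.2)
  refine h.hom _ _ _ _ (hin_convex (E := ℝ × ℝ) convex_univ (H := K)
    (hH.comp ((continuous_projIcc.comp continuous_fst).prodMk
      (continuous_projIcc.comp continuous_snd))).continuousOn (fun p _ => hT _)
    (((lin 0 1).prod (Path.refl 0)).trans ((Path.refl 1).prod (lin 0 1)))
    (((Path.refl 0).prod (lin 0 1)).trans ((lin 0 1).prod (Path.refl 1))) (in_univ _) (in_univ _)
    (trans_eq_comp (f := K) (fun t => ?_) fun t => ?_)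
    (trans_eq_comp (f := K) (fun t => ?_) fun t => ?_))
  · simp [K, h1, lin, Path.prod_coe]
  · simp [K, h2, lin, Path.prod_coe]
  · simp [K, h3, lin, Path.prod_coe]
  · simp [K, h4, lin, Path.prod_coe]

theorem Hol.deform (h : Hol T τ) {H : ℝ × X → X} (hH : ContinuousOn H (Icc 0 1 ×ˢ S))
    (hT : MapsTo H (Icc 0 1 ×ˢ S) T) (h0 : ∀ x ∈ S, H (0, x) = x) (h1 : ∀ x ∈ S, H (1, x) ∈ S')
    (ht : Triv τ S') : Triv τ S := by
  have hS : S ⊆ T := fun x hx => h0 x hx ▸ hT ⟨left_mem_Icc.2 zero_le_one, hx⟩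
  refine h.triv_of_loops hS fun x γ hγ => ?_
  have hm : ∀ p : I × I, ((p.2 : ℝ), γ p.1) ∈ Icc (0 : ℝ) 1 ×ˢ S := fun p => ⟨p.2.2, hγ _⟩
  have hc : Continuous fun p : I × I => H (p.2, γ p.1) := hH.comp_continuous (by fun_prop) hm
  let up : Path (H (1, x)) (H (1, x)) :=
    ⟨⟨fun t => H (1, γ t), hc.comp (Continuous.prodMk_left 1)⟩, by simp, by simp⟩
  let si : Path x (H (1, x)) :=
    ⟨⟨fun t => H (t, x), by simpa [Function.comp_def] using hc.comp (Continuous.prodMk_right 0)⟩,
      by simpa using h0 x hγ.source, by simp⟩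
  have := h.square hc (fun p => hT (hm p)) (bo := γ) (ri := si) (le := si) (up := up)
    (fun t => (h0 _ (hγ t)).symm) (fun t => by simp [si]) (fun t => by simp [si]) fun t => rfl
  rwa [ht.loop (γ := up) fun t => h1 _ (hγ t), mul_one, mul_eq_right] at this

open Classical in
/-- the pulled-back holonomy -/
def pullT {S : Set Y} (f : Y → X) (hf : ContinuousOn f S) (τ : ∀ x y : X, Path x y → G)
    (x y : Y) (γ : Path x y) : G := if h : In γ S then τ _ _ (push f hf γ h) else 1

theorem pullT_pull {S : Set Y} (f : Y → X) (hf : ContinuousOn f S) (τ : ∀ x y : X, Path x y → G) :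
    Pull f S τ (pullT f hf τ) := fun x y γ hγ a b δ e => by
  rw [pullT, dif_pos hγ]
  exact tau_congr τ fun t => (e t).symm

omit [Group G] in
theorem Pull.eq {S : Set Y} {f : Y → X} {μ : ∀ x y : Y, Path x y → G} (h : Pull f S τ μ)
    (hf : ContinuousOn f S) {x y : Y} {γ : Path x y} (hγ : In γ S) :
    μ x y γ = τ _ _ (push f hf γ hγ) := h x y γ hγ _ _ _ fun _ => rfl
omit [Group G] in
theorem Pull.mono {S S' : Set Y} {f : Y → X} {μ : ∀ x y : Y, Path x y → G} (h : Pull f S τ μ)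
    (hS : S' ⊆ S) : Pull f S' τ μ := fun x y γ hγ => h x y γ (hγ.mono hS)
theorem Pull.hol {S : Set Y} {f : Y → X} {μ : ∀ x y : Y, Path x y → G} (hp : Pull f S τ μ)
    (h : Hol T τ) (hf : ContinuousOn f S) (hm : MapsTo f S T) : Hol S μ := by
  refine ⟨fun x y z γ δ h1 h2 => ?_, fun x y γ δ h1 => ?_⟩
  · rw [hp.eq hf (h1.trans h2), hp.eq hf h1, hp.eq hf h2, push_trans]
    exact h.mul _ _ _ _ _ (in_push hf h1 h1 hm) (in_push hf h2 h2 hm)
  · rw [hp.eq hf h1.left, hp.eq hf h1.right]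
    exact h.hom _ _ _ _ (h1.map hf hm (fun _ => rfl) fun _ => rfl)
theorem Pull.par {S S' : Set Y} {f : Y → X} {μ : ∀ x y : Y, Path x y → G} (hp : Pull f S τ μ)
    (hf : ContinuousOn f S) (hS : S' ⊆ S) (hm : MapsTo f S' T') (hs : Par τ T' s) :
    Par μ S' fun y => s (f y) := fun x y γ hγ => by
  rw [hp.eq hf (hγ.mono hS)]
  exact hs _ _ _ (in_push hf _ hγ hm)
theorem Pull.triv {S S' : Set Y} {f : Y → X} {μ : ∀ x y : Y, Path x y → G} (hp : Pull f S τ μ)
    (hf : ContinuousOn f S) (hS : S' ⊆ S) (hm : MapsTo f S' T') (hs : Triv τ T') : Triv μ S' :=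
  let ⟨_, hs⟩ := hs; ⟨_, hp.par hf hS hm hs⟩
omit [Group G] in
theorem Pull.comp {Z : Type} [TopologicalSpace Z] {S : Set Y} {U : Set Z} {f : Y → X} {g : Z → Y}
    {μ : ∀ x y : Y, Path x y → G} {ρ : ∀ x y : Z, Path x y → G} (h : Pull f S τ μ)
    (h' : Pull g U μ ρ) (hg : ContinuousOn g U) (hm : MapsTo g U S) :
    Pull (fun z => f (g z)) U τ ρ := fun x y γ hγ a b δ e => by
  rw [h'.eq hg hγ]
  exact h _ _ _ (in_push hg hγ hγ hm) a b δ e
omit [Group G] in
theorem pull_id (S : Set X) (τ : ∀ x y : X, Path x y → G) : Pull id S τ τ :=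
  fun _ _ _ _ _ _ _ e => tau_congr τ fun t => (e t).symm
omit [Group G] in
theorem Pull.unique {S : Set Y} {f : Y → X} {μ μ' : ∀ x y : Y, Path x y → G} (h : Pull f S τ μ)
    (h' : Pull f S τ μ') (hf : ContinuousOn f S) {x y : Y} {γ : Path x y} (hγ : In γ S) :
    μ x y γ = μ' x y γ := (h.eq hf hγ).trans (h'.eq hf hγ).symm
end hol

/-! ### a faithful holonomy -/

open CategoryTheory Classical in
theorem groupoid_faithful (C : Type) [Groupoid.{0} C] :
    ∃ F : ∀ x y : C, (x ⟶ y) → ∀ b : C, (b ⟶ b),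
      (∀ x y z (p : x ⟶ y) (q : y ⟶ z), F x z (p ≫ q) = F x y p * F y z q) ∧
      ∀ x y (p q : x ⟶ y), F x y p = F x y q → p = q := by
  refine ⟨fun x y p b => if h : Nonempty (b ⟶ x) then
    h.some ≫ p ≫ inv (Nonempty.intro (h.some ≫ p)).some else 1, fun x y z p q => ?_,
    fun x y p q h => ?_⟩
  · funext b
    by_cases h : Nonempty (b ⟶ x)
    · have h' : Nonempty (b ⟶ y) := ⟨h.some ≫ p⟩
      simp only [Pi.mul_apply, dif_pos h, dif_pos h', Groupoid.vertexGroup_mul, Category.assoc,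
        IsIso.inv_hom_id_assoc]
    · have h' : ¬ Nonempty (b ⟶ y) := fun ⟨r⟩ => h ⟨r ≫ inv p⟩
      simp only [Pi.mul_apply, dif_neg h, dif_neg h', mul_one]
  · have h1 : Nonempty (x ⟶ x) := ⟨𝟙 x⟩
    have := congrFun h x
    simp only [dif_pos h1] at this
    exact (cancel_mono _).1 ((cancel_epi _).1 this)

theorem taut : TautStmt := by
  intro X _ T
  classical
  obtain ⟨F, h1, h2⟩ := groupoid_faithful (FundamentalGroupoid T)
  refine ⟨_, inferInstance, fun x y γ => if h : In γ T then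
    F ⟨⟨x, h.source⟩⟩ ⟨⟨y, h.target⟩⟩ (Path.Homotopic.Quotient.mk (sub γ h)) else 1,
    ⟨fun x y z γ δ hγ hδ => ?_, fun x y γ δ h => ?_⟩, fun x y γ δ hγ hδ h => ?_⟩
  · rw [dif_pos (hγ.trans hδ), dif_pos hγ, dif_pos hδ, sub_trans γ δ hγ hδ, ← h1]
    rfl
  · rw [dif_pos h.left, dif_pos h.right, Path.Homotopic.Quotient.eq.2 h.homotopic]
  · simp only [dif_pos hγ, dif_pos hδ] at h
    exact hin_of_homotopic (Path.Homotopic.Quotient.eq.1 (h2 _ _ _ _ h)) (fun _ => rfl) fun _ => rfl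

/-! ### the statements -/

theorem local_ : LocalStmt := fun _ _ _ _ _ _ _ _ h hS hl => h.par_of_local hS hl

theorem pull : PullStmt := fun _ _ _ _ _ _ _ _ τ f h hf hm =>
  ⟨pullT f hf τ, (pullT_pull f hf τ).hol h hf hm, pullT_pull f hf τ,
    fun _ hS _ _ hm' hs => (pullT_pull f hf τ).par hf hS hm' hs⟩

theorem thin : ThinStmt := by
  intro X _ S T hS
  refine ⟨fun h G _ τ hτ => hτ.triv_of_thin h, fun h => ?_⟩
  obtain ⟨G, _, τ, h1, h2⟩ := taut X T
  exact h2.thin h1 hS (h G τ h1)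

theorem square : SquareStmt := fun _ _ _ _ _ _ _ _ _ _ _ _ _ _ _ h hH hT h1 h2 h3 h4 =>
  h.square hH hT h1 h2 h3 h4

theorem deform : DeformStmt := fun _ _ _ _ _ _ _ _ _ h hH hT h0 h1 ht => h.deform hH hT h0 h1 ht

theorem diff : DiffStmt := fun _ _ _ _ _ _ _ _ h =>
  ⟨fun h' _ _ hj => h.diff h' hj, fun hc => (h.lc_mul hc).congr fun _ _ => by simp,
    fun _ hS h' => h.lc_diff h' hS⟩

end Pool.Agent.MP_e1dc65_gt
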