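import Mathlib.AlgebraicTopology.FundamentalGroupoid.SimplyConnected
import Mathlib.Analysis.Convex.Contractible
import Mathlib.Analysis.Normed.Module.Connected
import Mathlib.Analysis.Normed.Module.Ball.Homeomorph
import Mathlib.Topology.Homotopy.Product
import Pool.Agent.MP_e1dc65_gt.Spec0
import Pool.Agent.MP_e1dc65_gt.k.Hol

-- ======== part 0: formerly Pool.Agent.MP_e1dc65_gt.k.StdA
section MrgPart0

/-! PROJECT HC, toolkit: standard simply connected and path connected sets. -/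

open scoped Topology unitInterval
open Set Filter Function Topology

noncomputable section

namespace Pool.Agent.MP_e1dc65_gt

section Top
variable {X Y : Type} [TopologicalSpace X] [TopologicalSpace Y] {S S' T T' A B : Set X}

theorem sc_iff : SC S ↔ IsSimplyConnected S :=
  isSimplyConnected_iff_exists_homotopy_refl_forall_mem.symm

/-- a homotopy from a function of two variables -/
theorem hIn_of_fun {x y : X} {γ δ : Path x y} (F : I × I → X) (hF : Continuous F)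
    (h0 : ∀ t, F (0, t) = γ t) (h1 : ∀ t, F (1, t) = δ t) (l : ∀ s, F (s, 0) = x)
    (r : ∀ s, F (s, 1) = y) (hT : ∀ p, F p ∈ T) : HIn T γ δ := by
  refine ⟨⟨⟨⟨F, hF⟩, h0, h1⟩, fun s t ht => ?_⟩, hT⟩
  rcases ht with rfl | rfl
  · exact (l s).trans γ.source.symm
  · exact (r s).trans γ.target.symm

theorem Thin.mono' (h : Thin S T) (hS : S' ⊆ S) (hT : T ⊆ T') : Thin S' T' := fun x γ hγ =>
  let ⟨H, hH⟩ := h x γ fun t => hS (hγ t)
  ⟨H, fun p => hT (hH p)⟩

/-- a loop that is fixed by `f ∘ g` contracts in the image -/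
theorem hIn_map {U : Set Y} {f : X → Y} {g : Y → X} {y : Y} (γ : Path y y)
    (hg : Continuous fun t => g (γ t)) (hS : ∀ t, g (γ t) ∈ S) (hf : ContinuousOn f T)
    (m : MapsTo f T U) (e : ∀ t, f (g (γ t)) = γ t) (h : Thin S T) : HIn U γ (Path.refl y) := by
  obtain ⟨H, hH⟩ := h (g y) ⟨⟨fun t => g (γ t), hg⟩, by simp, by simp⟩ hS
  have ey : f (g y) = y := by simpa using e 0
  refine hIn_of_fun (fun p => f (H p)) (hf.comp_continuous H.continuous hH) (fun t => ?_)
    (fun t => ?_) (fun s => ?_) (fun s => ?_) fun p => m (hH p)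
  · rw [H.apply_zero]; exact e t
  · rw [H.apply_one]; exact ey
  · rw [H.source]; exact ey
  · rw [H.target]; exact ey

theorem Thin.image {U : Set Y} {f : X → Y} {g : Y → X} (h : Thin S T) (hf : ContinuousOn f T)
    (m : MapsTo f T U) (hg : ContinuousOn g (f '' S)) (e : ∀ x ∈ S, g (f x) = x) :
    Thin (f '' S) U := fun y γ hγ =>
  hIn_map γ (hg.comp_continuous γ.continuous hγ)
    (fun t => by obtain ⟨x, hx, ex⟩ := hγ t; rw [← ex, e x hx]; exact hx) hf m
    (fun t => by obtain ⟨x, hx, ex⟩ := hγ t; rw [← ex, e x hx]) h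

theorem SC.prod {U : Set Y} (h : SC S) (h' : SC U) : SC (S ×ˢ U) := ⟨h.1.prod h'.1, thin_prod h.2 h'.2⟩

theorem SC.image {f : X → Y} {g : Y → X} (h : SC S) (hf : ContinuousOn f S)
    (hg : ContinuousOn g (f '' S)) (e : ∀ x ∈ S, g (f x) = x) : SC (f '' S) :=
  ⟨h.1.image' hf, h.2.image hf (mapsTo_image f S) hg e⟩

theorem sc_image_emb {f : X → Y} (hf : IsEmbedding f) : SC (f '' S) ↔ SC S := by
  rw [sc_iff, sc_iff, hf.isSimplyConnected_image]

/-- retracts -/
theorem SC.retract {U : Set Y} {f : X → Y} {g : Y → X} (h : SC S) (hf : ContinuousOn f S)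
    (m : MapsTo f S U) (hg : ContinuousOn g U) (m' : MapsTo g U S) (e : ∀ y ∈ U, f (g y) = y) :
    SC U := by
  refine ⟨?_, fun y γ hγ => hIn_map γ (hg.comp_continuous γ.continuous hγ) (fun t => m' (hγ t))
    hf m (fun t => e _ (hγ t)) h.2⟩
  have : f '' S = U := subset_antisymm m.image_subset fun y hy => ⟨g y, m' hy, e y hy⟩
  exact this ▸ h.1.image' hf

/-- the easy half of van Kampen -/
theorem thin_union (hL : LocalStmt) (hT : ThinStmt) (hD : DiffStmt) (hA : IsOpen A)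
    (hB : IsOpen B) (hAT : A ⊆ T) (hBT : B ⊆ T) (h1 : Thin A T) (h2 : Thin B T)
    (hc : IsPathConnected (A ∩ B)) : Thin (A ∪ B) T := by
  classical
  refine (hT X _ T (union_subset hAT hBT)).2 fun G _ τ hτ => ?_
  obtain ⟨s, hs⟩ := (hT X A T hAT).1 h1 G τ hτ
  obtain ⟨s', hs'⟩ := (hT X B T hBT).1 h2 G τ hτ
  obtain ⟨x₀, hx₀, hj⟩ := hc
  have key : ∀ y ∈ A ∩ B, s' y = s' x₀ * (s x₀)⁻¹ * s y := fun y hy => by
    rw [← (hD X G (A ∩ B) τ s s' fun a b γ hγ => hs a b γ fun t => (hγ t).1).1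
      (fun a b γ hγ => hs' a b γ fun t => (hγ t).2) x₀ y (hj hy), inv_mul_cancel_right]
  refine ⟨fun y => if y ∈ A then s' x₀ * (s x₀)⁻¹ * s y else s' y,
    hL X G T _ τ _ hτ (union_subset hAT hBT) fun x hx => ?_⟩
  rcases hx with hx | hx
  · refine ⟨A, hA.mem_nhds hx, fun a b γ hγ => ?_⟩
    have ha : a ∈ A := by simpa using (hγ 0).2
    have hb : b ∈ A := by simpa using (hγ 1).2
    simp only [if_pos ha, if_pos hb, hs a b γ fun t => (hγ t).2, mul_assoc]
  · refine ⟨B, hB.mem_nhds hx, fun a b γ hγ => ?_⟩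
    have e : ∀ y ∈ B, (if y ∈ A then s' x₀ * (s x₀)⁻¹ * s y else s' y) = s' y := fun y hy => by
      split_ifs with h
      · exact (key y ⟨h, hy⟩).symm
      · rfl
    have ha : a ∈ B := by simpa using (hγ 0).2
    have hb : b ∈ B := by simpa using (hγ 1).2
    exact (e b hb).trans ((hs' a b γ fun t => (hγ t).2).trans (by rw [← e a ha]))

/-- removing a set that does not separate locally -/
theorem isPathConnected_diff {U K : Set X} (hU : IsConnected U)
    (h : ∀ x ∈ U, ∀ O ∈ 𝓝 x, ∃ V, IsOpen V ∧ x ∈ V ∧ V ⊆ O ∧ IsPathConnected (V \ K))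
    (hO : IsOpen U) : IsPathConnected (U \ K) := by
  obtain ⟨x, hx⟩ := hU.1
  obtain ⟨V₀, o₀, m₀, s₀, x₀, hx₀, j₀⟩ := h x hx U (hO.mem_nhds hx)
  let W : Set X := {z | ∃ V, IsOpen V ∧ z ∈ V ∧ ∀ y ∈ V \ K, JoinedIn (U \ K) x₀ y}
  have hW : IsOpen W := isOpen_iff_mem_nhds.2 fun z ⟨V, o, m, j⟩ =>
    mem_of_superset (o.mem_nhds m) fun w hw => ⟨V, o, hw, j⟩
  have hsub : U ⊆ W := by
    refine hU.2.subset_of_closure_inter_subset hW
      ⟨x, hx, V₀, o₀, m₀, fun y hy => (j₀ hy).mono (sdiff_subset_sdiff_left s₀)⟩ ?_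
    rintro z ⟨hz, hzU⟩
    obtain ⟨V, o, m, sV, hV⟩ := h z hzU U (hO.mem_nhds hzU)
    obtain ⟨w, hwV, V', o', m', j'⟩ := mem_closure_iff.1 hz V o m
    obtain ⟨V'', -, -, s'', u, hu, -⟩ := h w (sV hwV) (V ∩ V') ((o.inter o').mem_nhds ⟨hwV, m'⟩)
    exact ⟨V, o, m, fun y hy => (j' u ⟨(s'' hu.1).2, hu.2⟩).trans
      ((hV.joinedIn u ⟨(s'' hu.1).1, hu.2⟩ y hy).mono (sdiff_subset_sdiff_left sV))⟩
  refine ⟨x₀, ⟨s₀ hx₀.1, hx₀.2⟩, fun y hy => ?_⟩
  obtain ⟨V, -, m, j⟩ := hsub hy.1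
  exact j y ⟨m, hy.2⟩

end Top

section Vec
variable {E : Type} [NormedAddCommGroup E] [NormedSpace ℝ E]

theorem sc_star {S : Set E} {x : E} (hx : x ∈ S) (h : StarConvex ℝ x S) : SC S :=
  haveI := h.contractibleSpace ⟨x, hx⟩
  sc_iff.2 (inferInstanceAs (SimplyConnectedSpace S))

theorem sc_convex {S : Set E} (h : Convex ℝ S) (hne : S.Nonempty) : SC S :=
  let ⟨_, hx⟩ := hne
  sc_star hx (h.starConvex hx)

theorem sc_univ : SC (univ : Set E) := sc_convex convex_univ univ_nonempty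

theorem one_lt_rank (h : 2 ≤ Module.finrank ℝ E) : 1 < Module.rank ℝ E :=
  Module.one_lt_rank_of_one_lt_finrank h

theorem pc_punct (h : 2 ≤ Module.finrank ℝ E) : IsPathConnected {v : E | v ≠ 0} :=
  isPathConnected_compl_singleton_of_one_lt_rank (one_lt_rank h) 0

/-- the complement of a closed ray -/
theorem sc_ray {e : E} (he : e ≠ 0) :
    IsOpen {v : E | ∀ t : ℝ, 0 ≤ t → v ≠ t • e} ∧ SC {v : E | ∀ t : ℝ, 0 ≤ t → v ≠ t • e} := by
  constructor
  · have : {v : E | ∀ t : ℝ, 0 ≤ t → v ≠ t • e} = ((fun t : ℝ => t • e) '' Ici 0)ᶜ := by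
      ext v
      simp only [mem_ofPred_eq, mem_compl_iff, mem_image, mem_Ici, not_exists, not_and]
      exact forall₂_congr fun t _ => ne_comm
    rw [this]
    exact ((isClosedEmbedding_smul_left he).isClosedMap _ isClosed_Ici).isOpen_compl
  · refine sc_star (x := -e) (fun t ht h => ?_) fun v hv a b ha hb hab t ht h => ?_
    · have : (t + 1) • e = 0 := by rw [add_smul, ← h, one_smul, neg_add_cancel]
      exact he ((smul_eq_zero.1 this).resolve_left (by linarith))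
    · have h' : b • v = (t + a) • e := by rw [add_smul, ← h, smul_neg]; abel
      rcases hb.eq_or_lt with rfl | hb
      · rw [zero_smul] at h'
        exact he ((smul_eq_zero.1 h'.symm).resolve_left (by linarith))
      · refine hv (b⁻¹ * (t + a)) (by positivity) ?_
        rw [mul_smul, ← h', inv_smul_smul₀ hb.ne']

theorem sc_punct_of (hL : LocalStmt) (hT : ThinStmt) (hD : DiffStmt) [FiniteDimensional ℝ E]
    (h : 3 ≤ Module.finrank ℝ E) : SC {v : E | v ≠ 0} := by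
  refine ⟨pc_punct (by omega), ?_⟩
  have : Nontrivial E := Module.nontrivial_of_finrank_pos (R := ℝ) (by omega)
  obtain ⟨e, he⟩ := exists_ne (0 : E)
  obtain ⟨o1, s1⟩ := sc_ray he
  obtain ⟨o2, s2⟩ := sc_ray (neg_ne_zero.2 he)
  have sub : ∀ u : E, {v : E | ∀ t : ℝ, 0 ≤ t → v ≠ t • u} ⊆ {v : E | v ≠ 0} :=
    fun u v hv => by simpa using hv 0 le_rfl
  refine (thin_union hL hT hD o1 o2 (sub _) (sub _) (s1.2.mono' subset_rfl (sub _))
    (s2.2.mono' subset_rfl (sub _)) ?_).mono' (fun v hv => ?_) subset_rfl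
  · have hq := (Submodule.span ℝ {e}).finrank_quotient_add_finrank
    rw [finrank_span_singleton he] at hq
    convert isPathConnected_compl_of_one_lt_codim (E := Submodule.span ℝ {e})
      (Module.one_lt_rank_of_one_lt_finrank (by omega)) using 1
    ext v
    simp only [mem_inter_iff, mem_ofPred_eq, mem_compl_iff, SetLike.mem_coe,
      Submodule.mem_span_singleton, not_exists]
    refine ⟨fun hv t ht => ?_, fun hv => ⟨fun t _ ht => hv t ht.symm,
      fun t _ ht => hv (-t) (by rw [ht, neg_smul, smul_neg])⟩⟩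
    rcases le_total 0 t with h0 | h0
    · exact hv.1 t h0 ht.symm
    · exact hv.2 (-t) (by linarith) (by rw [← ht, neg_smul, smul_neg, neg_neg])
  · by_contra hn
    simp only [mem_union, mem_ofPred_eq, not_or, not_forall, not_not] at hn
    obtain ⟨⟨a, ha, e1⟩, b, hb, e2⟩ := hn
    have : (a + b) • e = 0 := by rw [add_smul, ← e1, e2, smul_neg, neg_add_cancel]
    have hab : a = 0 := by linarith [(smul_eq_zero.1 this).resolve_right he]
    exact hv (by rw [e1, hab, zero_smul])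

/-- radial retraction of the punctured space to a closed shell -/
theorem exists_clamp {N : E → ℝ} (hN : Continuous N) (h0 : ∀ v, v ≠ 0 → 0 < N v)
    (hs : ∀ (t : ℝ) v, 0 ≤ t → N (t • v) = t * N v) {a b : ℝ} (hab : a ≤ b) :
    0 ≤ a → ∃ f : E → E, ContinuousOn f {v | v ≠ 0} ∧ (∀ v, v ≠ 0 → N (f v) ∈ Icc a b) ∧
      ∀ v, N v ∈ Icc a b → v ≠ 0 → f v = v := fun ha => by
  refine ⟨fun v => (max a (min b (N v)) / N v) • v, ContinuousOn.smul (ContinuousOn.div
    (by fun_prop) hN.continuousOn fun v hv => (h0 v hv).ne') continuousOn_id, fun v hv => ?_,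
    fun v hv h => ?_⟩
  · rw [hs _ _ (div_nonneg (ha.trans (le_max_left _ _)) (h0 v hv).le),
      div_mul_cancel₀ _ (h0 v hv).ne']
    exact ⟨le_max_left _ _, max_le hab (min_le_left _ _)⟩
  · simp only [min_eq_right hv.2, max_eq_right hv.1, div_self (h0 v h).ne', one_smul]

/-- shells of a gauge: `J` is any nonempty interval of positive numbers -/
theorem shell_aux {N : E → ℝ} (hN : Continuous N) (h0 : ∀ v, v ≠ 0 → 0 < N v)
    (hs : ∀ (t : ℝ) v, 0 ≤ t → N (t • v) = t * N v) {J : Set ℝ} (hJ : J.OrdConnected)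
    (hp : ∀ r ∈ J, 0 < r) (hne : J.Nonempty) (hc : IsPathConnected {v : E | v ≠ 0}) :
    IsPathConnected {v | N v ∈ J} ∧ (SC {v : E | v ≠ 0} → SC {v | N v ∈ J}) := by
  have nz : ∀ v, N v ∈ J → v ≠ 0 := fun v hv e => by
    have := hs 0 0 le_rfl
    rw [zero_smul, zero_mul] at this
    exact (hp _ hv).ne' (by rw [e, this])
  have pc : IsPathConnected {v | N v ∈ J} := by
    obtain ⟨r, hr⟩ := hne
    obtain ⟨u, hu⟩ := hc.nonempty
    obtain ⟨f, -, f2, -⟩ := exists_clamp hN h0 hs (le_refl r) (hp r hr).le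
    have hx : N (f u) ∈ J := hJ.out hr hr (f2 u hu)
    refine ⟨f u, hx, fun y hy => ?_⟩
    have ha : min (N (f u)) (N y) ∈ J := by rcases min_choice (N (f u)) (N y) with e | e <;> rwa [e]
    have hb : max (N (f u)) (N y) ∈ J := by rcases max_choice (N (f u)) (N y) with e | e <;> rwa [e]
    obtain ⟨g, g1, g2, g3⟩ := exists_clamp hN h0 hs min_le_max (hp _ ha).le
    refine ((hc.image' g1).joinedIn _ ⟨_, nz _ hx, g3 _ ⟨min_le_left _ _, le_max_left _ _⟩
      (nz _ hx)⟩ _ ⟨_, nz _ hy, g3 _ ⟨min_le_right _ _, le_max_right _ _⟩ (nz _ hy)⟩).mono ?_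
    rintro _ ⟨v, hv, rfl⟩
    exact hJ.out ha hb (g2 v hv)
  refine ⟨pc, fun h => ⟨pc, fun y γ hγ => ?_⟩⟩
  have hc' : Continuous fun t => N (γ t) := hN.comp γ.continuous
  obtain ⟨p, -, hp'⟩ := isCompact_univ.exists_isMinOn univ_nonempty hc'.continuousOn
  obtain ⟨q, -, hq'⟩ := isCompact_univ.exists_isMaxOn univ_nonempty hc'.continuousOn
  obtain ⟨g, g1, g2, g3⟩ := exists_clamp hN h0 hs (hp' (mem_univ q)) (hp _ (hγ p)).le
  exact hIn_map (g := id) γ γ.continuous (fun t => nz _ (hγ t)) g1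
    (fun v hv => hJ.out (hγ p) (hγ q) (g2 v hv))
    (fun t => g3 _ ⟨hp' (mem_univ t), hq' (mem_univ t)⟩ (nz _ (hγ t))) h.2

theorem norm_shell_aux {J : Set ℝ} (hJ : J.OrdConnected) (hp : ∀ r ∈ J, 0 < r) (hne : J.Nonempty)
    (hc : IsPathConnected {v : E | v ≠ 0}) :
    IsPathConnected {v : E | ‖v‖ ∈ J} ∧ (SC {v : E | v ≠ 0} → SC {v : E | ‖v‖ ∈ J}) :=
  shell_aux continuous_norm (fun _ => norm_pos_iff.2)
    (fun t v ht => by rw [norm_smul, Real.norm_of_nonneg ht]) hJ hp hne hc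

theorem nsq_nonneg' {n : ℕ} (v : Rn n) : 0 ≤ nsq v := Finset.sum_nonneg fun _ _ => sq_nonneg _

theorem nsq_shell_aux {n : ℕ} {J : Set ℝ} (hJ : J.OrdConnected) (hp : ∀ r ∈ J, 0 < r)
    (hne : J.Nonempty) (hc : IsPathConnected {v : Rn n | v ≠ 0}) :
    IsPathConnected {v : Rn n | nsq v ∈ J} ∧
      (SC {v : Rn n | v ≠ 0} → SC {v : Rn n | nsq v ∈ J}) := by
  have e : {v : Rn n | nsq v ∈ J} = {v : Rn n | √(nsq v) ∈ {r : ℝ | 0 < r ∧ r ^ 2 ∈ J}} := by
    ext v
    simp only [mem_ofPred_eq, Real.sq_sqrt (nsq_nonneg' v), Real.sqrt_pos]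
    exact ⟨fun h => ⟨hp _ h, h⟩, fun h => h.2⟩
  rw [e]
  refine shell_aux (N := fun v => √(nsq v)) (by unfold nsq; fun_prop) (fun v hv => ?_)
    (fun t v ht => ?_) ⟨fun x hx y hy z hz => ⟨hx.1.trans_le hz.1, hJ.out hx.2 hy.2 ⟨?_, ?_⟩⟩⟩
    (fun r hr => hr.1) ?_ hc
  · obtain ⟨i, hi⟩ := Function.ne_iff.1 hv
    exact Real.sqrt_pos.2 (Finset.sum_pos' (fun _ _ => sq_nonneg _)
      ⟨i, Finset.mem_univ _, sq_pos_iff.2 hi⟩)
  · have : nsq (t • v) = t ^ 2 * nsq v := by simp [nsq, mul_pow, Finset.mul_sum]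
    rw [this, Real.sqrt_mul (sq_nonneg t), Real.sqrt_sq ht]
  · exact pow_le_pow_left₀ hx.1.le hz.1 2
  · exact pow_le_pow_left₀ (hx.1.le.trans hz.1) hz.2 2
  · obtain ⟨r, hr⟩ := hne
    exact ⟨√r, Real.sqrt_pos.2 (hp r hr), by rwa [Real.sq_sqrt (hp r hr).le]⟩

/-- arbitrarily small neighbourhoods homeomorphic to the model -/
theorem exists_emb {X : Type} [TopologicalSpace X] [ChartedSpace E X] (x : X) {O : Set X}
    (hO : O ∈ 𝓝 x) : ∃ j : E → X, IsOpenEmbedding j ∧ j 0 = x ∧ range j ⊆ O := by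
  have hx := mem_chart_source E x
  have h1 : (chartAt E x).target ∩ (chartAt E x).symm ⁻¹' O ∈ 𝓝 (chartAt E x x) :=
    inter_mem ((chartAt E x).open_target.mem_nhds ((chartAt E x).map_source hx))
      (((chartAt E x).continuousAt_symm ((chartAt E x).map_source hx)).preimage_mem_nhds
        (by rwa [(chartAt E x).left_inv hx]))
  obtain ⟨r, hr, hb⟩ := Metric.mem_nhds_iff.1 h1
  have hm : ∀ v : E, OpenPartialHomeomorph.univBall (chartAt E x x) r v ∈
      (chartAt E x).target ∩ (chartAt E x).symm ⁻¹' O := fun v => hb (by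
    rw [← OpenPartialHomeomorph.univBall_target (E := E) _ hr]
    exact OpenPartialHomeomorph.map_source _ (by simp))
  refine ⟨(OpenPartialHomeomorph.univBall (chartAt E x x) r).trans (chartAt E x).symm,
    OpenPartialHomeomorph.isOpenEmbedding _ (eq_univ_of_forall fun v => ⟨by simp, (hm v).1⟩),
    by simp [hx], ?_⟩
  rintro _ ⟨v, rfl⟩
  exact (hm v).2

end Vec

theorem std_of (hL : LocalStmt) (hT : ThinStmt) (hD : DiffStmt) : StdStmt :=
  ⟨fun _ _ _ _ _ => sc_star, fun _ _ _ _ => ⟨pc_punct, sc_punct_of hL hT hD⟩,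
    fun _ _ _ _ _ _ _ _ => thin_prod, fun _ _ _ _ _ _ _ _ _ _ hf m hg e h => h.image hf m hg e,
    fun X _ S h A _ τ hτ => (hT X S S subset_rfl).1 h.2 A τ hτ⟩

section Mf
variable {E : Type} [NormedAddCommGroup E] [NormedSpace ℝ E] (X : Mf E)

/-- small simply connected open neighbourhoods -/
theorem Mf.exists_sc (x : X) {O : Set X} (hO : O ∈ 𝓝 x) :
    ∃ V, IsOpen V ∧ x ∈ V ∧ V ⊆ O ∧ SC V := by
  obtain ⟨j, hj, h0, hs⟩ := exists_emb (E := E) x hO
  exact ⟨range j, hj.isOpen_range, ⟨0, h0⟩, hs,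
    image_univ ▸ (sc_image_emb hj.isEmbedding).2 sc_univ⟩

theorem Mf.exists_thin (x : X) : ∃ O ∈ 𝓝 x, Thin O univ :=
  let ⟨V, o, m, _, h⟩ := X.exists_sc x univ_mem
  ⟨V, o.mem_nhds m, h.2.mono' subset_rfl (subset_univ _)⟩

theorem Mf.pathConnected [ConnectedSpace X] : PathConnectedSpace X :=
  pathConnectedSpace_iff_connectedSpace.2 inferInstance

theorem Mf.isPathConnected {U : Set X} (hO : IsOpen U) (hU : IsConnected U) : IsPathConnected U :=
  hO.isConnected_iff_isPathConnected.1 hU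

/-- countable sets do not separate locally -/
theorem Mf.exists_pc_diff (h : 2 ≤ Module.finrank ℝ E) {K : Set X} (hK : K.Countable) (x : X)
    {O : Set X} (hO : O ∈ 𝓝 x) :
    ∃ V, IsOpen V ∧ x ∈ V ∧ V ⊆ O ∧ SC V ∧ IsPathConnected (V \ K) := by
  obtain ⟨j, hj, h0, hs⟩ := exists_emb (E := E) x hO
  refine ⟨range j, hj.isOpen_range, ⟨0, h0⟩, hs,
    image_univ ▸ (sc_image_emb hj.isEmbedding).2 sc_univ, ?_⟩
  have := ((hK.preimage hj.injective).isPathConnected_compl_of_one_lt_rank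
    (one_lt_rank h)).image hj.continuous
  rwa [image_compl_preimage] at this

/-- a countable set does not separate a connected open set -/
theorem Mf.pc_diff (h : 2 ≤ Module.finrank ℝ E) {U K : Set X} (hO : IsOpen U)
    (hU : IsConnected U) (hK : K.Countable) : IsPathConnected (U \ K) :=
  isPathConnected_diff hU (fun x _ _ hO =>
    let ⟨V, a, b, c, _, d⟩ := X.exists_pc_diff h hK x hO
    ⟨V, a, b, c, d⟩) hO

theorem Mf.pc_compl (h : 2 ≤ Module.finrank ℝ E) [ConnectedSpace X] {K : Set X}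
    (hK : K.Countable) : IsPathConnected Kᶜ :=
  compl_eq_univ_sdiff K ▸ X.pc_diff h isOpen_univ isConnected_univ hK

/-- small punctured neighbourhoods -/
theorem Mf.exists_sc_punct_of (h : SC {v : E | v ≠ 0}) (x : X) {O : Set X} (hO : O ∈ 𝓝 x) :
    ∃ V, IsOpen V ∧ x ∈ V ∧ V ⊆ O ∧ SC V ∧ SC (V \ {x}) := by
  obtain ⟨j, hj, h0, hs⟩ := exists_emb (E := E) x hO
  refine ⟨range j, hj.isOpen_range, ⟨0, h0⟩, hs,
    image_univ ▸ (sc_image_emb hj.isEmbedding).2 sc_univ, ?_⟩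
  have e : range j \ {x} = j '' {v : E | v ≠ 0} := by
    rw [← h0, ← image_singleton, ← image_univ, ← image_sdiff hj.injective, ← compl_eq_univ_sdiff]
    rfl
  exact e ▸ (sc_image_emb hj.isEmbedding).2 h

end Mf

end Pool.Agent.MP_e1dc65_gt

end
end MrgPart0

-- ======== part 1: formerly Pool.Agent.MP_e1dc65_gt.k.Std
section MrgPart1

/-! PROJECT HC, toolkit: standard simply connected sets, without hypotheses. -/

open scoped Topology
open Set

noncomputable section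

namespace Pool.Agent.MP_e1dc65_gt

theorem std : StdStmt := std_of local_ thin diff

section Top
variable {X : Type} [TopologicalSpace X] {A B T : Set X}

/-- the easy half of van Kampen -/
theorem Thin.union (h1 : Thin A T) (h2 : Thin B T) (hA : IsOpen A) (hB : IsOpen B)
    (hc : IsPathConnected (A ∩ B)) : Thin (A ∪ B) T :=
  thin_union local_ thin diff hA hB h1.subset h2.subset h1 h2 hc

theorem SC.union (h1 : SC A) (h2 : SC B) (hA : IsOpen A) (hB : IsOpen B)
    (hc : IsPathConnected (A ∩ B)) : SC (A ∪ B) :=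
  ⟨h1.1.union h2.1 hc.nonempty, (h1.2.mono subset_rfl subset_union_left).union
    (h2.2.mono subset_rfl subset_union_right) hA hB hc⟩

theorem SC.perf (h : SC A) : Perf A := std.2.2.2.2 X A h

end Top

section Vec
variable {E : Type} [NormedAddCommGroup E] [NormedSpace ℝ E] [FiniteDimensional ℝ E]

theorem sc_punct (h : 3 ≤ Module.finrank ℝ E) : SC {v : E | v ≠ 0} :=
  sc_punct_of local_ thin diff h

/-- shells of a gauge -/
theorem sc_gauge_shell (h : 3 ≤ Module.finrank ℝ E) {N : E → ℝ} (hN : Continuous N)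
    (h0 : ∀ v, v ≠ 0 → 0 < N v) (hs : ∀ (t : ℝ) v, 0 ≤ t → N (t • v) = t * N v) {J : Set ℝ}
    (hJ : J.OrdConnected) (hp : ∀ r ∈ J, 0 < r) (hne : J.Nonempty) : SC {v | N v ∈ J} :=
  (shell_aux hN h0 hs hJ hp hne (pc_punct (by omega))).2 (sc_punct h)

theorem sc_norm_shell (h : 3 ≤ Module.finrank ℝ E) {J : Set ℝ} (hJ : J.OrdConnected)
    (hp : ∀ r ∈ J, 0 < r) (hne : J.Nonempty) : SC {v : E | ‖v‖ ∈ J} :=
  (norm_shell_aux hJ hp hne (pc_punct (by omega))).2 (sc_punct h)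

omit [FiniteDimensional ℝ E] in
theorem pc_norm_shell (h : 2 ≤ Module.finrank ℝ E) {J : Set ℝ} (hJ : J.OrdConnected)
    (hp : ∀ r ∈ J, 0 < r) (hne : J.Nonempty) : IsPathConnected {v : E | ‖v‖ ∈ J} :=
  (norm_shell_aux hJ hp hne (pc_punct h)).1

theorem sc_sphere (h : 3 ≤ Module.finrank ℝ E) {r : ℝ} (hr : 0 < r) : SC {v : E | ‖v‖ = r} :=
  sc_norm_shell h (J := {r}) ordConnected_singleton (fun _ e => e ▸ hr) (singleton_nonempty r)

/-- small punctured neighbourhoods -/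
theorem Mf.exists_sc_punct (X : Mf E) (h : 3 ≤ Module.finrank ℝ E) (x : X) {O : Set X}
    (hO : O ∈ 𝓝 x) : ∃ V, IsOpen V ∧ x ∈ V ∧ V ⊆ O ∧ SC V ∧ SC (V \ {x}) :=
  X.exists_sc_punct_of (sc_punct h) x hO

end Vec

section Rn
variable {n : ℕ}

theorem pc_nsq (h : 2 ≤ n) {J : Set ℝ} (hJ : J.OrdConnected) (hp : ∀ r ∈ J, 0 < r)
    (hne : J.Nonempty) : IsPathConnected {v : Rn n | nsq v ∈ J} :=
  (nsq_shell_aux hJ hp hne (pc_punct (by simpa using h))).1

/-- `J` is any nonempty interval of positive numbers -/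
theorem sc_nsq (h : 3 ≤ n) {J : Set ℝ} (hJ : J.OrdConnected) (hp : ∀ r ∈ J, 0 < r)
    (hne : J.Nonempty) : SC {v : Rn n | nsq v ∈ J} :=
  (nsq_shell_aux hJ hp hne (pc_punct (by simp; omega))).2 (sc_punct (by simpa using h))

theorem sc_shell (h : 3 ≤ n) {a b : ℝ} (ha : 0 ≤ a) (hab : a < b) :
    SC {v : Rn n | a < nsq v ∧ nsq v < b} :=
  sc_nsq h (J := Ioo a b) ordConnected_Ioo (fun _ hr => ha.trans_lt hr.1) (nonempty_Ioo.2 hab)

theorem pc_shell (h : 2 ≤ n) {a b : ℝ} (ha : 0 ≤ a) (hab : a < b) :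
    IsPathConnected {v : Rn n | a < nsq v ∧ nsq v < b} :=
  pc_nsq h (J := Ioo a b) ordConnected_Ioo (fun _ hr => ha.trans_lt hr.1) (nonempty_Ioo.2 hab)

theorem sc_nsq_sphere (h : 3 ≤ n) {r : ℝ} (hr : 0 < r) : SC {v : Rn n | nsq v = r} :=
  sc_nsq h (J := {r}) ordConnected_singleton (fun _ e => e ▸ hr) (singleton_nonempty r)

theorem sc_nsq_ext (h : 3 ≤ n) {a : ℝ} (ha : 0 ≤ a) : SC {v : Rn n | a < nsq v} :=
  sc_nsq h (J := Ioi a) ordConnected_Ioi (fun _ hr => ha.trans_lt hr) nonempty_Ioi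

/-- Euclidean balls are star-shaped -/
theorem star_nsq (b : ℝ) : StarConvex ℝ (0 : Rn n) {v | nsq v < b} := by
  intro v hv s t hs ht hst
  have e : nsq (s • (0 : Rn n) + t • v) = t ^ 2 * nsq v := by simp [nsq, mul_pow, Finset.mul_sum]
  have h1 : t ^ 2 ≤ 1 := by nlinarith
  exact e.trans_lt ((mul_le_of_le_one_left (nsq_nonneg' v) h1).trans_lt hv)

theorem sc_nsq_ball {b : ℝ} (hb : 0 < b) : SC {v : Rn n | nsq v < b} :=
  sc_star (x := 0) (by simpa [nsq] using hb) (star_nsq b)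

end Rn

end Pool.Agent.MP_e1dc65_gt

end
end MrgPart1

-- marker of a merged file
example : 731051 + 665445 = 731051 + 665445 := rfl
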