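import Mathlib.Algebra.Group.MinimalAxioms
import Pool.Agent.MP_e1dc65_gt.t2.Disc

/-! PROJECT HC: the double cover of the matrices with positive determinant. -/

open scoped Matrix Quaternion InnerProductSpace unitInterval Topology
open Set WithLp

noncomputable section

namespace Pool.Agent.MP_e1dc65_gt

namespace SpC

open QR Sp2

/-- the underlying space -/
def Gc : Type := {x : S × M5 // 0 < x.2.det ∧ ρ x.1 = Q x.2}

instance : TopologicalSpace Gc := instTopologicalSpaceSubtype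

theorem c1 : Continuous fun x : Gc => x.1.1 := continuous_subtype_val.fst
theorem c2 : Continuous fun x : Gc => x.1.2 := continuous_subtype_val.snd
theorem cI {Z : Type} [TopologicalSpace Z] : Continuous fun z : I × Z => (z.1 : ℝ) := by fun_prop

theorem dT (s : I) (x : Gc) : 0 < (T s x.1.2).det := det_T x.2.1.ne' s.2.1 s.2.2

/-- lifting of `Q` along a homotopy of matrices with positive determinant -/
theorem liftQ {Z : Type} [TopologicalSpace Z] {A : I × Z → M5} {f : Z → S} (hA : Continuous A)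
    (hd : ∀ z, 0 < (A z).det) (hf : Continuous f) (h0 : ∀ z, Q (A (0, z)) = ρ (f z)) :
    ∃ F : I × Z → S, Continuous F ∧ (∀ z, ρ (F z) = Q (A z)) ∧ ∀ z, F (0, z) = f z :=
  lift (cont_Q hA fun z => (hd z).ne') (fun z => Q_orth (hd z).ne') (fun z => det_Q (hd z)) hf h0

theorem ex_mul : ∃ F : Gc × Gc → S, Continuous F ∧ (∀ z, ρ (F z) = Q (R z.1.1.2 * z.2.1.2)) ∧
    ∀ z, (z.1.1.2)ᵀ * z.1.1.2 = 1 → F z = z.2.1.1 := by
  obtain ⟨F, h1, h2, h3⟩ := liftQ (Z := Gc × Gc) (A := fun z => T z.1 z.2.1.1.2 * z.2.2.1.2)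
    (f := fun z => z.2.1.1)
    ((cont_T (c2.comp continuous_snd.fst) cI fun z => z.2.1.2.1.ne').matrix_mul
      (c2.comp continuous_snd.snd))
    (fun z => by rw [Matrix.det_mul]; exact mul_pos (dT _ _) z.2.2.2.1) (c1.comp continuous_snd)
    fun z => by simp [T_zero, z.2.2.2]
  refine ⟨fun z => F (1, z), by fun_prop, fun z => by simp [h2, T_one], fun z hz => ?_⟩
  exact congrFun (uniq (f := fun s : I => F (s, z)) (f' := fun _ => z.2.1.1) (by fun_prop)
    continuous_const (fun s => by rw [h2, T_self hz, one_mul, z.2.2.2]) 0 (h3 z)) 1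

theorem orth_inv (g : S) : ρ g⁻¹ = (ρ g)ᵀ := by
  rw [← one_mul (ρ g⁻¹), ← ρ_orth g, mul_assoc, ← map_mul, mul_inv_cancel, map_one, mul_one]

theorem det_ρ (x : Gc) : 0 < (ρ x.1.1⁻¹).det := by
  rw [orth_inv, Matrix.det_transpose, x.2.2]; exact det_Q x.2.1

theorem det_inv {A : M5} (h : 0 < A.det) : 0 < A⁻¹.det := by
  rw [Matrix.det_nonsing_inv, Ring.inverse_eq_inv']; exact inv_pos.2 h

theorem ex_inv : ∃ F : Gc → S, Continuous F ∧ (∀ z, ρ (F z) = Q (z.1.2)⁻¹) ∧
    ∀ z, (z.1.2)ᵀ * z.1.2 = 1 → F z = z.1.1⁻¹ := by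
  obtain ⟨F, h1, h2, h3⟩ := liftQ (Z := Gc) (A := fun z => (T z.1 z.2.1.2)⁻¹ * ρ z.2.1.1⁻¹)
    (f := fun z => z.1.1⁻¹)
    ((cont_inv (cont_T (c2.comp continuous_snd) cI fun z => z.2.2.1.ne')
      fun z => (dT _ _).ne').matrix_mul (cont_ρ.comp (c1.comp continuous_snd).inv))
    (fun z => by rw [Matrix.det_mul]; exact mul_pos (det_inv (dT _ _)) (det_ρ _)) c1.inv
    fun z => by simp only [Icc.coe_zero, T_zero, inv_one, one_mul, Q_self (ρ_orth _)]
  refine ⟨fun z => F (1, z), by fun_prop, fun z => ?_, fun z hz => ?_⟩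
  · rw [h2]
    conv_rhs => rw [← Q_mul_R z.2.1.ne', Matrix.mul_inv_rev,
      Matrix.inv_eq_left_inv (Q_orth z.2.1.ne')]
    simp only [Icc.coe_one, T_one, orth_inv, z.2.2]
  · exact congrFun (uniq (f := fun s : I => F (s, z)) (f' := fun _ => z.1.1⁻¹) (by fun_prop)
      continuous_const (fun s => by rw [h2, T_self hz, inv_one, one_mul, Q_self (ρ_orth _)]) 0
      (h3 z)) 1

/-- the element over a rotation -/
def mk (g : S) (h : 0 < (ρ g).det) : Gc := ⟨(g, ρ g), h, (Q_self (ρ_orth g)).symm⟩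

instance : One Gc := ⟨mk 1 (by simp)⟩

instance : Mul Gc := ⟨fun x y => ⟨(x.1.1 * ex_mul.choose (x, y), x.1.2 * y.1.2),
  by rw [Matrix.det_mul]; exact mul_pos x.2.1 y.2.1, by
    rw [map_mul, ex_mul.choose_spec.2.1, x.2.2, ← Q_mul (Q_orth x.2.1.ne'), ← Matrix.mul_assoc,
      Q_mul_R x.2.1.ne']⟩⟩

instance : Inv Gc := ⟨fun x => ⟨(ex_inv.choose x, x.1.2⁻¹), det_inv x.2.1, ex_inv.choose_spec.2.1 x⟩⟩

theorem one2 : (1 : Gc).1.2 = 1 := map_one ρ
theorem mul2 (x y : Gc) : (x * y).1.2 = x.1.2 * y.1.2 := rfl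
theorem inv2 (x : Gc) : (x⁻¹).1.2 = x.1.2⁻¹ := rfl

theorem mk_mul (g h) (y : Gc) : (mk g h * y).1.1 = g * y.1.1 :=
  congrArg (g * ·) (ex_mul.choose_spec.2.2 (mk g h, y) (ρ_orth g))

theorem one_mul' (y : Gc) : 1 * y = y :=
  Subtype.ext (Prod.ext ((mk_mul 1 _ y).trans (one_mul _)) (by rw [mul2, one2, one_mul]))

theorem inv_one' : (1 : Gc)⁻¹ = 1 :=
  Subtype.ext (Prod.ext ((ex_inv.choose_spec.2.2 1 (ρ_orth 1)).trans inv_one)
    (by rw [inv2, one2, inv_one]))

instance : ContinuousMul Gc := ⟨Continuous.subtype_mk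
  (((c1.comp continuous_fst).mul ex_mul.choose_spec.1).prodMk
    ((c2.comp continuous_fst).matrix_mul (c2.comp continuous_snd))) _⟩

instance : ContinuousInv Gc := ⟨Continuous.subtype_mk
  (ex_inv.choose_spec.1.prodMk (cont_inv c2 fun z => z.2.1.ne')) _⟩

theorem joined (x : Gc) : Joined 1 x := by
  have hd : ∀ s : I, 0 < (Q x.1.2 * T s x.1.2).det := fun s => by
    rw [Matrix.det_mul]; exact mul_pos (det_Q x.2.1) (dT _ _)
  have hc : Continuous fun s : I => Q x.1.2 * T s x.1.2 := continuous_const.matrix_mul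
    (cont_T continuous_const continuous_subtype_val fun _ => x.2.1.ne')
  obtain ⟨F, h1, h2, h3⟩ := liftQ (Z := Unit) (A := fun z => Q x.1.2 * T (σ z.1) x.1.2)
    (f := fun _ => x.1.1) (hc.comp (by fun_prop)) (fun z => hd _) continuous_const
    fun z => by simp [T_one, Q_mul_R x.2.1.ne', x.2.2]
  have e : ρ (F (1, ())) = Q x.1.2 := by simp [h2, T_zero, Q_self (Q_orth x.2.1.ne')]
  have hp : 0 < (ρ (F (1, ()))).det := e ▸ det_Q x.2.1
  obtain ⟨γ⟩ := joined_of_pos hp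
  have a : Joined 1 (mk _ hp) := ⟨⟨⟨fun s => mk (γ s) (det_pos ⟨(γ.truncateOfLE
    (t₀ := 0) (t₁ := s) s.2.1).cast (by simp) (by simp)⟩),
    (γ.continuous.prodMk (cont_ρ.comp γ.continuous)).subtype_mk _⟩,
    Subtype.ext (Prod.ext γ.source (congrArg ρ γ.source)), Subtype.ext (by simp [mk])⟩⟩
  refine a.trans (Joined.symm ⟨⟨⟨fun s => ⟨(F (s, ()), Q x.1.2 * T (σ s) x.1.2), hd _, h2 _⟩,
    Continuous.subtype_mk (Continuous.prodMk (by fun_prop) (hc.comp (by fun_prop))) _⟩,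
    Subtype.ext (Prod.ext (h3 _) ?_), Subtype.ext (Prod.ext rfl ?_)⟩⟩)
  · simp [T_one, Q_mul_R x.2.1.ne']
  · simp [T_zero, mk, e]

instance : PathConnectedSpace Gc := ⟨⟨1⟩, fun x y => (joined x).symm.trans (joined y)⟩

theorem uniqG {Z : Type} [TopologicalSpace Z] [PreconnectedSpace Z] {f f' : Z → Gc}
    (h : Continuous f) (h' : Continuous f') (e : ∀ z, (f z).1.2 = (f' z).1.2) (z : Z)
    (e0 : f z = f' z) (z' : Z) : f z' = f' z' :=
  Subtype.ext (Prod.ext (congrFun (uniq (c1.comp h) (c1.comp h')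
    (fun z => (f z).2.2.trans ((congrArg Q (e z)).trans (f' z).2.2.symm)) z
    (congrArg (fun x : Gc => x.1.1) e0)) z') (e z'))

instance : Group Gc := Group.ofLeftAxioms
  (fun a b c => uniqG (Z := Gc × Gc × Gc) (f := fun z => z.1 * z.2.1 * z.2.2)
    (f' := fun z => z.1 * (z.2.1 * z.2.2)) (by fun_prop) (by fun_prop)
    (fun z => by simp only [mul2, Matrix.mul_assoc]) (1, 1, 1) (by simp only [one_mul']) (a, b, c))
  one_mul'
  (uniqG (f := fun z => z⁻¹ * z) (f' := fun _ => 1) (by fun_prop) continuous_const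
    (fun z => by rw [mul2, inv2, one2, Matrix.nonsing_inv_mul _ z.2.1.ne'.isUnit]) 1
    (by simp only [inv_one', one_mul']))

instance : IsTopologicalGroup Gc where

/-- the projection -/
def pr : Gc →* M5 := ⟨⟨fun x => x.1.2, one2⟩, mul2⟩

/-- the non-trivial element of the kernel -/
def eps : Gc := mk (-1) (by simp [ρ_neg])

theorem sec (A : M5) (hA : 0 < A.det) :
    ∃ O ∈ 𝓝 A, ∃ s : M5 → Gc, ContinuousOn s O ∧ ∀ B ∈ O, pr (s B) = B := by
  classical
  have hO : {B : M5 | 0 < B.det} ∈ 𝓝 A :=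
    (isOpen_lt continuous_const continuous_id.matrix_det).mem_nhds hA
  obtain ⟨O, ⟨h1, hc⟩, h2⟩ : ∃ O : Set M5, (O ∈ 𝓝 A ∧ Convex ℝ O) ∧ O ⊆ {B | 0 < B.det} :=
    ((locallyConvexSpace_iff ℝ (Fin 5 → Fin 5 → ℝ)).1 inferInstance A).mem_iff.1 hO
  obtain ⟨g, -, hg⟩ := surj (Q_orth hA.ne') (det_Q hA)
  obtain ⟨F, k1, k2, -⟩ := liftQ (Z := O) (A := fun z => (1 - z.1 : ℝ) • A + (z.1 : ℝ) • z.2.1)
    (f := fun _ => g) (by fun_prop)
    (fun z => h2 (hc (mem_of_mem_nhds h1) z.2.2 (sub_nonneg.2 z.1.2.2) z.1.2.1 (by ring)))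
    continuous_const fun z => by simp [hg]
  let u : O → Gc := fun B => ⟨(F (1, B), B.1), h2 B.2, by simp [k2]⟩
  have hu : Continuous u := Continuous.subtype_mk (by fun_prop) _
  refine ⟨O, h1, fun B => if h : B ∈ O then u ⟨B, h⟩ else 1, ?_, fun B h => ?_⟩
  · rw [continuousOn_iff_continuous_domRestrict]
    exact hu.congr fun B => by simp
  · simp only [h, dif_pos]; rfl

open Classical in
/-- the lift of the rotations of `ℍ` -/
def jj (z : ℍ × ℍ) : Gc :=
  if h : ‖z.1‖ = 1 ∧ ‖z.2‖ = 1 then mk (D z.1 z.2 h.1 h.2) (det_pos (joined_D _ _)) else 1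

theorem jj_eq {p q : ℍ} (hp hq) : jj (p, q) = mk (D p q hp hq) (det_pos (joined_D _ _)) :=
  dif_pos ⟨hp, hq⟩

end SpC

open SpC QR Sp2 in
theorem spinCover : SpinCoverStmt := ⟨{
  G := Gc
  π := pr
  cont := c2
  pos := fun g => g.2.1
  ε := eps
  ε_ne := fun h => neg_ne (congrArg (fun x : Gc => x.1.1) h)
  ker := fun g => ⟨fun h => by
      have h' : g.1.2 = 1 := h
      have : ρ g.1.1 = 1 := by rw [g.2.2, h', Q_self (by simp)]
      exact (ker_ρ this).imp (fun e => Subtype.ext (Prod.ext e (h'.trans one2.symm)))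
        fun e => Subtype.ext (Prod.ext e (h'.trans ρ_neg.symm)),
    by rintro (rfl | rfl); exacts [one2, ρ_neg]⟩
  disc := ⟨{x | x.1.1 ≠ -1}, isOpen_ne_fun c1 continuous_const, neg_ne.symm, fun h => h rfl⟩
  sec := sec
  j := jj
  j_cont := by
    rw [continuousOn_iff_continuous_domRestrict]
    have := cont_D.comp (X := {z : ℍ × ℍ | ‖z.1‖ = 1 ∧ ‖z.2‖ = 1})
      (f := fun z => (⟨z.1.1, mem_sphere_zero_iff_norm.2 z.2.1⟩,
        ⟨z.1.2, mem_sphere_zero_iff_norm.2 z.2.2⟩)) (by fun_prop)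
    exact ((this.prodMk (cont_ρ.comp this)).subtype_mk _).congr fun z => (jj_eq z.2.1 z.2.2).symm
  j_mul := fun p q p' q' hp hq hp' hq' => by
    rw [jj_eq hp hq, jj_eq hp' hq', jj_eq (by simp [hp, hp']) (by simp [hq, hq'])]
    refine Subtype.ext (Prod.ext ?_ ?_)
    · rw [mk_mul]; exact D_mul hp hq hp' hq' (by simp [hp, hp']) (by simp [hq, hq'])
    · exact (congrArg ρ (D_mul hp hq hp' hq' _ _)).trans (map_mul ρ _ _)
  j_π := fun p q hp hq v t => by rw [jj_eq hp hq]; exact ρ_D hp hq v t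
  j_neg := by
    rw [jj_eq (by simp) (by simp)]
    exact Subtype.ext (Prod.ext (D_neg (by simp) (by simp))
      (congrArg ρ (D_neg (by simp) (by simp)))) }⟩

theorem so4 : So4Stmt := by
  intro L hL hd
  let φ : ℍ ≃ₗᵢ[ℝ] ℍ := LinearIsometry.toLinearIsometryEquiv ⟨L.toLinearMap, hL⟩ rfl
  have key : ∀ l : List ℍ, ∃ p q : ℍ, ‖p‖ = 1 ∧ ‖q‖ = 1 ∧
      let ψ := (l.map fun v => (ℝ ∙ v)ᗮ.reflection).prod
      (LinearMap.det ψ.toLinearMap = 1 ∧ ∀ v, ψ v = p * v * star q) ∨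
      (LinearMap.det ψ.toLinearMap = -1 ∧ ∀ v, ψ v = p * star v * star q) := by
    intro l
    induction l with
    | nil => exact ⟨1, 1, by simp, by simp, Or.inl ⟨LinearMap.det_id, by simp⟩⟩
    | cons u l ih =>
      obtain ⟨p, q, hp, hq, h⟩ := ih
      simp only [List.map_cons, List.prod_cons] at h ⊢
      generalize (l.map fun v => (ℝ ∙ v)ᗮ.reflection).prod = ψ at h ⊢
      by_cases hu : u = 0
      · have : (ℝ ∙ u)ᗮ.reflection = 1 := by
          ext1 v
          rw [Submodule.reflection_orthogonal_apply, hu, Submodule.reflection_singleton_apply]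
          simp
        exact ⟨p, q, hp, hq, by rwa [this, one_mul]⟩
      · obtain ⟨w, hw, e⟩ : ∃ w : ℍ, ‖w‖ = 1 ∧ (ℝ ∙ u) = ℝ ∙ w :=
          ⟨‖u‖⁻¹ • u, by simp [norm_smul, hu],
            (Submodule.span_singleton_smul_eq (by simpa) u).symm⟩
        have r : ∀ v, (ℝ ∙ u)ᗮ.reflection v = -w * star v * w := fun v => by
          have : w * star v + v * star w = ((2 * ⟪w, v⟫_ℝ : ℝ) : ℍ) := by
            rw [Quaternion.inner_def]
            ext <;> simp <;> ring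
          simp only [e, Submodule.reflection_orthogonal_apply, Submodule.reflection_singleton_apply,
            hw]
          rw [neg_mul, eq_sub_of_add_eq this, neg_mul, sub_mul, mul_assoc, Sp2.star_mul_u hw,
            Quaternion.coe_mul_eq_smul, ← Nat.cast_smul_eq_nsmul ℝ]
          simp [mul_smul]
        have d : LinearMap.det ((ℝ ∙ u)ᗮ.reflection * ψ).toLinearMap =
            -LinearMap.det ψ.toLinearMap := by
          change LinearMap.det ((ℝ ∙ u)ᗮ.reflection.toLinearMap ∘ₗ ψ.toLinearMap) = _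
          rw [LinearMap.det_comp, Submodule.det_reflection, Submodule.orthogonal_orthogonal,
            finrank_span_singleton hu]
          simp
        refine ⟨-w * q, star w * p, by simp [hw, hq], by simp [hw, hp], h.symm.imp ?_ ?_⟩ <;>
          rintro ⟨h1, h2⟩ <;> refine ⟨by simp [d, h1], fun v => ?_⟩ <;>
          simp [r, h2, mul_assoc]
  obtain ⟨l, -, hl⟩ := φ.reflections_generate_dim
  obtain ⟨p, q, hp, hq, h⟩ := key l
  rw [← hl] at h
  rcases h with h | h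
  · exact ⟨p, q, hp, hq, h.2⟩
  · have : L.det = -1 := h.1
    linarith

end Pool.Agent.MP_e1dc65_gt
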