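import Pool.Agent.MP_e1dc65_gt.Spec1
import Pool.Agent.MP_e1dc65_gt.Spec0
import Pool.Agent.MP_e1dc65_gt.k.Mk
import Mathlib.Analysis.SpecialFunctions.Trigonometric.Basic

-- ======== part 0: formerly Pool.Agent.MP_e1dc65_gt.e.Spec
section MrgPart0

/-! PROJECT HC, part E: the interfaces between the three sub-parts A (the rational ball),
B (the manifold `M` and its cover) and C (the manifold `N`). -/

open scoped ContDiff Manifold Topology Matrix Real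
open Set Filter Function Module Pool.Agent.MP_c8d41b_gt.GF

noncomputable section

namespace Pool.Agent.MP_e1dc65_gt.E

/-- the monodromy normal to the invariant circle -/
def Rp (v : Rn 3) : Rn 3 := ![-v 1, -v 0, -v 2]
/-- the monodromy of the coframe `(dx, dy, du, ds, dt)` -/
def R5 : M5 := !![0, -1, 0, 0, 0; -1, 0, 0, 0, 0; 0, 0, 1, 0, 0; 0, 0, 0, -1, 0; 0, 0, 0, 0, 1]
/-- the column round `x = y = π`; a point is `((x - π, y - π, s), u)` -/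
def Col : Set (Rn 3 × ℝ) := {p | |p.1 0| < 1 ∧ |p.1 1| < 1}

/-- data of sub-part A -/
structure QDat where
  F : Mf (Rn 3)
  e₀ : Rn 3 → F
  e : Fin 3 → Rn 3 → F
  Qt : Mf E4
  Q : Mf E4
  σ : Qt → Qt
  s : Qt → ℝ
  n : F.cyl → Qt
  c : Rn 3 × ℝ → Qt
  pt : Qt
  Θ : Qt.cyl → E4 × ℝ →L[ℝ] Rn 5
  τ : F → Rn 3 →L[ℝ] Rn 3
  pQ : Qt → Q
  νQ : F.cyl → Q
  κ : Rn 2 × ℂ → Q

/-- what sub-part B uses -/
structure QDat.Ok (D : QDat) : Prop where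
  isF : IsF D.F D.e₀ D.e
  σsm : Sm D.Qt D.Qt D.σ univ
  σσ : ∀ y, D.σ (D.σ y) = y
  σne : ∀ y, D.σ y ≠ y
  scont : Continuous D.s
  sσ : ∀ y, D.s (D.σ y) = -D.s y
  scpt : ∀ a, IsCompact {y | |D.s y| ≤ a}
  cld : ∀ p ∈ Col, LDAt (vs (Rn 3 × ℝ)) D.Qt D.c p
  ceq : ∀ p ∈ Col, ∀ p' ∈ Col, D.c p = D.c p' ↔ p.1 = p'.1 ∧ ∃ m : ℤ, p.2 - p'.2 = 2 * π * m
  cσ : ∀ p ∈ Col, D.σ (D.c p) = D.c (Rp p.1, p.2 + π)
  cs : ∀ p ∈ Col, D.s (D.c p) = p.1 2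
  noe : OE D.F.cyl D.Qt D.n (univ ×ˢ Ioi 2)
  ns : ∀ m r, 2 < r → D.s (D.n (m, r)) = r
  nsur : ∀ y, 2 < D.s y → ∃ m, D.n (m, D.s y) = y
  nc : ∀ p ∈ Col, 2 < p.1 2 → D.n (D.e₀ ![π + p.1 0, π + p.1 1, p.2], p.1 2) = D.c p
  sc : SC (univ : Set D.Qt)
  spt : D.s D.pt = 1
  ptc : D.pt ∉ D.c '' Col
  cof : Cof D.Qt.cyl 0 D.Θ ({D.pt, D.σ D.pt}ᶜ ×ˢ univ)
  Θσ : ∀ y ∉ ({D.pt, D.σ D.pt} : Set D.Qt), ∀ t v r,
    D.Θ (D.σ y, t) (Df D.Qt D.Qt D.σ y v, r) = R5 *ᵥ D.Θ (y, t) (v, r)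
  Θc : ∀ p ∈ Col, ∀ t v r, D.Θ (D.c p, t) (Df (vs (Rn 3 × ℝ)) D.Qt D.c p v, r) =
    ![v.1 0, v.1 1, v.2, v.1 2, r]
  τcof : Cof D.F 0 D.τ univ
  Θn : ∀ m a, 2 < a → ∀ t v r, D.Θ (D.n (m, a), t) (Df D.F.cyl D.Qt D.n (m, a) v, r) =
    ![D.τ m v.1 0, D.τ m v.1 1, D.τ m v.1 2, v.2, r]
  pld : ∀ y, LDAt D.Qt D.Q D.pQ y
  psur : Surjective D.pQ
  peq : ∀ y y', D.pQ y = D.pQ y' ↔ y' = y ∨ y' = D.σ y
  h2Q : HZ D.Q 1 univ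

/-- what goes straight to part O -/
structure QDat.Out (C : SpinCover) (D : QDat) : Prop where
  perf : Perf (univ : Set D.F)
  oriQ : ∃ o, Ori D.Q 4 o univ
  endQ : OE D.F.cyl D.Q D.νQ univ
  cptQ : ∀ a, IsCompact (D.νQ '' (univ ×ˢ Iio a))ᶜ
  clQ : ∀ a, IsClosed (D.νQ '' (univ ×ˢ Iic a))
  ldκ : ∀ m w, ‖w‖ < 30 → LDAt (vs (Rn 2 × ℂ)) D.Q D.κ (m, w)
  eqκ : ∀ m m' w w', ‖w‖ < 30 → ‖w'‖ < 30 → (D.κ (m, w) = D.κ (m', w') ↔ Lat m m' ∧ w = w')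
  disκ : ∀ m w, ‖w‖ < 30 → D.κ (m, w) ∉ range D.νQ
  spinP : ∃ (sp : Spin C D.Q.cyl ((D.κ '' (univ ×ˢ {0}))ᶜ ×ˢ univ)) (i : sp.ι),
    sp.W i = (D.κ '' (univ ×ˢ {w | 0 < ‖w‖ ∧ ‖w‖ < 30})) ×ˢ univ ∧
    ∀ (z : Rn 4) (t : ℝ), Real.exp (z 3) < 30 → (sp.Θ i (D.κ (pol z), t)).comp
      ((Df (vs (Rn 4)) D.Q (fun z => D.κ (pol z)) z).prodMap (ContinuousLinearMap.id ℝ ℝ)) = std5

/-- data of sub-part B -/
structure MDat (F : Mf (Rn 3)) where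
  M : Mf E4
  MG : Mf E4
  G : Type
  [grp : Group G]
  [cnt : Countable G]
  act : G → MG → MG
  z : ℤ × ℤ → G
  pM : MG → M
  ν : F.cyl → M
  l : ℝ × Rn 3 → M
  νt : F.cyl → MG
  lt : ℝ × Rn 3 → MG

attribute [instance] MDat.grp MDat.cnt

structure MDat.Ok (C : SpinCover) {F : Mf (Rn 3)} (e₀ : Rn 3 → F) (D : MDat F) : Prop where
  act1 : ∀ y, D.act 1 y = y
  actm : ∀ g h y, D.act (g * h) y = D.act g (D.act h y)
  actsm : ∀ g, Sm D.MG D.MG (D.act g) univ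
  free : ∀ g y, D.act g y = y → g = 1
  zm : ∀ m n, D.z (m + n) = D.z m * D.z n
  zinj : Injective D.z
  zfin : ∃ s : Finset D.G, ∀ g, ∃ n, ∃ h ∈ s, g = D.z n * h
  ld : ∀ y, LDAt D.MG D.M D.pM y
  sur : Surjective D.pM
  fib : ∀ y y', D.pM y = D.pM y' ↔ ∃ g, D.act g y = y'
  cpt : CompactSpace D.M
  conn : ConnectedSpace D.M
  ori : ∃ o, Ori D.M 4 o univ
  spin : Nonempty (Spin C D.MG.cyl univ)
  h2 : HZ D.M 1 (D.ν '' (univ ×ˢ {0}))ᶜ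
  neck : OE F.cyl D.M D.ν univ
  tl : Tube D.M D.l {v | nsq v < 1}
  str : ∀ θ v, |θ| < 3 → nsq v < 1 → D.l (θ, v) = D.ν (e₀ (q0 + eps • v), θ)
  off : ∀ θ v, 3 ≤ θ → θ ≤ 5 → nsq v < 1 → D.l (θ, v) ∉ D.ν '' (univ ×ˢ Ioo (-3) 3)
  νld : ∀ p, LDAt F.cyl D.MG D.νt p
  νp : ∀ p, D.pM (D.νt p) = D.ν p
  lld : ∀ θ v, nsq v < 1 → LDAt (vs (ℝ × Rn 3)) D.MG D.lt (θ, v)
  lp : ∀ θ v, nsq v < 1 → D.pM (D.lt (θ, v)) = D.l (θ, v)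
  per : ∀ θ v, nsq v < 1 → D.lt (θ + 8, v) = D.lt (θ, v)
  strt : ∀ θ v, |θ| < 3 → nsq v < 1 → D.lt (θ, v) = D.νt (e₀ (q0 + eps • v), θ)
  sc0 : SC (D.pM ⁻¹' (D.ν '' (univ ×ˢ {0}))ᶜ)
  sc1 : SC (D.pM ⁻¹' (D.ν '' (univ ×ˢ {0}) ∪ D.l '' (univ ×ˢ {0}))ᶜ)

/-- sub-part A -/
def AStmt : Prop := ∀ C : SpinCover, ∃ D : QDat, D.Ok ∧ D.Out C

/-- sub-part B -/
def BStmt : Prop := ∀ (C : SpinCover) (D : QDat), D.Ok → ∃ B : MDat D.F, B.Ok C D.e₀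

/-- sub-part C and the assembly -/
def CStmt : Prop := AStmt → BStmt → EStmt

end Pool.Agent.MP_e1dc65_gt.E

end
end MrgPart0

-- ======== part 1: formerly Pool.Agent.MP_e1dc65_gt.e.aSpec
section MrgPart1

/-! PROJECT HC, part E, sub-part A (the rational ball): definitions and row statements. -/

open scoped ContDiff Manifold Topology Matrix Real
open Set Filter Function Module Pool.Agent.MP_c8d41b_gt.GF

noncomputable section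

namespace Pool.Agent.MP_e1dc65_gt.EA

/-! ### The torus bundle `MA` -/

/-- off the cuts with index in `I` -/
def MainI (I : Set (Fin 3)) : Set (Rn 3) := {z | ∀ i ∈ I, z ∉ Cut i}

/-- the three-torus cut along the annuli with index in `I` and reglued by Dehn twists -/
structure IsTw (I : Set (Fin 3)) (X : Mf (Rn 3)) (e₀ : Rn 3 → X) (e : Fin 3 → Rn 3 → X) :
    Prop where
  ld0 : ∀ z ∈ MainI I, LDAt (vs (Rn 3)) X e₀ z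
  eq0 : ∀ z ∈ MainI I, ∀ z' ∈ MainI I, e₀ z = e₀ z' ↔ Lat z z'
  ld : ∀ i ∈ I, ∀ z ∈ Box i, LDAt (vs (Rn 3)) X (e i) z
  low : ∀ i ∈ I, ∀ z ∈ Box i, z ∈ MainI I → z (kx i) ≤ ck i → e i z = e₀ z
  up : ∀ i ∈ I, ∀ z ∈ Box i, ck i < z (kx i) → e i z = e₀ (shr i z)
  eq : ∀ i ∈ I, ∀ z ∈ Box i, ∀ z' ∈ Box i, e i z = e i z' ↔ Lat z z'
  cut : ∀ i ∈ I, ∀ z ∈ Box i ∩ Cut i, e i z ∉ e₀ '' MainI I
  dis : ∀ i ∈ I, ∀ i' ∈ I, i ≠ i' → ∀ z ∈ Box i, ∀ z' ∈ Box i', e i z ≠ e i' z'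
  cov : ∀ x, (∃ z ∈ MainI I, e₀ z = x) ∨ ∃ i ∈ I, ∃ z ∈ Box i, e i z = x
  cpt : CompactSpace X
  conn : ConnectedSpace X

/-- the first two cuts -/
def I01 : Set (Fin 3) := {i | i ≠ 2}
/-- the involution in the main chart -/
def sg0 (z : Rn 3) : Rn 3 := ![-z 1, -z 0, z 2 + π]
/-- its action on the coframe `(dx, dy, du)` -/
def R3 (v : Rn 3) : Rn 3 := ![-v 1, -v 0, v 2]
/-- complex coordinate normal to the circle `x = 3π/2`, `y = π/2` -/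
def wz (z : Rn 3) : ℂ := ⟨z 0 - 3 * π / 2, z 1 - π / 2⟩
/-- the solid torus round this circle -/
def Dsc : Set (Rn 3) := {z | ‖wz z‖ < 1}
/-- shift of the circle coordinate -/
def su (θ : ℝ) (z : Rn 3) : Rn 3 := ![z 0, z 1, z 2 - θ]
/-- `θ` is an argument of `w` -/
def IsArg (w : ℂ) (θ : ℝ) : Prop := w = ‖w‖ * Complex.exp (θ * Complex.I)
/-- a region far from the first two cuts -/
def Std : Set (Rn 3) := {z | (2 < z 0 ∧ z 0 < 6 ∧ 0 < z 1 ∧ z 1 < 9 / 2) ∨ |z 2| < 1}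

structure MA where
  X : Mf (Rn 3)
  e₀ : Rn 3 → X
  e : Fin 3 → Rn 3 → X
  σ : X → X
  ang : X → ℂ
  del : X → ℝ

/-- the circle along which the handle is attached -/
def MA.core (A : MA) : Set A.X := A.e₀ '' {z | wz z = 0}

structure MA.Ok (A : MA) : Prop where
  tw : IsTw I01 A.X A.e₀ A.e
  σsm : Sm A.X A.X A.σ univ
  σσ : ∀ x, A.σ (A.σ x) = x
  σ0 : ∀ z ∈ MainI I01, A.σ (A.e₀ z) = A.e₀ (sg0 z)
  σb0 : ∀ z ∈ Box 0, A.σ (A.e 0 z) = A.e 1 ![2 * π - z 1, -z 0, z 2 + π]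
  σb1 : ∀ z ∈ Box 1, A.σ (A.e 1 z) = A.e 0 ![-z 1, 2 * π - z 0, z 2 - π]
  angc : Continuous A.ang
  ang0 : ∀ z ∈ MainI I01, A.ang (A.e₀ z) = Complex.exp (z 2 * Complex.I)
  angb : ∀ i ∈ I01, ∀ z ∈ Box i, A.ang (A.e i z) = Complex.exp (z 2 * Complex.I)
  angσ : ∀ x, A.ang (A.σ x) = -A.ang x
  delc : Continuous A.del
  del0 : ∀ z ∈ Dsc, A.del (A.e₀ z) = ‖wz z‖
  del1 : ∀ x, A.del x = 1 ∨ ∃ z ∈ Dsc, A.e₀ z = x
  delσ : ∀ x, A.del (A.σ x) = A.del x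

/-- the slab -/
def Slab : Set (Rn 3) := {z | -(π / 2) < z 2 ∧ z 2 < 3 * π / 2}
/-- the monodromy -/
def Tm (St : ℝ → ℝ) (z : Rn 3) : Rn 3 := ![-z 1 - 2 * π * St (-z 0), -z 0, z 2 + π]

/-- mapping torus coordinates -/
structure Slb (A : MA) (St : ℝ → ℝ) (Φ : Rn 3 → A.X) : Prop where
  sm : ContDiff ℝ ∞ St
  per : ∀ t, St (t + 2 * π) = St t + 1
  ld : ∀ z ∈ Slab, LDAt (vs (Rn 3)) A.X Φ z
  eq : ∀ z ∈ Slab, ∀ z' ∈ Slab, Φ z = Φ z' ↔ Lat z z'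
  col : ∀ z ∈ Slab, -1 ≤ z 1 → z 1 ≤ 4 → Φ z = A.e₀ z
  st0 : ∀ t, -1 ≤ t → t ≤ 4 → St t = 0
  ang : ∀ z ∈ Slab, A.ang (Φ z) = Complex.exp (z 2 * Complex.I)
  σΦ : ∀ z ∈ Slab, z 2 < π / 2 → A.σ (Φ z) = Φ (Tm St z)
  cov : ∀ x, ∃ z : Rn 3, 0 ≤ z 2 ∧ z 2 < π ∧ (Φ z = x ∨ A.σ (Φ z) = x)

/-- an equivariant coframe -/
structure Cfa (A : MA) (τ : A.X → Rn 3 →L[ℝ] Rn 3) : Prop where
  cof : Cof A.X 0 τ univ
  σ : ∀ x v, τ (A.σ x) (Df A.X A.X A.σ x v) = R3 (τ x v)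
  std : ∀ z ∈ Std, ∀ v, τ (A.e₀ z) (Df (vs (Rn 3)) A.X A.e₀ z v) = v

/-! ### The manifold `F` as a logarithmic transform of `MA` -/

structure Lg (A : MA) (F : Mf (Rn 3)) (j : A.X → F) (k : Rn 3 → F) : Prop where
  oj : OE A.X F j A.coreᶜ
  kld : ∀ z ∈ Dsc, LDAt (vs (Rn 3)) F k z
  keq : ∀ z ∈ Dsc, ∀ z' ∈ Dsc, k z = k z' ↔ Lat z z'
  rel : ∀ z ∈ Dsc, wz z ≠ 0 → ∀ θ, IsArg (wz z) θ → k z = j (A.e₀ (su θ z))
  kc : ∀ z, wz z = 0 → k z ∉ j '' A.coreᶜ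
  cov : ∀ m, m ∈ j '' A.coreᶜ ∨ ∃ z, wz z = 0 ∧ k z = m
  cpt : CompactSpace F
  conn : ConnectedSpace F

/-! ### The handle chart; a point of `ℝ³ × ℝ` is `((x, y, u), s)` -/

def rho (z : ℂ × ℂ) : ℝ := ‖z.1‖ ^ 2 - ‖z.2‖ ^ 2
def Np : Set (ℂ × ℂ) := {z | ‖z.1 * z.2‖ < 1 ∧ -1 / 2 < rho z}
def rr (w : ℂ) (ρ : ℝ) : ℝ := √((ρ + √(ρ ^ 2 + 4 * ‖w‖ ^ 2)) / 2)
def up (p : Rn 3 × ℝ) : ℂ × ℂ :=
  (rr (wz p.1) (p.2 - 1) * Complex.exp (p.1 2 * Complex.I),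
    wz p.1 / (rr (wz p.1) (p.2 - 1) * Complex.exp (p.1 2 * Complex.I)))
def lo (p : Rn 3 × ℝ) : ℂ × ℂ :=
  (wz p.1 / (rr (wz p.1) (1 - p.2) * Complex.exp (-(p.1 2 * Complex.I))),
    rr (wz p.1) (1 - p.2) * Complex.exp (-(p.1 2 * Complex.I)))
def Dup : Set (Rn 3 × ℝ) := {p | p.1 ∈ Dsc ∧ 1 / 2 < p.2 ∧ (wz p.1 = 0 → 1 < p.2)}
def Dlo : Set (Rn 3 × ℝ) := {p | p.1 ∈ Dsc ∧ 1 / 2 < p.2 ∧ (wz p.1 = 0 → p.2 < 1)}

/-- row NUT -/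
structure NutStmt : Prop where
  opN : IsOpen Np
  opU : IsOpen Dup
  opL : IsOpen Dlo
  star : StarConvex ℝ 0 Np
  starL : StarConvex ℝ ((![3 * π / 2, π / 2, 0] : Rn 3), (3 / 4 : ℝ)) Dlo
  ldu : ∀ p ∈ Dup, LDAt (vs (Rn 3 × ℝ)) (vs (ℂ × ℂ)) up p
  ldl : ∀ p ∈ Dlo, LDAt (vs (Rn 3 × ℝ)) (vs (ℂ × ℂ)) lo p
  memu : ∀ p ∈ Dup, up p ∈ Np ∧ (up p).1 ≠ 0 ∧ (up p).1 * (up p).2 = wz p.1 ∧ rho (up p) = p.2 - 1
  meml : ∀ p ∈ Dlo, lo p ∈ Np ∧ (lo p).2 ≠ 0 ∧ (lo p).1 * (lo p).2 = wz p.1 ∧ rho (lo p) = p.2 - 1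
  equ : ∀ p ∈ Dup, ∀ p' ∈ Dup, up p = up p' ↔ Lat p.1 p'.1 ∧ p.2 = p'.2
  eql : ∀ p ∈ Dlo, ∀ p' ∈ Dlo, lo p = lo p' ↔ Lat p.1 p'.1 ∧ p.2 = p'.2
  suru : ∀ z ∈ Np, z.1 ≠ 0 → ∃ p ∈ Dup, up p = z
  surl : ∀ z ∈ Np, z.2 ≠ 0 → ∃ p ∈ Dlo, lo p = z
  ul : ∀ p : Rn 3 × ℝ, wz p.1 ≠ 0 → ∀ θ, IsArg (wz p.1) θ → up p = lo (su θ p.1, p.2)
  cpt : ∀ a b, IsCompact {z : ℂ × ℂ | ‖z.1 * z.2‖ ≤ a ∧ |rho z| ≤ b}

/-- a coframe on the punctured handle chart -/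
structure Cfn (ϑ : ℂ × ℂ → ℂ × ℂ →L[ℝ] Rn 3 × ℝ) (B : Rn 3 → Rn 3 →L[ℝ] Rn 3) : Prop where
  cof : Cof (vs (ℂ × ℂ)) 0 ϑ (Np \ {0})
  lo : ∀ p ∈ Dlo, p.2 ≤ 1 ∨ 1 / 2 ≤ ‖wz p.1‖ → ∀ v, ϑ (lo p) (fderiv ℝ lo p v) = v
  up : ∀ p ∈ Dup, 2 ≤ p.2 → ∀ v, ϑ (up p) (fderiv ℝ up p v) = (B p.1 v.1, v.2)

/-! ### The double cover `Qt` -/

/-- off the two strings -/
def MA.U (A : MA) : Set A.X.cyl := {p | p.1 ∈ A.core → |p.2| < 1}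

structure QtD (A : MA) where
  Qt : Mf E4
  io : A.X.cyl → Qt
  nut : ℂ × ℂ → Qt
  σ : Qt → Qt
  s : Qt → ℝ

structure QtD.Ok {A : MA} (T : QtD A) : Prop where
  oi : OE A.X.cyl T.Qt T.io A.U
  onu : OE (vs (ℂ × ℂ)) T.Qt T.nut Np
  cov : ∀ y, (∃ p ∈ A.U, T.io p = y) ∨ ∃ z ∈ Np, T.nut z = y ∨ T.σ (T.nut z) = y
  rel : ∀ p ∈ A.U, ∀ z ∈ Np, T.io p = T.nut z ↔ ∃ q ∈ Dlo, (A.e₀ q.1, q.2) = p ∧ lo q = z
  σsm : Sm T.Qt T.Qt T.σ univ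
  σσ : ∀ y, T.σ (T.σ y) = y
  σU : ∀ p ∈ A.U, (A.σ p.1, -p.2) ∈ A.U
  σi : ∀ p ∈ A.U, T.σ (T.io p) = T.io (A.σ p.1, -p.2)
  scont : Continuous T.s
  si : ∀ p ∈ A.U, T.s (T.io p) = p.2
  sn : ∀ z ∈ Np, T.s (T.nut z) = 1 + rho z
  sσ : ∀ y, T.s (T.σ y) = -T.s y

section
variable {A : MA} (T : QtD A)

/-- the column -/
def QtD.c (p : Rn 3 × ℝ) : T.Qt := T.io (A.e₀ ![π + p.1 0, π + p.1 1, p.2], p.1 2)

/-- freeness, properness, the column -/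
structure QtD.Col : Prop where
  σne : ∀ y, T.σ y ≠ y
  scpt : ∀ a, IsCompact {y | |T.s y| ≤ a}
  cld : ∀ p ∈ E.Col, LDAt (vs (Rn 3 × ℝ)) T.Qt T.c p
  ceq : ∀ p ∈ E.Col, ∀ p' ∈ E.Col, T.c p = T.c p' ↔
    p.1 = p'.1 ∧ ∃ m : ℤ, p.2 - p'.2 = 2 * π * m
  cσ : ∀ p ∈ E.Col, T.σ (T.c p) = T.c (E.Rp p.1, p.2 + π)
  cs : ∀ p ∈ E.Col, T.s (T.c p) = p.1 2
  spt : T.s (T.nut 0) = 1
  ptc : T.nut 0 ∉ T.c '' E.Col

/-- the end -/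
structure QtD.End {F : Mf (Rn 3)} (j : A.X → F) (k : Rn 3 → F) (n : F.cyl → T.Qt) : Prop where
  noe : OE F.cyl T.Qt n (univ ×ˢ Ioi 2)
  ns : ∀ m r, 2 < r → T.s (n (m, r)) = r
  nsur : ∀ y, 2 < T.s y → ∃ m, n (m, T.s y) = y
  nj : ∀ x ∉ A.core, ∀ r, 2 < r → n (j x, r) = T.io (x, r)
  nk : ∀ z ∈ Dsc, ∀ r, 2 < r → n (k z, r) = T.nut (up (z, r))

/-- the coframe off the two fixed points of the circle action -/
structure QtD.Cf (τ : A.X → Rn 3 →L[ℝ] Rn 3) (ϑ : ℂ × ℂ → ℂ × ℂ →L[ℝ] Rn 3 × ℝ)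
    (Θ : T.Qt.cyl → E4 × ℝ →L[ℝ] Rn 5) : Prop where
  cof : Cof T.Qt.cyl 0 Θ ({T.nut 0, T.σ (T.nut 0)}ᶜ ×ˢ univ)
  Θσ : ∀ y ∉ ({T.nut 0, T.σ (T.nut 0)} : Set T.Qt), ∀ t v r,
    Θ (T.σ y, t) (Df T.Qt T.Qt T.σ y v, r) = E.R5 *ᵥ Θ (y, t) (v, r)
  Θi : ∀ p ∈ A.U, |p.2| < 1 ∨ 1 / 2 < A.del p.1 → ∀ t v r,
    Θ (T.io p, t) (Df A.X.cyl T.Qt T.io p v, r) =
      ![τ p.1 v.1 0, τ p.1 v.1 1, τ p.1 v.1 2, v.2, r]
  Θn : ∀ z ∈ Np \ {0}, ∀ t v r, Θ (T.nut z, t) (Df (vs (ℂ × ℂ)) T.Qt T.nut z v, r) =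
    ![(ϑ z v).1 0, (ϑ z v).1 1, (ϑ z v).1 2, (ϑ z v).2, r]

/-! ### The quotient `Q` -/

structure QtD.Quo (Q : Mf E4) (pQ : T.Qt → Q) : Prop where
  pld : ∀ y, LDAt T.Qt Q pQ y
  psur : Surjective pQ
  peq : ∀ y y', pQ y = pQ y' ↔ y' = y ∨ y' = T.σ y

/-- the lifted torus port -/
def QtD.κt (p : Rn 2 × ℂ) : T.Qt :=
  T.io (A.e₀ ![p.1 0, p.1 1, p.2.im / 200], 1 / 2 + p.2.re / 200)

end

/-- the torus port -/
structure Port (Q : Mf E4) (κ : Rn 2 × ℂ → Q) : Prop where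
  ld : ∀ m w, ‖w‖ < 30 → LDAt (vs (Rn 2 × ℂ)) Q κ (m, w)
  eq : ∀ m m' w w', ‖w‖ < 30 → ‖w'‖ < 30 → (κ (m, w) = κ (m', w') ↔ Lat m m' ∧ w = w')

/-- the punctured port times the line -/
def Wp {Q : Mf E4} (κ : Rn 2 × ℂ → Q) : Set Q.cyl :=
  (κ '' (univ ×ˢ {w | 0 < ‖w‖ ∧ ‖w‖ < 30})) ×ˢ univ

/-- the invariant framing of the port -/
def Lie (Q : Mf E4) (κ : Rn 2 × ℂ → Q) (Λ : Q.cyl → E4 × ℝ →L[ℝ] Rn 5) : Prop :=
  ∀ (z : Rn 4) (t : ℝ), Real.exp (z 3) < 30 → (Λ (κ (pol z), t)).comp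
    ((Df (vs (Rn 4)) Q (fun z => κ (pol z)) z).prodMap (ContinuousLinearMap.id ℝ ℝ)) = std5

/-- rotation and scaling in the `(u, s)`-plane -/
def Mr (θ r : ℝ) : M5 := !![1, 0, 0, 0, 0; 0, 1, 0, 0, 0; 0, 0, r * Real.cos θ, r * Real.sin θ, 0;
  0, 0, -(r * Real.sin θ), r * Real.cos θ, 0; 0, 0, 0, 0, 1]

/-! ### Row statements -/

/-- row TW -/
def TwStmt : Prop := ∃ (X : Mf (Rn 3)) (e₀ : Rn 3 → X) (e : Fin 3 → Rn 3 → X), IsTw I01 X e₀ e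
/-- row SGM -/
def SgmStmt : Prop := ∀ (X : Mf (Rn 3)) (e₀ : Rn 3 → X) (e : Fin 3 → Rn 3 → X),
  IsTw I01 X e₀ e → ∃ σ ang del, MA.Ok ⟨X, e₀, e, σ, ang, del⟩
/-- row SLB -/
def SlbStmt : Prop := ∀ A : MA, A.Ok → ∃ St Φ, Slb A St Φ
/-- row CFA -/
def CfaStmt : Prop := ∀ A : MA, A.Ok → ∃ τ, Cfa A τ
/-- row LG -/
def LgStmt : Prop := ∀ A : MA, A.Ok → ∃ F j k, Lg A F j k
/-- row ISF -/
def IsfStmt : Prop := ∀ (A : MA) F j k, A.Ok → Lg A F j k → ∃ f₀ f, IsF F f₀ f ∧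
  ∀ z : Rn 3, |z 0 - π| < 1 → |z 1 - π| < 1 → f₀ z = j (A.e₀ z)
/-- row CFN -/
def CfnStmt : Prop := NutStmt → ∃ ϑ B, Cfn ϑ B
/-- row QT -/
def QtStmt : Prop := NutStmt → ∀ A : MA, A.Ok → ∃ T : QtD A, T.Ok
/-- row COL -/
def ColStmt : Prop := NutStmt → ∀ (A : MA) (T : QtD A), A.Ok → T.Ok → T.Col
/-- row END -/
def EndStmt : Prop := NutStmt → ∀ (A : MA) (T : QtD A) F j k, A.Ok → T.Ok → Lg A F j k →
  ∃ n, T.End j k n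
/-- row CFQ -/
def CfqStmt : Prop := NutStmt → ∀ (A : MA) (T : QtD A) τ ϑ B, A.Ok → T.Ok → Cfa A τ → Cfn ϑ B →
  ∃ Θ, T.Cf τ ϑ Θ
/-- row CFE -/
def CfeStmt : Prop := NutStmt → ∀ (A : MA) (T : QtD A) τ ϑ B Θ F j k n, A.Ok → T.Ok → Cfa A τ →
  Cfn ϑ B → T.Cf τ ϑ Θ → Lg A F j k → T.End j k n →
  (∀ p ∈ E.Col, ∀ t v r, Θ (T.c p, t) (Df (vs (Rn 3 × ℝ)) T.Qt T.c p v, r) =
    ![v.1 0, v.1 1, v.2, v.1 2, r]) ∧
  ∃ τF : F → Rn 3 →L[ℝ] Rn 3, Cof F 0 τF univ ∧ ∀ m a, 2 < a → ∀ t v r,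
    Θ (n (m, a), t) (Df F.cyl T.Qt n (m, a) v, r) =
      ![τF m v.1 0, τF m v.1 1, τF m v.1 2, v.2, r]
/-- row QUO: the quotient, its end and the port -/
def QuoStmt : Prop := ∀ (A : MA) (T : QtD A) (F : Mf (Rn 3)) (j : A.X → F) k n, A.Ok → T.Ok →
  T.Col → T.End j k n → ∃ (Q : Mf E4) (pQ : T.Qt → Q), T.Quo Q pQ ∧
    OE F.cyl Q (fun p => pQ (n (p.1, 2 + Real.exp (-p.2)))) univ ∧
    (∀ a, IsCompact ((fun p : F.cyl => pQ (n (p.1, 2 + Real.exp (-p.2)))) '' (univ ×ˢ Iio a))ᶜ) ∧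
    (∀ a, IsClosed ((fun p : F.cyl => pQ (n (p.1, 2 + Real.exp (-p.2)))) '' (univ ×ˢ Iic a))) ∧
    Port Q (fun p => pQ (T.κt p)) ∧
    ∀ m w, ‖w‖ < 30 → pQ (T.κt (m, w)) ∉ range fun p : F.cyl => pQ (n (p.1, 2 + Real.exp (-p.2)))

/-- row MAT: killing the circle kills the fundamental group of `MA` -/
def MatStmt : Prop := ∀ (A : MA) St Φ, A.Ok → Slb A St Φ → ∀ (G : Type) [Group G]
  (τ : ∀ x y : A.X, Path x y → G), Hol univ τ → Triv τ A.core → Triv τ univ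
/-- row SCQ -/
def ScqStmt : Prop := NutStmt → MatStmt → ∀ (A : MA) (T : QtD A) St Φ, A.Ok → T.Ok → Slb A St Φ →
  SC (univ : Set T.Qt)
/-- row PERF -/
def PrfStmt : Prop := MatStmt → ∀ (A : MA) St Φ F j k, A.Ok → Slb A St Φ → Lg A F j k →
  Perf (univ : Set F)

/-- row ETS: a spin structure given on an etale cover, with one prescribed chart -/
def EtsStmt : Prop :=
  ∀ (C : SpinCover) (E E' : Type) [NormedAddCommGroup E] [NormedSpace ℝ E] [FiniteDimensional ℝ E]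
    [NormedAddCommGroup E'] [NormedSpace ℝ E'] [FiniteDimensional ℝ E'] (X : Mf E) (Y : Mf E')
    (f : Y → X) (O : Set Y) (Θ : Y → E' →L[ℝ] Rn 5) (g : Y → Y → C.G) (W : Set X)
    (Λ : X → E →L[ℝ] Rn 5) (k : Y → C.G), IsOpen O → (∀ y ∈ O, LDAt Y X f y) → Cof Y 0 Θ O →
    ContinuousOn (fun p : Y × Y => g p.1 p.2) {p | p.1 ∈ O ∧ p.2 ∈ O ∧ f p.1 = f p.2} →
    (∀ y ∈ O, ∀ y' ∈ O, f y = f y' → C.π (g y y') =
      tm ((Θ y).comp (Df Y X f y).inverse) ((Θ y').comp (Df Y X f y').inverse)) →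
    (∀ y ∈ O, ∀ y' ∈ O, ∀ y'' ∈ O, f y = f y' → f y' = f y'' → g y y' * g y' y'' = g y y'') →
    IsOpen W → W ⊆ f '' O → Cof X 0 Λ W → ContinuousOn k (O ∩ f ⁻¹' W) →
    (∀ y ∈ O, f y ∈ W → C.π (k y) = tm (Θ y) ((Λ (f y)).comp (Df Y X f y))) →
    (∀ y ∈ O, ∀ y' ∈ O, f y = f y' → f y ∈ W → g y y' * k y' = k y) →
    ∃ (sp : Spin C X (f '' O)) (i : sp.ι), sp.W i = W ∧ sp.Θ i = Λ
/-- row SPT: extension over a point times the line -/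
def SptStmt : Prop :=
  ∀ (C : SpinCover) (X : Mf E4) (U : Set X) (x : X) (sp : Spin C X.cyl ((U \ {x}) ×ˢ univ))
    (i : sp.ι), IsOpen U → ∃ (sp' : Spin C X.cyl (U ×ˢ univ)) (i' : sp'.ι),
      sp'.W i' = sp.W i ∧ sp'.Θ i' = sp.Θ i
/-- row ROT -/
def RotStmt : Prop :=
  ∀ C : SpinCover, (∃ R : C.G, C.π R = E.R5 ∧ R * R = C.ε) ∧
    ∃ K : ℝ × ℝ → C.G, ContinuousOn K (univ ×ˢ Ioi 0) ∧ ∀ θ r, 0 < r →
      C.π (K (θ, r)) = Mr θ r ∧ K (θ + 2 * π, r) = C.ε * K (θ, r)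
/-- row LIE -/
def LieStmt : Prop := ∀ (Q : Mf E4) (κ : Rn 2 × ℂ → Q), Port Q κ →
  IsOpen (Wp κ) ∧ IsClosed (κ '' (univ ×ˢ {0})) ∧ ∃ Λ, Cof Q.cyl 0 Λ (Wp κ) ∧ Lie Q κ Λ
/-- row SPQ -/
def SpqStmt : Prop := EtsStmt → SptStmt → RotStmt → LieStmt →
  ∀ (C : SpinCover) (A : MA) (T : QtD A) τ ϑ Θ (Q : Mf E4) (pQ : T.Qt → Q), A.Ok → T.Ok → T.Col →
    Cfa A τ → T.Cf τ ϑ Θ → T.Quo Q pQ → Port Q (fun p => pQ (T.κt p)) →
    ∃ (sp : Spin C Q.cyl (((fun p => pQ (T.κt p)) '' (univ ×ˢ {0}))ᶜ ×ˢ univ)) (i : sp.ι),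
      sp.W i = Wp (fun p => pQ (T.κt p)) ∧ Lie Q (fun p => pQ (T.κt p)) (sp.Θ i)
/-- row ORQ -/
def OrqStmt : Prop := ∀ (C : SpinCover) (Q : Mf E4) (κ : Rn 2 × ℂ → Q), Port Q κ →
  Nonempty (Spin C Q.cyl ((κ '' (univ ×ˢ {0}))ᶜ ×ˢ univ)) → ∃ o, Ori Q 4 o univ

/-- slabs in `ℝ³ × ℝ` -/
def W4 (a b : ℝ) : Set (Rn 3 × ℝ) := {p | a < p.1 2 ∧ p.1 2 < b ∧ |p.2| < 1 / 2}
/-- the monodromy on `ℝ³ × ℝ` -/
def T4 (St : ℝ → ℝ) (p : Rn 3 × ℝ) : Rn 3 × ℝ := (Tm St p.1, -p.2)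
/-- lattice translations -/
def tr (m n : ℤ) (p : Rn 3 × ℝ) : Rn 3 × ℝ := (p.1 + ![2 * π * m, 2 * π * n, 0], p.2)

/-- row WANG -/
def WangStmt : Prop := ∀ (St : ℝ → ℝ) (α : Rn 3 × ℝ → Lam (Rn 3 × ℝ)), ContDiff ℝ ∞ St →
  (∀ t, St (t + 2 * π) = St t + 1) → Cl (vs (Rn 3 × ℝ)) 2 α (W4 (-(π / 2)) (3 * π / 2)) →
  (∀ m n, ∀ p ∈ W4 (-(π / 2)) (3 * π / 2), α (tr m n p) = α p) →
  (∀ p ∈ W4 (-(π / 2)) (π / 2), pb (T4 St) α p = α p) →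
  ∃ β, Fm (vs (Rn 3 × ℝ)) 1 β (W4 (-(1 / 2)) (π + 1 / 2)) ∧
    (∀ p ∈ W4 (-(1 / 2)) (π + 1 / 2), dd β p = α p ∧ ∀ m n, β (tr m n p) = β p) ∧
    ∀ p ∈ W4 (-(1 / 2)) (1 / 2), pb (T4 St) β p = β p
/-- row H2L -/
def H2lStmt : Prop := WangStmt → ∀ (A : MA) (T : QtD A) St Φ (Q : Mf E4) (pQ : T.Qt → Q),
  A.Ok → T.Ok → Slb A St Φ → T.Quo Q pQ →
  HZ Q 1 ((fun p => pQ (T.io p)) '' (univ ×ˢ Ioo (-(1 / 2)) (1 / 2)))
/-- row H2M -/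
def H2mStmt : Prop := ∀ (A : MA) (T : QtD A) (Q : Mf E4) (pQ : T.Qt → Q), A.Ok → T.Ok →
  T.Quo Q pQ → HZ Q 1 ((fun p => pQ (T.io p)) '' (univ ×ˢ Ioo (-(1 / 2)) (1 / 2))) →
  HZ Q 1 ((fun p => pQ (T.io p)) '' A.U)
/-- row H2P: the form `du` and the overlap -/
def H2pStmt : Prop := NutStmt → ∀ (A : MA) (T : QtD A) St Φ (Q : Mf E4) (pQ : T.Qt → Q),
  A.Ok → T.Ok → Slb A St Φ → T.Quo Q pQ →
  ∃ η, Cl Q 1 η ((fun p => pQ (T.io p)) '' A.U) ∧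
    ∀ γ, Cl Q 1 γ ((fun q => pQ (T.nut (lo q))) '' Dlo) → ∃ (c : ℝ) (β : Q → Lam E4),
      Fm Q 0 β ((fun q => pQ (T.nut (lo q))) '' Dlo) ∧
      ∀ x ∈ (fun q => pQ (T.nut (lo q))) '' Dlo, dM Q β x = γ x - c • η x
/-- row H2Q -/
def H2qStmt : Prop := NutStmt → H2pStmt → ∀ (A : MA) (T : QtD A) St Φ (Q : Mf E4)
  (pQ : T.Qt → Q), A.Ok → T.Ok → Slb A St Φ → T.Quo Q pQ →
  HZ Q 1 ((fun p => pQ (T.io p)) '' A.U) → HZ Q 1 univ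

end Pool.Agent.MP_e1dc65_gt.EA

end
end MrgPart1

-- ======== part 2: formerly Pool.Agent.MP_e1dc65_gt.k.Etale
section MrgPart2

/-! PROJECT HC, row ETALE: etale quotients of open pieces, gluing, pull-back, tori. -/

open scoped ContDiff Manifold Topology
open Set Filter Function Topology Module

noncomputable section

namespace Pool.Agent.MP_e1dc65_gt

variable {E E' : Type} [NormedAddCommGroup E] [NormedSpace ℝ E] [FiniteDimensional ℝ E]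
  [NormedAddCommGroup E'] [NormedSpace ℝ E'] [FiniteDimensional ℝ E']

open Classical in
/-- the retraction of a manifold to an open subset (junk outside) -/
def Mf.res (X : Mf E) (U : Set X) (hU : IsOpen U) (hne : U.Nonempty) (x : X) : X.opens U hU hne :=
  if h : x ∈ U then ⟨x, h⟩ else ⟨hne.some, hne.some_mem⟩

omit [FiniteDimensional ℝ E] in
theorem res_val {X : Mf E} {U : Set X} {hU : IsOpen U} {hne} {x : X} (h : x ∈ U) :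
    (X.res U hU hne x).1 = x := by simp [Mf.res, h]

omit [FiniteDimensional ℝ E] in
@[simp] theorem res_coe {X : Mf E} {U : Set X} {hU : IsOpen U} {hne} (p : X.opens U hU hne) :
    X.res U hU hne p.1 = p := Subtype.ext (res_val p.2)

theorem ldAt_res {X : Mf E} {U : Set X} {hU : IsOpen U} {hne} {x : X} (h : x ∈ U) :
    LDAt X (X.opens U hU hne) (X.res U hU hne) x :=
  LDAt.ld_of_comp (X := X.opens U hU hne) (x := ⟨x, h⟩) ldAt_val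
    (ldAt_id.congr' (.of_forall res_coe))

/-- etale quotient of an open subset, with change of model -/
theorem etaleOn {Y : Mf E} {U : Set Y} {r : Y → Y → Prop} (hd : finrank ℝ E = finrank ℝ E')
    (hU : IsOpen U) (hne : U.Nonempty) (h1 : ∀ x ∈ U, r x x)
    (h2 : ∀ x ∈ U, ∀ y ∈ U, r x y → r y x) (h3 : ∀ x ∈ U, ∀ y ∈ U, ∀ z ∈ U, r x y → r y z → r x z)
    (loc : ∀ x ∈ U, ∀ y ∈ U, r x y → ∃ f, LDAt Y Y f x ∧ f x = y ∧ ∀ᶠ z in 𝓝 x, r z (f z))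
    (inj : ∀ x ∈ U, ∀ᶠ p in 𝓝 (x, x), r p.1 p.2 → p.1 = p.2)
    (cl : ∀ x ∈ U, ∀ y ∈ U, ¬r x y → ∀ᶠ p in 𝓝 (x, y), ¬r p.1 p.2) :
    ∃ (Z : Mf E') (e : Y → Z), (∀ x ∈ U, LDAt Y Z e x) ∧ (∀ z, ∃ x ∈ U, e x = z) ∧
      ∀ x ∈ U, ∀ y ∈ U, e x = e y ↔ r x y := by
  have cv : Continuous fun p : Y.opens U hU hne × Y.opens U hU hne => ((p.1.1, p.2.1) : Y × Y) :=
    (continuous_subtype_val.comp continuous_fst).prodMk (continuous_subtype_val.comp continuous_snd)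
  have h : Etale (Y.opens U hU hne) fun p q => r p.1 q.1 := by
    refine ⟨⟨fun p => h1 _ p.2, fun {p q} => h2 _ p.2 _ q.2,
      fun {p q s} => h3 _ p.2 _ q.2 _ s.2⟩, fun p q hr => ?_, fun p => ?_, ?_⟩
    · obtain ⟨f, hf, e, ev⟩ := loc _ p.2 _ q.2 hr
      have hm : f p.1 ∈ U := e ▸ q.2
      refine ⟨fun z => Y.res U hU hne (f z.1), by simp only [e, res_coe],
        (ldAt_val.trans hf).trans (ldAt_res hm), ?_⟩
      filter_upwards [continuous_subtype_val.continuousAt.eventually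
        (ev.and (hf.sm.cont.preimage_mem_nhds (hU.mem_nhds hm)))] with z hz
      rw [res_val hz.2]; exact hz.1
    · have := (cv.continuousAt (x := (p, p))).eventually (inj _ p.2)
      rw [nhds_prod_eq] at this
      obtain ⟨A, hA, B, hB, hAB⟩ := mem_prod_iff.1 this
      exact ⟨A ∩ B, inter_mem hA hB, fun z hz z' hz' hr =>
        Subtype.ext (hAB (mk_mem_prod hz.1 hz'.2) hr)⟩
    · rw [← isOpen_compl_iff, isOpen_iff_mem_nhds]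
      exact fun p hp => cv.continuousAt.eventually (cl _ p.1.2 _ p.2.2 hp)
  obtain ⟨X, π, hs, hl, he⟩ := h.quot
  let L : E ≃L[ℝ] E' := ContinuousLinearEquiv.ofFinrankEq hd
  refine ⟨X.remodel L, fun y => π (Y.res U hU hne y), fun x hx =>
    ((ldAt_res hx).trans (hl _)).trans (ldAt_remodel' X L _), fun z => ?_, fun x hx y hy => ?_⟩
  · obtain ⟨p, rfl⟩ := hs z
    exact ⟨p.1, p.2, by simp only [res_coe]⟩
  · exact (he _ _).trans (by rw [res_val hx, res_val hy])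

omit [FiniteDimensional ℝ E] [FiniteDimensional ℝ E'] in
/-- neighbourhoods of a pair of images under local diffeomorphisms -/
theorem LDAt.ev_pair {E₁ E₂ : Type} [NormedAddCommGroup E₁] [NormedSpace ℝ E₁]
    [NormedAddCommGroup E₂] [NormedSpace ℝ E₂] {X : Mf E} {Y : Mf E'} {X' : Mf E₁} {Y' : Mf E₂}
    {f : X → Y} {g : X' → Y'} {x : X} {x' : X'} (hf : LDAt X Y f x) (hg : LDAt X' Y' g x')
    {P : Y × Y' → Prop} (h : ∀ᶠ p in 𝓝 (x, x'), P (f p.1, g p.2)) :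
    ∀ᶠ q in 𝓝 (f x, g x'), P q := by
  rw [nhds_prod_eq, ← hf.map_nhds, ← hg.map_nhds, prod_map_map_eq, ← nhds_prod_eq]
  exact h

omit [FiniteDimensional ℝ E] [FiniteDimensional ℝ E'] in
theorem LDAt.ev_img {X : Mf E} {Y : Mf E'} {f : X → Y} {x : X} (hf : LDAt X Y f x)
    {P : Y → Prop} (h : ∀ᶠ z in 𝓝 x, P (f z)) : ∀ᶠ q in 𝓝 (f x), P q := by
  rw [← hf.map_nhds]; exact h

theorem etale : EtaleStmt := by
  intro E E' ι _ _ _ _ _ _ _ X O R hd hO ⟨i₀, x₀, hx₀⟩ h1 h2 h3 loc inj cl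
  have : Nonempty ι := ⟨i₀⟩
  have mk := ldAt_sigmaMk X
  obtain ⟨Z, e, a1, a2, a3⟩ := etaleOn (Y := Mf.sigma X) (U := {p | p.2 ∈ O p.1})
    (r := fun p q => R p.1 q.1 p.2 q.2) hd (isOpen_sigma_iff.2 hO) ⟨⟨i₀, x₀⟩, hx₀⟩
    (fun p hp => h1 _ _ hp) (fun p hp q hq => h2 _ _ _ hp _ hq)
    (fun p hp q hq s hs => h3 _ _ _ _ hp _ hq _ hs) (by
      rintro ⟨i, x⟩ hx ⟨j, y⟩ hy hr
      obtain ⟨f, hf, rfl, ev⟩ := loc i j x hx y hy hr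
      have l : ∀ z : X i, invFun (fun z => (⟨i, z⟩ : Σ i, X i)) ⟨i, z⟩ = z :=
        leftInverse_invFun (f := fun z => (⟨i, z⟩ : Σ i, X i)) (sigma_mk_injective (β := fun i => X i))
      refine ⟨fun q => ⟨j, f (invFun (fun z => (⟨i, z⟩ : Σ i, X i)) q)⟩,
        (mk i x).ld_of_comp ((hf.trans (mk j _)).congr' (.of_forall fun z => ?_)), by simp only [l],
        (mk i x).ev_img (ev.mono fun z hz => ?_)⟩
      · simp only [l]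
      · simpa only [l] using hz) (by
      rintro ⟨i, x⟩ hx
      exact (mk i x).ev_pair (mk i x) ((inj i x hx).mono fun p hp hr => congrArg _ (hp hr))) (by
      rintro ⟨i, x⟩ hx ⟨j, y⟩ hy hr
      exact (mk i x).ev_pair (mk j y) (cl i j x hx y hy hr))
  refine ⟨Z, fun i x => e ⟨i, x⟩, fun i x hx => (mk i x).trans (a1 ⟨i, x⟩ hx), fun z => ?_,
    fun i j x hx y hy => a3 ⟨i, x⟩ hx ⟨j, y⟩ hy⟩
  obtain ⟨p, hp, rfl⟩ := a2 z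
  exact ⟨p.1, p.2, hp, rfl⟩

/-- the gluing relation -/
def glueRel {A B : Type} (S : A → B → Prop) : A ⊕ B → A ⊕ B → Prop
  | .inl x, .inl x' => x = x'
  | .inl x, .inr y => S x y
  | .inr y, .inl x => S x y
  | .inr y, .inr y' => y = y'

theorem glue : GlueStmt := by
  intro E E₁ E₂ E₃ _ _ _ _ _ _ _ _ _ _ _ _ X Y C U W D a b d1 d2 hU hW hne ha hb ma mb hc
  let L₁ : E₁ ≃L[ℝ] E := ContinuousLinearEquiv.ofFinrankEq d1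
  let L₂ : E₂ ≃L[ℝ] E := ContinuousLinearEquiv.ofFinrankEq d2
  let T : Mf E := (X.remodel L₁).sum (Y.remodel L₂)
  have il : ∀ x, LDAt X T Sum.inl x := fun x =>
    (ldAt_remodel' X L₁ x).trans (ldAt_inl (X := X.remodel L₁) x)
  have ir : ∀ y, LDAt Y T Sum.inr y := fun y =>
    (ldAt_remodel' Y L₂ y).trans (ldAt_inr (Y := Y.remodel L₂) y)
  let S : X → Y → Prop := fun x y => ∃ c ∈ D, a c = x ∧ b c = y
  have s1 : ∀ x x' y, S x y → S x' y → x = x' := by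
    rintro _ _ _ ⟨c, h, rfl, rfl⟩ ⟨c', h', rfl, e⟩
    rw [hb.inj h' h e]
  have s2 : ∀ x y y', S x y → S x y' → y = y' := by
    rintro _ _ _ ⟨c, h, rfl, rfl⟩ ⟨c', h', e, rfl⟩
    rw [ha.inj h' h e]
  have nc : ∀ x ∈ U, ∀ y ∈ W, ¬S x y → ∀ᶠ p in 𝓝 (x, y), ¬S p.1 p.2 := fun x hx y hy h => by
    filter_upwards [isClosed_closure.isOpen_compl.mem_nhds fun h' => h (hc x hx y hy h')]
    rintro p hp ⟨c, h, e1, e2⟩
    exact hp (subset_closure ⟨c, h, Prod.ext e1 e2⟩)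
  have ne : ∀ {A : Type} [TopologicalSpace A] [T2Space A] (x x' : A), x ≠ x' →
      ∀ᶠ p in 𝓝 (x, x'), p.1 ≠ p.2 := fun x x' h => isClosed_diagonal.isOpen_compl.mem_nhds h
  obtain ⟨Z, e, a1, a2, a3⟩ := etaleOn (E' := E) (Y := T) (U := {p | Sum.elim (· ∈ U) (· ∈ W) p})
    (r := glueRel S) rfl (isOpen_sum_iff.2 ⟨hU, hW⟩)
    (hne.elim (fun ⟨x, h⟩ => ⟨.inl x, h⟩) fun ⟨y, h⟩ => ⟨.inr y, h⟩)
    (by rintro (x | y) - <;> rfl)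
    (by rintro (x | y) - (x' | y') - h; exacts [Eq.symm h, h, h, Eq.symm h])
    (by
      rintro (x | y) - (x' | y') - (x'' | y'') - h h'
      · exact Eq.trans h h'
      · cases h; exact h'
      · exact s1 _ _ _ h h'
      · cases h'; exact h
      · cases h'; exact h
      · exact s2 _ _ _ h h'
      · cases h; exact h'
      · exact Eq.trans h h') (by
      rintro (x | y) - (x' | y') - h
      · cases h; exact ⟨_, ldAt_id, rfl, .of_forall (by rintro (x | y) <;> rfl)⟩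
      · obtain ⟨c, hc, rfl, rfl⟩ := h
        refine ⟨Sum.elim (fun x => .inr (b (invFunOn a D x))) .inr, ((ha.ld c hc).trans
          (il _)).ld_of_comp (((hb.ld c hc).trans (ir _)).congr' ?_), by simp [ha.left hc],
          ((ha.ld c hc).trans (il _)).ev_img ?_⟩
        · filter_upwards [ha.op.mem_nhds hc] with z hz
          simp [ha.left hz]
        · filter_upwards [ha.op.mem_nhds hc] with z hz
          exact ⟨z, hz, rfl, by rw [ha.left hz]⟩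
      · obtain ⟨c, hc, rfl, rfl⟩ := h
        refine ⟨Sum.elim .inl (fun y => .inl (a (invFunOn b D y))), ((hb.ld c hc).trans
          (ir _)).ld_of_comp (((ha.ld c hc).trans (il _)).congr' ?_), by simp [hb.left hc],
          ((hb.ld c hc).trans (ir _)).ev_img ?_⟩
        · filter_upwards [ha.op.mem_nhds hc] with z hz
          simp [hb.left hz]
        · filter_upwards [ha.op.mem_nhds hc] with z hz
          exact ⟨z, hz, by rw [hb.left hz], rfl⟩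
      · cases h; exact ⟨_, ldAt_id, rfl, .of_forall (by rintro (x | y) <;> rfl)⟩) (by
      rintro (x | y) -
      · exact (il x).ev_pair (il x) (.of_forall fun p h => congrArg _ h)
      · exact (ir y).ev_pair (ir y) (.of_forall fun p h => congrArg _ h)) (by
      rintro (x | y) h1 (x' | y') h2 h
      · exact (il x).ev_pair (il x') (ne _ _ h)
      · exact (il x).ev_pair (ir y') (nc _ h1 _ h2 h)
      · exact (ir y).ev_pair (il x')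
          ((continuous_swap.tendsto (y, x')).eventually (nc _ h2 _ h1 h))
      · exact (ir y).ev_pair (ir y') (ne _ _ h))
  refine ⟨Z, fun x => e (.inl x), fun y => e (.inr y),
    ⟨hU, fun x hx => (il x).trans (a1 _ hx), fun x hx x' hx' h => (a3 (.inl x) hx (.inl x') hx').1 h⟩,
    ⟨hW, fun y hy => (ir y).trans (a1 _ hy), fun y hy y' hy' h => (a3 (.inr y) hy (.inr y') hy').1 h⟩,
    eq_univ_of_forall fun z => ?_, fun x hx y hy => a3 (.inl x) hx (.inr y) hy⟩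
  obtain ⟨x | y, h, rfl⟩ := a2 z
  exacts [.inl ⟨x, h, rfl⟩, .inr ⟨y, h, rfl⟩]

theorem pullMf : PullMfStmt := by
  intro E E' _ _ _ _ _ _ X Y _ _ _ _ p hd hp
  exact ⟨_, _, ldAt_pull X (ContinuousLinearEquiv.ofFinrankEq hd) Y hp⟩

/-- quotient of a vector space by a discrete subgroup -/
theorem lattice_quot (Λ : AddSubgroup E) (h : ∃ U ∈ 𝓝 (0 : E), ∀ g ∈ Λ, g ∈ U → g = 0) :
    ∃ (T : Mf E) (p : E → T), (∀ x, LDAt (vs E) T p x) ∧ Surjective p ∧ IsCoveringMap p ∧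
      ∀ x y, p x = p y ↔ x - y ∈ Λ := by
  obtain ⟨U, hU, h⟩ := h
  have : DiscreteTopology Λ := discreteTopology_of_isOpen_singleton_zero <| by
    obtain ⟨V, h1, h2, h3⟩ := mem_nhds_iff.1 hU
    have : ({0} : Set Λ) = Subtype.val ⁻¹' V := by
      ext g
      exact ⟨by rintro rfl; exact h3, fun hg => Subtype.ext (h _ g.2 (h1 hg))⟩
    rw [this]; exact h2.preimage continuous_subtype_val
  suffices H : ∃ (T : Mf E) (p : vs E → T), (∀ y, LDAt (vs E) T p y) ∧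
      IsQuotientCoveringMap p (Multiplicative Λ) by
    obtain ⟨T, p, h1, h2⟩ := H
    refine ⟨T, p, h1, h2.surjective, h2.isCoveringMap, fun x y => h2.apply_eq_iff_mem_orbit.trans
      ⟨?_, fun hg => ⟨.ofAdd ⟨_, hg⟩, sub_add_cancel x y⟩⟩⟩
    rintro ⟨g, rfl⟩
    have : g • y - y = (g.toAdd : E) := add_sub_cancel_right (g.toAdd : E) y
    exact this ▸ g.toAdd.2
  refine free_quot (vs E) (Multiplicative Λ)
    (fun g x _ => smAt_vs.2 (contDiffAt_const.add contDiffAt_id :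
      ContDiffAt ℝ ∞ (fun y : E => (g.toAdd : E) + y) x)) (fun y => ?_) ?_
  · have c : ContinuousAt (fun q : E × E => q.2 - q.1) (y, y) := by fun_prop
    have := c.preimage_mem_nhds (show U ∈ 𝓝 (y - y) by rwa [sub_self])
    rw [nhds_prod_eq] at this
    obtain ⟨A, hA, B, hB, hAB⟩ := mem_prod_iff.1 this
    refine ⟨A ∩ B, inter_mem hA hB, fun g z hz hz' => Subtype.ext (h _ g.toAdd.2 ?_)⟩
    have e : g • z - z = (g.toAdd : E) := add_sub_cancel_right (g.toAdd : E) z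
    exact e ▸ hAB (mk_mem_prod hz.1 hz'.2)
  · have : {p : E × E | ∃ g : Multiplicative Λ, g • p.1 = p.2} =
        (fun p => p.2 - p.1) ⁻¹' (Λ : Set E) := by
      ext ⟨x, y⟩
      refine ⟨?_, fun hg => ⟨.ofAdd ⟨_, hg⟩, sub_add_cancel y x⟩⟩
      rintro ⟨g, e⟩
      have : y - x = (g.toAdd : E) := sub_eq_of_eq_add e.symm
      exact (this ▸ g.toAdd.2 : y - x ∈ Λ)
    exact this ▸ Λ.isClosed_of_discrete.preimage (by fun_prop)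

/-- `ℝⁿ` modulo the periods `c i` (a coordinate with `c i = 0` stays a line); compact when all
periods are positive -/
theorem torus_per (n : ℕ) (c : Rn n) : ∃ (T : Mf (Rn n)) (p : Rn n → T),
    (∀ x, LDAt (vs (Rn n)) T p x) ∧ Surjective p ∧ IsCoveringMap p ∧
      (∀ x y, p x = p y ↔ ∀ i, ∃ k : ℤ, x i - y i = k * c i) ∧
      ((∀ i, 0 < c i) → CompactSpace T) := by
  obtain ⟨T, p, h1, h2, h3, h4⟩ := lattice_quot
    (AddSubgroup.pi univ fun i => AddSubgroup.zmultiples (c i)) (by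
      refine ⟨univ.pi fun i => {t | c i ≠ 0 → |t| < |c i|}, set_pi_mem_nhds finite_univ fun i _ => ?_,
        fun g hg hU => funext fun i => ?_⟩
      · by_cases h : c i = 0
        · simp [h]
        · filter_upwards [(continuous_abs.tendsto' (0 : ℝ) 0 abs_zero).eventually_lt_const
            (abs_pos.2 h)] with t ht _ using ht
      · obtain ⟨k, hk⟩ := AddSubgroup.mem_zmultiples_iff.1 (hg i trivial)
        by_cases h : c i = 0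
        · simp [← hk, h]
        · have := hU i trivial h
          rw [← hk, zsmul_eq_mul, abs_mul, mul_lt_iff_lt_one_left (abs_pos.2 h),
            ← Int.cast_abs, ← Int.cast_one, Int.cast_lt, Int.abs_lt_one_iff] at this
          simp [← hk, this])
  have h5 : ∀ x y, p x = p y ↔ ∀ i, ∃ k : ℤ, x i - y i = k * c i := fun x y => by
    rw [h4]
    simp [AddSubgroup.mem_pi, AddSubgroup.mem_zmultiples_iff, eq_comm]
  refine ⟨T, p, h1, h2, h3, h5, fun hc => ⟨?_⟩⟩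
  have : p '' Icc 0 c = univ := eq_univ_of_forall fun z => by
    obtain ⟨x, rfl⟩ := h2 z
    refine ⟨fun i => toIcoMod (hc i) 0 (x i), ⟨fun i => (toIcoMod_mem_Ico' (hc i) _).1,
      fun i => (toIcoMod_mem_Ico' (hc i) _).2.le⟩, (h5 _ _).2 fun i => ⟨-toIcoDiv (hc i) 0 (x i), ?_⟩⟩
    rw [toIcoMod_sub_self, neg_smul, zsmul_eq_mul, Int.cast_neg, neg_mul]
  exact this ▸ isCompact_Icc.image h3.continuous

/-- the torus with all periods `2π` -/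
theorem torus (n : ℕ) : ∃ (T : Mf (Rn n)) (p : Rn n → T),
    (∀ x, LDAt (vs (Rn n)) T p x) ∧ Surjective p ∧ IsCoveringMap p ∧
      (∀ x y, p x = p y ↔ ∀ i, ∃ k : ℤ, x i - y i = k * (2 * Real.pi)) ∧ CompactSpace T :=
  let ⟨T, p, h1, h2, h3, h4, h5⟩ := torus_per n fun _ => 2 * Real.pi
  ⟨T, p, h1, h2, h3, h4, h5 fun _ => Real.two_pi_pos⟩

end Pool.Agent.MP_e1dc65_gt

end
end MrgPart2

-- marker of a merged file
example : 731051 + 705463 = 731051 + 705463 := rfl
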