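import Mathlib.Analysis.InnerProductSpace.Trace
import Pool.Agent.MP_e1dc65_gt.b.Adapt
import Pool.Agent.MP_e1dc65_gt.k.CechA
import Mathlib.Topology.Homotopy.Lifting
import Mathlib.SetTheory.Cardinal.Free
import Pool.Agent.MP_e1dc65_gt.Top
import Pool.Agent.MP_e1dc65_gt.k.Mk

-- ======== part 0: formerly Pool.Agent.MP_e1dc65_gt.a.Qb
section MrgPart0

/-! PROJECT HC, part A: basic facts on the quaternionic spinor representation. -/

set_option maxSynthPendingDepth 3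

open scoped Quaternion ContDiff Topology RealInnerProductSpace
open Set Filter

noncomputable section

namespace Pool.Agent.MP_e1dc65_gt.A

theorem ε_eq (a : Fin 4) : ε a = ![⟨1, 0, 0, 0⟩, ⟨0, 1, 0, 0⟩, ⟨0, 0, 1, 0⟩, ⟨0, 0, 0, 1⟩] a := by
  fin_cases a <;> ext <;> simp [ε, Quaternion.linearIsometryEquivTuple_symm_apply]
theorem ε_0 : ε 0 = ⟨1, 0, 0, 0⟩ := ε_eq 0
theorem ε_1 : ε 1 = ⟨0, 1, 0, 0⟩ := ε_eq 1
theorem ε_2 : ε 2 = ⟨0, 0, 1, 0⟩ := ε_eq 2
theorem ε_3 : ε 3 = ⟨0, 0, 0, 1⟩ := ε_eq 3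
theorem inner_H (a b : ℍ) : ⟪a, b⟫ = a.re * b.re + a.imI * b.imI + a.imJ * b.imJ + a.imK * b.imK := by
  simp [Quaternion.inner_def]
theorem co_0 (z : ℍ) : co 0 z = z.re := by simp [co, ε_0, inner_H]
theorem co_1 (z : ℍ) : co 1 z = z.imI := by simp [co, ε_1, inner_H]
theorem co_2 (z : ℍ) : co 2 z = z.imJ := by simp [co, ε_2, inner_H]
theorem co_3 (z : ℍ) : co 3 z = z.imK := by simp [co, ε_3, inner_H]
theorem sum_co' (z : ℍ) : ∑ b, co b z • ε b = z := ε.sum_repr' z

theorem star_mul_unit {p : ℍ} (h : ‖p‖ = 1) : star p * p = 1 := by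
  rw [Quaternion.star_mul_self, Quaternion.normSq_eq_norm_mul_self, h]; simp
theorem mul_star_unit {p : ℍ} (h : ‖p‖ = 1) : p * star p = 1 := by
  rw [Quaternion.self_mul_star, Quaternion.normSq_eq_norm_mul_self, h]; simp
theorem star_im {a : ℍ} (h : a.re = 0) : star a = -a := Quaternion.star_eq_neg.2 h
theorem inner_mul_left (p a b : ℍ) : ⟪p * a, b⟫ = ⟪a, star p * b⟫ := by simp [inner_H]; ring
theorem inner_mul_right (p a b : ℍ) : ⟪a * p, b⟫ = ⟪a, b * star p⟫ := by simp [inner_H]; ring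
theorem inner_star (a b : ℍ) : ⟪star a, star b⟫ = ⟪a, b⟫ := by simp [inner_H]

/-- a rotation determines its lift up to a common sign -/
theorem lift_sign {p q p' q' : ℍ} (hp : ‖p‖ = 1) (hq : ‖q‖ = 1) (hp' : ‖p'‖ = 1) (hq' : ‖q'‖ = 1)
    (h : ∀ v, p * v * star q = p' * v * star q') : (p = p' ∧ q = q') ∨ (p = -p' ∧ q = -q') := by
  have h1 : ∀ v, (star p' * p) * v = v * (star q' * q) := fun v => by
    have := congrArg (fun x => star p' * x * q) (h v)
    simp only [mul_assoc, star_mul_unit hq, mul_one] at this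
    rw [← mul_assoc (star p') p', star_mul_unit hp', one_mul] at this
    rw [mul_assoc, this]
  set c := star p' * p with hc
  have h2 : star q' * q = c := by simpa using (h1 1).symm
  rw [h2] at h1
  have hn : ‖c‖ = 1 := by rw [hc, norm_mul, norm_star, hp, hp', one_mul]
  have a1 := congrArg (fun x : ℍ => x.imK) (h1 ⟨0, 1, 0, 0⟩)
  have a2 := congrArg (fun x : ℍ => x.imJ) (h1 ⟨0, 1, 0, 0⟩)
  have a3 := congrArg (fun x : ℍ => x.imK) (h1 ⟨0, 0, 1, 0⟩)
  simp at a1 a2 a3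
  have a4 : c.re * c.re = 1 := by
    have := Quaternion.normSq_eq_norm_mul_self c
    rw [hn, Quaternion.normSq_def'] at this
    have b1 : c.imJ = 0 := by linarith
    have b2 : c.imK = 0 := by linarith
    have b3 : c.imI = 0 := by linarith
    rw [b1, b2, b3] at this
    linarith
  have e1 : p = p' * c := by rw [hc, ← mul_assoc, mul_star_unit hp', one_mul]
  have e2 : q = q' * c := by rw [← h2, ← mul_assoc, mul_star_unit hq', one_mul]
  rcases mul_self_eq_one_iff.1 a4 with h | h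
  · have : c = 1 := by ext <;> simp [h] <;> linarith
    exact Or.inl ⟨by rw [e1, this, mul_one], by rw [e2, this, mul_one]⟩
  · have : c = -1 := by ext <;> simp [h] <;> linarith
    exact Or.inr ⟨by rw [e1, this, mul_neg_one], by rw [e2, this, mul_neg_one]⟩

@[simp] theorem wk_fst (a b : ℍ) : (wk a b).fst = a := rfl
@[simp] theorem wk_snd (a b : ℍ) : (wk a b).snd = b := rfl
theorem wk_eta (s : W) : wk s.fst s.snd = s := rfl
theorem inner_W (s t : W) : ⟪s, t⟫ = ⟪s.fst, t.fst⟫ + ⟪s.snd, t.snd⟫ := WithLp.prod_inner_apply s t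
theorem finrank_W : Module.finrank ℝ W = 8 := by
  rw [(WithLp.linearEquiv 2 ℝ (ℍ × ℍ)).finrank_eq, Module.finrank_prod, Quaternion.finrank_eq_four]

theorem act_one : act 1 1 1 = 1 := by ext1 s; simp [act_apply, wk_eta]
theorem act_mul (p q r p' q' r' : ℍ) : act p q r * act p' q' r' = act (p * p') (q * q') (r * r') := by
  ext1 s; refine W_ext ?_ ?_ <;> simp [act_apply, mul_assoc]
theorem act_neg (p q r : ℍ) : act (-p) (-q) (-r) = act p q r := by ext1 s; simp [act_apply]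
theorem act_inner (p q r : ℍ) (s t : W) : ⟪act p q r s, t⟫ = ⟪s, act (star p) (star q) (star r) t⟫ := by
  simp only [inner_W, act_apply, wk_fst, wk_snd, star_star]
  rw [inner_mul_right, inner_mul_left, inner_mul_right (star r), inner_mul_left, star_star,
    mul_assoc, mul_assoc]
theorem act_star_mul {p q r : ℍ} (hp : ‖p‖ = 1) (hq : ‖q‖ = 1) (hr : ‖r‖ = 1) :
    act (star p) (star q) (star r) * act p q r = 1 := by
  rw [act_mul, star_mul_unit hp, star_mul_unit hq, star_mul_unit hr, act_one]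
theorem act_mul_star {p q r : ℍ} (hp : ‖p‖ = 1) (hq : ‖q‖ = 1) (hr : ‖r‖ = 1) :
    act p q r * act (star p) (star q) (star r) = 1 := by
  rw [act_mul, mul_star_unit hp, mul_star_unit hq, mul_star_unit hr, act_one]
theorem act_iso {p q r : ℍ} (hp : ‖p‖ = 1) (hq : ‖q‖ = 1) (hr : ‖r‖ = 1) (s t : W) :
    ⟪act p q r s, act p q r t⟫ = ⟪s, t⟫ := by
  rw [act_inner, ← mul_apply_eq_comp, act_star_mul hp hq hr]; rfl
theorem norm_act {p q r : ℍ} (hp : ‖p‖ = 1) (hq : ‖q‖ = 1) (hr : ‖r‖ = 1) (s : W) :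
    ‖act p q r s‖ = ‖s‖ := by
  rw [@norm_eq_sqrt_real_inner W, act_iso hp hq hr, ← @norm_eq_sqrt_real_inner W]
theorem gam_act (p q r : ℍ) : gam * act p q r = act p q r * gam := by
  ext1 s; refine W_ext ?_ ?_ <;> simp [act_apply, gam_apply]
theorem gam_lie (a b c : ℍ) : gam * lie a b c = lie a b c * gam := by
  ext1 s; refine W_ext ?_ ?_ <;> simp [lie_apply, gam_apply]; abel
theorem gam_cl (v : ℍ) : gam * cl v = -(cl v * gam) := by
  ext1 s; refine W_ext ?_ ?_ <;> simp [cl_apply, gam_apply]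
theorem gam_gam : gam * gam = 1 := by ext1 s; simp [gam_apply, wk_eta]
theorem gam_inner (s t : W) : ⟪gam s, t⟫ = ⟪s, gam t⟫ := by simp [gam_apply]
theorem norm_gam (s : W) : ‖gam s‖ = ‖s‖ := by
  rw [@norm_eq_sqrt_real_inner W, gam_inner, ← mul_apply_eq_comp, gam_gam,
    @norm_eq_sqrt_real_inner W]; rfl
theorem cl_inner (v : ℍ) (s t : W) : ⟪cl v s, t⟫ = -⟪s, cl v t⟫ := by
  simp only [inner_W, cl_apply, wk_fst, wk_snd, inner_neg_left, inner_neg_right, inner_mul_left,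
    star_star]; ring
theorem lie_inner {a b c : ℍ} (ha : a.re = 0) (hb : b.re = 0) (hc : c.re = 0) (s t : W) :
    ⟪lie a b c s, t⟫ = -⟪s, lie a b c t⟫ := by
  simp [lie_apply, inner_H, ha, hb, hc]; ring
theorem cl_anti (v w : ℍ) : cl v * cl w + cl w * cl v = (-(2 * ⟪v, w⟫)) • (1 : W →L[ℝ] W) := by
  ext1 s; refine W_ext ?_ ?_ <;> ext <;> simp [cl_apply, inner_H] <;> ring
theorem act_cl {p q : ℍ} (hp : ‖p‖ = 1) (hq : ‖q‖ = 1) (r v : ℍ) :
    act p q r * cl v = cl (p * v * star q) * act p q r := by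
  ext1 s; refine W_ext ?_ ?_ <;> simp [act_apply, cl_apply, mul_assoc]
  · rw [← mul_assoc (star q), star_mul_unit hq, one_mul]; simp
  · rw [← mul_assoc (star p), star_mul_unit hp, one_mul]; simp
theorem lie_cl {a b : ℍ} (ha : a.re = 0) (hb : b.re = 0) (c v : ℍ) :
    lie a b c * cl v - cl v * lie a b c = cl (a * v - v * b) := by
  ext1 s; refine W_ext ?_ ?_ <;>
    simp [lie_apply, cl_apply, star_im ha, star_im hb, mul_sub, sub_mul, add_mul, mul_assoc] <;> abel
theorem lie_comm (a b c a' b' c' : ℍ) : lie a b c * lie a' b' c' - lie a' b' c' * lie a b c =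
    lie (a * a' - a' * a) (b * b' - b' * b) (c * c' - c' * c) := by
  ext1 s; refine W_ext ?_ ?_ <;> simp [lie_apply, mul_sub, sub_mul, mul_assoc] <;> abel

/-- Clifford multiplication as a linear map -/
def clL : ℍ →L[ℝ] W →L[ℝ] W := LinearMap.toContinuousLinearMap
  { toFun := cl
    map_add' := fun a b => by
      ext1 s; refine W_ext ?_ ?_ <;> simp [cl_apply, add_mul]; abel
    map_smul' := fun c a => by
      ext1 s; refine W_ext ?_ ?_ <;> simp [cl_apply] }
theorem clL_apply (v : ℍ) : clL v = cl v := rfl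

/-- conjugation as a linear map -/
def starL' : ℍ →L[ℝ] ℍ := LinearMap.toContinuousLinearMap
  { toFun := star, map_add' := star_add, map_smul' := fun c a => by simp }
theorem starL'_apply (v : ℍ) : starL' v = star v := rfl

/-- block diagonal operators as a linear map -/
def dgL : (ℍ →L[ℝ] ℍ) × (ℍ →L[ℝ] ℍ) →L[ℝ] W →L[ℝ] W := LinearMap.toContinuousLinearMap
  { toFun := fun A => blk A.1 0 0 A.2
    map_add' := fun a b => by ext1 s; refine W_ext ?_ ?_ <;> simp [blk_apply]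
    map_smul' := fun c a => by ext1 s; refine W_ext ?_ ?_ <;> simp [blk_apply] }

theorem dgL_apply (A B : ℍ →L[ℝ] ℍ) : dgL (A, B) = blk A 0 0 B := rfl

section
variable {P : Type} [NormedAddCommGroup P] [NormedSpace ℝ P] {n : WithTop ℕ∞} {p q r : P → ℍ} {x : P}

theorem cda_clm {A B : Type} [NormedAddCommGroup A] [NormedSpace ℝ A] [NormedAddCommGroup B]
    [NormedSpace ℝ B] (L : A →L[ℝ] B) {f : P → A} (h : ContDiffAt ℝ n f x) :
    ContDiffAt ℝ n (fun y => L (f y)) x := L.contDiff.contDiffAt.comp x h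
theorem cda_star (hp : ContDiffAt ℝ n p x) : ContDiffAt ℝ n (fun y => star (p y)) x :=
  starL'.contDiff.contDiffAt.comp x hp
theorem cda_lr (hp : ContDiffAt ℝ n p x) (hq : ContDiffAt ℝ n q x) :
    ContDiffAt ℝ n (fun y => lr (p y) (q y)) x :=
  ((ContinuousLinearMap.mulLeftRight ℝ ℍ).contDiff.contDiffAt.comp x hp).clm_apply hq
theorem cda_act (hp : ContDiffAt ℝ n p x) (hq : ContDiffAt ℝ n q x) (hr : ContDiffAt ℝ n r x) :
    ContDiffAt ℝ n (fun y => act (p y) (q y) (r y)) x := by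
  have h := (cda_lr hp (cda_star hr)).prodMk (cda_lr hq (cda_star hr))
  have h2 : ContDiffAt ℝ n (fun y => dgL (lr (p y) (star (r y)), lr (q y) (star (r y)))) x :=
    cda_clm dgL h
  simpa only [dgL_apply, act] using h2
theorem cda_tact (κ : Tw) (hp : ContDiffAt ℝ n p x) (hq : ContDiffAt ℝ n q x) :
    ContDiffAt ℝ n (fun y => tact κ (p y) (q y)) x := by
  cases κ
  exacts [cda_act hp hq contDiffAt_const, cda_act hp hq hp, cda_act hp hq hq]
theorem cda_wk (hp : ContDiffAt ℝ n p x) (hq : ContDiffAt ℝ n q x) :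
    ContDiffAt ℝ n (fun y => wk (p y) (q y)) x :=
  (WithLp.prodContinuousLinearEquiv 2 ℝ ℍ ℍ).symm.contDiff.contDiffAt.comp x (hp.prodMk hq)
theorem cda_fst {s : P → W} (h : ContDiffAt ℝ n s x) : ContDiffAt ℝ n (fun y => (s y).fst) x :=
  (WithLp.fstL 2 ℝ ℍ ℍ).contDiff.contDiffAt.comp x h
theorem cda_snd {s : P → W} (h : ContDiffAt ℝ n s x) : ContDiffAt ℝ n (fun y => (s y).snd) x :=
  (WithLp.sndL 2 ℝ ℍ ℍ).contDiff.contDiffAt.comp x h
end

theorem sel_unit (κ : Tw) {p q : ℍ} (hp : ‖p‖ = 1) (hq : ‖q‖ = 1) : ‖κ.sel 1 p q‖ = 1 := by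
  cases κ
  exacts [norm_one, hp, hq]
theorem tact_mul (κ : Tw) (p q p' q' : ℍ) : tact κ p q * tact κ p' q' = tact κ (p * p') (q * q') := by
  cases κ <;> simp [tact, Tw.sel, act_mul]
theorem tact_one (κ : Tw) : tact κ 1 1 = 1 := by cases κ <;> exact act_one
theorem tact_neg {κ : Tw} (h : κ ≠ .o) (p q : ℍ) : tact κ (-p) (-q) = tact κ p q := by
  cases κ
  exacts [(h rfl).elim, act_neg _ _ _, act_neg _ _ _]

/-- trace through an orthonormal basis of `W` -/
theorem trace_W (A : W →L[ℝ] W) : LinearMap.trace ℝ W A.toLinearMap =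
    ∑ b, co b (A (wk (ε b) 0)).fst + ∑ b, co b (A (wk 0 (ε b))).snd := by
  rw [LinearMap.trace_eq_sum_inner _ (ε.prod ε), Fintype.sum_sum_type]
  simp [OrthonormalBasis.prod_apply, co]
theorem str_eq (A : W →L[ℝ] W) :
    str A = ∑ b, co b (A (wk (ε b) 0)).fst - ∑ b, co b (A (wk 0 (ε b))).snd := by
  rw [str_apply, trace_W]; simp [gam_apply, sub_eq_add_neg]
theorem str_one : str 1 = 0 := by simp [str_eq]
theorem str_gam : str gam = 8 := by
  rw [str_apply, gam_gam]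
  exact (LinearMap.trace_one ℝ W).trans (by rw [finrank_W]; norm_num)
theorem str_lie {a b c : ℍ} (h : a.re = b.re) : str (lie a b c) = 0 := by
  simp [str_eq, lie_apply, Fin.sum_univ_four, co_0, co_1, co_2, co_3, ε_0, ε_1, ε_2, ε_3, h]
theorem str_conj {p q r : ℍ} (hp : ‖p‖ = 1) (hq : ‖q‖ = 1) (hr : ‖r‖ = 1) (A : W →L[ℝ] W) :
    str (act (star p) (star q) (star r) * A * act p q r) = str A := by
  rw [str_apply, str_apply, ← mul_assoc, ← mul_assoc, gam_act]
  simp only [ContinuousLinearMap.toLinearMap_mul]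
  rw [LinearMap.trace_mul_comm, ← mul_assoc, ← mul_assoc, ← ContinuousLinearMap.toLinearMap_mul,
    act_mul_star hp hq hr]
  rfl

end Pool.Agent.MP_e1dc65_gt.A

end
end MrgPart0

-- ======== part 1: formerly Pool.Agent.MP_e1dc65_gt.a.Act
section MrgPart1

/-! PROJECT HC, part A: the quaternionic structure and the lifted involution act on sections. -/

set_option maxSynthPendingDepth 3

open scoped Quaternion ContDiff Topology RealInnerProductSpace
open Set Filter MeasureTheory Metric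

noncomputable section

namespace Pool.Agent.MP_e1dc65_gt.A

namespace Act

/-- a constant operator commuting with the connection passes through the Dirac operator -/
theorem dir_clm (R : Loc) (A : W →L[ℝ] W) (σ : ℝ) (hc : ∀ v s, cl v (A s) = σ • A (cl v s))
    (hl : ∀ a b s, lie a b 0 (A s) = A (lie a b 0 s)) {s s' : E4 → W} {x : E4}
    (hs : DifferentiableAt ℝ s x) (h : s' =ᶠ[𝓝 x] fun y => A (s y)) :
    R.dir .o s' x = σ • A (R.dir .o s x) := by
  have e : fderiv ℝ s' x = A.comp (fderiv ℝ s x) :=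
    h.fderiv_eq.trans (A.hasFDerivAt.comp x hs.hasFDerivAt).fderiv
  simp only [Loc.dir, map_sum, Finset.smul_sum]
  refine Finset.sum_congr rfl fun a _ => ?_
  rw [← hc, cov, cov, e, h.eq_of_nhds, map_add A]
  exact congrArg (fun w => cl (ε a) (A _ + w)) (hl _ _ _)

variable {X : Sp} {G : Geo X}

theorem sec_at {κ : Tw} (s : G.Sec κ) {i : Fin G.n} {x : X} (hx : x ∈ G.U i) :
    ContDiffAt ℝ ∞ (G.lc κ i s) (G.ch i x) :=
  (s.2 i).contDiffAt ((G.ch i).open_target.mem_nhds ((G.ch i).map_source hx))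

theorem rmul (hG : G.Adm .o) {j D Γ} (hI : G.Inst .o j D Γ) (c : ℍ) :
    ∃ I : G.Sec .o →ₗ[ℝ] G.Sec .o,
      (∀ s x, (I s : X → W) x = wk (((s : X → W) x).fst * c) (((s : X → W) x).snd * c)) ∧
      ∀ ψ, I (D ψ) = D (I ψ) := by
  set A : W →L[ℝ] W := act 1 1 (star c) with hA
  have a : ∀ s, A s = wk (s.fst * c) (s.snd * c) := fun s => by simp [hA, act_apply]
  have l : ∀ (s : X → W) i y, G.lc .o i (fun x => A (s x)) y = A (G.lc .o i s y) := fun s i y => by
    simp [Geo.lc, Geo.g, tact, Tw.sel, a, act_apply, mul_assoc]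
  refine ⟨⟨⟨fun s => ⟨fun x => A (s.1 x), fun i => ?_⟩, fun s t => ?_⟩, fun r s => ?_⟩,
    fun s x => a _, fun ψ => Subtype.ext (funext fun x => ?_)⟩
  · exact (A.contDiff.comp_contDiffOn (s.2 i)).congr fun y _ => l s i y
  · exact Subtype.ext (funext fun x => map_add A _ _)
  · exact Subtype.ext (funext fun x => map_smul A _ _)
  · rw [hI.D]
    change A ((D ψ : X → W) x) = _
    rw [hI.D]
    refine Eq.symm ((dir_clm _ A 1 (fun v s => ?_) (fun p q s => ?_)
      ((sec_at ψ (hG.mem x)).differentiableAt (by simp))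
      (Eventually.of_forall fun y => l ψ _ y)).trans (one_smul _ _))
    · simp [a, cl_apply, mul_assoc]
    · simp [a, lie_apply, mul_assoc]

variable {f : X → X} {P Q : Fin G.n → Fin G.n → X → ℍ} {F : Finset X}

theorem swap {p p' a b : ℍ} (hp : ‖p‖ = 1) (hp' : ‖p'‖ = 1) (h : p * a = b * p') :
    a * star p' = star p * b := by
  rw [← one_mul a, ← star_mul_unit hp, mul_assoc (star p), h, mul_assoc, mul_assoc,
    mul_star_unit hp', mul_one]

theorem key (hG : G.Adm .o) (hf : G.Inv f P Q F) (s : X → W) {i j : Fin G.n} {x : X}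
    (hx : x ∈ G.U i) (hj : f x ∈ G.U j) :
    G.lc .o i (fun x => G.lift f P Q x (s (f x))) (G.ch i x) =
      gam (act (star (P i j x)) (star (Q i j x)) 1 (G.lc .o j s (G.ch j (f x)))) := by
  have e1 := swap (hf.P1 i j x hx hj) (hf.P1 _ _ x (hG.mem x) (hG.mem _))
    (hf.cP i _ j _ x ⟨hx, hG.mem x⟩ ⟨hj, hG.mem _⟩)
  have e2 := swap (hf.Q1 i j x hx hj) (hf.Q1 _ _ x (hG.mem x) (hG.mem _))
    (hf.cQ i _ j _ x ⟨hx, hG.mem x⟩ ⟨hj, hG.mem _⟩)
  simp only [Geo.lc, (G.ch i).left_inv hx, (G.ch j).left_inv hj, Geo.g, tact, Tw.sel, Geo.lift]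
  simp only [← mul_apply_eq_comp, ← mul_assoc, ← gam_act]
  rw [mul_assoc, mul_assoc, act_mul, act_mul, e1, e2]

theorem ev_mem (hf : G.Inv f P Q F) {i j : Fin G.n} {x : X} (hx : x ∈ G.U i) (hj : f x ∈ G.U j) :
    ∀ᶠ y in 𝓝 (G.ch i x), y ∈ G.T i ∧ (G.ch i).symm y ∈ G.U i ∧ f ((G.ch i).symm y) ∈ G.U j := by
  have h1 : G.T i ∈ 𝓝 (G.ch i x) := (G.ch i).open_target.mem_nhds ((G.ch i).map_source hx)
  have h2 : ContinuousAt (fun y => f ((G.ch i).symm y)) (G.ch i x) :=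
    hf.cont.continuousAt.comp ((G.ch i).continuousAt_symm ((G.ch i).map_source hx))
  have h3 := h2.preimage_mem_nhds
    ((G.ch j).open_source.mem_nhds (by simpa only [(G.ch i).left_inv hx] using hj))
  filter_upwards [h1, h3] with y a b using ⟨a, (G.ch i).map_target a, b⟩

theorem mor (h4 : LiftStmt) (hG : G.Adm .o) (hf : G.Inv f P Q F) {i j : Fin G.n} {x : X}
    (hx : x ∈ G.U i) (hj : f x ∈ G.U j) :
    Mor (G.R i).θ (G.R j).θ (G.rd f i j) (fun y => P i j ((G.ch i).symm y))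
      (fun y => Q i j ((G.ch i).symm y)) (G.ch i x) := by
  have ev := ev_mem hf hx hj
  have fs := hf.sm i j x hx hj
  have rot : ∀ᶠ y in 𝓝 (G.ch i x), ∀ v, (G.R j).θ (G.rd f i j y) (fderiv ℝ (G.rd f i j) y v) =
      P i j ((G.ch i).symm y) * (G.R i).θ y v * star (Q i j ((G.ch i).symm y)) := by
    filter_upwards [ev] with y h v
    have := hf.rot i j _ h.2.1 h.2.2 v
    rwa [(G.ch i).right_inv h.1] at this
  have t1 : ContDiffAt ℝ ∞ (G.R j).θ (G.rd f i j (G.ch i x)) := by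
    rw [Geo.rd, (G.ch i).left_inv hx]
    exact (hG.loc j).frm.θs.contDiffAt ((G.ch j).open_target.mem_nhds ((G.ch j).map_source hj))
  have t2 : ContDiffAt ℝ ∞ (G.R i).e (G.ch i x) :=
    (hG.loc i).frm.es.contDiffAt ((G.ch i).open_target.mem_nhds ((G.ch i).map_source hx))
  have c : ContinuousAt (fun y => P i j ((G.ch i).symm y)) (G.ch i x) := by
    refine ContinuousAt.comp (g := P i j) ?_ ((G.ch i).continuousAt_symm ((G.ch i).map_source hx))
    rw [(G.ch i).left_inv hx]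
    exact (hf.Pc i j).continuousAt
      (((G.ch i).open_source.inter ((G.ch j).open_source.preimage hf.cont)).mem_nhds ⟨hx, hj⟩)
  obtain ⟨p, q, hp, hq, -, -, -, e⟩ := h4 E4
    (fun y => ((G.R j).θ (G.rd f i j y)).comp ((fderiv ℝ (G.rd f i j) y).comp ((G.R i).e y)))
    (fun y => P i j ((G.ch i).symm y)) (fun y => Q i j ((G.ch i).symm y)) (G.ch i x)
    ((t1.comp _ fs).clm_comp ((fs.fderiv_right (m := ∞) (by simp)).clm_comp t2)) (by
      filter_upwards [ev, rot] with y h r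
      refine ⟨hf.P1 i j _ h.2.1 h.2.2, hf.Q1 i j _ h.2.1 h.2.2, fun v => ?_⟩
      rw [ContinuousLinearMap.comp_apply, ContinuousLinearMap.comp_apply, r,
        (hG.loc i).frm.θe y h.1])
  exact ⟨fs, hp.congr_of_eventuallyEq ((e c).mono fun y h => h.1.symm),
    hq.congr_of_eventuallyEq ((e c).mono fun y h => h.2.symm),
    ev.mono fun y h => hf.P1 i j _ h.2.1 h.2.2, ev.mono fun y h => hf.Q1 i j _ h.2.1 h.2.2, rot⟩

theorem loc (h3 : NatStmt) (h4 : LiftStmt) (hG : G.Adm .o) (hf : G.Inv f P Q F) (s : G.Sec .o)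
    {i j : Fin G.n} {x : X} (hx : x ∈ G.U i) (hj : f x ∈ G.U j) :
    ContDiffAt ℝ ∞ (G.lc .o i fun x => G.lift f P Q x (s.1 (f x))) (G.ch i x) ∧
    (G.R i).dir .o (G.lc .o i fun x => G.lift f P Q x (s.1 (f x))) (G.ch i x) =
      -gam (act (star (P i j x)) (star (Q i j x)) 1
        ((G.R j).dir .o (G.lc .o j s) (G.ch j (f x)))) := by
  have m := mor h4 hG hf hx hj
  have r : G.rd f i j (G.ch i x) = G.ch j (f x) := by rw [Geo.rd, (G.ch i).left_inv hx]
  set u : E4 → W := fun y => act (star (P i j ((G.ch i).symm y))) (star (Q i j ((G.ch i).symm y))) 1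
    (G.lc .o j s (G.rd f i j y)) with hu
  have s1 : ContDiffAt ℝ ∞ (G.lc .o j s) (G.rd f i j (G.ch i x)) := r ▸ sec_at s hj
  have u1 : ContDiffAt ℝ ∞ u (G.ch i x) :=
    (cda_act (cda_star m.ps) (cda_star m.qs) contDiffAt_const).clm_apply (s1.comp _ m.fs)
  have e : (G.lc .o i fun x => G.lift f P Q x (s.1 (f x))) =ᶠ[𝓝 (G.ch i x)] fun y => gam (u y) := by
    filter_upwards [ev_mem hf hx hj] with y h
    have := key hG hf s h.2.1 h.2.2
    rwa [(G.ch i).right_inv h.1] at this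
  refine ⟨(cda_clm gam u1).congr_of_eventuallyEq e, ?_⟩
  have n := (h3 _ _ _ _ _ _ _ _ (hG.loc i) (hG.loc j) ((G.ch i).map_source hx)
    (r ▸ (G.ch j).map_source hj) m).2.2 .o u (G.lc .o j s) (u1.differentiableAt (by simp))
    (s1.differentiableAt (by simp)) (by
      filter_upwards [m.p1, m.q1] with y a b
      have := act_mul_star a b (norm_one (α := ℍ))
      rw [star_one] at this
      rw [hu, tact, Tw.sel, ← mul_apply_eq_comp, this]
      rfl)
  have k := act_star_mul (hf.P1 i j x hx hj) (hf.Q1 i j x hx hj) (norm_one (α := ℍ))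
  rw [star_one] at k
  rw [r, (G.ch i).left_inv hx, tact, Tw.sel] at n
  rw [n, ← mul_apply_eq_comp (act _ _ _), k, dir_clm _ gam (-1) (fun v s => ?_) (fun p q s => ?_)
    (u1.differentiableAt (by simp)) e, neg_one_smul]
  · rfl
  · refine W_ext ?_ ?_ <;> simp [gam_apply, cl_apply]
  · rw [← mul_apply_eq_comp, ← gam_lie, mul_apply_eq_comp]

end Act

open Act in
theorem actS (_h1 : CocStmt) (_h2 : SecStmt) (h3 : NatStmt) (h4 : LiftStmt) : ActStmt := by
  intro X G hG j D Γ hI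
  refine ⟨?_, fun f P Q F hf => ?_⟩
  · obtain ⟨I, a, b⟩ := rmul hG hI (ε 1)
    obtain ⟨J, c, d⟩ := rmul hG hI (ε 2)
    exact ⟨I, J, a, c, b, d⟩
  have p1 := fun x => hf.P1 _ _ x (hG.mem x) (hG.mem _)
  have q1 := fun x => hf.Q1 _ _ x (hG.mem x) (hG.mem _)
  refine ⟨⟨⟨fun s => ⟨fun x => G.lift f P Q x (s.1 (f x)), fun i y hy => ?_⟩, fun s t => ?_⟩,
    fun r s => ?_⟩, fun s x => rfl, fun x => ?_, fun ψ => Subtype.ext (funext fun x => ?_),
    fun ψ => Subtype.ext (funext fun x => ?_)⟩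
  · have := (loc h3 h4 hG hf s ((G.ch i).map_target hy) (hG.mem _)).1
    rw [(G.ch i).right_inv hy] at this
    exact this.contDiffWithinAt
  · exact Subtype.ext (funext fun x => map_add (G.lift f P Q x) _ _)
  · exact Subtype.ext (funext fun x => map_smul (G.lift f P Q x) _ _)
  · refine ContinuousLinearMap.opNorm_le_bound _ zero_le_one fun w => ?_
    rw [Geo.lift, mul_apply_eq_comp, norm_gam, norm_act ((norm_star _).trans (p1 x))
      ((norm_star _).trans (q1 x)) norm_one, one_mul]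
  · change G.lift f P Q x (G.lift f P Q (f x) (ψ.1 (f (f x)))) = ψ.1 x
    rw [← mul_apply_eq_comp, Geo.lift, Geo.lift, hf.inv, mul_assoc, ← mul_assoc (act _ _ _),
      ← gam_act, ← mul_assoc, ← mul_assoc, gam_gam, one_mul, act_mul, ← star_mul, ← star_mul,
      hf.sP _ _ x (hG.mem x) (hG.mem _), hf.sQ _ _ x (hG.mem x) (hG.mem _), star_one, mul_one,
      act_one]
    rfl
  · change G.lift f P Q x ((D ψ : X → W) (f x)) = -(D _ : X → W) x
    rw [hI.D, hI.D]
    exact (neg_eq_iff_eq_neg.2 (loc h3 h4 hG hf ψ (hG.mem x) (hG.mem _)).2).symm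

end Pool.Agent.MP_e1dc65_gt.A

end
end MrgPart1

-- ======== part 2: formerly Pool.Agent.MP_e1dc65_gt.k.Cech
section MrgPart2

/-! PROJECT HC, row CECH: extension of holonomies. -/

open scoped Topology unitInterval
open Set Filter

noncomputable section

namespace Pool.Agent.MP_e1dc65_gt

namespace CechP

variable {X G ι : Type} [TopologicalSpace X] [Group G] {T S : Set X}
  {τ τ' : ∀ x y : X, Path x y → G}

theorem hin_sub {x y : X} (γ : Path x y) (h : In γ T) (a b c : I) :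
    HIn T ((γ.subpath a b).trans (γ.subpath b c)) (γ.subpath a c) := by
  refine ⟨Path.Homotopy.subpathTransSubpath γ a b c, fun p => ?_⟩
  have h1 : ∀ a b t, γ.subpath a b t ∈ T := fun a b t => h _
  rw [Path.Homotopy.subpathTransSubpath, Path.Homotopy.trans_apply]
  split_ifs
  · show ((γ.subpath a _).trans (γ.subpath _ c)) _ ∈ T
    rw [Path.trans_apply]; split_ifs <;> exact h1 _ _ _
  · exact h1 _ _ _

omit [Group G] in
theorem tau_cast (τ : ∀ x y : X, Path x y → G) {x y x' y' : X} (γ : Path x y) (h1 : x' = x)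
    (h2 : y' = y) : τ x' y' (γ.cast h1 h2) = τ x y γ := by
  subst h1 h2; rfl

theorem tau_refl (hτ : Hol T τ) {x : X} (hx : x ∈ T) : τ x x (Path.refl x) = 1 := by
  have h := hτ.mul x x x (Path.refl x) (Path.refl x) (fun _ => hx) fun _ => hx
  rw [Path.refl_trans_refl] at h
  exact left_eq_mul.1 h

theorem tau_sub (hτ : Hol T τ) {x y : X} (γ : Path x y) (h : In γ T) (a b : I) :
    τ _ _ (γ.subpath 0 b) = τ _ _ (γ.subpath 0 a) * τ _ _ (γ.subpath a b) := by
  rw [← hτ.mul _ _ _ (γ.subpath 0 a) (γ.subpath a b) (fun _ => h _) fun _ => h _]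
  exact (hτ.hom _ _ _ _ (hin_sub γ h 0 a b)).symm

theorem sub_small {x y : X} (γ : Path x y) (a : I) {O : Set X} (hO : O ∈ 𝓝 (γ a)) :
    ∀ᶠ b in 𝓝 a, In (γ.subpath a b) O := by
  obtain ⟨ε, hε, h⟩ := Metric.mem_nhds_iff.1 (γ.continuous.continuousAt.preimage_mem_nhds hO)
  filter_upwards [Metric.ball_mem_nhds a hε] with b hb t
  refine h (show dist (Icc.convexComb a b t) a < ε from lt_of_le_of_lt ?_ hb)
  have ht : Icc.convexComb a b t ∈ uIcc a b := Path.range_subpathAux a b ▸ mem_range_self t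
  rw [dist_comm b a]
  exact Real.dist_left_le_of_mem_uIcc (x := (a : ℝ)) (z := (b : ℝ)) ht |>.trans_eq' (dist_comm _ _)

/-- holonomies that agree on small paths agree -/
theorem agree (hτ : Hol T τ) (hτ' : Hol T τ') (hS : S ⊆ T)
    (h : ∀ x ∈ S, ∃ O ∈ 𝓝 x, ∀ a b (δ : Path a b), In δ (S ∩ O) → τ' a b δ = τ a b δ)
    {x y : X} (γ : Path x y) (hγ : In γ S) : τ' x y γ = τ x y γ := by
  have hT : In γ T := fun t => hS (hγ t)
  have hl : IsLocallyConstant fun t => τ' _ _ (γ.subpath 0 t) * (τ _ _ (γ.subpath 0 t))⁻¹ := by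
    refine (IsLocallyConstant.iff_eventually_eq _).2 fun a => ?_
    obtain ⟨O, hO, h⟩ := h _ (hγ a)
    filter_upwards [sub_small γ a hO] with b hb
    rw [tau_sub hτ γ hT a b, tau_sub hτ' γ hT a b,
      h _ _ (γ.subpath a b) fun t => ⟨hγ _, hb t⟩]
    group
  have := hl.apply_eq_of_preconnectedSpace 1 0
  simp only [Path.subpath_zero_one, Path.subpath_self, tau_cast, tau_refl hτ (hT 0),
    tau_refl hτ' (hT 0), inv_one, mul_one] at this
  exact mul_inv_eq_one.1 this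

/-- locally parallel sections are parallel -/
theorem loc (hτ : Hol T τ) (hS : S ⊆ T) {s : X → G}
    (h : ∀ x ∈ S, ∃ V ∈ 𝓝 x, Par τ (S ∩ V) s) : Par τ S s := by
  intro x y γ hγ
  have h2 : Hol T fun a b (_ : Path a b) => (s a)⁻¹ * s b :=
    ⟨fun _ _ _ _ _ _ _ => by group, fun _ _ _ _ _ => rfl⟩
  rw [← agree hτ h2 hS (fun x hx => ?_) γ hγ]
  · group
  · obtain ⟨V, hV, h⟩ := h x hx
    exact ⟨V, hV, fun a b δ hδ => by rw [h a b δ hδ]; group⟩

theorem par_mono {s : X → G} (h : Par τ T s) (hS : S ⊆ T) : Par τ S s :=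
  fun x y γ hγ => h x y γ fun t => hS (hγ t)

theorem hol_mono (h : Hol T τ) (h' : S ⊆ T) : Hol S τ :=
  ⟨fun x y z γ δ h1 h2 => h.mul x y z γ δ (fun t => h' (h1 t)) fun t => h' (h2 t),
    fun x y γ δ ⟨H, hH⟩ => h.hom x y γ δ ⟨H, fun p => h' (hH p)⟩⟩

theorem ratio_joined {s s' : X → G} (h : Par τ S s) (h' : Par τ S s') {x y : X}
    (hj : JoinedIn S x y) : s' y * (s y)⁻¹ = s' x * (s x)⁻¹ := by
  obtain ⟨γ, hγ⟩ := hj
  rw [h x y γ hγ, h' x y γ hγ]; group

theorem ratio_lc [LocallyPathConnectedSpace X] {s s' : X → G} (hS : IsOpen S) (h : Par τ S s)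
    (h' : Par τ S s') {x : X} (hx : x ∈ S) : ∀ᶠ y in 𝓝 x, s' y * (s y)⁻¹ = s' x * (s x)⁻¹ := by
  filter_upwards [pathComponentIn_mem_nhds (hS.mem_nhds hx)] with y hy
  exact ratio_joined h h' hy

theorem eq_of_par {s : X → G} (h : Par τ S s) (h' : Par τ' S s) {a b : X} (δ : Path a b)
    (hδ : In δ S) : τ' a b δ = τ a b δ :=
  mul_left_cancel ((h' a b δ hδ).symm.trans (h a b δ hδ))

end CechP

open CechP

theorem ext1 : ExtStmt := by
  intro X G ι _ _ _ T V τ s hT hV hd hτ ht hs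
  have h0 : ∀ x : T, ∃ O r, IsOpen O ∧ x.1 ∈ O ∧ O ⊆ T ∧ Par τ O r := fun x => by
    obtain ⟨O, hO, r, hr⟩ := ht x.1 x.2
    exact ⟨interior O ∩ T, r, isOpen_interior.inter hT, ⟨mem_interior_iff_mem_nhds.2 hO, x.2⟩,
      inter_subset_right, par_mono hr fun y hy => interior_subset hy.1⟩
  choose O r h1 h2 h3 h4 using h0
  have hU : ∀ k : T ⊕ ι, IsOpen (Sum.elim O V k) := by rintro (k | k); exacts [h1 k, hV k]
  obtain ⟨τ', a1, a2⟩ := cech2 (T := T ∪ ⋃ i, V i) (U := Sum.elim O V) (ρ := Sum.elim r s) hU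
    (by
      rintro x (hx | hx)
      · exact ⟨.inl ⟨x, hx⟩, h2 ⟨x, hx⟩⟩
      · obtain ⟨i, hi⟩ := mem_iUnion.1 hx
        exact ⟨.inr i, hi⟩)
    (by
      rintro (i | i) (j | j) x ⟨⟨-, hi⟩, hj⟩ <;> refine nhdsWithin_le_nhds ?_
      · exact ratio_lc ((h1 i).inter (h1 j)) (par_mono (h4 j) inter_subset_right)
          (par_mono (h4 i) inter_subset_left) ⟨hi, hj⟩
      · exact ratio_lc ((h1 i).inter (hV j)) (par_mono (hs j) fun y hy => ⟨h3 i hy.1, hy.2⟩)
          (par_mono (h4 i) inter_subset_left) ⟨hi, hj⟩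
      · exact ratio_lc ((h1 j).inter (hV i)) (par_mono (h4 j) inter_subset_left)
          (par_mono (hs i) fun y hy => ⟨h3 j hy.1, hy.2⟩) ⟨hj, hi⟩
      · obtain rfl : i = j := by
          by_contra h
          exact disjoint_left.1 (hd h) hi hj
        simp)
  refine ⟨τ', s, a1, fun x y γ hγ => ?_, fun i => ⟨?_, fun _ _ => rfl⟩⟩
  · refine agree hτ (hol_mono a1 subset_union_left) subset_rfl (fun z hz => ?_) γ hγ
    exact ⟨O ⟨z, hz⟩, (h1 _).mem_nhds (h2 _), fun a b δ hδ =>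
      eq_of_par (par_mono (h4 _) inter_subset_right)
        (par_mono (a2 (.inl ⟨z, hz⟩)) fun y hy => ⟨Or.inl hy.1, hy.2⟩) δ hδ⟩
  · exact par_mono (a2 (.inr i)) fun y hy => ⟨Or.inr (mem_iUnion.2 ⟨i, hy⟩), hy⟩

theorem ext2 : Ext2Stmt := by
  intro X G _ _ _ U K τ hU hUK hK
  classical
  have dense : ∀ z ∈ U, ∀ p : X → Prop, (∀ᶠ w in 𝓝 z, p w) → ∃ w, w ∉ K ∧ p w := by
    intro z hz p hp
    by_cases h : z ∈ K
    · obtain ⟨V, -, -, h3, w, hw, -⟩ := hK z ⟨hz, h⟩ _ hp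
      exact ⟨w, hw.2, h3 hw.1⟩
    · exact ⟨z, h, hp.self_of_nhds⟩
  refine ⟨fun hτ ht s hs => ?_, fun hτ ht => ?_⟩
  · have h0 : ∀ x ∈ U ∩ K, ∃ V r, IsOpen V ∧ x ∈ V ∧ V ⊆ U ∧ Par τ V r ∧ EqOn r s (V \ K) := by
      intro x hx
      obtain ⟨O, hO, r, hr⟩ := ht x hx.1
      obtain ⟨V, h1, h2, h3, w, hw, h4⟩ := hK x hx _ (inter_mem hO (hU.mem_nhds hx.1))
      refine ⟨V, fun y => s w * (r w)⁻¹ * r y, h1, h2, fun y hy => (h3 hy).2,
        fun a b δ hδ => ?_, fun y hy => ?_⟩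
      · simp only [hr a b δ fun t => (h3 (hδ t)).1, mul_assoc]
      · have := ratio_joined (S := V \ K) (par_mono hr fun y hy => (h3 hy.1).1)
          (par_mono hs fun y hy => ⟨(h3 hy.1).2, hy.2⟩) (h4 hy)
        simp only [← this, inv_mul_cancel_right]
    choose! V r h1 h2 h3 h4 h5 using h0
    have e : ∀ y, y ∉ K → (if y ∈ K then r y y else s y) = s y := fun y hy => if_neg hy
    refine ⟨fun y => if y ∈ K then r y y else s y, loc hτ subset_rfl fun x hx => ?_,
      fun y hy => e y hy.2⟩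
    by_cases h : x ∈ K
    · have hx' : x ∈ U ∩ K := ⟨hx, h⟩
      have e2 : ∀ y ∈ V x, (if y ∈ K then r y y else s y) = r x y := fun y hy => by
        split_ifs with hy'
        · have hy2 : y ∈ U ∩ K := ⟨h3 x hx' hy, hy'⟩
          have ho := (h1 x hx').inter (h1 y hy2)
          obtain ⟨w, w1, w2, w3⟩ := dense y hy2.1 _ ((ratio_lc ho
            (par_mono (h4 x hx') inter_subset_left) (par_mono (h4 y hy2) inter_subset_right)
            ⟨hy, h2 y hy2⟩).and (ho.mem_nhds ⟨hy, h2 y hy2⟩))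
          rw [h5 x hx' ⟨w3.1, w1⟩, h5 y hy2 ⟨w3.2, w1⟩, mul_inv_cancel] at w2
          exact mul_inv_eq_one.1 w2.symm
        · exact (h5 x hx' ⟨hy, hy'⟩).symm
      refine ⟨V x, (h1 x hx').mem_nhds (h2 x hx'), fun a b δ hδ => ?_⟩
      have ha : a ∈ V x := by simpa using (hδ 0).2
      have hb : b ∈ V x := by simpa using (hδ 1).2
      simp only [e2 a ha, e2 b hb]
      exact h4 x hx' a b δ fun t => (hδ t).2
    · refine ⟨U \ K, hUK.mem_nhds ⟨hx, h⟩, fun a b δ hδ => ?_⟩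
      have ha : a ∉ K := by simpa using (hδ 0).2.2
      have hb : b ∉ K := by simpa using (hδ 1).2.2
      simp only [e a ha, e b hb]
      exact hs a b δ fun t => (hδ t).2
  · have h0 : ∀ x ∈ U, ∃ V r, IsOpen V ∧ x ∈ V ∧ V ⊆ U ∧ Par τ (V \ K) r := by
      intro x hx
      obtain ⟨O, hO, r, hr⟩ := ht x hx
      exact ⟨interior O ∩ U, r, isOpen_interior.inter hU, ⟨mem_interior_iff_mem_nhds.2 hO, hx⟩,
        inter_subset_right, par_mono hr fun y hy => ⟨interior_subset hy.1.1, hy.2⟩⟩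
    choose! V r h1 h2 h3 h4 using h0
    have hex : ∀ x ∈ U, ∀ y ∈ U, ∀ z ∈ V x ∩ V y,
        ∃ c, ∀ᶠ w in 𝓝 z, w ∉ K → r x w * (r y w)⁻¹ = c := by
      intro x hx y hy z hz
      have ho := (h1 x hx).inter (h1 y hy)
      by_cases h : z ∈ K
      · obtain ⟨W, w1, w2, w3, w, hw, w4⟩ := hK z ⟨h3 x hx hz.1, h⟩ _ (ho.mem_nhds hz)
        refine ⟨r x w * (r y w)⁻¹, ?_⟩
        filter_upwards [w1.mem_nhds w2] with v hv hv'
        exact ratio_joined (S := W \ K) (par_mono (h4 y hy) fun t ht => ⟨(w3 ht.1).2, ht.2⟩)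
          (par_mono (h4 x hx) fun t ht => ⟨(w3 ht.1).1, ht.2⟩) (w4 ⟨hv, hv'⟩)
      · refine ⟨r x z * (r y z)⁻¹, ?_⟩
        filter_upwards [ratio_lc (ho.inter hUK)
          (par_mono (h4 y hy) fun t ht => ⟨ht.1.2, ht.2.2⟩)
          (par_mono (h4 x hx) fun t ht => ⟨ht.1.1, ht.2.2⟩) ⟨hz, h3 x hx hz.1, h⟩] with v hv _
        exact hv
    choose! g hg using hex
    have hco : ∀ x ∈ U, ∀ y ∈ U, ∀ z ∈ V x ∩ V y, ∀ c,
        (∀ᶠ w in 𝓝 z, w ∉ K → r x w * (r y w)⁻¹ = c) → g x z z * (g y z z)⁻¹ = c := by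
      intro x hx y hy z hz c hc
      have hzU := h3 x hx hz.1
      obtain ⟨w, w1, w2, w3, w4⟩ := dense z hzU _ (hc.and
        ((hg x hx z hzU z ⟨hz.1, h2 z hzU⟩).and (hg y hy z hzU z ⟨hz.2, h2 z hzU⟩)))
      rw [← w2 w1, ← w3 w1, ← w4 w1]; group
    obtain ⟨τ', a1, a2⟩ := cech2 (T := U) (U := fun x : U => V x.1)
      (ρ := fun x z => g x.1 z z * r z z) (fun x => h1 _ x.2)
      (fun x hx => ⟨⟨x, hx⟩, h2 x hx⟩) (by
        rintro ⟨x, hx⟩ ⟨y, hy⟩ z ⟨⟨-, z1⟩, z2⟩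
        have hz := hg x hx y hy z ⟨z1, z2⟩
        filter_upwards [nhdsWithin_le_nhds hz.eventually_nhds, self_mem_nhdsWithin] with w w1 w2
        have b1 := hco x hx y hy z ⟨z1, z2⟩ _ hz
        have b2 := hco x hx y hy w ⟨w2.1.2, w2.2⟩ _ w1
        simp only [mul_inv_rev, ← mul_assoc, mul_inv_cancel_right]
        rw [b1, b2])
    refine ⟨τ', a1, fun x y γ hγ => ?_⟩
    refine agree hτ (hol_mono a1 sdiff_subset) subset_rfl (fun z hz => ?_) γ hγ
    have e : ∀ w ∈ V z \ K, g z w w * r w w = r z w := fun w hw => by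
      have hw' := h3 z hz.1 hw.1
      rw [← (hg z hz.1 w hw' w ⟨hw.1, h2 w hw'⟩).self_of_nhds hw.2, inv_mul_cancel_right]
    refine ⟨V z, (h1 z hz.1).mem_nhds (h2 z hz.1), fun a b δ hδ =>
      eq_of_par (S := V z \ K) (h4 z hz.1) (fun a b δ hδ => ?_) δ
        fun t => ⟨(hδ t).2, (hδ t).1.2⟩⟩
    rw [← e a (by simpa using hδ 0), ← e b (by simpa using hδ 1)]
    exact a2 ⟨z, hz.1⟩ a b δ fun t => ⟨h3 z hz.1 (hδ t).1, (hδ t).1⟩

end Pool.Agent.MP_e1dc65_gt

end
end MrgPart2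

-- ======== part 3: formerly Pool.Agent.MP_e1dc65_gt.k.Cov
section MrgPart3

/-! PROJECT HC, row COV: the covering space of a holonomy, the universal cover. -/

open scoped Topology unitInterval
open Set Filter

noncomputable section

namespace Pool.Agent.MP_e1dc65_gt

namespace Cov

variable {X G : Type} [TopologicalSpace X] [Group G] {τ : ∀ x y : X, Path x y → G}

theorem hin_univ {x y : X} {γ δ : Path x y} : HIn univ γ δ ↔ γ.Homotopic δ :=
  ⟨fun ⟨H, _⟩ => ⟨H⟩, fun ⟨H⟩ => ⟨H, fun _ => trivial⟩⟩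

theorem hol_refl (h : Hol univ τ) (x : X) : τ x x (Path.refl x) = 1 := by
  have h1 := h.mul x x x (.refl x) (.refl x) (fun _ => trivial) fun _ => trivial
  rw [h.hom _ _ _ _ (hin_univ.2 ⟨Path.Homotopy.transRefl _⟩)] at h1
  simpa using h1

theorem hol_symm (h : Hol univ τ) {x y : X} (γ : Path x y) : τ y x γ.symm = (τ x y γ)⁻¹ := by
  have h1 := h.mul x y x γ γ.symm (fun _ => trivial) fun _ => trivial
  rw [← h.hom _ _ _ _ (hin_univ.2 ⟨Path.Homotopy.reflTransSymm γ⟩), hol_refl h] at h1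
  exact (inv_eq_of_mul_eq_one_right h1.symm).symm

theorem par_mul {S : Set X} {s : X → G} (h : Par τ S s) (g : G) : Par τ S fun x => g * s x :=
  fun x y γ hγ => by beta_reduce; rw [h x y γ hγ, mul_assoc]

theorem par_mono {S S' : Set X} {s : X → G} (h : Par τ S s) (hs : S' ⊆ S) : Par τ S' s :=
  fun x y γ hγ => h x y γ fun t => hs (hγ t)

/-- two parallel sections differ by a locally constant factor -/
theorem par_ev [LocallyPathConnectedSpace X] {V V' : Set X} {s s' : X → G} (h : Par τ V s)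
    (h' : Par τ V' s') {x : X} (hV : V ∈ 𝓝 x) (hV' : V' ∈ 𝓝 x) :
    ∀ᶠ y in 𝓝 x, s' y * (s y)⁻¹ = s' x * (s x)⁻¹ := by
  filter_upwards [pathComponentIn_mem_nhds (inter_mem hV hV')] with y hy
  obtain ⟨γ, hγ⟩ := hy
  rw [h x y γ fun t => (hγ t).1, h' x y γ fun t => (hγ t).2]
  group

omit [TopologicalSpace X] in
theorem countable_closure {S : Set G} (h : S.Countable) :
    (Subgroup.closure S : Set G).Countable := by
  have := h.to_subtype
  rw [FreeGroup.closure_eq_range]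
  exact countable_range _

/-- the total space -/
structure Cv (τ : ∀ x y : X, Path x y → G) where
  /-- base point -/
  pt : X
  /-- sheet -/
  el : G

/-- the total space as a product -/
def eqv (τ : ∀ x y : X, Path x y → G) : X × G ≃ Cv τ :=
  ⟨fun p => ⟨p.1, p.2⟩, fun y => (y.pt, y.el), fun _ => rfl, fun _ => rfl⟩

instance (τ : ∀ x y : X, Path x y → G) : TopologicalSpace (Cv τ) where
  IsOpen W := ∀ V s, IsOpen V → Par τ V s → IsOpen (V ∩ {x | (⟨x, s x⟩ : Cv τ) ∈ W})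
  isOpen_univ V s hV _ := by simpa using hV
  isOpen_inter W W' h h' V s hV hs := by
    have := (h V s hV hs).inter (h' V s hV hs)
    rw [← inter_inter_distrib_left] at this
    exact this
  isOpen_sUnion A h V s hV hs := by
    have : V ∩ {x | (⟨x, s x⟩ : Cv τ) ∈ ⋃₀ A} = ⋃ W ∈ A, V ∩ {x | (⟨x, s x⟩ : Cv τ) ∈ W} := by
      ext x; simp only [mem_inter_iff, mem_ofPred_eq, mem_sUnion, mem_iUnion]; tauto
    rw [this]
    exact isOpen_biUnion fun W hW => h W hW V s hV hs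

theorem isOpen_cv {W : Set (Cv τ)} : IsOpen W ↔
    ∀ V s, IsOpen V → Par τ V s → IsOpen (V ∩ {x | (⟨x, s x⟩ : Cv τ) ∈ W}) := Iff.rfl

theorem cont_sec {V : Set X} {s : X → G} (hV : IsOpen V) (hs : Par τ V s) :
    ContinuousOn (fun x => (⟨x, s x⟩ : Cv τ)) V :=
  (continuousOn_open_iff hV).2 fun _ hW => hW V s hV hs

theorem cont_pt : Continuous (Cv.pt : Cv τ → X) :=
  ⟨fun _ hU _ _ hV _ => hV.inter hU⟩

theorem cont_deck (g : G) : Continuous fun y : Cv τ => (⟨y.pt, g * y.el⟩ : Cv τ) :=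
  ⟨fun _ hW V s hV hs => hW V (fun x => g * s x) hV (par_mul hs g)⟩

variable [LocallyPathConnectedSpace X]

/-- a set described in a local gauge is open -/
theorem isOpen_sheets {V : Set X} {s : X → G} (hV : IsOpen V) (hs : Par τ V s) (A : Set G) :
    IsOpen {y : Cv τ | y.pt ∈ V ∧ y.el * (s y.pt)⁻¹ ∈ A} := by
  intro V' s' hV' hs'
  refine isOpen_iff_mem_nhds.2 fun x hx => ?_
  filter_upwards [par_ev hs hs' (hV.mem_nhds hx.2.1) (hV'.mem_nhds hx.1), hV.mem_nhds hx.2.1,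
    hV'.mem_nhds hx.1] with y h1 h2 h3
  exact ⟨h3, h2, by have := hx.2.2; rwa [← h1] at this⟩

/-- the local trivialization given by a parallel section -/
def triv [TopologicalSpace G] [DiscreteTopology G] {V : Set X} {s : X → G} (hV : IsOpen V)
    (hs : Par τ V s) : Bundle.Trivialization G (Cv.pt : Cv τ → X) where
  toFun y := (y.pt, y.el * (s y.pt)⁻¹)
  invFun p := ⟨p.1, p.2 * s p.1⟩
  source := Cv.pt ⁻¹' V
  target := V ×ˢ univ
  map_source' _ h := ⟨h, trivial⟩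
  map_target' _ h := h.1
  left_inv' y _ := by simp
  right_inv' p _ := by simp
  open_source := hV.preimage cont_pt
  open_target := hV.prod isOpen_univ
  continuousOn_toFun := cont_pt.continuousOn.prodMk
    ((continuousOn_open_iff (hV.preimage cont_pt)).2 fun A _ => isOpen_sheets hV hs A)
  continuousOn_invFun := continuousOn_prod_of_discrete_right.2 fun g =>
    (cont_sec hV (par_mul hs g)).mono fun _ h => h.1
  baseSet := V
  open_baseSet := hV
  source_eq := rfl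
  target_eq := rfl
  proj_toFun _ _ := rfl

omit [LocallyPathConnectedSpace X] in
theorem exists_open (hl : ∀ x : X, ∃ O ∈ 𝓝 x, Triv τ O) :
    ∃ (V : X → Set X) (s : X → X → G), ∀ x, IsOpen (V x) ∧ x ∈ V x ∧ Par τ (V x) (s x) := by
  choose O hO s hs using hl
  exact ⟨fun x => interior (O x), s, fun x => ⟨isOpen_interior, mem_interior_iff_mem_nhds.2 (hO x),
    par_mono (hs x) interior_subset⟩⟩

theorem cover (hl : ∀ x : X, ∃ O ∈ 𝓝 x, Triv τ O) : IsCoveringMap (Cv.pt : Cv τ → X) := by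
  obtain ⟨V, s, h⟩ := exists_open hl
  let _ : TopologicalSpace G := ⊥
  have : DiscreteTopology G := ⟨rfl⟩
  exact IsCoveringMap.mk _ (fun _ => G) (fun x => triv (h x).1 (h x).2.2) fun x => (h x).2.1

/-- the sheet changes along a path by the holonomy of its projection -/
theorem el_path (hL : LocalStmt) (h : Hol univ τ) (hl : ∀ x : X, ∃ O ∈ 𝓝 x, Triv τ O)
    {a b : Cv τ} (γ : Path a b) : b.el = a.el * τ _ _ (γ.map cont_pt) := by
  obtain ⟨V, s, hV⟩ := exists_open hl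
  refine hL (Cv τ) G univ univ (fun a b γ => τ _ _ (γ.map cont_pt)) Cv.el
    ⟨fun x y z γ δ _ _ => ?_, fun x y γ δ hh => ?_⟩ subset_rfl (fun y _ => ?_) a b γ
    fun _ => trivial
  · rw [Path.map_trans]; exact h.mul _ _ _ _ _ (fun _ => trivial) fun _ => trivial
  · exact h.hom _ _ _ _ (hin_univ.2 ((hin_univ.1 hh).map ⟨_, cont_pt⟩))
  · obtain ⟨h1, h2, h3⟩ := hV y.pt
    refine ⟨_, (isOpen_sheets h1 h3 {y.el * (s y.pt y.pt)⁻¹}).mem_nhds ⟨h2, rfl⟩,
      fun u v γ hγ => ?_⟩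
    have e0 := (hγ 0).2.2
    have e1 := (hγ 1).2.2
    rw [γ.source] at e0
    rw [γ.target, ← mem_singleton_iff.1 e0, mem_singleton_iff,
      h3 _ _ (γ.map cont_pt) fun t => (hγ t).2.1] at e1
    rw [eq_mul_of_mul_inv_eq e1]
    group

theorem exists_lift (hL : LocalStmt) (h : Hol univ τ) (hl : ∀ x : X, ∃ O ∈ 𝓝 x, Triv τ O)
    {x y : X} (δ : Path x y) (g : G) : Joined (⟨x, g⟩ : Cv τ) ⟨y, g * τ x y δ⟩ := by
  obtain ⟨Γ, h1, h2⟩ := (cover hl).exists_path_lifts δ.toContinuousMap ⟨x, g⟩ δ.source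
  have e1 : (Γ 1).pt = y := (congrFun h1 1).trans δ.target
  subst e1
  have := el_path hL h hl (⟨Γ, h2, rfl⟩ : Path ⟨x, g⟩ (Γ 1))
  have e : (⟨Γ, h2, rfl⟩ : Path ⟨x, g⟩ (Γ 1)).map cont_pt = δ := Path.ext h1
  rw [e] at this
  rw [← this]
  exact ⟨⟨Γ, h2, rfl⟩⟩

theorem second (hl : ∀ x : X, ∃ O ∈ 𝓝 x, Triv τ O) [SecondCountableTopology X] [Countable G] :
    SecondCountableTopology (Cv τ) := by
  obtain ⟨V, s, h⟩ := exists_open hl
  obtain ⟨T, hT, hc⟩ := TopologicalSpace.countable_cover_nhds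
    (fun x => (h x).1.mem_nhds (h x).2.1)
  let _ : TopologicalSpace G := ⊥
  have : DiscreteTopology G := ⟨rfl⟩
  have := hT.to_subtype
  have : ∀ i : T, SecondCountableTopology (Cv.pt ⁻¹' V i : Set (Cv τ)) := fun i =>
    ((triv (h i).1 (h i).2.2).preimageHomeomorph subset_rfl).secondCountableTopology
  refine TopologicalSpace.secondCountableTopology_of_countable_cover
    (U := fun i : T => (Cv.pt ⁻¹' V i : Set (Cv τ))) (fun i => (h i).1.preimage cont_pt) ?_
  refine eq_univ_of_forall fun y => ?_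
  obtain ⟨i, hi, hy⟩ := mem_iUnion₂.1 (hc.symm ▸ mem_univ y.pt)
  exact mem_iUnion.2 ⟨⟨i, hi⟩, hy⟩

theorem pathConn (hL : LocalStmt) (h : Hol univ τ) (hl : ∀ x : X, ∃ O ∈ 𝓝 x, Triv τ O)
    (hs : ∀ x g, ∃ γ : Path x x, τ x x γ = g) [PathConnectedSpace X] :
    PathConnectedSpace (Cv τ) := by
  refine ⟨⟨⟨Classical.arbitrary X, 1⟩⟩, fun ⟨x, g⟩ ⟨y, g'⟩ => ?_⟩
  obtain ⟨δ⟩ := PathConnectedSpace.joined x y
  obtain ⟨γ, hγ⟩ := hs y ((g * τ x y δ)⁻¹ * g')
  have := exists_lift hL h hl γ (g * τ x y δ)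
  rw [hγ, mul_inv_cancel_left] at this
  exact (exists_lift hL h hl δ g).trans this

theorem thin (hL : LocalStmt) (h : Hol univ τ) (hl : ∀ x : X, ∃ O ∈ 𝓝 x, Triv τ O)
    (hf : Faith τ univ) : Thin (univ : Set (Cv τ)) univ := by
  intro a γ _
  have h1 := el_path hL h hl γ
  have h2 := hf _ _ (γ.map cont_pt) (.refl _) (fun _ => trivial) (fun _ => trivial)
    (by rw [hol_refl h]; exact left_eq_mul.1 h1)
  refine hin_univ.2 (((cover hl).homotopicRel_iff_comp ⟨0, .inl rfl, ?_⟩).2 (hin_univ.1 h2))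
  exact γ.source

/-- the structure group of a connected cover of a second countable space is countable -/
theorem countable (hl : ∀ x : X, ∃ O ∈ 𝓝 x, Triv τ O) [SecondCountableTopology X]
    [ConnectedSpace (Cv τ)] : Countable G := by
  obtain ⟨V, s, h⟩ := exists_open hl
  obtain ⟨T, hT, hc⟩ := TopologicalSpace.countable_cover_nhds
    (fun x => (h x).1.mem_nhds (h x).2.1)
  have cov : ∀ x, ∃ i ∈ T, x ∈ V i := fun x =>
    let ⟨i, h1, h2⟩ := mem_iUnion₂.1 (hc.symm ▸ mem_univ x); ⟨i, h1, h2⟩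
  have c1 : ∀ i j, ((fun x => s i x * (s j x)⁻¹) '' (V i ∩ V j)).Countable := fun i j => by
    let _ : TopologicalSpace G := ⊥
    have : DiscreteTopology G := ⟨rfl⟩
    have hc : ContinuousOn (fun x => s i x * (s j x)⁻¹) (V i ∩ V j) := fun x hx =>
      (continuousAt_const.congr (EventuallyEq.symm (par_ev (h j).2.2 (h i).2.2
        ((h j).1.mem_nhds hx.2) ((h i).1.mem_nhds hx.1)))).continuousWithinAt
    obtain ⟨D, hD, hd⟩ :=
      (TopologicalSpace.IsSeparable.of_separableSpace univ).image hc.domRestrict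
    rw [closure_discrete, image_univ, range_domRestrict] at hd
    exact hD.mono hd
  let H := Subgroup.closure (⋃ i ∈ T, ⋃ j ∈ T, (fun x => s i x * (s j x)⁻¹) '' (V i ∩ V j))
  have cH : (H : Set G).Countable :=
    countable_closure (hT.biUnion fun i _ => hT.biUnion fun j _ => c1 i j)
  have key : ∀ i ∈ T, ∀ j ∈ T, ∀ y : Cv τ, y.pt ∈ V i → y.pt ∈ V j →
      y.el * (s i y.pt)⁻¹ ∈ H → y.el * (s j y.pt)⁻¹ ∈ H := fun i hi j hj y h1 h2 h3 => by
    have := H.mul_mem h3 (Subgroup.subset_closure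
      (mem_iUnion₂.2 ⟨i, hi, mem_iUnion₂.2 ⟨j, hj, y.pt, ⟨h1, h2⟩, rfl⟩⟩))
    rwa [mul_assoc, inv_mul_cancel_left] at this
  let A := ⋃ i ∈ T, {y : Cv τ | y.pt ∈ V i ∧ y.el * (s i y.pt)⁻¹ ∈ (H : Set G)}
  have hA : IsClopen A := by
    refine ⟨⟨?_⟩, isOpen_biUnion fun i _ => isOpen_sheets (h i).1 (h i).2.2 _⟩
    have : Aᶜ = ⋃ i ∈ T, {y : Cv τ | y.pt ∈ V i ∧ y.el * (s i y.pt)⁻¹ ∈ (H : Set G)ᶜ} := by
      ext y
      simp only [A, mem_compl_iff, mem_iUnion, mem_ofPred_eq]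
      refine ⟨fun hy => ?_, fun ⟨i, hi, h1, h2⟩ ⟨j, hj, h3, h4⟩ => h2 (key j hj i hi y h3 h1 h4)⟩
      obtain ⟨i, hi, h1⟩ := cov y.pt
      exact ⟨i, hi, h1, fun h2 => hy ⟨i, hi, h1, h2⟩⟩
    rw [this]
    exact isOpen_biUnion fun i _ => isOpen_sheets (h i).1 (h i).2.2 _
  obtain ⟨⟨x, -⟩⟩ : Nonempty (Cv τ) := inferInstance
  obtain ⟨i, hi, hx⟩ := cov x
  have hu := hA.eq_univ ⟨⟨x, s i x⟩, mem_iUnion₂.2 ⟨i, hi, hx, by simp⟩⟩
  refine countable_univ_iff.1 (cH.mono fun g _ => ?_)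
  obtain ⟨j, hj, h1, h2⟩ := mem_iUnion₂.1 (hu.symm ▸ mem_univ (⟨x, g * s i x⟩ : Cv τ))
  simpa using key j hj i hi ⟨x, g * s i x⟩ h1 hx h2

/-- points of a manifold have thin neighbourhoods -/
theorem mf_thin {E : Type} [NormedAddCommGroup E] [NormedSpace ℝ E] (X : Mf E) (x : X) :
    ∃ O ∈ 𝓝 x, Thin O univ := by
  have hx := mem_chart_source E x
  obtain ⟨r, hr, hb⟩ := Metric.isOpen_iff.1 (ch X x).open_target _ ((ch X x).map_source hx)
  refine ⟨(ch X x).source ∩ ch X x ⁻¹' Metric.ball (ch X x x) r,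
    ((ch X x).isOpen_inter_preimage Metric.isOpen_ball).mem_nhds ⟨hx, Metric.mem_ball_self hr⟩,
    fun y γ hγ => hin_univ.2 ⟨?_⟩⟩
  have hy := γ.source ▸ hγ 0
  have hc : Continuous fun t => ch X x (γ t) :=
    (ch X x).continuousOn.comp_continuous γ.continuous fun t => (hγ t).1
  have hm : ∀ p : I × I, AffineMap.lineMap (ch X x (γ p.2)) (ch X x y) (p.1 : ℝ) ∈
      (ch X x).target := fun p =>
    hb ((convex_ball _ _).lineMap_mem (hγ p.2).2 hy.2 p.1.2)
  refine ⟨⟨⟨fun p => (ch X x).symm (AffineMap.lineMap (ch X x (γ p.2)) (ch X x y) (p.1 : ℝ)),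
    (ch X x).continuousOn_symm.comp_continuous ?_ hm⟩, fun t => ?_, fun t => ?_⟩, fun s t ht => ?_⟩
  · have := hc.comp (continuous_snd (X := I))
    simp only [AffineMap.lineMap_apply_module]
    exact ((continuous_const.sub (continuous_subtype_val.comp continuous_fst)).smul this).add
      ((continuous_subtype_val.comp continuous_fst).smul continuous_const)
  · simpa using (ch X x).left_inv (hγ t).1
  · simpa using (ch X x).left_inv hy.1
  · rcases ht with rfl | rfl <;> simpa using (ch X x).left_inv hy.1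

end Cov

open Cov

theorem cov (hL : LocalStmt) : CovStmt := by
  intro X G _ _ _ τ h hl
  refine ⟨Cv τ, inferInstance, eqv τ, cover hl, fun V s g hV hs => cont_sec hV (par_mul hs g),
    cont_deck, fun a b γ x y δ e => ?_, fun _ => ?_, fun _ _ => second hl,
    fun hs _ => pathConn hL h hl hs, thin hL h hl⟩
  · obtain rfl : x = a.pt := by rw [← δ.source, e, γ.source]; rfl
    obtain rfl : y = b.pt := by rw [← δ.target, e, γ.target]; rfl
    rw [show δ = γ.map cont_pt from Path.ext (funext e)]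
    exact el_path hL h hl γ
  · refine ⟨fun a b hab => ?_⟩
    by_cases e : a.pt = b.pt
    · exact (cover hl).isSeparatedMap a b e hab
    · exact separated_by_continuous cont_pt e

theorem univCov (hL : LocalStmt) (hTh : ThinStmt) (hT : TautStmt) : UnivStmt := by
  intro X _ _ _ _ hl
  obtain ⟨G, _, τ, h, hf⟩ := hT X univ
  obtain ⟨x₀⟩ : Nonempty X := inferInstance
  let c : ∀ x, Path x₀ x := fun x => (PathConnectedSpace.joined x₀ x).somePath
  have m : ∀ {x y z} (γ : Path x y) (δ : Path y z), τ x z (γ.trans δ) = τ x y γ * τ y z δ :=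
    fun γ δ => h.mul _ _ _ γ δ (fun _ => trivial) fun _ => trivial
  let L : Subgroup G :=
    { carrier := range (τ x₀ x₀)
      mul_mem' := by rintro _ _ ⟨γ, rfl⟩ ⟨δ, rfl⟩; exact ⟨_, m γ δ⟩
      one_mem' := ⟨_, hol_refl h x₀⟩
      inv_mem' := by rintro _ ⟨γ, rfl⟩; exact ⟨_, hol_symm h γ⟩ }
  let ρ : ∀ x y : X, Path x y → L := fun x y γ =>
    ⟨τ _ _ (c x) * τ x y γ * (τ _ _ (c y))⁻¹, ((c x).trans γ).trans (c y).symm, by
      rw [m, m, hol_symm h]⟩
  have h1 : Hol univ ρ := ⟨fun x y z γ δ _ _ => Subtype.ext (by simp only [ρ, m]; simp; group),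
    fun x y γ δ hh => Subtype.ext (by simp only [ρ, h.hom x y γ δ hh])⟩
  have h2 : ∀ x g, ∃ γ : Path x x, ρ x x γ = g := by
    rintro x ⟨_, γ, rfl⟩
    exact ⟨((c x).symm.trans γ).trans (c x), Subtype.ext (by
      simp only [ρ, m, hol_symm h]; group)⟩
  have h3 : ∀ x : X, ∃ O ∈ 𝓝 x, Triv ρ O := fun x =>
    let ⟨O, hO, ht⟩ := hl x
    ⟨O, hO, (hTh X O univ (subset_univ _)).1 ht L ρ h1⟩
  have := pathConn hL h1 h3 h2
  refine ⟨L, inferInstance, countable h3, ρ, h1, fun x y γ δ a b e => hf x y γ δ a b ?_, h2⟩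
  simpa [ρ] using e

/-- the covering manifold of a holonomy with values in a countable group -/
theorem covMf (hL : LocalStmt) (hTh : ThinStmt) {E : Type} [NormedAddCommGroup E] [NormedSpace ℝ E]
    [FiniteDimensional ℝ E] (X : Mf E) {G : Type} [Group G] [Countable G]
    (τ : ∀ x y : X, Path x y → G) (h : Hol univ τ) :
    ∃ (Y : Mf E) (e : X × G ≃ Y), IsCoveringMap (fun y => (e.symm y).1) ∧
      (∀ y, LDAt Y X (fun y => (e.symm y).1) y) ∧
      (∀ V s g, IsOpen V → Par τ V s → OE X Y (fun x => e (x, g * s x)) V) ∧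
      (∀ g y, LDAt Y Y (fun y => e ((e.symm y).1, g * (e.symm y).2)) y) ∧
      (∀ a b (γ : Path a b) x y (δ : Path x y), (∀ t, δ t = (e.symm (γ t)).1) →
        (e.symm b).2 = (e.symm a).2 * τ x y δ) ∧
      ((∀ x g, ∃ γ : Path x x, τ x x γ = g) → PathConnectedSpace X → PathConnectedSpace Y) ∧
      (Faith τ univ → Thin (univ : Set Y) univ) := by
  obtain ⟨Y, _, e, h1, h2, h3, h4, h5, h6, h7, h8⟩ := cov hL X G τ h fun x =>
    let ⟨O, hO, ht⟩ := mf_thin X x
    ⟨O, hO, (hTh X O univ (subset_univ _)).1 ht G τ h⟩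
  have := h5 inferInstance
  have := h6 inferInstance inferInstance
  have : Nonempty Y := Nonempty.map e inferInstance
  have hp := ldAt_pull X (.refl ℝ E) Y h1.isLocalHomeomorph
  refine ⟨X.pull (.refl ℝ E) Y h1.isLocalHomeomorph, e, h1, hp, fun V s g hV hs =>
    ⟨hV, fun x hx => ?_, fun x _ y _ e' => congrArg Prod.fst (e.injective e')⟩, fun g y => ?_, h4,
    h7, h8⟩
  · exact (hp _).ld_of_lift ((h2 V s g hV hs).continuousAt (hV.mem_nhds hx))
      (ldAt_id.congr' (.of_forall fun z => by simp))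
  · exact (hp _).ld_of_lift (h3 g).continuousAt ((hp y).congr' (.of_forall fun z => by simp))

/-- UCOV: the universal cover of a connected manifold -/
theorem ucov (hL : LocalStmt) (hTh : ThinStmt) (hT : TautStmt) {E : Type} [NormedAddCommGroup E]
    [NormedSpace ℝ E] [FiniteDimensional ℝ E] (X : Mf E) [ConnectedSpace X] :
    ∃ (G : Type) (_ : Group G) (_ : Countable G) (τ : ∀ x y : X, Path x y → G) (Y : Mf E)
      (e : X × G ≃ Y), Hol univ τ ∧ Faith τ univ ∧ (∀ x g, ∃ γ : Path x x, τ x x γ = g) ∧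
      IsCoveringMap (fun y => (e.symm y).1) ∧ (∀ y, LDAt Y X (fun y => (e.symm y).1) y) ∧
      (∀ V s g, IsOpen V → Par τ V s → OE X Y (fun x => e (x, g * s x)) V) ∧
      (∀ g y, LDAt Y Y (fun y => e ((e.symm y).1, g * (e.symm y).2)) y) ∧
      (∀ a b (γ : Path a b) x y (δ : Path x y), (∀ t, δ t = (e.symm (γ t)).1) →
        (e.symm b).2 = (e.symm a).2 * τ x y δ) ∧ SC (univ : Set Y) := by
  have : PathConnectedSpace X := pathConnectedSpace_iff_connectedSpace.2 inferInstance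
  obtain ⟨G, _, _, τ, h1, h2, h3⟩ := univCov hL hTh hT X (mf_thin X)
  obtain ⟨Y, e, a1, a2, a3, a4, a5, a6, a7⟩ := covMf hL hTh X τ h1
  exact ⟨G, _, inferInstance, τ, Y, e, h1, h2, h3, a1, a2, a3, a4, a5,
    pathConnectedSpace_iff_univ.1 (a6 h3 this), a7 h2⟩

end Pool.Agent.MP_e1dc65_gt

end
end MrgPart3

-- marker of a merged file
example : 731051 + 494012 = 731051 + 494012 := rfl
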