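import Mathlib.Analysis.Calculus.BumpFunction.FiniteDimension
import Mathlib.Analysis.Calculus.MeanValue
import Mathlib.Topology.LocallyConstant.Basic
import Pool.Agent.MP_6d695c_gt.sw.Flow
import Pool.Agent.MP_e1dc65_gt.Spec0

/-! PROJECT HC, toolkit: integral curves and flows on manifolds. -/

open scoped ContDiff Manifold Topology
open Set Filter Function

noncomputable section

namespace Pool.Agent.MP_e1dc65_gt

variable {E E' V : Type} [NormedAddCommGroup E] [NormedSpace ℝ E] [FiniteDimensional ℝ E]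
  [NormedAddCommGroup E'] [NormedSpace ℝ E'] [FiniteDimensional ℝ E']
  [NormedAddCommGroup V] [NormedSpace ℝ V] [FiniteDimensional ℝ V]
  {X : Mf E} {Y : Mf E'} {v v' : X → E} {w : Y → E'} {c c' : ℝ → X} {t : ℝ} {f : X → Y}

/-! ### Integral curves -/

omit [FiniteDimensional ℝ E] in
theorem IC.cont (h : IC X v c t) : ContinuousAt c t := h.1.continuousAt

omit [FiniteDimensional ℝ E] in
theorem IC.congr (h : IC X v c t) (e : c' =ᶠ[𝓝 t] c) : IC X v c' t :=
  ⟨h.1.congr_of_eventuallyEq e, by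
    rw [Df_congr (X := vs ℝ) e, e.eq_of_nhds]; exact h.2⟩

omit [FiniteDimensional ℝ E] in
theorem IC.congr_field (h : IC X v c t) (e : v' (c t) = v (c t)) : IC X v' c t :=
  ⟨h.1, h.2.trans e.symm⟩

theorem ic_vs {v : E → E} {c : ℝ → E} : IC (vs E) v c t ↔ HasDerivAt c (v (c t)) t := by
  unfold IC
  rw [Df_vs, mdifferentiableAt_iff_differentiableAt]
  refine ⟨fun h => ?_, fun h => ⟨h.differentiableAt, h.deriv⟩⟩
  have h1 := h.1.hasDerivAt
  rwa [← fderiv_apply_one_eq_deriv, h.2] at h1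

omit [FiniteDimensional ℝ E] [FiniteDimensional ℝ E'] in
/-- integral curves of related fields -/
theorem IC.map (h : IC X v c t) (hf : SmAt X Y f (c t))
    (e : Df X Y f (c t) (v (c t)) = w (f (c t))) : IC Y w (fun s => f (c s)) t := by
  refine ⟨hf.md.comp t h.1, ?_⟩
  have h1 : Df (vs ℝ) Y (fun s => f (c s)) t = (Df X Y f (c t)).comp (Df (vs ℝ) X c t) :=
    mfderiv_comp t hf.md h.1
  rw [h1, ContinuousLinearMap.comp_apply, h.2, e]

omit [FiniteDimensional ℝ E] in
/-- the derivative of a function along an integral curve -/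
theorem IC.hasDerivAt {g : X → V} (h : IC X v c t) (hg : SmAt X (vs V) g (c t)) :
    HasDerivAt (fun s => g (c s)) (Df X (vs V) g (c t) (v (c t))) t :=
  (ic_vs (v := fun _ => Df X (vs V) g (c t) (v (c t)))).1 (h.map (Y := vs V) hg rfl)

omit [FiniteDimensional ℝ E] [FiniteDimensional ℝ E'] in
/-- lifting of integral curves through a local diffeomorphism -/
theorem IC.lift (hf : LDAt X Y f (c t)) (hc : ContinuousAt c t) (h : IC Y w (fun s => f (c s)) t)
    (e : Df X Y f (c t) (v (c t)) = w (f (c t))) : IC X v c t := by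
  obtain ⟨g, U, W, hU, -, hx, -, -, hg, m1, -, l, -⟩ := hf.exists_inv univ_mem
  have e1 : (fun x => g (f x)) =ᶠ[𝓝 (c t)] fun x => x := by
    filter_upwards [hU.mem_nhds hx] with y hy using l y hy
  have e2 := Df_comp hf.sm (hg _ (m1 hx))
  rw [Df_congr e1, Df_id] at e2
  refine (h.map (w := v) (hg _ (m1 hx)) ?_).congr ?_
  · rw [← e, l _ hx, ← ContinuousLinearMap.comp_apply, ← e2]; rfl
  · filter_upwards [hc.preimage_mem_nhds (hU.mem_nhds hx)] with s hs using (l _ hs).symm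

omit [FiniteDimensional ℝ E] in
theorem ic_const {x : X} (h : v x = 0) : IC X v (fun _ => x) t :=
  ⟨mdifferentiableAt_const, by rw [Df_const, h]; rfl⟩

omit [FiniteDimensional ℝ E] in
/-- affine change of time -/
theorem IC.affine {a b : ℝ} (h : IC X v c (a * t + b)) :
    IC X (fun x => a • v x) (fun s => c (a * s + b)) t := by
  have h0 : HasDerivAt (fun s => a * s + b) a t := by
    simpa using ((hasDerivAt_id t).const_mul a).add_const b
  have h1 : MDifferentiableAt 𝓘(ℝ, ℝ) 𝓘(ℝ, ℝ) (fun s => a * s + b) t :=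
    h0.differentiableAt.mdifferentiableAt
  refine ⟨h.1.comp t h1, ?_⟩
  have h2 : Df (vs ℝ) X (fun s => c (a * s + b)) t =
      (Df (vs ℝ) X c (a * t + b)).comp (Df (vs ℝ) (vs ℝ) (fun s => a * s + b) t) :=
    mfderiv_comp t h.1 h1
  rw [h2, ContinuousLinearMap.comp_apply, Df_vs, fderiv_apply_one_eq_deriv, h0.deriv]
  change _ = a • v (c (a * t + b))
  rw [← h.2, ← map_smul, smul_eq_mul, mul_one]

omit [FiniteDimensional ℝ E] in
theorem IC.shift {b : ℝ} (h : IC X v c (t + b)) : IC X v (fun s => c (s + b)) t := by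
  have h1 : IC X v c (1 * t + b) := by rwa [one_mul]
  simpa only [one_mul, one_smul] using h1.affine

namespace Flow

/-- the field in the chart at `x` -/
def cv (X : Mf E) (v : X → E) (x : X) (y : E) : E :=
  Df X (vs E) (ch X x) ((ch X x).symm y) (v ((ch X x).symm y))

theorem cv_ch {x z : X} (hz : z ∈ (ch X x).source) :
    cv X v x (ch X x z) = Df X (vs E) (ch X x) z (v z) := by rw [cv, (ch X x).left_inv hz]

theorem cv_smooth {x : X} {y : E} (hy : y ∈ (ch X x).target) (hv : VfAt X v ((ch X x).symm y)) :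
    ContDiffAt ℝ ∞ (cv X v x) y := by
  obtain ⟨z, hz⟩ : ∃ z, z = (ch X x).symm y := ⟨_, rfl⟩
  have hτ : ∀ z' ∈ (ch X x).source, z' ∈ (ch X z).source →
      ContDiffAt ℝ ∞ (fun u => ch X x ((ch X z).symm u)) (ch X z z') := fun z' h1 h2 =>
    smAt_vs.1 ((smAt_ch_symm ((ch X z).map_source h2)).trans
      (smAt_ch (by rwa [(ch X z).left_inv h2])))
  have hz0 : z ∈ (ch X z).source := mem_chart_source E z
  have hσ : ContDiffAt ℝ ∞ (fun u => ch X z ((ch X x).symm u)) y :=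
    smAt_vs.1 ((smAt_ch_symm hy).trans (smAt_ch (hz ▸ hz0)))
  have h1 : ContDiffAt ℝ ∞ (fderiv ℝ fun u => ch X x ((ch X z).symm u))
      (ch X z ((ch X x).symm y)) :=
    (hτ _ ((ch X x).map_target hy) (hz ▸ hz0)).fderiv_right (by simp)
  have h2 : ContDiffAt ℝ ∞ (cv X v z) (ch X z ((ch X x).symm y)) := by
    rw [← hz] at hv ⊢
    exact hv
  refine ((h1.comp y hσ).clm_apply (h2.comp y hσ)).congr_of_eventuallyEq ?_
  filter_upwards [(ch X x).open_target.mem_nhds hy,
    (smAt_ch_symm hy).cont.preimage_mem_nhds ((ch X z).open_source.mem_nhds (hz ▸ hz0))]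
    with u hu hu'
  have e : (ch X x : X → E) =ᶠ[𝓝 ((ch X x).symm u)] fun p => ch X x ((ch X z).symm (ch X z p)) := by
    filter_upwards [(ch X z).open_source.mem_nhds hu'] with p hp
    rw [(ch X z).left_inv hp]
  rw [comp_apply, comp_apply, cv_ch hu', cv, Df_congr (Y := vs E) e,
    Df_vcomp (smAt_ch hu') (hτ _ ((ch X x).map_target hu) hu')]
  rfl

/-- a global flow in a chart that describes the integral curves near `x` -/
theorem chart_flow (hv : ∀ x, VfAt X v x) (x : X) : ∃ (F : E → E) (fl : ℝ → E → E) (B : Set E),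
    MP_6d695c_gt.SW.IsFlow F fl ∧ IsOpen B ∧ ch X x x ∈ B ∧ B ⊆ (ch X x).target ∧
      EqOn F (cv X v x) B := by
  have := FiniteDimensional.complete ℝ E
  obtain ⟨r, hr, hb⟩ := Metric.nhds_basis_closedBall.mem_iff.1
    ((ch X x).open_target.mem_nhds ((ch X x).map_source (mem_chart_source E x)))
  let χ : ContDiffBump (ch X x x) := ⟨r / 2, r, half_pos hr, half_lt_self hr⟩
  have hs : tsupport χ ⊆ (ch X x).target := by rw [χ.tsupport_eq]; exact hb
  have h1 : ContDiff ℝ ∞ fun y => χ y • cv X v x y := by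
    refine contDiff_iff_contDiffAt.2 fun y => ?_
    by_cases hy : y ∈ tsupport χ
    · exact χ.contDiff.contDiffAt.smul (cv_smooth (hs hy) (hv _))
    · refine (contDiffAt_const (c := (0 : E))).congr_of_eventuallyEq ?_
      filter_upwards [notMem_tsupport_iff_eventuallyEq.1 hy] with u hu
      rw [hu, Pi.zero_apply, zero_smul]
  obtain ⟨-, fl, -, h⟩ := MP_6d695c_gt.SW.exists_isFlow_cpt h1 χ.hasCompactSupport.smul_right
  refine ⟨_, fl, Metric.ball (ch X x x) (r / 2), h, Metric.isOpen_ball,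
    Metric.mem_ball_self (half_pos hr), fun y hy => hb ?_, fun y hy => ?_⟩
  · exact Metric.ball_subset_closedBall (Metric.ball_subset_ball (half_le_self hr.le) hy)
  · simp only [χ.one_of_mem_closedBall (Metric.ball_subset_closedBall hy), one_smul]

theorem uniq_loc (hv : ∀ x, VfAt X v x) (h : ∀ᶠ s in 𝓝 t, IC X v c s)
    (h' : ∀ᶠ s in 𝓝 t, IC X v c' s) (e : c t = c' t) : c =ᶠ[𝓝 t] c' := by
  obtain ⟨x, hx1⟩ : ∃ x, c t = x := ⟨_, rfl⟩
  obtain ⟨F, fl, B, hF, hB, hx, -, hE⟩ := chart_flow hv x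
  have hO : (ch X x).source ∩ ch X x ⁻¹' B ∈ 𝓝 x :=
    ((ch X x).isOpen_inter_preimage hB).mem_nhds ⟨mem_chart_source E _, hx⟩
  have key : ∀ d : ℝ → X, (∀ᶠ s in 𝓝 t, IC X v d s) → d t = x → ∀ᶠ s in 𝓝 t,
      d s ∈ (ch X x).source ∧ ch X x (d s) = fl (s - t) (ch X x (d t)) := by
    intro d hd e
    have hO' : (ch X x).source ∩ ch X x ⁻¹' B ∈ 𝓝 (d t) := by rw [e]; exact hO
    obtain ⟨ε, hε, hb⟩ := Metric.eventually_nhds_iff_ball.1
      (hd.and (hd.self_of_nhds.cont.preimage_mem_nhds hO'))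
    filter_upwards [Metric.ball_mem_nhds t hε] with s hs
    refine ⟨(hb s hs).2.1, hF.eq_of (c := fun s => ch X x (d s)) fun u hu => ?_⟩
    obtain ⟨k1, k2, k3⟩ := hb u ((convex_ball t ε).ordConnected.uIcc_subset
      (Metric.mem_ball_self hε) hs hu)
    rw [hE k3, cv_ch k2]
    exact k1.hasDerivAt (smAt_ch k2)
  filter_upwards [key c h hx1, key c' h' (e.symm.trans hx1)] with s h1 h2
  exact (ch X x).injOn h1.1 h2.1 (by rw [h1.2, h2.2, e])

end Flow

/-- uniqueness of integral curves on an open interval -/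
theorem ic_unique (hv : ∀ x, VfAt X v x) {a b : ℝ} (h : ∀ s ∈ Ioo a b, IC X v c s)
    (h' : ∀ s ∈ Ioo a b, IC X v c' s) (ht : t ∈ Ioo a b) (e : c t = c' t) :
    EqOn c c' (Ioo a b) := by
  have h1 : IsOpen {s | s ∈ Ioo a b ∧ c s = c' s} := isOpen_iff_mem_nhds.2 fun s hs => by
    have k := Ioo_mem_nhds hs.1.1 hs.1.2
    exact (show ∀ᶠ u in 𝓝 s, u ∈ Ioo a b from k).and
      (Flow.uniq_loc hv (mem_of_superset k h) (mem_of_superset k h') hs.2)
  refine fun s hs => (isPreconnected_Ioo.subset_of_closure_inter_subset h1 ⟨t, ht, ht, e⟩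
    (fun u hu => ⟨hu.2, ?_⟩) hs).2
  exact tendsto_nhds_unique_of_frequently_eq (h u hu.2).cont (h' u hu.2).cont
    ((mem_closure_iff_frequently.1 hu.1).mono fun _ hp => hp.2)

/-- local flows -/
theorem exists_localFlow (hv : ∀ x, VfAt X v x) (x : X) :
    ∃ (U : Set X) (ε : ℝ) (ψ : X × ℝ → X), IsOpen U ∧ x ∈ U ∧ 0 < ε ∧
      Sm X.cyl X ψ (U ×ˢ Ioo (-ε) ε) ∧ (∀ y ∈ U, ψ (y, 0) = y) ∧
      ∀ y ∈ U, ∀ t ∈ Ioo (-ε) ε, IC X v (fun s => ψ (y, s)) t := by
  obtain ⟨F, fl, B, hF, hB, hx, hT, hE⟩ := Flow.chart_flow hv x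
  have h1 : (fun q : ℝ × E => fl q.1 q.2) ⁻¹' B ∈ 𝓝 ((0 : ℝ), ch X x x) :=
    hF.sm.continuous.continuousAt.preimage_mem_nhds (hB.mem_nhds (by simpa [hF.zero] using hx))
  obtain ⟨I, J, hI, h0, hJ, hxJ, hIJ⟩ := mem_nhds_prod_iff'.1 h1
  obtain ⟨ε, hε, hb⟩ := Metric.isOpen_iff.1 hI 0 h0
  have hm : ∀ y ∈ (ch X x).source ∩ ch X x ⁻¹' J, ∀ t ∈ Ioo (-ε) ε, fl t (ch X x y) ∈ B :=
    fun y hy t ht => hIJ (mk_mem_prod (hb (by rwa [Real.ball_eq_Ioo, zero_sub, zero_add])) hy.2)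
  refine ⟨(ch X x).source ∩ ch X x ⁻¹' J, ε, fun p => (ch X x).symm (fl p.2 (ch X x p.1)),
    (ch X x).isOpen_inter_preimage hJ, ⟨mem_chart_source E x, hxJ⟩, hε, fun p hp => ?_,
    fun y hy => ?_, fun y hy t ht => ?_⟩
  · exact SmAt.trans (Y := vs E)
      ((SmAt.vpair smAt_snd (smAt_fst.trans (smAt_ch hp.1.1))).vcomp hF.sm.contDiffAt)
      (smAt_ch_symm (hT (hm _ hp.1 _ hp.2)))
  · simp only [hF.zero, (ch X x).left_inv hy.1]
  · have k := hT (hm y hy t ht)
    have hc : ContinuousAt (fun s => (ch X x).symm (fl s (ch X x y))) t :=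
      (smAt_ch_symm k).cont.comp (f := fun s => fl s (ch X x y)) (hF.cont _).continuousAt
    refine IC.lift (Y := vs E) (w := F) (ldAt_ch ((ch X x).map_target k)) hc
      ((ic_vs.2 (hF.der (ch X x y) t)).congr ?_) ?_
    · filter_upwards [Ioo_mem_nhds ht.1 ht.2] with s hs
      exact (ch X x).right_inv (hT (hm y hy s hs))
    · rw [(ch X x).right_inv k, hE (hm y hy t ht)]
      rfl

namespace Flow

theorem glue (hv : ∀ x, VfAt X v x) {a b a' b' : ℝ} (h : ∀ s ∈ Ioo a b, IC X v c s)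
    (h' : ∀ s ∈ Ioo a' b', IC X v c' s) (ht : t ∈ Ioo a b) (ht' : t ∈ Ioo a' b')
    (e : c t = c' t) :
    ∃ d : ℝ → X, EqOn d c (Ioo a b) ∧ ∀ s ∈ Ioo (min a a') (max b b'), IC X v d s := by
  classical
  have k := ic_unique hv (a := max a a') (b := min b b')
    (fun s hs => h s ⟨(max_lt_iff.1 hs.1).1, (lt_min_iff.1 hs.2).1⟩)
    (fun s hs => h' s ⟨(max_lt_iff.1 hs.1).2, (lt_min_iff.1 hs.2).2⟩)
    ⟨max_lt ht.1 ht'.1, lt_min ht.2 ht'.2⟩ e
  refine ⟨fun s => if s ∈ Ioo a b then c s else c' s, fun s hs => if_pos hs, fun s hs => ?_⟩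
  by_cases h1 : s ∈ Ioo a b
  · refine (h s h1).congr ?_
    filter_upwards [Ioo_mem_nhds h1.1 h1.2] with u hu using if_pos hu
  · have h2 : s ∈ Ioo a' b' := by
      rw [mem_Ioo, not_and_or, not_lt, not_lt] at h1
      obtain ⟨k1, k2⟩ := hs
      rw [min_lt_iff] at k1
      rw [lt_max_iff] at k2
      obtain ⟨p1, p2⟩ := ht
      obtain ⟨q1, q2⟩ := ht'
      constructor
      · rcases h1 with h1 | h1 <;> rcases k1 with k1 | k1 <;> linarith
      · rcases h1 with h1 | h1 <;> rcases k2 with k2 | k2 <;> linarith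
    refine (h' s h2).congr ?_
    filter_upwards [Ioo_mem_nhds h2.1 h2.2] with u hu
    split_ifs with h3
    exacts [k ⟨max_lt h3.1 hu.1, lt_min h3.2 hu.2⟩, rfl]

theorem uniform (hv : ∀ x, VfAt X v x) {K : Set X} (hK : IsCompact K) : ∃ ε : ℝ, 0 < ε ∧
    ∀ z ∈ K, ∃ c : ℝ → X, c 0 = z ∧ ∀ s ∈ Ioo (-ε) ε, IC X v c s := by
  refine hK.induction_on (p := fun K => ∃ ε : ℝ, 0 < ε ∧
    ∀ z ∈ K, ∃ c : ℝ → X, c 0 = z ∧ ∀ s ∈ Ioo (-ε) ε, IC X v c s)
    ⟨1, one_pos, fun _ h => h.elim⟩ (fun _ _ hs ⟨ε, h1, h2⟩ => ⟨ε, h1, fun z hz => h2 z (hs hz)⟩)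
    (fun _ _ ⟨ε, h1, h2⟩ ⟨δ, h3, h4⟩ => ⟨min ε δ, lt_min h1 h3, fun z hz => ?_⟩) fun x _ => ?_
  · rcases hz with hz | hz
    · obtain ⟨c, k1, k2⟩ := h2 z hz
      exact ⟨c, k1, fun s hs => k2 s (Ioo_subset_Ioo (neg_le_neg (min_le_left _ _))
        (min_le_left _ _) hs)⟩
    · obtain ⟨c, k1, k2⟩ := h4 z hz
      exact ⟨c, k1, fun s hs => k2 s (Ioo_subset_Ioo (neg_le_neg (min_le_right _ _))
        (min_le_right _ _) hs)⟩
  · obtain ⟨U, ε, ψ, hU, hx, hε, -, h0, h1⟩ := exists_localFlow hv x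
    exact ⟨U, mem_nhdsWithin_of_mem_nhds (hU.mem_nhds hx), ε, hε,
      fun z hz => ⟨fun s => ψ (z, s), h0 z hz, h1 z hz⟩⟩

theorem long (hv : ∀ x, VfAt X v x) {x : X} {T : ℝ} {K : Set X} (hK : IsCompact K)
    (H : ∀ (c : ℝ → X) (s : ℝ), s ≤ T → c 0 = x → (∀ t ∈ Ioo (-s) s, IC X v c t) →
      MapsTo c (Ioo (-s) s) K) : ∃ c : ℝ → X, c 0 = x ∧ ∀ t ∈ Ioo (-T) T, IC X v c t := by
  obtain ⟨ε, hε, hu⟩ := uniform hv (hK.insert x)
  have key : ∀ n : ℕ, ∃ c : ℝ → X, c 0 = x ∧ ∀ t ∈ Ioo (-min T ((n + 2) * (ε / 2)))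
      (min T ((n + 2) * (ε / 2))), IC X v c t := by
    intro n
    induction n with
    | zero =>
      obtain ⟨c, h0, h1⟩ := hu x (mem_insert _ _)
      have := min_le_right T ((((0 : ℕ) : ℝ) + 2) * (ε / 2))
      exact ⟨c, h0, fun t ht => h1 t ⟨by push_cast at this ht; linarith [ht.1],
        by push_cast at this ht; linarith [ht.2]⟩⟩
    | succ n ih =>
      obtain ⟨c, h0, h1⟩ := ih
      have hn : (0 : ℝ) ≤ n * ε := by positivity
      rcases le_total T ((n + 2) * (ε / 2)) with h | h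
      · refine ⟨c, h0, ?_⟩
        rw [min_eq_left h] at h1
        rwa [min_eq_left (by push_cast; linarith)]
      · rw [min_eq_right h] at h1
        obtain ⟨s, hs⟩ : ∃ s : ℝ, s = (n + 2) * (ε / 2) := ⟨_, rfl⟩
        rw [← hs] at h h1
        have hs' : ε ≤ s := by linarith
        have m1 : s - ε / 4 ∈ Ioo (-s) s := ⟨by linarith, by linarith⟩
        have m2 : -s + ε / 4 ∈ Ioo (-s) s := ⟨by linarith, by linarith⟩
        obtain ⟨p, p0, p1⟩ := hu _ (mem_insert_of_mem _ (H c s h h0 h1 m1))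
        obtain ⟨q, q0, q1⟩ := hu _ (mem_insert_of_mem _ (H c s h h0 h1 m2))
        obtain ⟨d, d0, d1⟩ := glue hv (c' := fun u => p (u + -(s - ε / 4))) (a' := s - ε / 2)
          (b' := s + ε / 2) h1
          (fun u hu => (p1 _ ⟨by linarith [hu.1], by linarith [hu.2]⟩).shift) m1
          ⟨by linarith, by linarith⟩ (by rw [add_neg_cancel, p0])
        rw [min_eq_left (by linarith), max_eq_right (by linarith)] at d1
        obtain ⟨k, k0, k1⟩ := glue hv (c' := fun u => q (u + -(-s + ε / 4))) (a' := -s - ε / 2)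
          (b' := -s + ε / 2) (t := -s + ε / 4) d1
          (fun u hu => (q1 _ ⟨by linarith [hu.1], by linarith [hu.2]⟩).shift)
          ⟨by linarith, by linarith⟩ ⟨by linarith, by linarith⟩
          (by rw [add_neg_cancel, q0, d0 m2])
        rw [min_eq_right (by linarith), max_eq_left (by linarith)] at k1
        have := min_le_right T ((((n + 1 : ℕ) : ℝ) + 2) * (ε / 2))
        refine ⟨k, by rw [k0 ⟨by linarith, by linarith⟩, d0 ⟨by linarith, by linarith⟩, h0],
          fun t ht => k1 t ⟨?_, ?_⟩⟩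
        · push_cast at this ht; linarith [ht.1]
        · push_cast at this ht; linarith [ht.2]
  obtain ⟨n, hn⟩ := exists_nat_ge (T / (ε / 2))
  rw [div_le_iff₀ (half_pos hε)] at hn
  have := key n
  rwa [min_eq_left (by linarith)] at this

theorem global (hv : ∀ x, VfAt X v x) {x : X}
    (H : ∀ T : ℝ, ∃ c : ℝ → X, c 0 = x ∧ ∀ t ∈ Ioo (-T) T, IC X v c t) :
    ∃ c : ℝ → X, c 0 = x ∧ ∀ t, IC X v c t := by
  choose c h0 h1 using H
  have key : ∀ T, ∀ t ∈ Ioo (-T) T, c (|t| + 1) t = c T t := fun T t ht => by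
    have a1 := le_abs_self t
    have a2 := neg_abs_le t
    have a3 := abs_nonneg t
    have a4 : 0 < T := by linarith [ht.1, ht.2]
    refine ic_unique hv (a := max (-(|t| + 1)) (-T)) (b := min (|t| + 1) T) (t := 0)
      (fun s hs => h1 _ s ⟨(max_lt_iff.1 hs.1).1, (lt_min_iff.1 hs.2).1⟩)
      (fun s hs => h1 _ s ⟨(max_lt_iff.1 hs.1).2, (lt_min_iff.1 hs.2).2⟩)
      ⟨max_lt (by linarith) (by linarith), lt_min (by linarith) a4⟩ (by rw [h0, h0])
      ⟨max_lt (by linarith) ht.1, lt_min (by linarith) ht.2⟩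
  refine ⟨fun t => c (|t| + 1) t, h0 _, fun t => ?_⟩
  have ht : t ∈ Ioo (-(|t| + 1)) (|t| + 1) :=
    ⟨by linarith [neg_abs_le t], by linarith [le_abs_self t]⟩
  refine (h1 _ t ht).congr ?_
  filter_upwards [Ioo_mem_nhds ht.1 ht.2] with s hs using key _ s hs

end Flow

/-- a field all of whose integral curves are global has a smooth flow -/
theorem isFlow_of_curves (hv : ∀ x, VfAt X v x) {φ : ℝ → X → X} (h0 : ∀ x, φ 0 x = x)
    (h1 : ∀ x t, IC X v (fun t => φ t x) t) : IsFlow X v φ := by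
  have ha : ∀ s t x, φ (s + t) x = φ s (φ t x) := fun s t x =>
    ic_unique hv (a := -(|s| + 1)) (b := |s| + 1) (t := 0) (c := fun s => φ (s + t) x)
      (c' := fun s => φ s (φ t x)) (fun u _ => (h1 x (u + t)).shift) (fun u _ => h1 _ u)
      ⟨by linarith [abs_nonneg s], by linarith [abs_nonneg s]⟩ (by rw [zero_add, h0])
      ⟨by linarith [neg_abs_le s], by linarith [le_abs_self s]⟩
  refine ⟨?_, h0, ha, h1, fun c a b hab hc hc' => ?_⟩
  · have key : ∀ x t₁, ∀ᶠ t in 𝓝 t₁, ∀ᶠ s in 𝓝 t₁, ∀ t' s', (t', s') = (t, s) ∨ (t', s') = (s, t) →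
        (∀ᶠ y in 𝓝 x, SmAt X X (φ t') y) →
        ∀ᶠ y in 𝓝 x, SmAt X.cyl X (fun p => φ p.2 p.1) (y, s') := by
      intro x t₁
      obtain ⟨U, ε, ψ, hU, hx, hε, hs, k0, k1⟩ := exists_localFlow hv (φ t₁ x)
      have e : ∀ y ∈ U, ∀ s ∈ Ioo (-ε) ε, φ s y = ψ (y, s) := fun y hy s hs =>
        ic_unique hv (t := 0) (c := fun s => φ s y) (c' := fun s => ψ (y, s))
          (fun u _ => h1 y u) (k1 y hy) ⟨by linarith, hε⟩ (by rw [h0, k0 y hy]) hs
      have hO : ∀ᶠ t in 𝓝 t₁, φ t x ∈ U ∧ t ∈ Ioo (t₁ - ε / 2) (t₁ + ε / 2) :=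
        Eventually.and ((h1 x t₁).cont.preimage_mem_nhds (hU.mem_nhds hx))
          (Ioo_mem_nhds (by linarith) (by linarith))
      have main : ∀ t s, φ t x ∈ U → s - t ∈ Ioo (-ε) ε → (∀ᶠ y in 𝓝 x, SmAt X X (φ t) y) →
          ∀ᶠ y in 𝓝 x, SmAt X.cyl X (fun p => φ p.2 p.1) (y, s) := by
        intro t s m1 m2 m3
        filter_upwards [m3, m3.self_of_nhds.cont.preimage_mem_nhds (hU.mem_nhds m1)] with y n1 n2
        have n3 : SmAt X.cyl X.cyl (fun p => (φ t p.1, p.2 - t)) (y, s) :=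
          (smAt_fst.trans n1).pair (smAt_snd.vcomp (g := fun u => u - t) (by fun_prop))
        have n4 : U ×ˢ Ioo (-ε) ε ∈ 𝓝 (φ t y, s - t) := (hU.prod isOpen_Ioo).mem_nhds ⟨n2, m2⟩
        refine (n3.trans (hs _ ⟨n2, m2⟩)).congr' ?_
        filter_upwards [n3.cont.preimage_mem_nhds n4] with p hp
        rw [← e _ hp.1 _ hp.2, ← ha, sub_add_cancel]
      filter_upwards [hO] with t ht
      filter_upwards [hO] with s hs t' s' h
      rcases h with h | h <;> obtain ⟨rfl, rfl⟩ := Prod.mk.inj h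
      · exact main _ _ ht.1 ⟨by linarith [ht.2.2, hs.2.1], by linarith [ht.2.1, hs.2.2]⟩
      · exact main _ _ hs.1 ⟨by linarith [hs.2.2, ht.2.1], by linarith [hs.2.1, ht.2.2]⟩
    have res : ∀ (x : X) (s : ℝ), (∀ᶠ y in 𝓝 x, SmAt X.cyl X (fun p => φ p.2 p.1) (y, s)) →
        ∀ᶠ y in 𝓝 x, SmAt X X (φ s) y := fun x s h => h.mono fun y hy =>
      SmAt.trans (Y := X.cyl) (smAt_id.pair (smAt_const (Y := vs ℝ) s)) hy
    rintro ⟨x, t⟩ -
    have hl : IsLocallyConstant fun t => ∀ᶠ y in 𝓝 x, SmAt X X (φ t) y := by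
      refine (IsLocallyConstant.iff_eventually_eq _).2 fun t₁ => ?_
      filter_upwards [(key x t₁).self_of_nhds] with s hs
      exact propext ⟨fun h => res _ _ (hs _ _ (Or.inr rfl) h), fun h => res _ _ (hs _ _ (Or.inl rfl) h)⟩
    have h2 : ∀ᶠ y in 𝓝 x, SmAt X X (φ t) y := by
      rw [hl.apply_eq_of_preconnectedSpace t 0, show φ 0 = fun x => x from funext h0]
      exact Eventually.of_forall fun _ => smAt_id
    exact ((key x t).self_of_nhds.self_of_nhds _ _ (Or.inl rfl) h2).self_of_nhds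
  · rcases hab.eq_or_lt with rfl | hlt
    · rw [sub_self, h0]
    · have hm : (a + b) / 2 ∈ Ioo a b := ⟨by linarith, by linarith⟩
      have k := ic_unique hv (c' := fun s => φ (s + -((a + b) / 2)) (c ((a + b) / 2))) hc'
        (fun u _ => (h1 _ _).shift) hm (by rw [add_neg_cancel, h0])
      have k' : EqOn c (fun s => φ (s + -((a + b) / 2)) (c ((a + b) / 2))) (Icc a b) :=
        k.of_subset_closure hc (fun u _ => (h1 _ _).shift.cont.continuousWithinAt)
          Ioo_subset_Icc_self (by rw [closure_Ioo hlt.ne])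
      have k1 := k' (left_mem_Icc.2 hab)
      have k2 := k' (right_mem_Icc.2 hab)
      dsimp only at k1 k2
      rw [k2, k1, ← ha]
      congr 1
      ring

theorem flowM : FlowMStmt := by
  intro E _ _ _ X v hv H
  have H' : ∀ (x : X) (T : ℝ), ∃ K, IsCompact K ∧ ∀ (c : ℝ → X) (s : ℝ), s ≤ T → c 0 = x →
      (∀ t ∈ Ioo (-s) s, IC X v c t) → MapsTo c (Ioo (-s) s) K := by
    intro x T
    rcases H with ⟨K, hK, h⟩ | H
    · refine ⟨insert x K, hK.insert x, fun c s _ h0 h1 t ht => ?_⟩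
      by_cases hk : c t ∈ K
      · exact mem_insert_of_mem _ hk
      · have := ic_unique hv (c' := fun _ => c t) h1 (fun _ _ => ic_const (h _ hk)) ht rfl
          (show (0 : ℝ) ∈ Ioo (-s) s from ⟨by linarith [ht.1, ht.2], by linarith [ht.1, ht.2]⟩)
        exact Or.inl (this.symm.trans h0)
    · obtain ⟨K, hK, h⟩ := H x T
      refine ⟨K, hK, fun c s hs h0 h1 t ht => ?_⟩
      have a1 : |t| < s := abs_lt.2 ht
      exact h c (-|t|) |t| (by linarith) (by linarith [abs_nonneg t]) (abs_nonneg t) (by linarith)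
        h0 (fun u hu => h1 u ⟨by linarith [hu.1], by linarith [hu.2]⟩) ⟨neg_abs_le t, le_abs_self t⟩
  have H2 : ∀ x : X, ∃ c : ℝ → X, c 0 = x ∧ ∀ t, IC X v c t := fun x =>
    Flow.global hv fun T => by
      obtain ⟨K, hK, h⟩ := H' x T
      exact Flow.long hv hK h
  choose c h0 h1 using H2
  exact ⟨fun t x => c x t, isFlow_of_curves hv h0 h1⟩

/-- the flow of a field with compact support -/
theorem exists_flow_cpt (hv : ∀ x, VfAt X v x) {K : Set X} (hK : IsCompact K)
    (h : ∀ x ∉ K, v x = 0) : ∃ φ, IsFlow X v φ := flowM E X v hv (Or.inl ⟨K, hK, h⟩)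

/-- the flow of a field on a compact manifold -/
theorem exists_flow_compact [CompactSpace X] (hv : ∀ x, VfAt X v x) : ∃ φ, IsFlow X v φ :=
  exists_flow_cpt hv isCompact_univ fun _ h => (h trivial).elim

/-! ### Properties of flows -/

namespace IsFlow

omit [FiniteDimensional ℝ E] [FiniteDimensional ℝ E']

variable {φ φ' : ℝ → X → X} {ψ : ℝ → Y → Y} {x : X}

theorem smAt (h : IsFlow X v φ) (x : X) (t : ℝ) : SmAt X.cyl X (fun p => φ p.2 p.1) (x, t) :=
  h.sm _ trivial

/-- the flow with smooth time and smooth starting point -/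
theorem comp (h : IsFlow X v φ) {g : Y → X} {τ : Y → ℝ} {y : Y} (hg : SmAt Y X g y)
    (hτ : SmAt Y (vs ℝ) τ y) : SmAt Y X (fun y => φ (τ y) (g y)) y :=
  SmAt.trans (Y := X.cyl) (hg.pair hτ) (h.smAt _ _)

theorem smAt_time (h : IsFlow X v φ) (t : ℝ) (x : X) : SmAt X X (φ t) x :=
  h.comp smAt_id (smAt_const (Y := vs ℝ) t)

theorem sm_time (h : IsFlow X v φ) (t : ℝ) : Sm X X (φ t) univ := fun x _ => h.smAt_time t x

theorem smAt_curve (h : IsFlow X v φ) (x : X) (t : ℝ) : SmAt (vs ℝ) X (fun t => φ t x) t :=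
  h.comp (smAt_const x) smAt_id

theorem cont (h : IsFlow X v φ) : Continuous fun p : X × ℝ => φ p.2 p.1 := h.sm.cont

theorem cont_comp (h : IsFlow X v φ) {T : Type*} [TopologicalSpace T] {g : T → X} {τ : T → ℝ}
    (hg : Continuous g) (hτ : Continuous τ) : Continuous fun y => φ (τ y) (g y) :=
  h.cont.comp (hg.prodMk hτ)

theorem cont_curve (h : IsFlow X v φ) (x : X) : Continuous fun t => φ t x :=
  h.cont_comp continuous_const continuous_id

theorem cont_time (h : IsFlow X v φ) (t : ℝ) : Continuous (φ t) :=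
  h.cont_comp continuous_id continuous_const

theorem neg_left (h : IsFlow X v φ) (t : ℝ) (x : X) : φ (-t) (φ t x) = x := by
  rw [← h.add, neg_add_cancel, h.zero]

theorem neg_right (h : IsFlow X v φ) (t : ℝ) (x : X) : φ t (φ (-t) x) = x := by
  rw [← h.add, add_neg_cancel, h.zero]

theorem comm (h : IsFlow X v φ) (s t : ℝ) (x : X) : φ s (φ t x) = φ t (φ s x) := by
  rw [← h.add, ← h.add, add_comm]

theorem bij (h : IsFlow X v φ) (t : ℝ) : Bijective (φ t) :=
  ⟨LeftInverse.injective (h.neg_left t), RightInverse.surjective (h.neg_right t)⟩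

theorem oe (h : IsFlow X v φ) (t : ℝ) : OE X X (φ t) univ :=
  oe_of_inv isOpen_univ isOpen_univ (h.sm_time t) (h.sm_time (-t)) (mapsTo_univ _ _)
    (mapsTo_univ _ _) (fun x _ => h.neg_left t x) fun x _ => h.neg_right t x

theorem ld (h : IsFlow X v φ) (t : ℝ) (x : X) : LDAt X X (φ t) x := (h.oe t).ld x trivial

/-- the time `t` map as a homeomorphism -/
def homeo (h : IsFlow X v φ) (t : ℝ) : X ≃ₜ X :=
  ⟨⟨φ t, φ (-t), h.neg_left t, h.neg_right t⟩, h.cont_time t, h.cont_time (-t)⟩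

/-- the map `(x, t) ↦ (φ t x, t)` -/
theorem oe_cyl (h : IsFlow X v φ) : OE X.cyl X.cyl (fun p => (φ p.2 p.1, p.2)) univ :=
  oe_of_inv (g := fun p => (φ (-p.2) p.1, p.2)) isOpen_univ isOpen_univ
    (fun _ _ => (h.comp smAt_fst smAt_snd).pair smAt_snd)
    (fun _ _ => (h.comp smAt_fst (smAt_snd.vcomp (g := fun u => -u) contDiffAt_id.neg)).pair
      smAt_snd)
    (mapsTo_univ _ _) (mapsTo_univ _ _) (fun _ _ => Prod.ext (h.neg_left _ _) rfl)
    fun _ _ => Prod.ext (h.neg_right _ _) rfl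

/-- uniqueness in both directions of time -/
theorem eq_of' (h : IsFlow X v φ) {a b : ℝ} (hc : ContinuousOn c (uIcc a b))
    (hd : ∀ t ∈ uIoo a b, IC X v c t) : c b = φ (b - a) (c a) := by
  rcases le_total a b with hab | hab
  · rw [uIcc_of_le hab] at hc
    rw [uIoo_of_le hab] at hd
    exact h.uniq c a b hab hc hd
  · rw [uIcc_of_ge hab] at hc
    rw [uIoo_of_ge hab] at hd
    rw [h.uniq c b a hab hc hd, ← h.add, show b - a + (a - b) = 0 by ring, h.zero]

theorem eq_of (h : IsFlow X v φ) {a b : ℝ} (hd : ∀ t ∈ uIcc a b, IC X v c t) :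
    c b = φ (b - a) (c a) :=
  h.eq_of' (fun t ht => (hd t ht).cont.continuousWithinAt) fun t ht => hd t (uIoo_subset_uIcc_self ht)

theorem eq_of_zero (h : IsFlow X v φ) (hd : ∀ s ∈ uIcc 0 t, IC X v c s) : φ t (c 0) = c t := by
  rw [h.eq_of hd, sub_zero]

theorem fix (h : IsFlow X v φ) (hx : v x = 0) (t : ℝ) : φ t x = x :=
  h.eq_of_zero (c := fun _ => x) fun _ _ => ic_const hx

/-- a set outside which the field vanishes is invariant -/
theorem mem_iff (h : IsFlow X v φ) {K : Set X} (hK : ∀ x ∉ K, v x = 0) (t : ℝ) :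
    φ t x ∈ K ↔ x ∈ K := by
  refine ⟨fun h1 => by_contra fun h2 => h2 (by rwa [h.fix (hK _ h2)] at h1),
    fun h1 => by_contra fun h2 => h2 ?_⟩
  have := h.fix (hK _ h2) (-t)
  rwa [← this, h.neg_left]

theorem ne_zero (h : IsFlow X v φ) (hx : v x ≠ 0) (t : ℝ) : v (φ t x) ≠ 0 := fun h1 => hx (by
  have := h.fix h1 (-t)
  rw [h.neg_left] at this
  rwa [← this] at h1)

theorem hasDerivAt (h : IsFlow X v φ) {g : X → V} (hg : SmAt X (vs V) g (φ t x)) :
    HasDerivAt (fun s => g (φ s x)) (Df X (vs V) g (φ t x) (v (φ t x))) t :=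
  (h.der x t).hasDerivAt hg

/-- a function with constant derivative along an orbit -/
theorem affine (h : IsFlow X v φ) {g : X → V} {a : V}
    (hg : ∀ s ∈ uIcc 0 t, SmAt X (vs V) g (φ s x) ∧ Df X (vs V) g (φ s x) (v (φ s x)) = a) :
    g (φ t x) = g x + t • a := by
  have h1 : ∀ s ∈ uIcc 0 t, HasDerivAt (fun s => g (φ s x) - s • a) 0 s := fun s hs => by
    have := (h.hasDerivAt (hg s hs).1).sub ((hasDerivAt_id s).smul_const a)
    rwa [(hg s hs).2, one_smul, sub_self] at this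
  have h2 := (convex_uIcc (0 : ℝ) t).norm_image_sub_le_of_norm_hasDerivWithin_le (C := 0)
    (fun s hs => (h1 s hs).hasDerivWithinAt) (fun _ _ => by simp) left_mem_uIcc right_mem_uIcc
  rw [zero_mul, norm_le_zero_iff, h.zero, zero_smul, sub_zero, sub_eq_zero] at h2
  rw [← h2, sub_add_cancel]

/-- first integrals -/
theorem const (h : IsFlow X v φ) {g : X → V}
    (hg : ∀ s ∈ uIcc 0 t, SmAt X (vs V) g (φ s x) ∧ Df X (vs V) g (φ s x) (v (φ s x)) = 0) :
    g (φ t x) = g x := by rw [h.affine hg, smul_zero, add_zero]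

/-- naturality: flows of related fields -/
theorem natural (h : IsFlow X v φ) (h' : IsFlow Y w ψ) (hf : ∀ s ∈ uIcc 0 t,
    SmAt X Y f (φ s x) ∧ Df X Y f (φ s x) (v (φ s x)) = w (f (φ s x))) :
    ψ t (f x) = f (φ t x) := by
  have := h'.eq_of_zero (c := fun s => f (φ s x)) fun s hs => (h.der x s).map (hf s hs).1 (hf s hs).2
  rwa [h.zero] at this

/-- two fields that agree along an orbit -/
theorem agree (h : IsFlow X v φ) (h' : IsFlow X v' φ')
    (e : ∀ s ∈ uIcc 0 t, v' (φ s x) = v (φ s x)) : φ' t x = φ t x := by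
  have := h'.eq_of_zero (c := fun s => φ s x) fun s hs => (h.der x s).congr_field (e s hs)
  rwa [h.zero] at this

theorem unique (h : IsFlow X v φ) (h' : IsFlow X v φ') : φ' = φ :=
  funext fun _ => funext fun _ => h.agree h' fun _ _ => rfl

/-- the flow preserves its field -/
theorem push (h : IsFlow X v φ) (t : ℝ) (x : X) : Df X X (φ t) x (v x) = v (φ t x) := by
  have h1 : IC X (fun _ => Df X X (φ t) (φ 0 x) (v (φ 0 x))) (fun s => φ t (φ s x)) 0 :=
    (h.der x 0).map (h.smAt_time t _) rfl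
  have h2 := (h.der (φ t x) 0).2
  simp only [h.comm _ t] at h2
  have h3 := h1.2
  rw [h2, h.zero] at h3
  exact h3.symm

/-- the differential of the flow -/
theorem Df_flow (h : IsFlow X v φ) (x : X) (t : ℝ) (u : E) (a : ℝ) :
    Df X.cyl X (fun p => φ p.2 p.1) (x, t) (u, a) = Df X X (φ t) x u + a • v (φ t x) := by
  have h1 := Df_comp (X := X) (Y := X.cyl) (x := x) (smAt_id.pair (smAt_const (Y := vs ℝ) t))
    (h.smAt x t)
  have h2 := Df_comp (X := vs ℝ) (Y := X.cyl) (x := t) ((smAt_const x).pair smAt_id) (h.smAt x t)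
  rw [Df_pair smAt_id (smAt_const _), Df_id, Df_const] at h1
  rw [Df_pair (smAt_const _) smAt_id, Df_id, Df_const] at h2
  have h3 := (h.der x t).2
  rw [h2] at h3
  rw [show Df X X (φ t) x = _ from h1, ← h3, ← map_smul, ContinuousLinearMap.comp_apply,
    ContinuousLinearMap.comp_apply, ← map_add]
  simp

theorem Df_flow_zero (h : IsFlow X v φ) (x : X) (u : E) (a : ℝ) :
    Df X.cyl X (fun p => φ p.2 p.1) (x, 0) (u, a) = u + a • v x := by
  rw [h.Df_flow, h.zero, show φ 0 = fun x => x from funext h.zero, Df_id]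
  rfl

/-- the flow of a constant multiple of the field -/
theorem smul (h : IsFlow X v φ) {a : ℝ} (ha : a ≠ 0) :
    IsFlow X (fun x => a • v x) fun t => φ (a * t) := by
  refine ⟨fun p _ => h.comp smAt_fst (smAt_snd.vcomp (g := fun u => a * u) (by fun_prop)),
    fun x => by rw [mul_zero, h.zero], fun s t x => by rw [mul_add, h.add], fun x t => ?_,
    fun c s t hst hc hd => ?_⟩
  · simpa only [add_zero] using (h.der x (a * t + 0)).affine
  · have e : ∀ u, a⁻¹ * (a * u) + 0 = u := fun u => by field_simp; ring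
    have hm : ∀ u, u = a * (a⁻¹ * u + 0) := fun u => by field_simp; ring
    have k := h.eq_of' (c := fun u => c (a⁻¹ * u + 0)) (a := a * s) (b := a * t)
      (hc.comp (by fun_prop) fun u hu => ?_) fun u hu => ?_
    · rwa [e, e, ← mul_sub] at k
    · rw [hm u, mem_uIcc] at hu
      rcases ha.lt_or_gt with h1 | h1 <;> rcases hu with hu | hu <;> constructor <;> nlinarith
    · have : a⁻¹ * u + 0 ∈ Ioo s t := by
        rw [hm u, uIoo, mem_Ioo, min_lt_iff, lt_max_iff] at hu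
        obtain ⟨k1, k2⟩ := hu
        rcases ha.lt_or_gt with h1 | h1 <;> rcases k1 with k1 | k1 <;> rcases k2 with k2 | k2 <;>
          constructor <;> nlinarith
      simpa only [smul_smul, inv_mul_cancel₀ ha, one_smul] using (hd _ this).affine

theorem neg (h : IsFlow X v φ) : IsFlow X (fun x => -v x) fun t => φ (-t) := by
  simpa only [neg_smul, one_smul, neg_mul, one_mul] using h.smul (a := -1) (by norm_num)

/-- an orbit cannot leave `U` if it cannot leave a closed subset `K` of `U` while it is in `U` -/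
theorem stay (h : IsFlow X v φ) {K U : Set X} (hK : IsClosed K) (hU : IsOpen U) (hKU : K ⊆ U)
    (hx : x ∈ K)
    (H : ∀ s ∈ Icc 0 t, (∀ u ∈ Icc 0 s, φ u x ∈ U) → φ s x ∈ K) : ∀ s ∈ Icc 0 t, φ s x ∈ K := by
  have := IsClosed.Icc_subset_of_forall_mem_nhdsGT_of_Icc_subset (a := 0) (b := t)
    (s := {s | φ s x ∈ K}) ((hK.preimage (h.cont_curve x)).inter isClosed_Icc)
    (show φ 0 x ∈ K by rwa [h.zero]) fun s hs h1 => by
      obtain ⟨ε, hε, hb⟩ := Metric.mem_nhds_iff.1 ((h.cont_curve x).continuousAt.preimage_mem_nhds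
        (hU.mem_nhds (hKU (h1 (right_mem_Icc.2 hs.1)))))
      filter_upwards [Ioo_mem_nhdsGT (lt_min hs.2 (lt_add_of_pos_right s hε))] with u hu
      refine H u ⟨hs.1.trans hu.1.le, (lt_min_iff.1 hu.2).1.le⟩ fun r hr => ?_
      rcases le_total r s with h2 | h2
      · exact hKU (h1 ⟨hr.1, h2⟩)
      · refine hb ?_
        rw [Real.ball_eq_Ioo]
        exact ⟨by linarith, hr.2.trans_lt (lt_min_iff.1 hu.2).2⟩
  exact fun s hs => this hs

/-- the time `t` map is the identity near points where the field vanishes identically -/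
theorem eventually_id (h : IsFlow X v φ) (hx : ∀ᶠ y in 𝓝 x, v y = 0) (t : ℝ) :
    φ t =ᶠ[𝓝 x] fun y => y := hx.mono fun _ hy => h.fix hy t

/-- a smooth function is monotone along an orbit on which its derivative is non-negative -/
theorem mono (h : IsFlow X v φ) {g : X → ℝ} {a b : ℝ} (hab : a ≤ b)
    (hg : ∀ s ∈ Icc a b, SmAt X (vs ℝ) g (φ s x) ∧ 0 ≤ Df X (vs ℝ) g (φ s x) (v (φ s x))) :
    g (φ a x) ≤ g (φ b x) :=
  monotoneOn_of_deriv_nonneg (convex_Icc a b) (f := fun s => g (φ s x))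
    (fun s hs => (h.hasDerivAt (hg s hs).1).continuousAt.continuousWithinAt)
    (fun s hs => (h.hasDerivAt (hg s (interior_subset hs)).1).differentiableAt.differentiableWithinAt)
    (fun s hs => by
      rw [(h.hasDerivAt (hg s (interior_subset hs)).1).deriv]
      exact (hg s (interior_subset hs)).2)
    (left_mem_Icc.2 hab) (right_mem_Icc.2 hab) hab

/-- growth of a function along an orbit, lower bound -/
theorem le_growth (h : IsFlow X v φ) {g : X → ℝ} {a b m : ℝ} (hab : a ≤ b)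
    (hg : ∀ s ∈ Icc a b, SmAt X (vs ℝ) g (φ s x) ∧ m ≤ Df X (vs ℝ) g (φ s x) (v (φ s x))) :
    g (φ a x) + m * (b - a) ≤ g (φ b x) := by
  have := (convex_Icc a b).mul_sub_le_image_sub_of_le_deriv (f := fun s => g (φ s x)) (C := m)
    (fun s hs => (h.hasDerivAt (hg s hs).1).continuousAt.continuousWithinAt)
    (fun s hs => (h.hasDerivAt (hg s (interior_subset hs)).1).differentiableAt.differentiableWithinAt)
    (fun s hs => by
      rw [(h.hasDerivAt (hg s (interior_subset hs)).1).deriv]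
      exact (hg s (interior_subset hs)).2)
    a (left_mem_Icc.2 hab) b (right_mem_Icc.2 hab) hab
  linarith

/-- growth of a function along an orbit, upper bound -/
theorem growth_le (h : IsFlow X v φ) {g : X → ℝ} {a b m : ℝ} (hab : a ≤ b)
    (hg : ∀ s ∈ Icc a b, SmAt X (vs ℝ) g (φ s x) ∧ Df X (vs ℝ) g (φ s x) (v (φ s x)) ≤ m) :
    g (φ b x) ≤ g (φ a x) + m * (b - a) := by
  have := (convex_Icc a b).image_sub_le_mul_sub_of_deriv_le (f := fun s => g (φ s x)) (C := m)
    (fun s hs => (h.hasDerivAt (hg s hs).1).continuousAt.continuousWithinAt)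
    (fun s hs => (h.hasDerivAt (hg s (interior_subset hs)).1).differentiableAt.differentiableWithinAt)
    (fun s hs => by
      rw [(h.hasDerivAt (hg s (interior_subset hs)).1).deriv]
      exact (hg s (interior_subset hs)).2)
    a (left_mem_Icc.2 hab) b (right_mem_Icc.2 hab) hab
  linarith

end IsFlow

/-- flows on a vector space -/
theorem IsFlow.hasDerivAt_vs {v : E → E} {φ : ℝ → E → E} (h : IsFlow (vs E) v φ) (x : E) (t : ℝ) :
    HasDerivAt (fun s => φ s x) (v (φ t x)) t := ic_vs.1 (h.der x t)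

/-- a proper function with bounded derivative along the field gives a global flow -/
theorem exists_flow_proper (hv : ∀ x, VfAt X v x) {g : X → V} {C : ℝ}
    (hg : Sm X (vs V) g univ) (hp : ∀ R, IsCompact {x | ‖g x‖ ≤ R})
    (hC : ∀ x, ‖Df X (vs V) g x (v x)‖ ≤ C) : ∃ φ, IsFlow X v φ := by
  refine flowM E X v hv (Or.inr fun x T => ⟨_, hp (‖g x‖ + C * T), ?_⟩)
  intro c a b h1 h2 h3 h4 h5 h6 t ht
  have h0 : 0 ≤ C := (norm_nonneg _).trans (hC x)
  have k := (convex_Icc a b).norm_image_sub_le_of_norm_hasDerivWithin_le (C := C)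
    (fun s hs => ((h6 s hs).hasDerivAt (hg _ trivial)).hasDerivWithinAt) (fun _ _ => hC _)
    ⟨h2, h3⟩ ht
  rw [h5, sub_zero, Real.norm_eq_abs] at k
  have k1 : |t| ≤ T := abs_le.2 ⟨h1.trans ht.1, ht.2.trans h4⟩
  have k2 := norm_le_insert' (g (c t)) (g x)
  change ‖g (c t)‖ ≤ _
  linarith [mul_le_mul_of_nonneg_left k1 h0]

end Pool.Agent.MP_e1dc65_gt
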