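import Mathlib.Geometry.Manifold.BumpFunction
import Mathlib.Topology.MetricSpace.HausdorffDimension
import Pool.Agent.MP_e1dc65_gt.Spec0

/-! PROJECT HC, row REG: a small perturbation near a compact set makes a level regular. -/

open scoped ContDiff Manifold Topology
open Set Filter Function Module

noncomputable section

namespace Pool.Agent.MP_e1dc65_gt
namespace Reg

variable {E ι : Type} [NormedAddCommGroup E] [NormedSpace ℝ E] [FiniteDimensional ℝ E] [Fintype ι]
  {X : Mf E} {f : X → ℝ} {φ : ι → X → E} {U : Set X} (L : E →L[ℝ] E →L[ℝ] ℝ)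

/-- the perturbation with parameter `p` -/
def pt (φ : ι → X → E) (p : ι → E) (x : X) : ℝ := ∑ i, L (p i) (φ i x)

/-- the differential of the perturbed function in the chart at `z` -/
def dA (f : X → ℝ) (φ : ι → X → E) (z : X) (w : E × (ι → E)) : E →L[ℝ] ℝ :=
  fderiv ℝ (fun y => f ((ch X z).symm y)) w.1 +
    ∑ i, (L (w.2 i)).comp (fderiv ℝ (fun y => φ i ((ch X z).symm y)) w.1)

theorem pt_sm (hφ : ∀ i, Sm X (vs E) (φ i) univ) (p : ι → E) : Sm X (vs ℝ) (pt L φ p) univ :=
  fun x _ => ContMDiffAt.sum (t := Finset.univ) fun i _ =>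
    (hφ i x trivial).vcomp (L (p i)).contDiff.contDiffAt

theorem pt_cont (hφ : ∀ i, Sm X (vs E) (φ i) univ) :
    Continuous fun w : (ι → E) × X => pt L φ w.1 w.2 := by
  have := fun i => (hφ i).cont
  unfold pt; fun_prop

theorem cd_ch {V : Type} [NormedAddCommGroup V] [NormedSpace ℝ V] [FiniteDimensional ℝ V]
    {g : X → V} {z : X} {y : E} (hy : y ∈ (ch X z).target)
    (h : SmAt X (vs V) g ((ch X z).symm y)) : ContDiffAt ℝ ∞ (fun y => g ((ch X z).symm y)) y :=
  smAt_vs.1 ((smAt_ch_symm hy).trans h)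

theorem dA_sm (hf : Sm X (vs ℝ) f U) (hφ : ∀ i, Sm X (vs E) (φ i) univ) {z : X} {w : E × (ι → E)}
    (hy : w.1 ∈ (ch X z).target) (hU : (ch X z).symm w.1 ∈ U) : ContDiffAt ℝ 1 (dA L f φ z) w := by
  refine ContDiffAt.add (((cd_ch hy (hf _ hU)).fderiv_right (by norm_cast)).comp w contDiffAt_fst)
    (ContDiffAt.sum fun i _ => ContDiffAt.clm_comp (by fun_prop) ?_)
  exact ((cd_ch hy (hφ i _ trivial)).fderiv_right (by norm_cast)).comp w contDiffAt_fst

theorem Df_zero_iff (hf : Sm X (vs ℝ) f U) (hφ : ∀ i, Sm X (vs E) (φ i) univ) {z x : X}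
    (hx : x ∈ (ch X z).source) (hU : x ∈ U) (p : ι → E) :
    Df X (vs ℝ) (fun x => f x + pt L φ p x) x = 0 ↔ dA L f φ z (ch X z x, p) = 0 := by
  have hy := (ch X z).map_source hx
  have e0 := (ch X z).left_inv hx
  have hs : SmAt X (vs ℝ) (fun x => f x + pt L φ p x) ((ch X z).symm (ch X z x)) := by
    rw [e0]; exact ContMDiffAt.add (hf x hU) (pt_sm L hφ p x trivial)
  have h1 := Df_comp (smAt_ch_symm hy) hs
  have hd : HasFDerivAt (fun y => f ((ch X z).symm y) + pt L φ p ((ch X z).symm y))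
      (dA L f φ z (ch X z x, p)) (ch X z x) :=
    ((cd_ch hy (hf _ (by rwa [e0]))).differentiableAt (by simp)).hasFDerivAt.add
      (HasFDerivAt.fun_sum fun i _ => (L (p i)).hasFDerivAt.comp _
        ((cd_ch hy (hφ i _ trivial)).differentiableAt (by simp)).hasFDerivAt)
  rw [Df_vs, hd.fderiv, e0] at h1
  obtain ⟨M, hM⟩ := (ldAt_ch_symm hy).inv
  rw [h1, ← hM]
  refine ⟨fun h => by rw [h]; simp, fun h => ?_⟩
  ext v
  simpa using congrArg (fun T : E →L[ℝ] ℝ => T (M.symm v)) h

end Reg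
open Reg

theorem regval : RegStmt := by
  intro E _ _ _ X f K U a b δ hK hU hKU hf hab hδ hreg
  classical
  have := FiniteDimensional.proper_real E
  obtain ⟨L⟩ : Nonempty (E ≃L[ℝ] (E →L[ℝ] ℝ)) :=
    FiniteDimensional.nonempty_continuousLinearEquiv_of_finrank_eq (by
      rw [← (LinearMap.toContinuousLinearMap (𝕜 := ℝ) (E := E) (F' := ℝ)).finrank_eq]
      exact Subspace.dual_finrank_eq.symm)
  have hb : ∀ x : X, ∃ β : SmoothBumpFunction 𝓘(ℝ, E) x, x ∈ U → tsupport β ⊆ U := fun x => by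
    by_cases h : x ∈ U
    · obtain ⟨β, -, hβ⟩ := (SmoothBumpFunction.nhds_basis_tsupport (I := 𝓘(ℝ, E)) x).mem_iff.1
        (hU.mem_nhds h)
      exact ⟨β, fun _ => hβ⟩
    · exact ⟨Classical.arbitrary _, fun h' => absurd h' h⟩
  choose β hβ using hb
  obtain ⟨t, ht, hcov⟩ := hK.elim_nhds_subcover (fun x => interior {y | β x y = 1})
    fun x _ => interior_mem_nhds.2 (β x).eventuallyEq_one
  let φ : t → X → E := fun i y => β i y • ch X i y
  have hφ : ∀ i, Sm X (vs E) (φ i) univ := fun i =>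
    sm_univ.2 ((β i).contMDiff_smul contMDiffOn_chart)
  let V : t → Set X := fun i => interior {y | β i y = 1}
  have hV1 : ∀ i, ∀ y ∈ V i, β i y = 1 := fun i y hy => interior_subset (s := {y | β i y = 1}) hy
  have hV : ∀ i, V i ⊆ tsupport (β i) := fun i y hy =>
    subset_tsupport _ (by rw [mem_support, hV1 i y hy]; exact one_ne_zero)
  have hKV : ∀ x ∈ K, ∃ i, x ∈ V i := fun x hx => by
    obtain ⟨i, hi, h⟩ := mem_iUnion₂.1 (hcov hx); exact ⟨⟨i, hi⟩, h⟩
  have hTU : ∀ i : t, tsupport (β i) ⊆ U := fun i => hβ _ (hKU (ht _ i.2))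
  let K' : Set X := ⋃ i : t, tsupport (β i)
  have cK' : IsCompact K' := isCompact_iUnion fun i => (β i).hasCompactSupport
  have K'U : K' ⊆ U := iUnion_subset hTU
  let L' : E →L[ℝ] E →L[ℝ] ℝ := L
  have off : ∀ p, ∀ x ∉ K', pt L' φ p x = 0 := fun p x hx => Finset.sum_eq_zero fun i _ => by
    have : β i x = 0 := image_eq_zero_of_notMem_tsupport fun h => hx (mem_iUnion.2 ⟨i, h⟩)
    simp [φ, this]
  have p0 : ∀ x, pt L' φ 0 x = 0 := fun x => by simp [pt]
  have pc := pt_cont L' hφ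
  have ev1 : ∀ᶠ p in 𝓝 (0 : t → E), ∀ x ∈ K', |pt L' φ p x| < δ :=
    cK'.eventually_forall_of_forall_eventually fun x _ =>
      pc.abs.continuousAt.eventually_lt continuousAt_const (by simpa [p0] using hδ)
  have ev2 : ∀ᶠ p in 𝓝 (0 : t → E), ∀ x ∈ K' \ ⋃ i, V i, f x + pt L' φ p x ∈ Icc a b →
      Df X (vs ℝ) (fun x => f x + pt L' φ p x) x ≠ 0 := by
    refine (cK'.diff (isOpen_iUnion fun i => isOpen_interior)).eventually_forall_of_forall_eventually
      fun x hx => ?_
    have xU := K'U hx.1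
    by_cases h : f x ∈ Icc a b
    · have h0 := hreg x ⟨xU, fun h => hx.2 (mem_iUnion.2 (hKV x h))⟩ h
      have hs := mem_chart_source E x
      have h1 : dA L' f φ x (ch X x x, 0) ≠ 0 := by
        rw [Ne, ← Df_zero_iff L' hf hφ hs xU]; simpa [p0] using h0
      have c1 : ContinuousAt (fun w : (t → E) × X => (ch X x w.2, w.1)) (0, x) :=
        (((ch X x).continuousAt hs).comp_of_eq continuousAt_snd rfl).prodMk continuousAt_fst
      have c2 := (dA_sm L' hf hφ (z := x) (w := (ch X x x, 0)) ((ch X x).map_source hs)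
        (by rwa [(ch X x).left_inv hs])).continuousAt.comp_of_eq c1 rfl
      filter_upwards [c2.eventually_ne h1, continuousAt_snd.preimage_mem_nhds
        (inter_mem ((ch X x).open_source.mem_nhds hs) (hU.mem_nhds xU))] with w h2 h3 _
      rw [Ne, Df_zero_iff L' hf hφ h3.1 h3.2]; exact h2
    · have c1 : ContinuousAt (fun w : (t → E) × X => f w.2 + pt L' φ w.1 w.2) (0, x) :=
        ((hf x xU).cont.comp_of_eq continuousAt_snd rfl).add pc.continuousAt
      filter_upwards [c1.preimage_mem_nhds (isClosed_Icc.isOpen_compl.mem_nhds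
        (show f x + pt L' φ 0 x ∉ Icc a b by rwa [p0, add_zero]))] with w h2 h3
      exact absurd h3 h2
  let pq : t → (t → E) → t → E := fun j q => q - Pi.single j (L.symm (dA L' f φ j (q j, q)))
  let Ψ : t → (t → E) → (t → E) × ℝ := fun j q =>
    (pq j q, f ((ch X j).symm (q j)) + ∑ i, L' (pq j q i) (φ i ((ch X j).symm (q j))))
  let D : t → Set (t → E) := fun j => {q | q j ∈ (ch X j).target ∧ (ch X j).symm (q j) ∈ U}
  have dΨ : ∀ j, ∀ q ∈ D j, ContDiffAt ℝ 1 (Ψ j) q := fun j q hq => by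
    have c0 : ContDiffAt ℝ 1 (fun q : t → E => q j) q := by fun_prop
    have c1 : ContDiffAt ℝ 1 (fun q : t → E => dA L' f φ j (q j, q)) q :=
      ContDiffAt.comp (f := fun q : t → E => (q j, q)) q
        (dA_sm L' hf hφ (w := (q j, q)) hq.1 hq.2) (c0.prodMk contDiffAt_id)
    have c2 : ContDiffAt ℝ 1 (pq j) q := contDiffAt_id.sub
      ((ContinuousLinearMap.single ℝ (fun _ : t => E) j).contDiff.contDiffAt.comp q
        (L.symm.contDiff.contDiffAt.comp q c1))
    refine c2.prodMk ((((cd_ch hq.1 (hf _ hq.2)).of_le (by norm_cast)).comp q c0).add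
      (ContDiffAt.sum fun i _ => ContDiffAt.clm_apply ?_
        (((cd_ch hq.1 (hφ i _ trivial)).of_le (by norm_cast)).comp q c0)))
    exact L'.contDiff.contDiffAt.comp q (contDiffAt_pi.1 c2 i)
  have dn : Dense (⋃ j, Ψ j '' D j)ᶜ := by
    refine dense_compl_of_dimH_lt_finrank (lt_of_le_of_lt (b := (finrank ℝ (t → E) : ENNReal)) ?_ ?_)
    · rw [dimH_iUnion]
      refine iSup_le fun j => (dimH_image_le_of_locally_lipschitzOn fun q hq => ?_).trans
        ((dimH_mono (subset_univ _)).trans (Real.dimH_univ_eq_finrank _).le)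
      obtain ⟨C, s, hs, h⟩ := (dΨ j q hq).exists_lipschitzOnWith
      exact ⟨C, s, mem_nhdsWithin_of_mem_nhds hs, h⟩
    · rw [finrank_prod, finrank_self]; exact_mod_cast Nat.lt_succ_self _
  obtain ⟨⟨p, c⟩, hn, ⟨h1, h2⟩, hc⟩ := dn.inter_nhds_nonempty (x := (0, (a + b) / 2))
    (prod_mem_nhds (ev1.and ev2) (Ioo_mem_nhds (by linarith : a < (a + b) / 2)
      (by linarith : (a + b) / 2 < b)))
  simp only at h1 h2 hc
  refine ⟨pt L' φ p, c, K', cK', K'U, pt_sm L' hφ p, off p, fun x => ?_, hc, fun x hx e => ?_⟩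
  · by_cases h : x ∈ K'
    · exact (h1 x h).le
    · rw [off p x h, abs_zero]; exact hδ.le
  by_cases h : x ∈ ⋃ i, V i
  · obtain ⟨j, hj⟩ := mem_iUnion.1 h
    have hs : x ∈ (ch X j).source := (β j).tsupport_subset_chartAt_source (hV j hj)
    have hy := (ch X j).map_source hs
    have e0 := (ch X j).left_inv hs
    rw [Ne, Df_zero_iff L' hf hφ hs hx]
    intro h0
    set y := ch X j x
    have e1 : fderiv ℝ (fun y => φ j ((ch X j).symm y)) y = ContinuousLinearMap.id ℝ E := by
      rw [← fderiv_fun_id (x := y)]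
      refine EventuallyEq.fderiv_eq ?_
      filter_upwards [(ch X j).open_target.mem_nhds hy, ((ch X j).continuousAt_symm hy).preimage_mem_nhds
        (isOpen_interior.mem_nhds (show (ch X j).symm y ∈ V j by rwa [e0]))] with u h1 h2
      simp only [φ, hV1 j _ h2, one_smul, (ch X j).right_inv h1]
    have e2 : (p + Pi.single j (y - p j) : t → E) j = y := by simp
    have e3 : dA L' f φ j (y, p + Pi.single j (y - p j)) = L (y - p j) := by
      unfold dA at h0 ⊢
      simp only [Pi.add_apply, map_add, ContinuousLinearMap.add_comp, Finset.sum_add_distrib]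
      rw [← add_assoc, h0, zero_add, Finset.sum_eq_single j (fun i _ hi => by simp [hi]) (by simp)]
      simp [e1, L']
    have e4 : pq j (p + Pi.single j (y - p j)) = p := by simp only [pq, e2, e3]; simp
    refine hn (mem_iUnion.2 ⟨j, p + Pi.single j (y - p j), ⟨e2.symm ▸ hy, by rwa [e2, e0]⟩, ?_⟩)
    simp only [Ψ, e2, e4, e0]
    exact Prod.ext rfl e
  by_cases h' : x ∈ K'
  · exact h2 x ⟨h', h⟩ (by rw [e]; exact Ioo_subset_Icc_self hc)
  · rw [Df_congr (f' := f)]
    · rw [off p x h', add_zero] at e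
      exact hreg x ⟨hx, fun k => h (mem_iUnion.2 (hKV x k))⟩
        (by rw [e]; exact Ioo_subset_Icc_self hc)
    · filter_upwards [cK'.isClosed.isOpen_compl.mem_nhds h'] with u hu
      rw [off p u hu, add_zero]

end Pool.Agent.MP_e1dc65_gt
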